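import Pool.Agent.CHV.Defs

/-!
# CHV / Par: the parameters

`ℓ = -log (1-p) > 0`, `L = LL p n = log n / ℓ`, `S = SS p K n = ⌈2 L - 2 log L / ℓ⌉₊ + K`, `lam = lm p n = ⌊L/16⌋₊`,
`rr p K1 n m = ⌊2 log m / ℓ - 2 log L / ℓ⌋₊ - K1`.
PROOFS.  `L → ∞` (`tendsto_LL`), `log L / L → 0` (`Real.isLittleO_log_id_atTop`), `L^k / n^c → 0` for all `k`, `c > 0`
(`isLittleO_log_rpow_atTop`, `isLittleO_pow_log_id_atTop` after replacing `L` by `log n / ℓ`).
`SS_low`, `SS_up`: `Nat.le_ceil`, `Nat.ceil_lt_add_one` (`2 L - 2 log L / ℓ ≥ 0` for large `n`).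
`SS_le`: `2 log L / ℓ ≥ K + 1` for large `n`.  `SS_ge`: `2 log L / ℓ ≤ L`.
`lm_low`, `lm_up`: `Nat.floor_le`, `Nat.lt_floor_add_one`.
-/

set_option autoImplicit false

namespace Pool.Agent.CHV

open Filter

/-- Size of the independent sets in the set of vertices with `m` elements. -/
noncomputable def rr (p : ℝ) (K1 n m : ℕ) : ℕ :=
  ⌊2 * (Real.log m / (-Real.log (1 - p))) - 2 * (Real.log (LL p n) / (-Real.log (1 - p)))⌋₊ - K1

variable {p : ℝ}

theorem ell_pos (h0 : 0 < p) (h1 : p < 1) : 0 < -Real.log (1 - p) := by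
  have := Real.log_neg (by linarith : 0 < 1 - p) (by linarith)
  linarith

theorem tendsto_LL (h0 : 0 < p) (h1 : p < 1) : Tendsto (fun n : ℕ => LL p n) atTop atTop := by
  unfold LL
  exact (Real.tendsto_log_atTop.comp tendsto_natCast_atTop_atTop).atTop_div_const (ell_pos h0 h1)

/-- `log L` is small compared with `L` -/
theorem log_LL_le (h0 : 0 < p) (h1 : p < 1) {ε : ℝ} (hε : 0 < ε) :
    ∀ᶠ n : ℕ in atTop, Real.log (LL p n) ≤ ε * LL p n := by
  have h2 : ∀ᶠ x : ℝ in atTop, Real.log x ≤ ε * x := by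
    have := Real.isLittleO_log_id_atTop.def hε
    filter_upwards [this, eventually_ge_atTop (0 : ℝ)] with x hx hx0
    have h3 := le_trans (le_abs_self _) hx
    simp only [id, Real.norm_eq_abs, abs_of_nonneg hx0] at h3
    exact h3
  exact (tendsto_LL h0 h1).eventually h2

/-- powers of `L` are small compared with powers of `n` -/
theorem LL_pow_le (h0 : 0 < p) (h1 : p < 1) (k : ℕ) (C : ℝ) {c : ℝ} (hc : 0 < c) :
    ∀ᶠ n : ℕ in atTop, C * LL p n ^ k ≤ (n : ℝ) ^ c := by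
  have hl := ell_pos h0 h1
  set l := -Real.log (1 - p) with hldef
  have hD : 0 < |C| / l ^ k + 1 := by positivity
  have h2 : ∀ᶠ x : ℝ in atTop, Real.log x ^ (k : ℝ) ≤ (|C| / l ^ k + 1)⁻¹ * x ^ c := by
    have := (isLittleO_log_rpow_rpow_atTop (k : ℝ) hc).def (inv_pos.2 hD)
    filter_upwards [this, eventually_ge_atTop (1 : ℝ)] with x hx hx1
    have h3 := le_trans (le_abs_self _) hx
    rwa [Real.norm_eq_abs, abs_of_nonneg (Real.rpow_nonneg (by linarith) _)] at h3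
  filter_upwards [tendsto_natCast_atTop_atTop.eventually h2, eventually_ge_atTop 1] with n hn hn1
  have hlog : 0 ≤ Real.log (n : ℝ) := Real.log_nonneg (by exact_mod_cast hn1)
  rw [Real.rpow_natCast] at hn
  have hn0 : (0 : ℝ) ≤ (n : ℝ) ^ c := Real.rpow_nonneg (Nat.cast_nonneg _) _
  have e1 : LL p n ^ k = Real.log n ^ k / l ^ k := by
    unfold LL
    rw [div_pow]
  rw [e1]
  have h4 : C * (Real.log n ^ k / l ^ k) ≤ |C| / l ^ k * Real.log n ^ k := by
    have h5 : C ≤ |C| := le_abs_self C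
    have h6 : 0 ≤ Real.log n ^ k / l ^ k := by positivity
    calc C * (Real.log n ^ k / l ^ k) ≤ |C| * (Real.log n ^ k / l ^ k) :=
          mul_le_mul_of_nonneg_right h5 h6
      _ = |C| / l ^ k * Real.log n ^ k := by ring
  have h7 : |C| / l ^ k * Real.log n ^ k ≤ (|C| / l ^ k + 1) * Real.log n ^ k := by
    apply mul_le_mul_of_nonneg_right _ (pow_nonneg hlog _)
    linarith
  have h8 : (|C| / l ^ k + 1) * Real.log n ^ k ≤ (n : ℝ) ^ c := by
    calc (|C| / l ^ k + 1) * Real.log n ^ k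
        ≤ (|C| / l ^ k + 1) * ((|C| / l ^ k + 1)⁻¹ * (n : ℝ) ^ c) :=
          mul_le_mul_of_nonneg_left hn hD.le
      _ = (n : ℝ) ^ c := by
          rw [← mul_assoc, mul_inv_cancel₀ hD.ne', one_mul]
  linarith

theorem SS_low (h0 : 0 < p) (h1 : p < 1) (K : ℕ) : ∀ᶠ n : ℕ in atTop,
    2 * LL p n - 2 * (Real.log (LL p n) / (-Real.log (1 - p))) + K ≤ (SS p K n : ℝ) := by
  refine Eventually.of_forall (fun n => ?_)
  unfold SS
  push_cast
  have := Nat.le_ceil (2 * LL p n - 2 * (Real.log (LL p n) / (-Real.log (1 - p))))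
  linarith

private theorem logL_div_le (h0 : 0 < p) (h1 : p < 1) : ∀ᶠ n : ℕ in atTop,
    2 * (Real.log (LL p n) / (-Real.log (1 - p))) ≤ LL p n := by
  have hl := ell_pos h0 h1
  filter_upwards [log_LL_le h0 h1 (ε := (-Real.log (1 - p)) / 2) (by linarith)] with n hn
  have h2 : Real.log (LL p n) / (-Real.log (1 - p)) ≤ LL p n / 2 := by
    rw [div_le_iff₀ hl]
    linarith
  linarith

theorem SS_up (h0 : 0 < p) (h1 : p < 1) (K : ℕ) : ∀ᶠ n : ℕ in atTop,
    (SS p K n : ℝ) ≤ 2 * LL p n - 2 * (Real.log (LL p n) / (-Real.log (1 - p))) + K + 1 := by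
  filter_upwards [logL_div_le h0 h1, (tendsto_LL h0 h1).eventually_ge_atTop 0] with n hn hL
  unfold SS
  push_cast
  have h2 : 0 ≤ 2 * LL p n - 2 * (Real.log (LL p n) / (-Real.log (1 - p))) := by linarith
  have := Nat.ceil_lt_add_one h2
  linarith

theorem SS_le (h0 : 0 < p) (h1 : p < 1) (K : ℕ) : ∀ᶠ n : ℕ in atTop,
    (SS p K n : ℝ) ≤ 2 * LL p n := by
  have hl := ell_pos h0 h1
  have h3 : ∀ᶠ n : ℕ in atTop, (K + 1 : ℝ) * (-Real.log (1 - p)) ≤ Real.log (LL p n) :=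
    (Real.tendsto_log_atTop.comp (tendsto_LL h0 h1)).eventually_ge_atTop _
  filter_upwards [SS_up h0 h1 K, h3] with n hn h4
  have h5 : (K + 1 : ℝ) ≤ Real.log (LL p n) / (-Real.log (1 - p)) := by
    rw [le_div_iff₀ hl]
    exact h4
  have hK : (0 : ℝ) ≤ K := Nat.cast_nonneg _
  linarith

theorem SS_ge (h0 : 0 < p) (h1 : p < 1) (K : ℕ) : ∀ᶠ n : ℕ in atTop,
    LL p n ≤ (SS p K n : ℝ) := by
  filter_upwards [SS_low h0 h1 K, logL_div_le h0 h1] with n hn h4
  have hK : (0 : ℝ) ≤ K := Nat.cast_nonneg _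
  linarith

theorem lm_up (h0 : 0 < p) (h1 : p < 1) : ∀ᶠ n : ℕ in atTop, (lm p n : ℝ) ≤ LL p n / 16 := by
  filter_upwards [(tendsto_LL h0 h1).eventually_ge_atTop 0] with n hL
  unfold lm
  exact Nat.floor_le (by positivity)

theorem lm_low (h0 : 0 < p) (h1 : p < 1) : ∀ᶠ n : ℕ in atTop, LL p n / 17 ≤ (lm p n : ℝ) := by
  filter_upwards [(tendsto_LL h0 h1).eventually_ge_atTop 300] with n hL
  unfold lm
  have := Nat.lt_floor_add_one (LL p n / 16)
  linarith

end Pool.Agent.CHV
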