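import Pool.Agent.CHV.ExR

/-!
# CHV / Glu: glueing of configurations and conditional expectations

PROOFS.  `Ex_swap`: write both sides as sums over pairs `(x, y)` with weight `∏ bw p (x i) * bw p (y i)`; the map
`(x, y) ↦ (glue S x y, glue S y x)` is an involution of the set of pairs and preserves the weight
(`Finset.sum_bij` / `Equiv.sum_comp` with an `Equiv` built from an involution, `Finset.prod_mul_distrib`).
`Ex_glue`: `Ex_swap` with `H a b = F a` and `Ex_const`.
`CE_CE`: `CE p S (CE p T F) x = Ex_y Ex_z F (glue T (glue S x y) z)`; for `S ⊆ T` `glue T (glue S x y) z = glue S x (glue T y z)`;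
use `Ex_glue` for the set `T` and the function `u ↦ F (glue S x u)`.
`Ex_CE_sq`: `(Ex_y a(y))^2 = Ex_y Ex_z a(y) a(z)`.
`CE_dd`: for `i ∈ S`: `glue S (update x i b) y = update (glue S x y) i b`.
`CE_indep_bit`: for `i ∉ S`: `glue S (update x i b) y = glue S x y`.
`CE_step`, `i ∉ S`: put `u b x = Ex_y F (update (glue S x y) i b)`.  It does not depend on the bit `i` of `x`.
`CE p (insert i S) F x = u (x i) x`, `CE p S F x = p u true x + (1 - p) u false x` (`Ex_update` for `y`),
`CE p S (dd i F) x = u true x - u false x`.  By `Ex_update` (for `x`), the left-hand side is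
`Ex (p (u true)^2 + (1-p) (u false)^2 - (p u true + (1-p) u false)^2) = p (1-p) Ex (u true - u false)^2`.
`dd_update`: `dd i F` does not depend on the bit `i`.  `dd_dd`: commutativity (`Function.update_comm`).
`Ex_bit_false`: `Ex_update` at `i` for the function `x ↦ ind (x i = false) * F x`, `F` not depending on the bit `i`.
-/

set_option autoImplicit false

namespace Pool.Agent.CHV

open Finset

variable {ι : Type} [Fintype ι] [DecidableEq ι] {p : ℝ}

private theorem glu_ExEx (H : (ι → Bool) → (ι → Bool) → ℝ) :
    Ex p (fun x => Ex p (fun y => H x y)) =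
      ∑ x : ι → Bool, ∑ y : ι → Bool, ((∏ i, bw p (x i)) * (∏ i, bw p (y i))) * H x y := by
  unfold Ex
  refine Finset.sum_congr rfl fun x _ => ?_
  rw [Finset.mul_sum]
  refine Finset.sum_congr rfl fun y _ => ?_
  rw [mul_assoc]

omit [Fintype ι] in
private theorem glu_update_mem {S : Finset ι} {i : ι} (hi : i ∈ S) (x y : ι → Bool) (b : Bool) :
    glue S (Function.update x i b) y = Function.update (glue S x y) i b := by
  funext j
  by_cases hj : j = i
  · subst hj
    simp [glue, hi]
  · simp [glue, hj]

omit [Fintype ι] in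
private theorem glu_update_not_mem {S : Finset ι} {i : ι} (hi : i ∉ S) (x y : ι → Bool)
    (b : Bool) : glue S (Function.update x i b) y = glue S x y := by
  funext j
  by_cases hj : j = i
  · subst hj
    simp [glue, hi]
  · simp [glue, hj]

omit [Fintype ι] in
private theorem glu_update_right {S : Finset ι} {i : ι} (hi : i ∉ S) (x y : ι → Bool)
    (b : Bool) : glue S x (Function.update y i b) = Function.update (glue S x y) i b := by
  funext j
  by_cases hj : j = i
  · subst hj
    simp [glue, hi]
  · simp [glue, hj]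

omit [Fintype ι] in
private theorem glu_insert {S : Finset ι} {i : ι} (x y : ι → Bool) :
    glue (insert i S) x y = Function.update (glue S x y) i (x i) := by
  funext j
  by_cases hj : j = i
  · subst hj
    simp [glue]
  · simp [glue, hj]

theorem Ex_swap (S : Finset ι) (H : (ι → Bool) → (ι → Bool) → ℝ) :
    Ex p (fun x => Ex p (fun y => H (glue S x y) (glue S y x))) =
      Ex p (fun x => Ex p (fun y => H x y)) := by
  rw [glu_ExEx, glu_ExEx H, ← Fintype.sum_prod_type',
    ← Fintype.sum_prod_type']
  have hinv : Function.Involutive (fun q : (ι → Bool) × (ι → Bool) =>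
      (glue S q.1 q.2, glue S q.2 q.1)) := by
    rintro ⟨x, y⟩
    refine Prod.ext ?_ ?_
    · funext i
      by_cases hi : i ∈ S <;> simp [glue, hi]
    · funext i
      by_cases hi : i ∈ S <;> simp [glue, hi]
  refine Fintype.sum_equiv hinv.toPerm _ _ ?_
  rintro ⟨x, y⟩
  change ((∏ i, bw p (x i)) * (∏ i, bw p (y i))) * H (glue S x y) (glue S y x) =
    ((∏ i, bw p (glue S x y i)) * (∏ i, bw p (glue S y x i))) * H (glue S x y) (glue S y x)
  congr 1
  rw [← Finset.prod_mul_distrib, ← Finset.prod_mul_distrib]
  refine Finset.prod_congr rfl fun i _ => ?_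
  by_cases hi : i ∈ S
  · simp [glue, hi]
  · simp [glue, hi, mul_comm]

theorem Ex_glue (S : Finset ι) (F : (ι → Bool) → ℝ) :
    Ex p (fun x => Ex p (fun y => F (glue S x y))) = Ex p F := by
  rw [Ex_swap S (fun a _ => F a)]
  simp only [Ex_const]

theorem Ex_CE (S : Finset ι) (F : (ι → Bool) → ℝ) : Ex p (CE p S F) = Ex p F := by
  unfold CE
  exact Ex_glue S F

theorem CE_CE {S T : Finset ι} (h : S ⊆ T) (F : (ι → Bool) → ℝ) (x : ι → Bool) :
    CE p S (CE p T F) x = CE p S F x := by
  unfold CE
  have h1 : ∀ y z : ι → Bool, glue T (glue S x y) z = glue S x (glue T y z) := by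
    intro y z
    funext i
    by_cases hi : i ∈ S
    · simp [glue, hi, h hi]
    · by_cases hi' : i ∈ T <;> simp [glue, hi, hi']
  simp only [h1]
  exact Ex_glue T (fun u => F (glue S x u))

theorem CE_univ (F : (ι → Bool) → ℝ) (x : ι → Bool) : CE p Finset.univ F x = F x := by
  unfold CE
  have h1 : ∀ y : ι → Bool, glue Finset.univ x y = x := by
    intro y
    funext i
    simp [glue]
  simp only [h1]
  exact Ex_const _

theorem CE_empty (F : (ι → Bool) → ℝ) (x : ι → Bool) : CE p ∅ F x = Ex p F := by
  unfold CE
  have h1 : ∀ y : ι → Bool, glue ∅ x y = y := by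
    intro y
    funext i
    simp [glue]
  simp only [h1]

theorem Ex_CE_sq (S : Finset ι) (F : (ι → Bool) → ℝ) :
    Ex p (fun x => CE p S F x ^ 2) =
      Ex p (fun x => Ex p (fun y => Ex p (fun z => F (glue S x y) * F (glue S x z)))) := by
  congr 1
  funext x
  have h1 : ∀ y : ι → Bool, Ex p (fun z => F (glue S x y) * F (glue S x z)) =
      CE p S F x * F (glue S x y) := by
    intro y
    rw [Ex_smul (F (glue S x y)) (fun z => F (glue S x z)), mul_comm]
    rfl
  simp only [h1]
  rw [Ex_smul (CE p S F x) (fun y => F (glue S x y)), sq]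
  rfl

theorem CE_dd {S : Finset ι} {i : ι} (hi : i ∈ S) (F : (ι → Bool) → ℝ) (x : ι → Bool) :
    dd i (CE p S F) x = CE p S (dd i F) x := by
  unfold dd CE
  rw [← Ex_sub]
  simp only [glu_update_mem hi]

theorem CE_indep_bit {S : Finset ι} {i : ι} (hi : i ∉ S) (F : (ι → Bool) → ℝ) (x : ι → Bool)
    (b : Bool) : CE p S F (Function.update x i b) = CE p S F x := by
  unfold CE
  simp only [glu_update_not_mem hi]

theorem dd_CE_of_not_mem {S : Finset ι} {i : ι} (hi : i ∉ S) (F : (ι → Bool) → ℝ)
    (x : ι → Bool) : dd i (CE p S F) x = 0 := by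
  unfold dd
  rw [CE_indep_bit hi, CE_indep_bit hi, sub_self]

theorem dd_update (i : ι) (F : (ι → Bool) → ℝ) (x : ι → Bool) (b : Bool) :
    dd i F (Function.update x i b) = dd i F x := by
  unfold dd
  rw [Function.update_idem, Function.update_idem]

theorem dd_dd (i j : ι) (F : (ι → Bool) → ℝ) (x : ι → Bool) :
    dd i (dd j F) x = dd j (dd i F) x := by
  by_cases hij : i = j
  · subst hij
    rfl
  · unfold dd
    rw [Function.update_comm hij, Function.update_comm hij, Function.update_comm hij,
      Function.update_comm hij]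
    ring

theorem CE_step {S : Finset ι} {i : ι} (hi : i ∉ S) (F : (ι → Bool) → ℝ) :
    Ex p (fun x => CE p (insert i S) F x ^ 2) - Ex p (fun x => CE p S F x ^ 2) =
      p * (1 - p) * Ex p (fun x => CE p S (dd i F) x ^ 2) := by
  obtain ⟨u, hu⟩ : ∃ u : Bool → (ι → Bool) → ℝ, u = fun b x =>
    Ex p (fun y => F (Function.update (glue S x y) i b)) := ⟨_, rfl⟩
  have ha : ∀ x, CE p (insert i S) F x = u (x i) x := by
    intro x
    rw [hu]
    unfold CE
    simp only [glu_insert]
  have hb : ∀ x, CE p S F x = p * u true x + (1 - p) * u false x := by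
    intro x
    rw [hu]
    unfold CE
    rw [Ex_update i (fun y => F (glue S x y))]
    simp only [glu_update_right hi]
  have hc : ∀ x, CE p S (dd i F) x = u true x - u false x := by
    intro x
    rw [hu]
    unfold CE dd
    rw [Ex_sub]
  have hd : ∀ b b' x, u b (Function.update x i b') = u b x := by
    intro b b' x
    rw [hu]
    simp only [glu_update_not_mem hi]
  rw [Ex_update i (fun x => CE p (insert i S) F x ^ 2)]
  simp only [ha, hb, hc, hd, Function.update_self]
  rw [← Ex_smul, ← Ex_smul, ← Ex_add, ← Ex_sub, ← Ex_smul]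
  congr 1
  funext x
  ring

theorem Ex_bit_false (i : ι) (F : (ι → Bool) → ℝ)
    (hF : ∀ x b, F (Function.update x i b) = F x) :
    Ex p (fun x => ind (x i = false) * F x) = (1 - p) * Ex p F := by
  rw [Ex_update i (fun x => ind (x i = false) * F x)]
  have h1 : ind ((true : Bool) = false) = 0 := ind_false (by simp)
  have h3 : ind True = 1 := ind_true trivial
  simp only [Function.update_self, hF]
  rw [h1]
  simp only [h3, zero_mul, one_mul, Ex_const, mul_zero, zero_add]

end Pool.Agent.CHV
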