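import Pool.Agent.CHV.Defs

/-!
# CHV / Grf: elementary facts on pairs, independent sets, prefixes

PROOFS.  `mem_prs`: `Finset.mk_mem_sym2_iff`, `Sym2.mk_isDiag_iff`.  `card_prs`: `Finset.card_sym2` and the diagonal, or
`Sym2.card_image_offDiag` (`prs I = I.offDiag.image Sym2.mk`).  The other ones follow from `mem_prs` with `Sym2.ind`.
`mem_nw`: `e = s(u, v)`, both `≤ j` and not both `< j`.
-/

set_option autoImplicit false

namespace Pool.Agent.CHV

open Finset

variable {n : ℕ}

theorem mem_prs {I : Finset (Fin n)} {u v : Fin n} :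
    s(u, v) ∈ prs I ↔ u ∈ I ∧ v ∈ I ∧ u ≠ v := by
  unfold prs
  rw [Finset.mem_filter, Finset.mk_mem_sym2_iff, Sym2.mk_isDiag_iff, and_assoc]

theorem card_prs (I : Finset (Fin n)) : (prs I).card = I.card.choose 2 := by
  have h : prs I = I.offDiag.image Sym2.mk.uncurry := by
    ext e
    induction e using Sym2.ind with
    | _ u v =>
      rw [mem_prs, Finset.mem_image]
      constructor
      · rintro ⟨h1, h2, h3⟩
        exact ⟨(u, v), Finset.mem_offDiag.2 ⟨h1, h2, h3⟩, rfl⟩
      · rintro ⟨⟨a, b⟩, h1, h2⟩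
        obtain ⟨h3, h4, h5⟩ := Finset.mem_offDiag.1 h1
        have h6 : s(a, b) = s(u, v) := h2
        rw [Sym2.eq_iff] at h6
        rcases h6 with ⟨rfl, rfl⟩ | ⟨rfl, rfl⟩
        · exact ⟨h3, h4, h5⟩
        · exact ⟨h4, h3, Ne.symm h5⟩
  rw [h]
  exact Sym2.card_image_offDiag I

theorem prs_mono {I J : Finset (Fin n)} (h : I ⊆ J) : prs I ⊆ prs J := by
  intro e
  induction e using Sym2.ind with
  | _ u v =>
    rw [mem_prs, mem_prs]
    rintro ⟨h1, h2, h3⟩
    exact ⟨h h1, h h2, h3⟩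

theorem prs_inter (I J : Finset (Fin n)) : prs I ∩ prs J = prs (I ∩ J) := by
  ext e
  induction e using Sym2.ind with
  | _ u v =>
    rw [Finset.mem_inter, mem_prs, mem_prs, mem_prs, Finset.mem_inter, Finset.mem_inter]
    tauto

private theorem prs_sub {I J : Finset (Fin n)} (hI : 2 ≤ I.card) (h : prs I ⊆ prs J) : I ⊆ J := by
  intro u hu
  obtain ⟨v, hv, hvu⟩ := Finset.exists_mem_ne (by omega : 1 < I.card) u
  have h1 : s(u, v) ∈ prs J := h (mem_prs.2 ⟨hu, hv, Ne.symm hvu⟩)
  exact (mem_prs.1 h1).1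

/-- sets with at least two elements are determined by their pairs -/
theorem prs_inj {I J : Finset (Fin n)} (hI : 2 ≤ I.card) (h : prs I = prs J) : I = J := by
  have h1 : J.card.choose 2 = I.card.choose 2 := by rw [← card_prs, ← card_prs, h]
  have h2 : 2 ≤ J.card := by
    by_contra hc
    have h3 : J.card.choose 2 = 0 := Nat.choose_eq_zero_of_lt (by omega)
    have h4 : 0 < I.card.choose 2 := Nat.choose_pos hI
    omega
  exact Finset.Subset.antisymm (prs_sub hI h.subset) (prs_sub h2 h.symm.subset)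

theorem card_prs_union (I J : Finset (Fin n)) :
    (prs I ∪ prs J).card + (I ∩ J).card.choose 2 = I.card.choose 2 + J.card.choose 2 := by
  rw [← card_prs (I ∩ J), ← prs_inter, Finset.card_union_add_card_inter, card_prs, card_prs]

theorem prs_disjoint_iff (I J : Finset (Fin n)) :
    ¬ Disjoint (prs I) (prs J) ↔ 2 ≤ (I ∩ J).card := by
  rw [Finset.disjoint_iff_inter_eq_empty, prs_inter, ← Finset.card_eq_zero, card_prs,
    Nat.choose_eq_zero_iff]
  omega

theorem Ind_iff {x : Cf n} {I : Finset (Fin n)} :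
    Ind x I ↔ ∀ u ∈ I, ∀ v ∈ I, u ≠ v → x s(u, v) = false := by
  unfold Ind
  constructor
  · intro h u hu v hv huv
    exact h _ (mem_prs.2 ⟨hu, hv, huv⟩)
  · intro h e
    induction e using Sym2.ind with
    | _ u v =>
      intro he
      obtain ⟨h1, h2, h3⟩ := mem_prs.1 he
      exact h u h1 v h2 h3

theorem Ind_mono {x : Cf n} {I J : Finset (Fin n)} (h : Ind x J) (hIJ : I ⊆ J) : Ind x I := by
  exact fun e he => h e (prs_mono hIJ he)

theorem gr_adj {x : Cf n} {u v : Fin n} : (gr x).Adj u v ↔ x s(u, v) = true ∧ u ≠ v := by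
  unfold gr
  rw [SimpleGraph.fromEdgeSet_adj]
  rfl

theorem mem_pre {j : ℕ} {v : Fin n} : v ∈ pre n j ↔ v.val < j := by
  unfold pre
  rw [Finset.mem_filter]
  exact ⟨fun h => h.2, fun h => ⟨Finset.mem_univ _, h⟩⟩

theorem pre_mono {i j : ℕ} (h : i ≤ j) : pre n i ⊆ pre n j := by
  intro v hv
  rw [mem_pre] at hv ⊢
  omega

theorem mem_nw {j : ℕ} (hj : j < n) {e : Sym2 (Fin n)} :
    e ∈ nw n j ↔ ∃ u : Fin n, u.val ≤ j ∧ e = s(u, ⟨j, hj⟩) := by
  induction e using Sym2.ind with
  | _ a b =>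
    unfold nw
    rw [Finset.mem_sdiff, Finset.mk_mem_sym2_iff, Finset.mk_mem_sym2_iff, mem_pre, mem_pre,
      mem_pre, mem_pre]
    constructor
    · rintro ⟨⟨h1, h2⟩, h3⟩
      by_cases hb : b.val < j
      · have ha : a.val = j := by
          by_contra hc
          exact h3 ⟨by omega, hb⟩
        refine ⟨b, by omega, ?_⟩
        have : a = ⟨j, hj⟩ := Fin.ext ha
        rw [this]
        exact Sym2.eq_swap
      · refine ⟨a, by omega, ?_⟩
        have : b = ⟨j, hj⟩ := Fin.ext (by simp only; omega)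
        rw [this]
    · rintro ⟨u, hu, h⟩
      rw [Sym2.eq_iff] at h
      rcases h with ⟨rfl, rfl⟩ | ⟨rfl, rfl⟩
      · simp only
        omega
      · simp only
        omega

theorem mem_UP {P : Finset (Finset (Fin n))} {e : Sym2 (Fin n)} :
    e ∈ UP P ↔ ∃ I ∈ P, e ∈ prs I := by
  unfold UP
  exact Finset.mem_biUnion

end Pool.Agent.CHV
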