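import Pool.Agent.CHV.Nin
import Pool.Agent.CHV.Par

/-!
# CHV / Sml: all sets of `n^(1/4)` vertices contain an independent set of size `lam + 1`

`ℓ = -log (1-p)`, `b = 1/(1-p) = e^ℓ`, `L = LL p n`, `lam = lm p n ≤ L/16`, so `b^(lam/2) ≤ n^(1/32)`; `m0 = ⌈n^(1/4)⌉₊`.
PROOF.  It suffices to treat `M` with `|M| = m0` (take a subset of this size).  `r = lam + 1`, `2 ≤ r ≤ m0`, `τ = r^4 b / m0^2`.
For `2 ≤ j ≤ r`: `T_j = C(r,j) (r/m0)^j b^C(j,2) ≤ (r^2 b^((j-1)/2) / m0)^j`.  `j = 2`: `T_2 ≤ τ` (`C(r,2) ≤ r^2`, `b^1`).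
`j ≥ 3`: `b^((j-1)/2) ≤ n^(1/32)` and `T_j ≤ (r^2 n^(1/32 - 1/4))^3 = r^6 n^(-21/32) ≤ τ`, since `m0 ≤ 2 n^(1/4)`,
`τ ≥ r^4 b / (4 n^(1/2))` and `4 r^2 ≤ n^(21/32 - 1/2)`.
`no_ind_union` with `𝓜 = univ.powersetCard m0`, `|𝓜| = C(n, m0) ≤ n^m0 ≤ exp (2 n^(1/4) log n)`,
`1 / (2 r τ) = m0^2 / (2 r^5 b) ≥ n^(1/2) / (2 r^5 b) ≥ 2 n^(1/4) log n + 2 log n`.
-/

set_option autoImplicit false

namespace Pool.Agent.CHV

open Filter Finset

variable {p : ℝ}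

/-- the terms of the second moment sum -/
theorem sml_term_le {b X : ℝ} (hb : 1 ≤ b) (hX : 0 ≤ X) {r j : ℕ} (hj : 2 ≤ j) (hjr : j ≤ r)
    (h : X * b ^ r ≤ 1) : X ^ j * b ^ (j.choose 2) ≤ X ^ 2 * b := by
  obtain ⟨i, rfl⟩ : ∃ i, j = i + 2 := ⟨j - 2, by omega⟩
  have hc : (i + 2).choose 2 ≤ 1 + (i + 2) * i := by
    rw [Nat.choose_two_right]
    have h1 : (i + 2) * (i + 2 - 1) = (i + 2) * (i + 1) := by rw [show i + 2 - 1 = i + 1 by omega]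
    rw [h1]
    apply Nat.div_le_of_le_mul
    nlinarith
  have h0 : 0 ≤ b := by linarith
  calc X ^ (i + 2) * b ^ ((i + 2).choose 2) ≤ X ^ (i + 2) * b ^ (1 + (i + 2) * i) :=
        mul_le_mul_of_nonneg_left (pow_le_pow_right₀ hb hc) (by positivity)
    _ = X ^ 2 * b * (X * b ^ (i + 2)) ^ i := by
        rw [mul_pow, ← pow_mul]; ring
    _ ≤ X ^ 2 * b * 1 := by
        apply mul_le_mul_of_nonneg_left _ (by positivity)
        apply pow_le_one₀ (by positivity)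
        exact (mul_le_mul_of_nonneg_left (pow_le_pow_right₀ hb hjr) hX).trans h
    _ = X ^ 2 * b := mul_one _

theorem small_ind (h0 : 0 < p) (h1 : p < 1) : ∀ᶠ n : ℕ in atTop,
    Ex p (fun x : Cf n => ind (¬ ∀ M : Finset (Fin n), ⌈(n : ℝ) ^ (1 / 4 : ℝ)⌉₊ ≤ M.card →
      ∃ I ⊆ M, Ind x I ∧ I.card = lm p n + 1)) ≤ 1 / (n : ℝ) ^ 2 := by
  have hl : 0 < -Real.log (1 - p) := ell_pos h0 h1
  obtain ⟨b, hb⟩ : ∃ b, b = 1 / (1 - p) := ⟨_, rfl⟩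
  have hq : 0 < 1 - p := by linarith
  have hb0 : 0 < b := by rw [hb]; positivity
  have hb1 : 1 ≤ b := by
    rw [hb, le_div_iff₀ hq]; linarith
  have hbe : b = Real.exp (-Real.log (1 - p)) := by
    rw [Real.exp_neg, Real.exp_log hq, hb, one_div]
  filter_upwards [lm_up h0 h1, lm_low h0 h1, (tendsto_LL h0 h1).eventually_ge_atTop 17,
    LL_pow_le h0 h1 2 b (c := 1 / 8) (by norm_num),
    LL_pow_le h0 h1 6 (6 * b * (-Real.log (1 - p))) (c := 1 / 4) (by norm_num),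
    LL_pow_le h0 h1 1 1 (c := 1 / 4) (by norm_num), eventually_ge_atTop 2]
    with n hup hlow hL hL2 hL6 hL1 hn
  have hn0 : (0 : ℝ) < n := by positivity
  have hn1 : (1 : ℝ) ≤ n := by exact_mod_cast (show 1 ≤ n by omega)
  have hlog : Real.log n = LL p n * (-Real.log (1 - p)) := by
    unfold LL; rw [div_mul_cancel₀ _ hl.ne']
  obtain ⟨L, hLd⟩ : ∃ L, L = LL p n := ⟨_, rfl⟩
  obtain ⟨r, hr⟩ : ∃ r, r = lm p n + 1 := ⟨_, rfl⟩
  obtain ⟨m0, hm0⟩ : ∃ m0, m0 = ⌈(n : ℝ) ^ (1 / 4 : ℝ)⌉₊ := ⟨_, rfl⟩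
  obtain ⟨l, hld⟩ : ∃ l, l = -Real.log (1 - p) := ⟨_, rfl⟩
  rw [← hLd] at hup hlow hL hL2 hL6 hL1 hlog
  rw [← hld] at hl hbe hL6 hlog
  have hlm : (1 : ℝ) ≤ lm p n := by linarith
  have hlm' : 1 ≤ lm p n := by exact_mod_cast hlm
  have hr2 : 2 ≤ r := by omega
  have hrc : (r : ℝ) = lm p n + 1 := by rw [hr]; push_cast; ring
  have hrL : (r : ℝ) ≤ L := by rw [hrc]; linarith
  have hr0 : (0 : ℝ) < r := by positivity
  have hm0' : (n : ℝ) ^ (1 / 4 : ℝ) ≤ m0 := by rw [hm0]; exact Nat.le_ceil _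
  have hmL : L ≤ m0 := by
    rw [one_mul, pow_one] at hL1; linarith
  have hrm : r ≤ m0 := by exact_mod_cast hrL.trans hmL
  have hm00 : (0 : ℝ) < m0 := by linarith
  -- b ^ r ≤ b * n ^ (1/16)
  have hbr : b ^ r ≤ b * (n : ℝ) ^ (1 / 16 : ℝ) := by
    rw [hr, pow_succ, mul_comm]
    apply mul_le_mul_of_nonneg_left _ hb0.le
    rw [hbe, ← Real.exp_nat_mul, Real.rpow_def_of_pos hn0]
    apply Real.exp_le_exp.mpr
    rw [hlog]
    nlinarith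
  have hX : (r : ℝ) ^ 2 / m0 * b ^ r ≤ 1 := by
    rw [div_mul_eq_mul_div, div_le_one hm00]
    calc (r : ℝ) ^ 2 * b ^ r ≤ L ^ 2 * (b * (n : ℝ) ^ (1 / 16 : ℝ)) := by gcongr
      _ = b * L ^ 2 * (n : ℝ) ^ (1 / 16 : ℝ) := by ring
      _ ≤ (n : ℝ) ^ (1 / 8 : ℝ) * (n : ℝ) ^ (1 / 16 : ℝ) := by gcongr
      _ = (n : ℝ) ^ (1 / 8 + 1 / 16 : ℝ) := by rw [← Real.rpow_add hn0]
      _ ≤ (n : ℝ) ^ (1 / 4 : ℝ) := Real.rpow_le_rpow_of_exponent_le hn1 (by norm_num)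
      _ ≤ m0 := hm0'
  obtain ⟨τ, hτd⟩ : ∃ τ, τ = ((r : ℝ) ^ 2 / m0) ^ 2 * b := ⟨_, rfl⟩
  have hτ0 : 0 < τ := by rw [hτd]; positivity
  have key := no_ind_union (n := n) h0 h1 (univ.powersetCard m0) (fun _ => r)
    (ε := Real.exp (-(1 / (2 * r * τ)))) (fun M _ => hr2)
    (fun M hM => by rw [(mem_powersetCard.mp hM).2]; exact hrm) (fun _ => τ) (fun _ _ => hτ0)
    (fun M hM j hj hjr => by
      rw [(mem_powersetCard.mp hM).2, ← hb]
      calc (r.choose j : ℝ) * ((r : ℝ) / m0) ^ j * b ^ (j.choose 2)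
          ≤ (r : ℝ) ^ j * ((r : ℝ) / m0) ^ j * b ^ (j.choose 2) := by
            gcongr
            exact_mod_cast Nat.choose_le_pow r j
        _ = ((r : ℝ) ^ 2 / m0) ^ j * b ^ (j.choose 2) := by
            rw [← mul_pow]; congr 2; ring
        _ ≤ ((r : ℝ) ^ 2 / m0) ^ 2 * b := sml_term_le hb1 (by positivity) hj hjr hX
        _ = τ := hτd.symm)
    (fun M _ => le_refl _)
  refine (Ex_mono h0.le h1.le (G := fun x : Cf n => ind (¬ ∀ M ∈ univ.powersetCard m0,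
    ∃ I ⊆ M, Ind x I ∧ I.card = r)) ?_).trans (key.trans ?_)
  · intro x
    apply ind_mono
    intro h h2
    apply h
    intro M hM
    rw [← hm0] at hM
    obtain ⟨M', hM', hc⟩ := Finset.exists_subset_card_eq hM
    obtain ⟨I, hI, hx, hIc⟩ := h2 M' (mem_powersetCard.mpr ⟨subset_univ _, hc⟩)
    exact ⟨I, hI.trans hM', hx, by rw [hIc, hr]⟩
  · rw [card_powersetCard, card_univ, Fintype.card_fin]
    have hlogn : 0 < Real.log n := by rw [hlog]; positivity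
    have hcard : ((n.choose m0 : ℕ) : ℝ) ≤ Real.exp (m0 * Real.log n) := by
      calc ((n.choose m0 : ℕ) : ℝ) ≤ (n : ℝ) ^ m0 := by exact_mod_cast Nat.choose_le_pow n m0
        _ = Real.exp (m0 * Real.log n) := by
          rw [Real.exp_nat_mul, Real.exp_log hn0]
    have hmain : (m0 + 2) * Real.log n ≤ 1 / (2 * r * τ) := by
      have e1 : 1 / (2 * r * τ) = m0 ^ 2 / (2 * r ^ 5 * b) := by
        rw [hτd]; field_simp
      rw [e1, le_div_iff₀ (by positivity)]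
      have e2 : (m0 + 2 : ℝ) ≤ 3 * m0 := by
        have : (1 : ℝ) ≤ m0 := by linarith
        linarith
      calc (m0 + 2) * Real.log n * (2 * r ^ 5 * b) ≤ 3 * m0 * (L * l) * (2 * L ^ 5 * b) := by
            rw [hlog]; gcongr
        _ = m0 * (6 * b * l * L ^ 6) := by ring
        _ ≤ m0 * m0 := by gcongr; exact hL6.trans hm0'
        _ = (m0 : ℝ) ^ 2 := by ring
    calc ((n.choose m0 : ℕ) : ℝ) * Real.exp (-(1 / (2 * r * τ)))
        ≤ Real.exp (m0 * Real.log n) * Real.exp (-((m0 + 2) * Real.log n)) := by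
          gcongr
      _ = Real.exp (-(2 * Real.log n)) := by
          rw [← Real.exp_add]; congr 1; ring
      _ = 1 / (n : ℝ) ^ 2 := by
          rw [Real.exp_neg, show (2 : ℝ) * Real.log n = ((2 : ℕ) : ℝ) * Real.log n by norm_num,
            Real.exp_nat_mul, Real.exp_log hn0, one_div]

end Pool.Agent.CHV
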