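import Pool.Agent.CHV.PackA

/-!
# CHV / Wts: the sum of the weights `wt`; the deficit of an optimal packing

PROOFS.  `late_card`: the map `v ↦ #{w ∈ I : w > v}` is injective on `I` (it is strictly antitone), so at most `h` elements
of `I` have a value `< h` (`Finset.card_le_card_of_injOn` into `range h`).
`wt_sum`: exchange the sums: `∑_v wt = ∑_{I ∈ P} ∑_{v ∈ I} (2 a_I + S [ #{w ∈ I : w > v} < 4 a_I + 2 B ])`, `a_I = S - I.card`.  So
`∑_v wt ≤ ∑_I (2 a_I I.card + S (4 a_I + 2 B)) ≤ 6 S ∑ a_I + 2 B S P.card` and `S P.card = ∑ (a_I + I.card) ≤ defi + n`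
(`sum_card_le`).
`defi_le`: `P = opt`, `N = ∑ I.card ≤ n`, `k = P.card`, `defi = S k - N` (as `I.card ≤ S`), `val = N - lam k` (`val_add`),
`ff = n - N + lam k`; `S ff - lam n - lam (S k - N) = (S - lam) (n - N) ≥ 0`.
-/

set_option autoImplicit false

namespace Pool.Agent.CHV

open Finset

variable {n S lam B : ℕ}

theorem late_card (I : Finset (Fin n)) (h : ℕ) :
    (I.filter (fun v => (I.filter (fun w => v < w)).card < h)).card ≤ h := by
  have hanti : ∀ v ∈ I, ∀ v' ∈ I, v < v' →
      (I.filter (fun w => v' < w)).card < (I.filter (fun w => v < w)).card := by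
    intro v _ v' hv' hlt
    refine Finset.card_lt_card ?_
    rw [Finset.ssubset_iff_of_subset]
    · refine ⟨v', ?_, ?_⟩
      · rw [Finset.mem_filter]
        exact ⟨hv', hlt⟩
      · simp
    · intro w hw
      rw [Finset.mem_filter] at hw ⊢
      exact ⟨hw.1, hlt.trans hw.2⟩
  have h1 : (I.filter (fun v => (I.filter (fun w => v < w)).card < h)).card ≤
      (Finset.range h).card := by
    refine Finset.card_le_card_of_injOn (fun v => (I.filter (fun w => v < w)).card) ?_ ?_
    · intro v hv
      rw [Finset.mem_coe, Finset.mem_filter] at hv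
      rw [Finset.mem_coe, Finset.mem_range]
      exact hv.2
    · intro v hv v' hv' heq
      rw [Finset.mem_coe, Finset.mem_filter] at hv hv'
      rcases lt_trichotomy v v' with hlt | heq' | hlt
      · exact absurd heq (hanti v hv.1 v' hv'.1 hlt).ne'
      · exact heq'
      · exact absurd heq (hanti v' hv'.1 v hv.1 hlt).ne
  rwa [Finset.card_range] at h1

theorem wt_sum {x : Cf n} {P : Finset (Finset (Fin n))} (hP : Pack S lam x P) :
    ∑ v, wt S B P v ≤ 6 * S * defi S P + 2 * B * (defi S P + n) := by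
  have h1 : ∑ v, wt S B P v = ∑ I ∈ P, ∑ v ∈ I, (2 * (S - I.card) +
      if (I.filter (fun w => v < w)).card < 4 * (S - I.card) + 2 * B then S else 0) := by
    unfold wt
    refine Finset.sum_comm' fun v I => ?_
    simp [Finset.mem_filter, and_comm]
  have h2 : ∀ I ∈ P, ∑ v ∈ I, (2 * (S - I.card) +
      if (I.filter (fun w => v < w)).card < 4 * (S - I.card) + 2 * B then S else 0) ≤
      6 * S * (S - I.card) + 2 * B * S := by
    intro I hI
    rw [Finset.sum_add_distrib, Finset.sum_const, smul_eq_mul, ← Finset.sum_filter,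
      Finset.sum_const, smul_eq_mul]
    have h3 := late_card I (4 * (S - I.card) + 2 * B)
    have h4 := hP.le I hI
    calc I.card * (2 * (S - I.card)) +
          (I.filter (fun v => (I.filter (fun w => v < w)).card < 4 * (S - I.card) + 2 * B)).card * S
        ≤ S * (2 * (S - I.card)) + (4 * (S - I.card) + 2 * B) * S :=
          add_le_add (Nat.mul_le_mul_right _ h4) (Nat.mul_le_mul_right _ h3)
      _ = 6 * S * (S - I.card) + 2 * B * S := by ring
  have h5 : P.card * S = defi S P + ∑ I ∈ P, I.card := by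
    unfold defi
    rw [← Finset.sum_add_distrib, ← smul_eq_mul, ← Finset.sum_const]
    refine Finset.sum_congr rfl fun I hI => ?_
    have := hP.le I hI
    omega
  have h6 := sum_card_le hP
  have h7 : P.card * S ≤ defi S P + n := by omega
  calc ∑ v, wt S B P v ≤ ∑ I ∈ P, (6 * S * (S - I.card) + 2 * B * S) := by
        rw [h1]
        exact Finset.sum_le_sum h2
    _ = 6 * S * defi S P + 2 * B * (P.card * S) := by
        rw [Finset.sum_add_distrib, ← Finset.mul_sum, Finset.sum_const, smul_eq_mul]
        unfold defi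
        ring
    _ ≤ 6 * S * defi S P + 2 * B * (defi S P + n) :=
        Nat.add_le_add_left (Nat.mul_le_mul_left _ h7) _

theorem defi_le (hl : lam ≤ S) (x : Cf n) :
    (lam : ℝ) * (defi S (opt S lam x) : ℝ) ≤ S * ff S lam x - lam * n := by
  have hP := opt_pack S lam x
  set P := opt S lam x with hPdef
  have h1 : P.card * S = defi S P + ∑ I ∈ P, I.card := by
    unfold defi
    rw [← Finset.sum_add_distrib, ← smul_eq_mul, ← Finset.sum_const]
    refine Finset.sum_congr rfl fun I hI => ?_
    have := hP.le I hI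
    omega
  have h2 := val_add hP
  have h3 := sum_card_le hP
  have h1' : (P.card : ℝ) * S = defi S P + ((∑ I ∈ P, I.card : ℕ) : ℝ) := by exact_mod_cast h1
  have h2' : (val lam P : ℝ) + lam * P.card = ((∑ I ∈ P, I.card : ℕ) : ℝ) := by exact_mod_cast h2
  have h3' : ((∑ I ∈ P, I.card : ℕ) : ℝ) ≤ n := by exact_mod_cast h3
  have h4 : (lam : ℝ) ≤ S := by exact_mod_cast hl
  have h5 : ff S lam x = n - (val lam P : ℝ) := rfl
  rw [h5]
  set N : ℝ := ((∑ I ∈ P, I.card : ℕ) : ℝ) with hN
  have h6 : (defi S P : ℝ) = P.card * S - N := by linarith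
  have h7 : (val lam P : ℝ) = N - lam * P.card := by linarith
  rw [h6, h7]
  nlinarith [mul_nonneg (sub_nonneg.2 h4) (sub_nonneg.2 h3')]

end Pool.Agent.CHV
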