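import Pool.Agent.CHV.Cnt
import Pool.Agent.CHV.Wts

/-!
# CHV / Enr: the total energy

PROOFS.  `ener_le`: by definition of `ener` and `ce_sq_le` (the pairs `e ∈ nw n j` are in `(pre n (j+1)).sym2`), `Ex_sum` and
`∑_{e ∈ nw n j} ind (e ∈ UP .. ∧ e ∈ UP ..) = card of the filter`.
`ener_sum`: for every `j < n`, pointwise
`card ≤ wt (opt y') j + wt (opt z') j + 2 B + S * ind (¬ NoMid ..)` (`count_le` if `NoMid` holds, `count_triv` otherwise), where
`y' = glue T x y`, `z' = glue T x z`.  `Ex_x Ex_y Ex_z` of `wt (opt y') j` is `Ex_x wt (opt x) j` (`Ex_const`, `Ex_glue`), the same for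
`z'`.  Summing over `j < n` (identify `j < n` with `Fin n`, `Finset.sum_range`/`Fin.sum_univ_eq_sum_range`) and `wt_sum`:
`∑_j Ex wt (opt x) j ≤ 6 S D + 2 B (D + n)`, twice; plus `2 B n`, plus `S n δ`.
-/

set_option autoImplicit false

namespace Pool.Agent.CHV

open Finset

variable {n S lam B : ℕ} {p : ℝ}

theorem ener_le (h0 : 0 ≤ p) (h1 : p < 1) {j : ℕ} (hj : j < n) :
    ener p (n := n) S lam j ≤ 1 / (1 - p) *
      Ex p (fun x : Cf n => Ex p (fun y : Cf n => Ex p (fun z : Cf n =>
        (((nw n j).filter (fun e => e ∈ UP (opt S lam (glue (pre n (j + 1)).sym2 x y)) ∧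
          e ∈ UP (opt S lam (glue (pre n (j + 1)).sym2 x z)))).card : ℝ)))) := by
  unfold ener
  have h2 : ∀ e ∈ nw n j, Ex p (fun x : Cf n => CE p (pre n (j + 1)).sym2 (dd e (ff S lam)) x ^ 2) ≤
      1 / (1 - p) * Ex p (fun x : Cf n => Ex p (fun y : Cf n => Ex p (fun z : Cf n =>
        ind (e ∈ UP (opt S lam (glue (pre n (j + 1)).sym2 x y)) ∧
          e ∈ UP (opt S lam (glue (pre n (j + 1)).sym2 x z)))))) := fun e he =>
    ce_sq_le h0 h1 (Finset.mem_sdiff.1 he).1
  refine (Finset.sum_le_sum h2).trans (le_of_eq ?_)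
  rw [← Finset.mul_sum]
  congr 1
  rw [← Ex_sum]
  congr 1
  funext x
  rw [← Ex_sum]
  congr 1
  funext y
  rw [← Ex_sum]
  congr 1
  funext z
  rw [Finset.card_filter]
  push_cast
  refine Finset.sum_congr rfl fun e _ => ?_
  by_cases he : e ∈ UP (opt S lam (glue (pre n (j + 1)).sym2 x y)) ∧
      e ∈ UP (opt S lam (glue (pre n (j + 1)).sym2 x z))
  · rw [ind_true he, if_pos he]
  · rw [ind_false he, if_neg he]

theorem Ex_lin {ι : Type} [Fintype ι] [DecidableEq ι] (F G H : (ι → Bool) → ℝ) (c d : ℝ) :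
    Ex p (fun z => F z + (G z + (c + d * H z))) = Ex p F + (Ex p G + (c + d * Ex p H)) := by
  have h1 := Ex_add (p := p) F (fun z => G z + (c + d * H z))
  have h2 := Ex_add (p := p) G (fun z => c + d * H z)
  have h3 := Ex_add (p := p) (fun _ : ι → Bool => c) (fun z => d * H z)
  have h4 := Ex_smul (p := p) d H
  have h5 := Ex_const (ι := ι) (p := p) c
  rw [h1, h2, h3, h4, h5]

theorem ener_sum (h0 : 0 ≤ p) (h1 : p < 1) (D δ : ℝ)
    (hD : Ex p (fun x : Cf n => (defi S (opt S lam x) : ℝ)) ≤ D)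
    (hB : ∀ j < n, Ex p (fun x : Cf n => Ex p (fun y : Cf n => Ex p (fun z : Cf n =>
      ind (¬ NoMid S B (pre n (j + 1)) (glue (pre n (j + 1)).sym2 x y)
        (glue (pre n (j + 1)).sym2 x z))))) ≤ δ) :
    ∑ j ∈ Finset.range n, ener p (n := n) S lam j ≤
      1 / (1 - p) * (12 * S * D + 4 * B * (D + n) + 2 * B * n + S * n * δ) := by
  have h1' : p ≤ 1 := h1.le
  -- one step
  have hstep : ∀ j : Fin n, ener p (n := n) S lam j.val ≤ 1 / (1 - p) *
      (2 * Ex p (fun x : Cf n => (wt S B (opt S lam x) j : ℝ)) + 2 * B + S * δ) := by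
    intro j
    refine (ener_le h0 h1 j.isLt).trans ?_
    refine mul_le_mul_of_nonneg_left ?_ (div_nonneg zero_le_one (sub_nonneg.2 h1'))
    set T := (pre n (j.val + 1)).sym2 with hT
    have hpt : ∀ x y z : Cf n,
        (((nw n j.val).filter (fun e => e ∈ UP (opt S lam (glue T x y)) ∧
          e ∈ UP (opt S lam (glue T x z)))).card : ℝ) ≤
        (wt S B (opt S lam (glue T x y)) j : ℝ) +
          ((wt S B (opt S lam (glue T x z)) j : ℝ) + (2 * B +
            S * ind (¬ NoMid S B (pre n (j.val + 1)) (glue T x y) (glue T x z)))) := by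
      intro x y z
      by_cases hn : NoMid S B (pre n (j.val + 1)) (glue T x y) (glue T x z)
      · have h2 := count_le j.isLt (opt_pack S lam (glue T x y)) (opt_pack S lam (glue T x z)) hn
        rw [ind_false (not_not.2 hn)]
        have h3 : (((nw n j.val).filter (fun e => e ∈ UP (opt S lam (glue T x y)) ∧
          e ∈ UP (opt S lam (glue T x z)))).card : ℝ) ≤
          ((wt S B (opt S lam (glue T x y)) j + wt S B (opt S lam (glue T x z)) j + 2 * B : ℕ) :
            ℝ) := by exact_mod_cast h2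
        push_cast at h3
        linarith
      · have h2 := count_triv (Q := opt S lam (glue T x z)) j.isLt (opt_pack S lam (glue T x y))
        rw [ind_true hn]
        have h3 : (((nw n j.val).filter (fun e => e ∈ UP (opt S lam (glue T x y)) ∧
          e ∈ UP (opt S lam (glue T x z)))).card : ℝ) ≤ (S : ℝ) := by exact_mod_cast h2
        have h4 : (0 : ℝ) ≤ (wt S B (opt S lam (glue T x y)) j : ℝ) := Nat.cast_nonneg _
        have h5 : (0 : ℝ) ≤ (wt S B (opt S lam (glue T x z)) j : ℝ) := Nat.cast_nonneg _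
        have h6 : (0 : ℝ) ≤ B := Nat.cast_nonneg _
        linarith
    have hmono := Ex_mono (ι := Sym2 (Fin n)) h0 h1' fun x : Cf n =>
      Ex_mono (ι := Sym2 (Fin n)) h0 h1' fun y : Cf n =>
      Ex_mono (ι := Sym2 (Fin n)) h0 h1' fun z : Cf n => hpt x y z
    refine hmono.trans ?_
    have hinner : ∀ x y : Cf n, Ex p (fun z : Cf n => (wt S B (opt S lam (glue T x y)) j : ℝ) +
          ((wt S B (opt S lam (glue T x z)) j : ℝ) + (2 * B +
            S * ind (¬ NoMid S B (pre n (j.val + 1)) (glue T x y) (glue T x z))))) =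
        (wt S B (opt S lam (glue T x y)) j : ℝ) +
          (Ex p (fun z : Cf n => (wt S B (opt S lam (glue T x z)) j : ℝ)) + (2 * B +
            S * Ex p (fun z : Cf n =>
              ind (¬ NoMid S B (pre n (j.val + 1)) (glue T x y) (glue T x z))))) := by
      intro x y
      have h := Ex_lin (p := p) (fun _ : Cf n => (wt S B (opt S lam (glue T x y)) j : ℝ))
        (fun z : Cf n => (wt S B (opt S lam (glue T x z)) j : ℝ))
        (fun z : Cf n => ind (¬ NoMid S B (pre n (j.val + 1)) (glue T x y) (glue T x z)))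
        (2 * B) S
      rw [Ex_const] at h
      exact h
    have hmid : ∀ x : Cf n, Ex p (fun y : Cf n => Ex p (fun z : Cf n =>
          (wt S B (opt S lam (glue T x y)) j : ℝ) +
          ((wt S B (opt S lam (glue T x z)) j : ℝ) + (2 * B +
            S * ind (¬ NoMid S B (pre n (j.val + 1)) (glue T x y) (glue T x z)))))) =
        Ex p (fun y : Cf n => (wt S B (opt S lam (glue T x y)) j : ℝ)) +
          (Ex p (fun z : Cf n => (wt S B (opt S lam (glue T x z)) j : ℝ)) + (2 * B +
            S * Ex p (fun y : Cf n => Ex p (fun z : Cf n =>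
              ind (¬ NoMid S B (pre n (j.val + 1)) (glue T x y) (glue T x z)))))) := by
      intro x
      simp only [hinner]
      have h := Ex_lin (p := p) (fun y : Cf n => (wt S B (opt S lam (glue T x y)) j : ℝ))
        (fun _ : Cf n => Ex p (fun z : Cf n => (wt S B (opt S lam (glue T x z)) j : ℝ)))
        (fun y : Cf n => Ex p (fun z : Cf n =>
          ind (¬ NoMid S B (pre n (j.val + 1)) (glue T x y) (glue T x z))))
        (2 * B) S
      rw [Ex_const] at h
      exact h
    simp only [hmid]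
    have h := Ex_lin (p := p)
      (fun x : Cf n => Ex p (fun y : Cf n => (wt S B (opt S lam (glue T x y)) j : ℝ)))
      (fun x : Cf n => Ex p (fun z : Cf n => (wt S B (opt S lam (glue T x z)) j : ℝ)))
      (fun x : Cf n => Ex p (fun y : Cf n => Ex p (fun z : Cf n =>
          ind (¬ NoMid S B (pre n (j.val + 1)) (glue T x y) (glue T x z)))))
      (2 * B) S
    have hg := Ex_glue (p := p) T (fun x : Cf n => (wt S B (opt S lam x) j : ℝ))
    have h7 := mul_le_mul_of_nonneg_left (hB j.val j.isLt) (Nat.cast_nonneg (α := ℝ) S)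
    rw [h]
    simp only [hg]
    linarith
  rw [Finset.sum_range]
  refine (Finset.sum_le_sum fun j _ => hstep j).trans ?_
  rw [← Finset.mul_sum]
  refine mul_le_mul_of_nonneg_left ?_ (div_nonneg zero_le_one (sub_nonneg.2 h1'))
  rw [Finset.sum_add_distrib, Finset.sum_add_distrib, ← Finset.mul_sum, Finset.sum_const,
    Finset.sum_const, Finset.card_univ, Fintype.card_fin, nsmul_eq_mul, nsmul_eq_mul, ← Ex_sum]
  have hsum : Ex p (fun x : Cf n => ∑ j : Fin n, (wt S B (opt S lam x) j : ℝ)) ≤
      6 * S * D + 2 * B * (D + n) := by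
    have h2 : ∀ x : Cf n, ∑ j : Fin n, (wt S B (opt S lam x) j : ℝ) ≤
        (6 * S + 2 * B) * (defi S (opt S lam x) : ℝ) + 2 * B * n := by
      intro x
      have h3 := wt_sum (B := B) (opt_pack S lam x)
      have h4 : ((∑ v, wt S B (opt S lam x) v : ℕ) : ℝ) ≤
          ((6 * S * defi S (opt S lam x) + 2 * B * (defi S (opt S lam x) + n) : ℕ) : ℝ) := by
        exact_mod_cast h3
      push_cast at h4
      linarith
    refine (Ex_mono h0 h1' h2).trans ?_
    rw [Ex_add, Ex_smul, Ex_const]
    have h5 : (0 : ℝ) ≤ 6 * S + 2 * B := by positivity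
    have h6 := mul_le_mul_of_nonneg_left hD h5
    linarith
  linarith

end Pool.Agent.CHV
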