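import Pool.Agent.CHV.PackL
import Pool.Agent.CHV.Glu

/-!
# CHV / Piv: pivotal pairs are pairs of the optimal packing

PROOFS.  `ce_le`: let `V` be a finset of bits, `e ∉ V`.  `dd e ff` does not depend on the bit `e` (`dd_update`), so by
`Ex_bit_false` (for the function `y ↦ dd e ff (glue V x y)`; `(glue V x y) e = y e` as `e ∉ V`, and
`glue V x (update y e b) = update (glue V x y) e b`)
`(1 - p) CE p V (dd e ff) x = Ex_y ind (y e = false) * dd e ff (glue V x y)` and for `y e = false`, by `dd_ff_zero`,
`dd_ff_le_one`: `dd e ff (glue V x y) ≤ ind (e ∈ UP (opt S lam (glue V x y)))`.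
`ce_sq_le`: `e ∈ V`.  By `Ex_CE_sq`, `Ex (CE p V (dd e ff))^2 = Ex_x Ex_y Ex_z a(x, y, z)`,
`a = dd e ff (glue V x y) * dd e ff (glue V x z)`, which does not depend on the bit `e` of `x`
(`glue V (update x e b) y = update (glue V x y) e b`).  By `Ex_bit_false` (for `x`)
`(1 - p) Ex_x Ex_y Ex_z a = Ex_x ind (x e = false) Ex_y Ex_z a` and for `x e = false` (`(glue V x y) e = x e`) both factors are
`≤ ind (e ∈ UP (opt ...))` by `dd_ff_zero`, `dd_ff_le_one`, `dd_ff_nonneg`.
-/

set_option autoImplicit false

namespace Pool.Agent.CHV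

open Finset

variable {n S lam : ℕ} {p : ℝ}

private theorem piv_glue_nmem {V : Finset (Sym2 (Fin n))} {e : Sym2 (Fin n)} (he : e ∉ V)
    (x y : Cf n) (b : Bool) :
    glue V x (Function.update y e b) = Function.update (glue V x y) e b := by
  funext i
  by_cases hi : i = e
  · subst hi
    simp [glue, he]
  · rw [Function.update_of_ne hi]
    simp only [glue]
    rw [Function.update_of_ne hi]

private theorem piv_glue_mem {V : Finset (Sym2 (Fin n))} {e : Sym2 (Fin n)} (he : e ∈ V)
    (x y : Cf n) (b : Bool) :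
    glue V (Function.update x e b) y = Function.update (glue V x y) e b := by
  funext i
  by_cases hi : i = e
  · subst hi
    simp [glue, he]
  · rw [Function.update_of_ne hi]
    simp only [glue]
    rw [Function.update_of_ne hi]

private theorem piv_le {e : Sym2 (Fin n)} {x : Cf n} (hx : x e = false) :
    dd e (ff S lam) x ≤ ind (e ∈ UP (opt S lam x)) := by
  by_cases h : e ∈ UP (opt S lam x)
  · rw [ind_true h]
    exact dd_ff_le_one e x
  · rw [ind_false h, dd_ff_zero hx h]

theorem ce_le (h0 : 0 ≤ p) (h1 : p < 1) {V : Finset (Sym2 (Fin n))} {e : Sym2 (Fin n)}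
    (he : e ∉ V) (x : Cf n) :
    CE p V (dd e (ff S lam)) x ≤
      1 / (1 - p) * Ex p (fun y : Cf n => ind (e ∈ UP (opt S lam (glue V x y)))) := by
  have hp : 0 < 1 - p := by linarith
  have h2 := Ex_bit_false (p := p) e (fun y : Cf n => dd e (ff S lam) (glue V x y)) (fun y b => by
    rw [piv_glue_nmem he, dd_update])
  have h3 : Ex p (fun y : Cf n => ind (y e = false) * dd e (ff S lam) (glue V x y)) ≤
      Ex p (fun y : Cf n => ind (e ∈ UP (opt S lam (glue V x y)))) := by
    apply Ex_mono h0 h1.le
    intro y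
    by_cases hy : y e = false
    · rw [ind_true hy, one_mul]
      apply piv_le
      simp [glue, he, hy]
    · rw [ind_false hy, zero_mul]
      exact ind_nonneg _
  rw [h2] at h3
  unfold CE
  rw [one_div, inv_mul_eq_div, le_div_iff₀ hp, mul_comm]
  exact h3

theorem ce_sq_le (h0 : 0 ≤ p) (h1 : p < 1) {V : Finset (Sym2 (Fin n))} {e : Sym2 (Fin n)}
    (he : e ∈ V) :
    Ex p (fun x : Cf n => CE p V (dd e (ff S lam)) x ^ 2) ≤
      1 / (1 - p) * Ex p (fun x : Cf n => Ex p (fun y : Cf n => Ex p (fun z : Cf n =>
        ind (e ∈ UP (opt S lam (glue V x y)) ∧ e ∈ UP (opt S lam (glue V x z)))))) := by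
  have hp : 0 < 1 - p := by linarith
  rw [Ex_CE_sq]
  have h2 := Ex_bit_false (p := p) e (fun x : Cf n => Ex p (fun y : Cf n => Ex p (fun z : Cf n =>
    dd e (ff S lam) (glue V x y) * dd e (ff S lam) (glue V x z)))) (fun x b => by
      simp only [piv_glue_mem he, dd_update])
  have h3 : Ex p (fun x : Cf n => ind (x e = false) * Ex p (fun y : Cf n => Ex p (fun z : Cf n =>
      dd e (ff S lam) (glue V x y) * dd e (ff S lam) (glue V x z)))) ≤
      Ex p (fun x : Cf n => Ex p (fun y : Cf n => Ex p (fun z : Cf n =>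
        ind (e ∈ UP (opt S lam (glue V x y)) ∧ e ∈ UP (opt S lam (glue V x z)))))) := by
    apply Ex_mono h0 h1.le
    intro x
    by_cases hx : x e = false
    · rw [ind_true hx, one_mul]
      apply Ex_mono h0 h1.le
      intro y
      apply Ex_mono h0 h1.le
      intro z
      have hg : ∀ y : Cf n, glue V x y e = false := by
        intro y
        simp [glue, he, hx]
      have a1 := piv_le (S := S) (lam := lam) (hg y)
      have a2 := piv_le (S := S) (lam := lam) (hg z)
      have a3 := dd_ff_nonneg (S := S) (lam := lam) e (glue V x y)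
      have a4 := dd_ff_nonneg (S := S) (lam := lam) e (glue V x z)
      by_cases hA : e ∈ UP (opt S lam (glue V x y))
      · by_cases hB : e ∈ UP (opt S lam (glue V x z))
        · rw [ind_true ⟨hA, hB⟩]
          rw [ind_true hA] at a1
          rw [ind_true hB] at a2
          exact mul_le_one₀ a1 a4 a2
        · rw [ind_false hB] at a2
          rw [le_antisymm a2 a4, mul_zero]
          exact ind_nonneg _
      · rw [ind_false hA] at a1
        rw [le_antisymm a1 a3, zero_mul]
        exact ind_nonneg _
    · rw [ind_false hx, zero_mul]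
      apply Ex_nonneg h0 h1.le
      intro y
      apply Ex_nonneg h0 h1.le
      intro z
      exact ind_nonneg _
  rw [h2] at h3
  rw [one_div, inv_mul_eq_div, le_div_iff₀ hp, mul_comm]
  exact h3

end Pool.Agent.CHV
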