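import Pool.Agent.CHV.PackA

/-!
# CHV / PackL: elementary properties of the packing functional `ff`

PROOFS.  Put `W x = val lam (opt S lam x)`, so `ff = n - W`; `opt_pack`, `opt_max`.
`dd_ff_nonneg`: with `x1 = update x e true`, `x0 = update x e false`: a packing of `x1` is a packing of `x0` (`pack_of_le`), so
`W x1 ≤ W x0`.
`dd_ff_le_one`: `e = s(u, v)`; take the optimal packing of `x0` and apply `erase_pack` for `u`: the new packing is one for `x1`,
so `W x1 ≥ W x0 - 1`.
`dd_ff_diag`: the diagonal element is in no `prs I`, so packings of `x0` and `x1` are the same (`pack_of_le`).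
`dd_ff_zero`: if `x e = false` and `e ∉ UP (opt S lam x)`: `x0 = x` and `opt S lam x` is a packing of `x1` (`pack_of_le`), so
`W x1 ≥ W x0`.
`ff_vertex`: `erase_pack` for `v` in both directions.
`ff_perm`: `perm_pack` for `π` and for `π⁻¹` (`(e.map π⁻¹).map π = e`, `Sym2.map_map`).
`ff_nonneg`: `val ≤ ∑ I.card ≤ n` (`val_add`, `sum_card_le`).  `ff_le`: `val ≥ 0`.
-/

set_option autoImplicit false

namespace Pool.Agent.CHV

open Finset

variable {n S lam : ℕ}

theorem ff_nonneg (x : Cf n) : 0 ≤ ff S lam x := by
  have h1 := val_add (opt_pack S lam x)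
  have h2 := sum_card_le (opt_pack S lam x)
  have h3 : val lam (opt S lam x) ≤ n := by omega
  have h4 : (val lam (opt S lam x) : ℝ) ≤ n := by exact_mod_cast h3
  unfold ff
  linarith

theorem ff_le (x : Cf n) : ff S lam x ≤ n := by
  unfold ff
  have h : (0 : ℝ) ≤ (val lam (opt S lam x) : ℝ) := Nat.cast_nonneg _
  linarith

private theorem dd_eq (e : Sym2 (Fin n)) (x : Cf n) : dd e (ff S lam) x =
    (val lam (opt S lam (Function.update x e false)) : ℝ) -
      (val lam (opt S lam (Function.update x e true)) : ℝ) := by
  unfold dd ff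
  ring

private theorem opt_mono {x y : Cf n}
    (h : ∀ e ∈ UP (opt S lam y), y e = false → x e = false) :
    val lam (opt S lam y) ≤ val lam (opt S lam x) :=
  opt_max S lam x (pack_of_le (opt_pack S lam y) h)

theorem dd_ff_nonneg (e : Sym2 (Fin n)) (x : Cf n) : 0 ≤ dd e (ff S lam) x := by
  rw [dd_eq]
  have h : val lam (opt S lam (Function.update x e true)) ≤
      val lam (opt S lam (Function.update x e false)) := by
    refine opt_mono fun e' _ h1 => ?_
    by_cases he : e' = e
    · subst he
      exact Function.update_self _ _ _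
    · rw [Function.update_of_ne he] at h1 ⊢
      exact h1
  have h2 : (val lam (opt S lam (Function.update x e true)) : ℝ) ≤
      (val lam (opt S lam (Function.update x e false)) : ℝ) := by exact_mod_cast h
  linarith

private theorem opt_vertex (v : Fin n) {x y : Cf n} (h : ∀ e : Sym2 (Fin n), v ∉ e → y e = x e) :
    val lam (opt S lam x) ≤ val lam (opt S lam y) + 1 := by
  obtain ⟨P', h1, -, h3⟩ := erase_pack (opt_pack S lam x) v
  have h4 := opt_max S lam y (h3 y h)
  omega

theorem dd_ff_le_one (e : Sym2 (Fin n)) (x : Cf n) : dd e (ff S lam) x ≤ 1 := by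
  induction e using Sym2.ind with
  | _ u v =>
    rw [dd_eq]
    have h : val lam (opt S lam (Function.update x s(u, v) false)) ≤
        val lam (opt S lam (Function.update x s(u, v) true)) + 1 := by
      refine opt_vertex u fun e' he' => ?_
      have h1 : e' ≠ s(u, v) := by
        rintro rfl
        exact he' (Sym2.mem_mk_left u v)
      rw [Function.update_of_ne h1, Function.update_of_ne h1]
    have h2 : (val lam (opt S lam (Function.update x s(u, v) false)) : ℝ) ≤
        (val lam (opt S lam (Function.update x s(u, v) true)) : ℝ) + 1 := by exact_mod_cast h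
    linarith

private theorem not_diag_of_mem {P : Finset (Finset (Fin n))} {e : Sym2 (Fin n)}
    (h : e ∈ UP P) : ¬ e.IsDiag := by
  unfold UP at h
  obtain ⟨I, -, h1⟩ := Finset.mem_biUnion.1 h
  unfold prs at h1
  exact (Finset.mem_filter.1 h1).2

theorem dd_ff_diag (u : Fin n) (x : Cf n) : dd s(u, u) (ff S lam) x = 0 := by
  have key : ∀ b c : Bool, val lam (opt S lam (Function.update x s(u, u) b)) ≤
      val lam (opt S lam (Function.update x s(u, u) c)) := by
    intro b c
    refine opt_mono fun e' he' h1 => ?_
    have h2 : e' ≠ s(u, u) := by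
      rintro rfl
      exact not_diag_of_mem he' rfl
    rw [Function.update_of_ne h2] at h1 ⊢
    exact h1
  rw [dd_eq, le_antisymm (key false true) (key true false), sub_self]

theorem dd_ff_zero {e : Sym2 (Fin n)} {x : Cf n} (hx : x e = false)
    (he : e ∉ UP (opt S lam x)) : dd e (ff S lam) x = 0 := by
  refine le_antisymm ?_ (dd_ff_nonneg e x)
  rw [dd_eq]
  have h0 : Function.update x e false = x := by
    rw [← hx]
    exact Function.update_eq_self e x
  rw [h0]
  have h : val lam (opt S lam x) ≤ val lam (opt S lam (Function.update x e true)) := by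
    refine opt_mono fun e' he' h1 => ?_
    have h2 : e' ≠ e := by
      rintro rfl
      exact he he'
    rw [Function.update_of_ne h2]
    exact h1
  have h2 : (val lam (opt S lam x) : ℝ) ≤
      (val lam (opt S lam (Function.update x e true)) : ℝ) := by exact_mod_cast h
  linarith

theorem ff_vertex (v : Fin n) {x y : Cf n} (h : ∀ e : Sym2 (Fin n), v ∉ e → x e = y e) :
    |ff S lam x - ff S lam y| ≤ 1 := by
  have h1 : val lam (opt S lam x) ≤ val lam (opt S lam y) + 1 :=
    opt_vertex v fun e he => (h e he).symm
  have h2 : val lam (opt S lam y) ≤ val lam (opt S lam x) + 1 := opt_vertex v h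
  have h3 : (val lam (opt S lam x) : ℝ) ≤ (val lam (opt S lam y) : ℝ) + 1 := by
    exact_mod_cast h1
  have h4 : (val lam (opt S lam y) : ℝ) ≤ (val lam (opt S lam x) : ℝ) + 1 := by
    exact_mod_cast h2
  unfold ff
  rw [abs_le]
  constructor <;> linarith

theorem ff_perm (π : Equiv.Perm (Fin n)) (x : Cf n) :
    ff S lam (fun e => x (e.map π)) = ff S lam x := by
  have h1 : val lam (opt S lam (fun e => x (e.map π))) ≤ val lam (opt S lam x) := by
    obtain ⟨P', h2, h3⟩ := perm_pack π (opt_pack S lam (fun e => x (e.map π)))
    rw [← h3]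
    exact opt_max S lam x h2
  have h2 : val lam (opt S lam x) ≤ val lam (opt S lam (fun e => x (e.map π))) := by
    have h4 : (fun e : Sym2 (Fin n) => x ((e.map π.symm).map π)) = x := by
      funext e
      congr 1
      rw [Sym2.map_map]
      have h5 : (π : Fin n → Fin n) ∘ (π.symm : Fin n → Fin n) = id := by
        funext a
        exact π.apply_symm_apply a
      rw [h5, Sym2.map_id, id]
    have h6 : Pack S lam (fun e : Sym2 (Fin n) => (fun e : Sym2 (Fin n) => x (e.map π))
        (e.map π.symm)) (opt S lam x) := by
      have h7 := opt_pack S lam x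
      have h8 : (fun e : Sym2 (Fin n) => (fun e : Sym2 (Fin n) => x (e.map π))
        (e.map π.symm)) = x := h4
      rw [h8]
      exact h7
    obtain ⟨P', h8, h9⟩ := perm_pack (x := fun e => x (e.map π)) π.symm h6
    rw [← h9]
    exact opt_max S lam _ h8
  unfold ff
  rw [le_antisymm h1 h2]

end Pool.Agent.CHV
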