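import Pool.Agent.CHV.ExR
import Pool.Agent.CHV.Grf

/-!
# CHV / Brg: the expectation as a sum over sets of edges

PROOF.  Let `D` be the finset of the non-diagonal elements of `Sym2 (Fin n)`, `|D| = C(n, 2)`
(`Sym2.card_subtype_not_diag` or `SimpleGraph.card_edgeFinset_top_eq_card_choose_two`).
Both sides are sums; for `x : Cf n` put `S x = D.filter (x · = true)`; `gr x = fromEdgeSet (S x)` (`fromEdgeSet` ignores the diagonal).
So `Ex p (F (gr x)) = ∑_{S ⊆ D} F (fromEdgeSet S) * ∑_{x : S x = S} ∏ bw p (x e)` (`Finset.sum_fiberwise_of_maps_to`) and the inner sum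
is `∏_{e ∈ S} p * ∏_{e ∈ D \ S} (1-p) * ∏_{e ∉ D} (p + (1-p)) = p^|S| (1-p)^(|D| - |S|)` (`Finset.prod_univ_sum` for the sets
`{true}`, `{false}`, `univ` of values).  Alternatively: `Ex_map` for the inclusion of the subtype `{e // ¬ e.IsDiag}` and
`Finset.prod_add` / `Fintype.piFinset`.
-/

set_option autoImplicit false

namespace Pool.Agent.CHV

open Finset

variable {p : ℝ}

private theorem card_D (n : ℕ) : (Finset.filter (fun e : Sym2 (Fin n) => ¬ e.IsDiag)
    (Finset.univ : Finset (Sym2 (Fin n)))).card = Nat.choose n 2 := by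
  have h := Sym2.card_subtype_not_diag (α := Fin n)
  rw [Fintype.card_fin] at h
  rw [← h, Fintype.card_subtype]

private theorem prod_bw (n : ℕ) {S : Finset (Sym2 (Fin n))}
    (hS : S ⊆ Finset.filter (fun e : Sym2 (Fin n) => ¬ e.IsDiag)
      (Finset.univ : Finset (Sym2 (Fin n)))) :
    ∏ k : {e : Sym2 (Fin n) // ¬ e.IsDiag}, bw p (decide (k.1 ∈ S)) =
      p ^ S.card * (1 - p) ^ (Nat.choose n 2 - S.card) := by
  rw [← Finset.prod_subtype (Finset.filter (fun e : Sym2 (Fin n) => ¬ e.IsDiag)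
    (Finset.univ : Finset (Sym2 (Fin n)))) (fun e => by
      rw [Finset.mem_filter]
      exact ⟨fun h => h.2, fun h => ⟨Finset.mem_univ _, h⟩⟩)
    (fun e => bw p (decide (e ∈ S)))]
  have h1 : ∀ e : Sym2 (Fin n), bw p (decide (e ∈ S)) = if e ∈ S then p else 1 - p := by
    intro e
    by_cases he : e ∈ S
    · rw [if_pos he, decide_eq_true he]
      rfl
    · rw [if_neg he, decide_eq_false he]
      rfl
  simp only [h1]
  rw [Finset.prod_ite, Finset.prod_const, Finset.prod_const, Finset.filter_mem_eq_inter,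
    Finset.inter_eq_right.2 hS, Finset.filter_not, Finset.filter_mem_eq_inter,
    Finset.inter_eq_right.2 hS, Finset.card_sdiff_of_subset hS, card_D]

theorem bridge (n : ℕ) (F : SimpleGraph (Fin n) → ℝ) :
    Finset.sum
      (Finset.powerset (Finset.filter (fun e : Sym2 (Fin n) => ¬ e.IsDiag)
        (Finset.univ : Finset (Sym2 (Fin n)))))
      (fun S : Finset (Sym2 (Fin n)) =>
        p ^ S.card * (1 - p) ^ (Nat.choose n 2 - S.card) *
          F (SimpleGraph.fromEdgeSet ((S : Set (Sym2 (Fin n)))))) =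
      Ex p (fun x : Cf n => F (gr x)) := by
  have h1 : Ex p (fun x : Cf n => F (gr x)) = Ex p (fun y : {e : Sym2 (Fin n) // ¬ e.IsDiag} → Bool
      => F (SimpleGraph.fromEdgeSet {e | ∃ h : ¬ e.IsDiag, y ⟨e, h⟩ = true})) := by
    rw [← Ex_map (Subtype.val : {e : Sym2 (Fin n) // ¬ e.IsDiag} → Sym2 (Fin n))
      Subtype.val_injective]
    congr 1
    funext x
    congr 1
    ext u v
    rw [gr, SimpleGraph.fromEdgeSet_adj, SimpleGraph.fromEdgeSet_adj]
    constructor
    · rintro ⟨h2, h3⟩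
      exact ⟨⟨fun h4 => h3 (Sym2.mk_isDiag_iff.1 h4), h2⟩, h3⟩
    · rintro ⟨⟨_, h2⟩, h3⟩
      exact ⟨h2, h3⟩
  rw [h1]
  unfold Ex
  refine Finset.sum_nbij' (fun S k => decide (k.1 ∈ S))
    (fun y => (Finset.univ.filter (fun k => y k = true)).map (Function.Embedding.subtype _))
    ?_ ?_ ?_ ?_ ?_
  · intro S _
    exact Finset.mem_univ _
  · intro y _
    rw [Finset.mem_powerset]
    intro e he
    obtain ⟨k, _, rfl⟩ := Finset.mem_map.1 he
    rw [Finset.mem_filter]
    exact ⟨Finset.mem_univ _, k.2⟩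
  · intro S hS
    rw [Finset.mem_powerset] at hS
    ext e
    rw [Finset.mem_map]
    constructor
    · rintro ⟨k, hk, rfl⟩
      exact of_decide_eq_true (Finset.mem_filter.1 hk).2
    · intro he
      refine ⟨⟨e, (Finset.mem_filter.1 (hS he)).2⟩, ?_, rfl⟩
      rw [Finset.mem_filter]
      exact ⟨Finset.mem_univ _, decide_eq_true he⟩
  · intro y _
    funext k
    by_cases hk : y k = true
    · rw [hk, decide_eq_true]
      rw [Finset.mem_map]
      exact ⟨k, Finset.mem_filter.2 ⟨Finset.mem_univ _, hk⟩, rfl⟩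
    · rw [Bool.not_eq_true] at hk
      rw [hk, decide_eq_false]
      intro h
      obtain ⟨k', hk', h2⟩ := Finset.mem_map.1 h
      have h3 : k' = k := Subtype.ext h2
      have h4 := (Finset.mem_filter.1 hk').2
      rw [h3, hk] at h4
      exact absurd h4 (by simp)
  · intro S hS
    rw [Finset.mem_powerset] at hS
    rw [prod_bw n hS]
    congr 2
    ext u v
    rw [SimpleGraph.fromEdgeSet_adj, SimpleGraph.fromEdgeSet_adj]
    constructor
    · rintro ⟨h2, h3⟩
      exact ⟨⟨fun h4 => h3 (Sym2.mk_isDiag_iff.1 h4), decide_eq_true h2⟩, h3⟩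
    · rintro ⟨⟨_, h2⟩, h3⟩
      exact ⟨of_decide_eq_true h2, h3⟩

end Pool.Agent.CHV
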