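import Pool.Agent.CHV.Deg

/-!
# CHV / Exch: exchangeability of the vertices `≥ j`

Put `V = (pre n j).sym2`.
PROOFS.  `ce_exch`: `u < j ≤ w`, `π = Equiv.swap j w`.  `F = ff S lam` satisfies `F (fun e => x (e.map π)) = F x`
(`ff_perm`), hence `dd s(u, w) F z = dd s(u, j) F (z ∘ map π)` (`s(u, j).map π = s(u, w)`; `Sym2.map π` is an involution;
`update z s(u,w) b ∘ map π = update (z ∘ map π) s(u, j) b`).  For `z = glue V x y`: `z ∘ map π = glue V x (y ∘ map π)`
(`π` fixes the vertices `< j`, so `e ∈ V ↔ e.map π ∈ V` and `e.map π = e` for `e ∈ V`).  The law of `y` is invariant under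
`y ↦ y ∘ map π` (`Ex_equiv` with the equivalence `Sym2.map π`, `Equiv.sym2Congr π`).
`ce_bound`: `e = s(u, j)` (`mem_nw`); for `u = j` the derivative vanishes (`dd_ff_diag`; `CE` of `0` is `0`).  For `u < j`, by
`ce_exch` and `ce_sum_star` `(n - j) * CE p V (dd e ff) x = ∑_{w ≥ j} CE p V (dd s(u, w) ff) x ≤ S/(1-p)`.
-/

set_option autoImplicit false

namespace Pool.Agent.CHV

open Finset

variable {n S lam j : ℕ} {p : ℝ}

theorem ce_exch (hj : j < n) {u w : Fin n} (hu : u.val < j) (hw : j ≤ w.val) (x : Cf n) :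
    CE p (pre n j).sym2 (dd s(u, w) (ff S lam)) x =
      CE p (pre n j).sym2 (dd s(u, ⟨j, hj⟩) (ff S lam)) x := by
  set J : Fin n := ⟨j, hj⟩ with hJ
  set π : Equiv.Perm (Fin n) := Equiv.swap J w with hπ
  have hππ : ∀ a, π (π a) = a := fun a => Equiv.swap_apply_self J w a
  have hlt : ∀ a : Fin n, a.val < j → π a = a := by
    intro a ha
    refine Equiv.swap_apply_of_ne_of_ne (fun h => ?_) (fun h => ?_)
    · rw [h] at ha
      exact lt_irrefl _ ha
    · rw [h] at ha
      omega
  have hge : ∀ a : Fin n, j ≤ a.val → j ≤ (π a).val := by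
    intro a ha
    by_contra hn
    have h1 := hlt (π a) (not_le.1 hn)
    rw [hππ] at h1
    rw [← h1] at hn
    exact hn ha
  have hσσ : ∀ e : Sym2 (Fin n), (e.map π).map π = e := by
    intro e
    induction e using Sym2.ind with
    | _ a b => rw [Sym2.map_mk, Sym2.map_mk, hππ, hππ]
  have hσ : Sym2.map π s(u, J) = s(u, w) := by
    rw [Sym2.map_mk, hlt u hu, hπ, Equiv.swap_apply_left]
  have hσ' : ∀ e : Sym2 (Fin n), e.map π = s(u, w) ↔ e = s(u, J) := by
    intro e
    constructor
    · intro h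
      rw [← hσσ e, h, ← hσ, hσσ]
    · intro h
      rw [h, hσ]
  have hV : ∀ e : Sym2 (Fin n), (e ∈ (pre n j).sym2 → e.map π = e) ∧
      (e ∉ (pre n j).sym2 → e.map π ∉ (pre n j).sym2) := by
    intro e
    induction e using Sym2.ind with
    | _ a b =>
      rw [Sym2.map_mk, Finset.mk_mem_sym2_iff, Finset.mk_mem_sym2_iff, mem_pre, mem_pre, mem_pre,
        mem_pre]
      refine ⟨fun h => ?_, fun h h' => h ?_⟩
      · rw [hlt a h.1, hlt b h.2]
      · constructor
        · by_contra hn
          have := hge a (not_lt.1 hn)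
          omega
        · by_contra hn
          have := hge b (not_lt.1 hn)
          omega
  have h1 : ∀ z : Cf n, dd s(u, w) (ff S lam) z =
      dd s(u, J) (ff S lam) (fun e => z (e.map π)) := by
    intro z
    have h2 : ∀ b : Bool, ff S lam (Function.update z s(u, w) b) =
        ff S lam (Function.update (fun e => z (e.map π)) s(u, J) b) := by
      intro b
      rw [← ff_perm π]
      congr 1
      funext e
      by_cases he : e = s(u, J)
      · rw [he, hσ, Function.update_self, Function.update_self]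
      · rw [Function.update_of_ne he, Function.update_of_ne]
        exact fun h => he ((hσ' e).1 h)
    unfold dd
    rw [h2, h2]
  have h3 : ∀ y : Cf n, (fun e => glue (pre n j).sym2 x y (e.map π)) =
      glue (pre n j).sym2 x (fun e => y (e.map π)) := by
    intro y
    funext e
    unfold glue
    by_cases he : e ∈ (pre n j).sym2
    · rw [(hV e).1 he, if_pos he, if_pos he]
    · rw [if_neg he, if_neg ((hV e).2 he)]
  let σ : Sym2 (Fin n) ≃ Sym2 (Fin n) := ⟨Sym2.map π, Sym2.map π, hσσ, hσσ⟩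
  unfold CE
  rw [← Ex_equiv σ (fun y => dd s(u, J) (ff S lam) (glue (pre n j).sym2 x y))]
  congr 1
  funext y
  rw [h1, h3]
  rfl

theorem ce_bound (h0 : 0 ≤ p) (h1 : p < 1) (hj : j < n) (x : Cf n) {e : Sym2 (Fin n)}
    (he : e ∈ nw n j) :
    CE p (pre n j).sym2 (dd e (ff S lam)) x ≤ S / ((1 - p) * ((n : ℝ) - j)) := by
  have hp : 0 < 1 - p := by linarith
  have hnj : (0 : ℝ) < (n : ℝ) - j := by
    have : (j : ℝ) < n := by exact_mod_cast hj
    linarith
  obtain ⟨u, hu, rfl⟩ := (mem_nw hj).1 he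
  rcases hu.lt_or_eq with hu | hu
  · have h2 := ce_sum_star (S := S) (lam := lam) (j := j) h0 h1 x hu
    rw [Finset.sum_congr rfl (fun w hw => ce_exch hj hu (Finset.mem_filter.1 hw).2 x),
      Finset.sum_const, nsmul_eq_mul] at h2
    have h3 : ((Finset.univ : Finset (Fin n)).filter (fun w => j ≤ w.val)) =
        Finset.Ici (⟨j, hj⟩ : Fin n) := by
      ext w
      rw [Finset.mem_filter, Finset.mem_Ici, Fin.le_def]
      exact ⟨fun h => h.2, fun h => ⟨Finset.mem_univ _, h⟩⟩
    rw [h3, Fin.card_Ici, Nat.cast_sub hj.le] at h2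
    rw [← div_div, le_div_iff₀ hnj, mul_comm]
    exact h2
  · have h2 : u = ⟨j, hj⟩ := Fin.ext hu
    rw [h2]
    have h3 : CE p (pre n j).sym2 (dd s((⟨j, hj⟩ : Fin n), ⟨j, hj⟩) (ff S lam)) x = 0 := by
      unfold CE
      simp only [dd_ff_diag]
      exact Ex_const 0
    rw [h3]
    positivity

end Pool.Agent.CHV
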