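import Pool.Agent.CHV.Fsc
import Pool.Agent.CHV.Exch

/-!
# CHV / Mrt: the variance of `ff` in terms of the energy

Put `E_j = Ex (CE p (pre n j).sym2 ff)^2`.
PROOFS.  `var_tel`: telescoping (`Finset.sum_range_sub`), `(pre n n).sym2 = univ` (`CE_univ`), `(pre n 0).sym2 = ∅` (`CE_empty`).
`step_triv`: `S0 = (pre n j).sym2 ⊆ T0 = (pre n (j+1)).sym2`.  For fixed `x` put `g z = CE p T0 ff (glue S0 x z)`.
`E_{j+1} - E_j = Ex_x (Ex_z g^2 - (Ex_z g)^2)` (`Ex_glue`, `CE_CE`) and for all `z, z'`: `|g z - g z'| ≤ 1`: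
`glue T0 (glue S0 x z) y` and `glue T0 (glue S0 x z') y` agree on all pairs not containing the vertex `j` (`ff_vertex`).
So `Ex_z g^2 - (Ex_z g)^2 = Ex (g - Ex g)^2 ≤ Ex (g - g z0)^2 ≤ 1`.
`step_fs`: `fs_cond` with `F = ff`, `κ = S / ((1-p) M)`, `K = S / (1-p)`, `T \ S = nw n j`; `ce_bound` and `n - j ≥ M`, `ce_sum`,
`dd_ff_nonneg`.
`var_ff`: sum over `j < n`: `step_fs` for `j + M ≤ n`, `step_triv` for the other ones (at most `M` of them).  The terms
`4 / log (1/κ) * ener` are nonnegative.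
-/

set_option autoImplicit false

namespace Pool.Agent.CHV

open Finset

variable {n S lam : ℕ} {p : ℝ}

theorem var_tel (F : Cf n → ℝ) :
    Ex p (fun x => F x ^ 2) - Ex p F ^ 2 = ∑ j ∈ Finset.range n,
      (Ex p (fun x => CE p (pre n (j + 1)).sym2 F x ^ 2) -
        Ex p (fun x => CE p (pre n j).sym2 F x ^ 2)) := by
  rw [Finset.sum_range_sub (fun j => Ex p (fun x => CE p (pre n j).sym2 F x ^ 2)) n]
  have h1 : (pre n n).sym2 = (Finset.univ : Finset (Sym2 (Fin n))) := by
    have : pre n n = Finset.univ := by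
      ext v
      simp [pre]
    rw [this, Finset.sym2_univ]
  have h2 : (pre n 0).sym2 = (∅ : Finset (Sym2 (Fin n))) := by
    have : pre n 0 = ∅ := by
      ext v
      simp [pre]
    rw [this, Finset.sym2_empty]
  rw [h1, h2]
  simp only [CE_univ, CE_empty]
  rw [Ex_const]

/-- The graphs agree outside of the vertex `j`. -/
private lemma mrt_agree {j : ℕ} (hj : j < n) (x y z z' : Cf n) (e : Sym2 (Fin n))
    (he : (⟨j, hj⟩ : Fin n) ∉ e) :
    glue (pre n (j + 1)).sym2 (glue (pre n j).sym2 x z) y e =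
      glue (pre n (j + 1)).sym2 (glue (pre n j).sym2 x z') y e := by
  unfold glue
  by_cases hT : e ∈ (pre n (j + 1)).sym2
  · have hS : e ∈ (pre n j).sym2 := by
      rw [Finset.mem_sym2_iff] at hT ⊢
      intro a ha
      have h1 := hT a ha
      rw [mem_pre] at h1 ⊢
      rcases Nat.lt_succ_iff_lt_or_eq.1 h1 with h2 | h2
      · exact h2
      · exfalso
        apply he
        have : (⟨j, hj⟩ : Fin n) = a := Fin.ext h2.symm
        rw [this]
        exact ha
    rw [if_pos hT, if_pos hT, if_pos hS, if_pos hS]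
  · rw [if_neg hT, if_neg hT]

theorem step_triv (h0 : 0 ≤ p) (h1 : p ≤ 1) {j : ℕ} (hj : j < n) :
    Ex p (fun x : Cf n => CE p (pre n (j + 1)).sym2 (ff S lam) x ^ 2) -
      Ex p (fun x : Cf n => CE p (pre n j).sym2 (ff S lam) x ^ 2) ≤ 1 := by
  have hST : (pre n j).sym2 ⊆ (pre n (j + 1)).sym2 := Finset.sym2_mono (pre_mono (Nat.le_succ j))
  have h5 : Ex p (fun x : Cf n => CE p (pre n (j + 1)).sym2 (ff S lam) x ^ 2) =
      Ex p (fun x => Ex p (fun z => CE p (pre n (j + 1)).sym2 (ff S lam)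
        (glue (pre n j).sym2 x z) ^ 2)) :=
    (Ex_glue (pre n j).sym2 (fun u => CE p (pre n (j + 1)).sym2 (ff S lam) u ^ 2)).symm
  rw [h5, ← Ex_sub]
  refine Ex_le_const h0 h1 fun x => ?_
  set g : Cf n → ℝ := fun z => CE p (pre n (j + 1)).sym2 (ff S lam) (glue (pre n j).sym2 x z)
    with hg
  have h6 : CE p (pre n j).sym2 (ff S lam) x = Ex p g := (CE_CE hST (ff S lam) x).symm
  rw [h6]
  have h7 : Ex p (fun z => g z ^ 2) - Ex p g ^ 2 ≤ 1 := by
    rw [← var_eq]
    refine (var_le g (g fun _ => false)).trans ?_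
    refine Ex_le_const h0 h1 fun z => ?_
    have h8 : |g z - g fun _ => false| ≤ 1 := by
      have h9 : (g z - g fun _ => false) = Ex p (fun y =>
          ff S lam (glue (pre n (j + 1)).sym2 (glue (pre n j).sym2 x z) y) -
          ff S lam (glue (pre n (j + 1)).sym2 (glue (pre n j).sym2 x (fun _ => false)) y)) := by
        rw [Ex_sub]
        rfl
      have h10 : ∀ y, |ff S lam (glue (pre n (j + 1)).sym2 (glue (pre n j).sym2 x z) y) -
          ff S lam (glue (pre n (j + 1)).sym2 (glue (pre n j).sym2 x (fun _ => false)) y)| ≤ 1 :=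
        fun y => ff_vertex ⟨j, hj⟩ fun e he => mrt_agree hj x y z _ e he
      rw [h9, abs_le]
      constructor
      · have h11 : Ex p (fun _ : Cf n => (-1 : ℝ)) ≤ Ex p (fun y =>
          ff S lam (glue (pre n (j + 1)).sym2 (glue (pre n j).sym2 x z) y) -
          ff S lam (glue (pre n (j + 1)).sym2 (glue (pre n j).sym2 x (fun _ => false)) y)) :=
          Ex_mono h0 h1 fun y => (abs_le.1 (h10 y)).1
        rwa [Ex_const] at h11
      · exact Ex_le_const h0 h1 fun y => (abs_le.1 (h10 y)).2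
    rw [← sq_abs]
    have h12 := abs_nonneg (g z - g fun _ => false)
    nlinarith
  exact h7

theorem step_fs (h0 : 0 < p) (h1 : p < 1) {M j : ℕ} (hM : 0 < M) (hj : j + M ≤ n) (hS : 0 < S)
    (hκ : (S : ℝ) / ((1 - p) * M) < 1) :
    Ex p (fun x : Cf n => CE p (pre n (j + 1)).sym2 (ff S lam) x ^ 2) -
      Ex p (fun x : Cf n => CE p (pre n j).sym2 (ff S lam) x ^ 2) ≤
      Real.sqrt (S / ((1 - p) * M)) * (S / (1 - p)) +
        4 / Real.log (1 / (S / ((1 - p) * M))) * ener p (n := n) S lam j := by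
  have hST : (pre n j).sym2 ⊆ (pre n (j + 1)).sym2 := Finset.sym2_mono (pre_mono (Nat.le_succ j))
  have hjn : j < n := by omega
  have hp : 0 < 1 - p := by linarith
  have hS' : (0 : ℝ) < S := by exact_mod_cast hS
  have hM' : (0 : ℝ) < M := by exact_mod_cast hM
  have hnj : (M : ℝ) ≤ (n : ℝ) - j := by
    have : ((j + M : ℕ) : ℝ) ≤ n := by exact_mod_cast hj
    push_cast at this
    linarith
  refine fs_cond h0 h1 hST (ff S lam) dd_ff_nonneg (by positivity) hκ ?_ ?_
  · intro e he x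
    refine (ce_bound h0.le h1 hjn x he).trans ?_
    gcongr
  · intro x
    exact ce_sum h0.le h1 hjn x

theorem ener_nonneg (h0 : 0 ≤ p) (h1 : p ≤ 1) (j : ℕ) : 0 ≤ ener p (n := n) S lam j :=
  Finset.sum_nonneg fun _ _ => Ex_nonneg h0 h1 fun _ => sq_nonneg _

theorem var_ff (h0 : 0 < p) (h1 : p < 1) {M : ℕ} (hM : 0 < M) (hS : 0 < S)
    (hκ : (S : ℝ) / ((1 - p) * M) < 1) :
    Ex p (fun x : Cf n => ff S lam x ^ 2) - Ex p (fun x : Cf n => ff S lam x) ^ 2 ≤
      M + n * (Real.sqrt (S / ((1 - p) * M)) * (S / (1 - p))) +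
        4 / Real.log (1 / (S / ((1 - p) * M))) *
          ∑ j ∈ Finset.range n, ener p (n := n) S lam j := by
  have hp : 0 < 1 - p := by linarith
  have hS' : (0 : ℝ) < S := by exact_mod_cast hS
  have hM' : (0 : ℝ) < M := by exact_mod_cast hM
  have hκ0 : (0 : ℝ) < S / ((1 - p) * M) := by positivity
  have hlog : 0 < Real.log (1 / (S / ((1 - p) * M))) :=
    Real.log_pos (by rw [lt_div_iff₀ hκ0]; linarith)
  set A : ℝ := Real.sqrt (S / ((1 - p) * M)) * (S / (1 - p)) with hA
  set c : ℝ := 4 / Real.log (1 / (S / ((1 - p) * M))) with hc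
  have hA0 : 0 ≤ A := by positivity
  have hc0 : 0 ≤ c := by positivity
  have hstep : ∀ j ∈ Finset.range n,
      (Ex p (fun x : Cf n => CE p (pre n (j + 1)).sym2 (ff S lam) x ^ 2) -
        Ex p (fun x : Cf n => CE p (pre n j).sym2 (ff S lam) x ^ 2)) ≤
      (if n < j + M then (1 : ℝ) else 0) + A + c * ener p (n := n) S lam j := by
    intro j hj
    have he := mul_nonneg hc0 (ener_nonneg (n := n) (S := S) (lam := lam) h0.le h1.le j)
    by_cases hjM : n < j + M
    · rw [if_pos hjM]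
      have h3 := step_triv (S := S) (lam := lam) h0.le h1.le (Finset.mem_range.1 hj)
      linarith
    · rw [if_neg hjM]
      have h3 := step_fs (lam := lam) h0 h1 hM (not_lt.1 hjM) hS hκ
      rw [← hA, ← hc] at h3
      linarith
  have h4 := var_tel (p := p) (fun x : Cf n => ff S lam x)
  rw [h4]
  refine (Finset.sum_le_sum hstep).trans ?_
  rw [Finset.sum_add_distrib, Finset.sum_add_distrib, Finset.sum_const, Finset.card_range,
    nsmul_eq_mul, ← Finset.mul_sum]
  have h5 : ∑ j ∈ Finset.range n, (if n < j + M then (1 : ℝ) else 0) ≤ M := by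
    rw [Finset.sum_boole]
    have h6 : (Finset.range n).filter (fun j => n < j + M) ⊆ Finset.Ico (n - M) n := by
      intro j hj
      rw [Finset.mem_filter, Finset.mem_range] at hj
      rw [Finset.mem_Ico]
      omega
    have h7 := Finset.card_le_card h6
    rw [Nat.card_Ico] at h7
    have h8 : ((Finset.range n).filter (fun j => n < j + M)).card ≤ M := by omega
    exact_mod_cast h8
  linarith

end Pool.Agent.CHV
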