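import Pool.Agent.CHV.Deg

/-!
# CHV / Cnt: common pairs of two packings at the vertex `j`

Put `T = pre n (j + 1)` (the vertices `≤ j`), `v = j`.
PROOFS.  The pairs `e ∈ nw n j` with `e ∈ UP P`, `e ∈ UP Q` are the `s(u, v)`, `u < v`, `u` in the class `I ∈ P` of `v` and in the
class `J ∈ Q` of `v`; if `v` is in no class of `P` or `Q` there is none.  So the number is `≤ t - 1`, `t = (I ∩ J ∩ T).card ≥ 1`
(`v ∈ I ∩ J ∩ T`).  `count_triv`: `deg_le` for the vertex `j`.
`count_le`: `a = S - I.card`, `b = S - J.card`.  `NoMid`: `t (S - t) < S (a + b + B)`, `t ≤ S`.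
Case `2 t ≤ S`: `S - t ≥ S/2`, so `t < 2 (a + b + B)`; and `wt S B P v ≥ 2 a`, `wt S B Q v ≥ 2 b`
(`Finset.single_le_sum` for the class containing `v`).
Case `2 t > S`: `S - t < 2 (a + b + B)` (as `t (S - t) ≥ S (S - t) / 2`).  `(I.filter (v < ·)).card ≤ I.card - t ≤ S - t` since
`I ∩ J ∩ T` consists of elements `≤ v`; if `b ≤ a` it is `< 4 a + 2 B` and `wt S B P v ≥ S ≥ t - 1`; if `a ≤ b` use `J` and `Q`.
-/

set_option autoImplicit false

namespace Pool.Agent.CHV

open Finset

variable {n S lam B j : ℕ}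

theorem count_triv (hj : j < n) {y : Cf n} {P Q : Finset (Finset (Fin n))}
    (hP : Pack S lam y P) :
    ((nw n j).filter (fun e => e ∈ UP P ∧ e ∈ UP Q)).card ≤ S := by
  refine le_trans (Finset.card_le_card ?_) (deg_le hP ⟨j, hj⟩)
  intro e he
  rw [Finset.mem_filter] at he ⊢
  obtain ⟨u, -, rfl⟩ := (mem_nw hj).1 he.1
  exact ⟨he.2.1, Sym2.mem_mk_right _ _⟩

private theorem wt_ge {P : Finset (Finset (Fin n))} {I : Finset (Fin n)} {v : Fin n} (hI : I ∈ P)
    (hv : v ∈ I) : 2 * (S - I.card) +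
      (if (I.filter (fun w => v < w)).card < 4 * (S - I.card) + 2 * B then S else 0) ≤
      wt S B P v := by
  unfold wt
  exact Finset.single_le_sum (f := fun I : Finset (Fin n) => (2 * (S - I.card) +
    if (I.filter (fun w => v < w)).card < 4 * (S - I.card) + 2 * B then S else 0))
    (fun _ _ => Nat.zero_le _) (Finset.mem_filter.2 ⟨hI, hv⟩)

theorem count_le (hj : j < n) {y z : Cf n} {P Q : Finset (Finset (Fin n))}
    (hP : Pack S lam y P) (hQ : Pack S lam z Q) (hB : NoMid S B (pre n (j + 1)) y z) :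
    ((nw n j).filter (fun e => e ∈ UP P ∧ e ∈ UP Q)).card ≤
      wt S B P ⟨j, hj⟩ + wt S B Q ⟨j, hj⟩ + 2 * B := by
  rcases Finset.eq_empty_or_nonempty
    ((nw n j).filter (fun e => e ∈ UP P ∧ e ∈ UP Q)) with h0 | ⟨e, he⟩
  · rw [h0]
    simp
  set v : Fin n := ⟨j, hj⟩ with hv
  rw [Finset.mem_filter] at he
  obtain ⟨u, hu, rfl⟩ := (mem_nw hj).1 he.1
  obtain ⟨I, hI, heI⟩ := mem_UP.1 he.2.1
  obtain ⟨J, hJ, heJ⟩ := mem_UP.1 he.2.2
  have hvI : v ∈ I := (mem_prs.1 heI).2.1
  have hvJ : v ∈ J := (mem_prs.1 heJ).2.1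
  set T := pre n (j + 1) with hT
  have hvT : v ∈ I ∩ J ∩ T := by
    rw [Finset.mem_inter, Finset.mem_inter]
    exact ⟨⟨hvI, hvJ⟩, mem_pre.2 (Nat.lt_succ_self j)⟩
  set t := (I ∩ J ∩ T).card with ht
  have ht1 : 1 ≤ t := Finset.card_pos.2 ⟨v, hvT⟩
  have hcard : ((nw n j).filter (fun e => e ∈ UP P ∧ e ∈ UP Q)).card ≤ t := by
    have h1 : (nw n j).filter (fun e => e ∈ UP P ∧ e ∈ UP Q) ⊆
        (I ∩ J ∩ T).image (fun w => s(w, v)) := by
      intro e' he'
      rw [Finset.mem_filter] at he'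
      obtain ⟨w, hw, rfl⟩ := (mem_nw hj).1 he'.1
      obtain ⟨I', hI', heI'⟩ := mem_UP.1 he'.2.1
      obtain ⟨J', hJ', heJ'⟩ := mem_UP.1 he'.2.2
      have hII : I' = I := by
        by_contra hne
        exact Finset.disjoint_left.1 (hP.disj I' hI' I hI hne) (mem_prs.1 heI').2.1 hvI
      have hJJ : J' = J := by
        by_contra hne
        exact Finset.disjoint_left.1 (hQ.disj J' hJ' J hJ hne) (mem_prs.1 heJ').2.1 hvJ
      rw [hII] at heI'
      rw [hJJ] at heJ'
      rw [Finset.mem_image]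
      refine ⟨w, ?_, rfl⟩
      rw [Finset.mem_inter, Finset.mem_inter]
      exact ⟨⟨(mem_prs.1 heI').1, (mem_prs.1 heJ').1⟩, mem_pre.2 (Nat.lt_succ_of_le hw)⟩
    exact (Finset.card_le_card h1).trans Finset.card_image_le
  have hIS := hP.le I hI
  have hJS := hQ.le J hJ
  have hNM := hB I J hIS hJS (hP.ind I hI) (hQ.ind J hJ)
  have hfilt : ∀ K : Finset (Fin n), I ∩ J ∩ T ⊆ K →
      (K.filter (fun w => v < w)).card + t ≤ K.card := by
    intro K hK
    rw [ht, ← Finset.card_union_of_disjoint]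
    · refine Finset.card_le_card (Finset.union_subset (Finset.filter_subset _ _) hK)
    · rw [Finset.disjoint_left]
      intro w hw hw'
      rw [Finset.mem_filter] at hw
      rw [Finset.mem_inter] at hw'
      have h2 := mem_pre.1 hw'.2
      have h3 : v.val < w.val := hw.2
      have h4 : v.val = j := rfl
      omega
  have hfI := hfilt I (Finset.inter_subset_left.trans Finset.inter_subset_left)
  have hfJ := hfilt J (Finset.inter_subset_left.trans Finset.inter_subset_right)
  have hwI := wt_ge (S := S) (B := B) hI hvI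
  have hwJ := wt_ge (S := S) (B := B) hJ hvJ
  rw [← ht] at hNM
  have htS : t ≤ S := by omega
  have hS0 : 0 < S := by omega
  obtain ⟨q, hq⟩ : ∃ q, S = t + q := ⟨S - t, by omega⟩
  have hq' : S - t = q := by omega
  rw [hq'] at hNM
  set a := S - I.card with ha
  set b := S - J.card with hb
  by_cases hc : 2 * t ≤ S
  · have h5 : t < 2 * (a + b + B) := by
      by_contra hcon
      push Not at hcon
      have h6 : t ≤ q := by omega
      nlinarith
    have h7 : 2 * a ≤ wt S B P v := le_trans (Nat.le_add_right _ _) hwI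
    have h8 : 2 * b ≤ wt S B Q v := le_trans (Nat.le_add_right _ _) hwJ
    omega
  · have h5 : q < 2 * (a + b + B) := by
      by_contra hcon
      push Not at hcon
      have h6 : q < t := by omega
      nlinarith
    rcases le_total b a with hba | hab
    · rw [if_pos (by omega)] at hwI
      omega
    · rw [if_pos (by omega)] at hwJ
      omega

end Pool.Agent.CHV
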