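import Pool.Agent.CHV.PrM
import Pool.Agent.CHV.Par

/-!
# CHV / Alf: no independent sets with more than `S` elements

PROOF.  `ℓ = -log (1-p)`, `q = 1-p = e^(-ℓ)`, `L = LL p n`, `log n = ℓ L`.  `K = ⌈2/ℓ⌉₊ + 6`, `S = SS p K n`.
If there is an independent set with more than `S` elements there is one with `s = S + 1` elements (`Ind_mono`,
`Finset.exists_subset_card_eq`).  By `one_moment` and `s! ≥ (s/e)^s` the probability is
`≤ exp (s (ℓ L - ℓ S / 2 - log s + 1))` (`C(s,2) = s S / 2`) and `ℓ L ≤ ℓ (S - K)/2 + log L` (`SS_low`), `log L ≤ log s`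
(`SS_ge`), so it is `≤ exp (s (1 - ℓ K / 2)) ≤ exp (- 3 ℓ s) ≤ exp (- 3 ℓ L) = n^(-3) ≤ n^(-2)`.
-/

set_option autoImplicit false

namespace Pool.Agent.CHV

open Filter Finset

variable {p : ℝ}

private theorem bound {n s : ℕ} {q : ℝ} (hn : 1 ≤ n) (hs : 1 ≤ s) (hq : 0 < q) :
    (n : ℝ) ^ s / s.factorial * q ^ (s.choose 2) ≤
      Real.exp (s * (Real.log n - Real.log s + 1 + Real.log q * ((s : ℝ) - 1) / 2)) := by
  have hn0 : (0 : ℝ) < n := by exact_mod_cast hn
  have hs0 : (0 : ℝ) < s := by exact_mod_cast hs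
  have e1 : (n : ℝ) ^ s = Real.exp (s * Real.log n) := by
    rw [Real.exp_nat_mul, Real.exp_log hn0]
  have e2 : (s : ℝ) ^ s = Real.exp (s * Real.log s) := by
    rw [Real.exp_nat_mul, Real.exp_log hs0]
  have e3 : q ^ (s.choose 2) = Real.exp (Real.log q * ((s : ℝ) * (s - 1) / 2)) := by
    have h1 : Real.log q * ((s : ℝ) * (s - 1) / 2) = (s.choose 2 : ℕ) * Real.log q := by
      rw [Nat.cast_choose_two]
      ring
    rw [h1, Real.exp_nat_mul, Real.exp_log hq]
  have e4 := Real.pow_div_factorial_le_exp (s : ℝ) hs0.le s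
  have e5 : (n : ℝ) ^ s / s.factorial = (n : ℝ) ^ s / (s : ℝ) ^ s * ((s : ℝ) ^ s / s.factorial) := by
    have : (s : ℝ) ^ s ≠ 0 := by positivity
    field_simp
  have e6 : (n : ℝ) ^ s / (s : ℝ) ^ s = Real.exp (s * Real.log n - s * Real.log s) := by
    rw [e1, e2, Real.exp_sub]
  rw [e5, e6, e3]
  calc Real.exp (s * Real.log n - s * Real.log s) * ((s : ℝ) ^ s / s.factorial) *
        Real.exp (Real.log q * ((s : ℝ) * (s - 1) / 2))
      ≤ Real.exp (s * Real.log n - s * Real.log s) * Real.exp s *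
        Real.exp (Real.log q * ((s : ℝ) * (s - 1) / 2)) := by
        refine mul_le_mul_of_nonneg_right ?_ (Real.exp_pos _).le
        exact mul_le_mul_of_nonneg_left e4 (Real.exp_pos _).le
    _ = _ := by
        rw [← Real.exp_add, ← Real.exp_add]
        congr 1
        ring

theorem alpha_prob (h0 : 0 < p) (h1 : p < 1) : ∃ K : ℕ, ∀ᶠ n : ℕ in atTop,
    Ex p (fun x : Cf n => ind (¬ ∀ I : Finset (Fin n), Ind x I → I.card ≤ SS p K n)) ≤
      1 / (n : ℝ) ^ 2 := by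
  have hl := ell_pos h0 h1
  obtain ⟨l, hld⟩ : ∃ l, l = -Real.log (1 - p) := ⟨_, rfl⟩
  rw [← hld] at hl
  refine ⟨⌈2 / l⌉₊ + 6, ?_⟩
  obtain ⟨K, hK⟩ : ∃ K, K = ⌈2 / l⌉₊ + 6 := ⟨_, rfl⟩
  rw [← hK]
  have hK1 : 2 / l + 6 ≤ (K : ℝ) := by
    rw [hK]
    push_cast
    linarith [Nat.le_ceil (2 / l)]
  have hK2 : 1 + 3 * l ≤ l * K / 2 := by
    have h2 := mul_le_mul_of_nonneg_left hK1 hl.le
    rw [mul_add, mul_div_cancel₀ _ hl.ne'] at h2
    linarith
  filter_upwards [SS_low h0 h1 K, SS_ge h0 h1 K, (tendsto_LL h0 h1).eventually_ge_atTop 1,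
    eventually_ge_atTop 1] with n hlow hge hL hn
  have hn0 : (0 : ℝ) < n := by exact_mod_cast hn
  have hn1 : (1 : ℝ) ≤ n := by exact_mod_cast hn
  rw [← hld] at hlow
  obtain ⟨L, hLd⟩ : ∃ L, L = LL p n := ⟨_, rfl⟩
  rw [← hLd] at hlow hge hL
  have hlog : Real.log n = l * L := by
    rw [hLd, hld]
    unfold LL
    rw [mul_div_cancel₀]
    rw [← hld]
    exact hl.ne'
  have h2 : Ex p (fun x : Cf n => ind (¬ ∀ I : Finset (Fin n), Ind x I → I.card ≤ SS p K n)) ≤
      Ex p (fun x : Cf n => ind (∃ I : Finset (Fin n), I.card = SS p K n + 1 ∧ Ind x I)) := by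
    refine Ex_mono h0.le h1.le fun x => ind_mono fun h => ?_
    push Not at h
    obtain ⟨I, hI, hc⟩ := h
    obtain ⟨J, hJ, hJc⟩ := Finset.exists_subset_card_eq (show SS p K n + 1 ≤ I.card by omega)
    exact ⟨J, hJc, Ind_mono hI hJ⟩
  refine h2.trans ((one_moment h0.le h1.le _).trans ?_)
  refine (bound hn (Nat.succ_le_succ (Nat.zero_le _)) (by linarith)).trans ?_
  obtain ⟨S, hS⟩ : ∃ S : ℝ, S = (SS p K n : ℝ) := ⟨_, rfl⟩
  rw [← hS] at hlow hge
  push_cast
  rw [← hS]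
  have h3 : Real.log (1 - p) = -l := by rw [hld, neg_neg]
  rw [h3, hlog]
  have h4 : Real.log L ≤ Real.log (S + 1) := Real.log_le_log (by linarith) (by linarith)
  have h5 : l * L - Real.log L + l * K / 2 ≤ l * S / 2 := by
    have h6 := mul_le_mul_of_nonneg_left hlow hl.le
    have h7 : l * (2 * L - 2 * (Real.log L / l) + K) = 2 * (l * L) - 2 * Real.log L + l * K := by
      field_simp
    rw [h7] at h6
    linarith
  have h6 : l * L - Real.log (S + 1) + 1 + -l * (S + 1 - 1) / 2 ≤ -(3 * l) := by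
    have : -l * (S + 1 - 1) / 2 = -(l * S / 2) := by ring
    rw [this]
    linarith
  have h7 : (S + 1) * (l * L - Real.log (S + 1) + 1 + -l * (S + 1 - 1) / 2) ≤ -(2 * (l * L)) := by
    have h8 := mul_le_mul_of_nonneg_left h6 (show 0 ≤ S + 1 by linarith)
    have h9 : l * L ≤ l * (S + 1) := mul_le_mul_of_nonneg_left (by linarith) hl.le
    have h10 : 0 ≤ l * (S + 1) := mul_nonneg hl.le (by linarith)
    have h11 : (S + 1) * -(3 * l) = -(3 * (l * (S + 1))) := by ring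
    rw [h11] at h8
    linarith
  refine (Real.exp_le_exp.2 h7).trans (le_of_eq ?_)
  rw [← hlog, Real.exp_neg, one_div]
  congr 1
  have : 2 * Real.log (n : ℝ) = ((2 : ℕ) : ℝ) * Real.log n := by norm_num
  rw [this, Real.exp_nat_mul, Real.exp_log hn0]

end Pool.Agent.CHV
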