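import Pool.Agent.CHV.PackL

/-!
# CHV / Chi: the chromatic number and the packing functional

PROOFS.  `Ind x I` iff `I` is an independent set of `gr x` (`Ind_iff`, `gr_adj`).  `Fin n` is finite, so the chromatic number
is finite: `SimpleGraph.colorable_of_fintype`, `SimpleGraph.Colorable.chromaticNumber_le`, `ENat.toNat_le_toNat`...
`chi_ge`: take a colouring `C` with `k = (gr x).chromaticNumber.toNat` colours (`Fin k`).  The colour classes with more than `lam`
elements form a packing (sizes `≤ S` by hypothesis), its value is `≥ ∑_{classes} (|I| - lam) ≥ n - lam k` (integers).  So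
`W ≥ n - lam k`.
`chi_le`: `P = opt S lam x`, `U` = uncovered vertices.  `|U| < m`: otherwise `U` contains an independent set `I` with `lam + 1 ≤ S`
elements and `insert I P` is a packing with larger value (`lam + 1 ≤ S` as `lam < S`; `I ∉ P` since `I` is disjoint from all
classes and nonempty).  Colour the classes of `P` with one colour each and the vertices of `U` with different colours:
`χ ≤ P.card + |U| ≤ P.card + m`, and `ff = n - val = |U| + lam * P.card ≥ lam * P.card` (`val_add`), so `P.card ≤ ff / lam`.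
`chi_le_n`: `χ ≤ n`.
-/

set_option autoImplicit false

namespace Pool.Agent.CHV

open Finset

variable {n S lam : ℕ}

private theorem chi_adj {x : Cf n} {u v : Fin n} : (gr x).Adj u v ↔ x s(u, v) = true ∧ u ≠ v := by
  unfold gr
  rw [SimpleGraph.fromEdgeSet_adj]
  rfl

private theorem chi_mem {I : Finset (Fin n)} {u v : Fin n} :
    s(u, v) ∈ prs I ↔ (u ∈ I ∧ v ∈ I) ∧ u ≠ v := by
  unfold prs
  rw [Finset.mem_filter, Finset.mk_mem_sym2_iff, Sym2.mk_isDiag_iff]

private theorem chi_ind {x : Cf n} {I : Finset (Fin n)} :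
    Ind x I ↔ ∀ u ∈ I, ∀ v ∈ I, ¬ (gr x).Adj u v := by
  constructor
  · intro h u hu v hv hadj
    rw [chi_adj] at hadj
    have h1 := h s(u, v) (chi_mem.2 ⟨⟨hu, hv⟩, hadj.2⟩)
    rw [hadj.1] at h1
    exact Bool.noConfusion h1
  · intro h e he
    induction e using Sym2.ind with
    | _ u v =>
      rw [chi_mem] at he
      by_contra h1
      rw [Bool.not_eq_false] at h1
      exact h u he.1.1 v he.1.2 (chi_adj.2 ⟨h1, he.2⟩)

theorem chi_ge (x : Cf n) (h : ∀ I : Finset (Fin n), Ind x I → I.card ≤ S) :
    ff S lam x ≤ lam * ((gr x).chromaticNumber.toNat : ℝ) := by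
  classical
  have hcol : (gr x).Colorable (gr x).chromaticNumber.toNat :=
    SimpleGraph.colorable_of_chromaticNumber_ne_top
      (SimpleGraph.chromaticNumber_ne_top_iff_exists.2 ⟨_, SimpleGraph.colorable_of_fintype _⟩)
  obtain ⟨k, hk⟩ : ∃ k, k = (gr x).chromaticNumber.toNat := ⟨_, rfl⟩
  rw [← hk] at hcol ⊢
  obtain ⟨C⟩ := hcol
  obtain ⟨cl, hcl⟩ : ∃ cl : Fin k → Finset (Fin n), ∀ c v, v ∈ cl c ↔ C v = c :=
    ⟨fun c => univ.filter fun v => C v = c, fun c v => by simp⟩
  have hind : ∀ c, Ind x (cl c) := by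
    intro c
    rw [chi_ind]
    intro u hu v hv hadj
    rw [hcl] at hu hv
    exact C.valid hadj (hu.trans hv.symm)
  have hP : Pack S lam x (((univ.filter fun c => lam < (cl c).card)).image cl) := by
    refine ⟨?_, ?_, ?_, ?_⟩
    · intro I hI
      obtain ⟨c, -, rfl⟩ := Finset.mem_image.1 hI
      exact hind c
    · intro I hI
      obtain ⟨c, -, rfl⟩ := Finset.mem_image.1 hI
      exact h _ (hind c)
    · intro I hI
      obtain ⟨c, hc, rfl⟩ := Finset.mem_image.1 hI
      exact (Finset.mem_filter.1 hc).2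
    · intro I hI J hJ hne
      obtain ⟨c, -, rfl⟩ := Finset.mem_image.1 hI
      obtain ⟨d, -, rfl⟩ := Finset.mem_image.1 hJ
      rw [Finset.disjoint_left]
      intro v hv hv'
      rw [hcl] at hv hv'
      exact hne (by rw [← hv, ← hv'])
  have hval : val lam (((univ.filter fun c => lam < (cl c).card)).image cl) =
      ∑ c, ((cl c).card - lam) := by
    unfold val
    rw [Finset.sum_image]
    · rw [Finset.sum_filter]
      refine Finset.sum_congr rfl fun c _ => ?_
      split_ifs with h1
      · rfl
      · omega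
    · intro c hc d hd hcd
      have h1 := (Finset.mem_filter.1 hc).2
      obtain ⟨v, hv⟩ := Finset.card_pos.1 (lt_of_le_of_lt (Nat.zero_le _) h1)
      have h2 : v ∈ cl d := hcd ▸ hv
      rw [hcl] at hv h2
      rw [← hv, ← h2]
  have hsum : ∑ c, (cl c).card = n := by
    have h1 := Finset.card_eq_sum_card_fiberwise (f := C) (s := (univ : Finset (Fin n)))
      (t := univ) (fun v _ => Finset.mem_univ _)
    rw [Finset.card_univ, Fintype.card_fin] at h1
    refine Eq.trans ?_ h1.symm
    refine Finset.sum_congr rfl fun c _ => ?_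
    congr 1
    ext v
    rw [hcl]
    simp
  have h1 : n ≤ val lam (((univ.filter fun c => lam < (cl c).card)).image cl) + lam * k := by
    rw [hval]
    refine hsum.symm.le.trans ?_
    have h2 : ∑ c : Fin k, lam = lam * k := by
      rw [Finset.sum_const, Finset.card_univ, Fintype.card_fin, smul_eq_mul, mul_comm]
    rw [← h2, ← Finset.sum_add_distrib]
    refine Finset.sum_le_sum fun c _ => ?_
    omega
  have h2 := opt_max S lam x hP
  have h3 : n ≤ val lam (opt S lam x) + lam * k := by omega
  have h4 : (n : ℝ) ≤ (val lam (opt S lam x) : ℝ) + lam * k := by exact_mod_cast h3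
  unfold ff
  linarith

theorem chi_le {m : ℕ} (x : Cf n) (hl : lam < S) (h0 : 0 < lam)
    (h : ∀ M : Finset (Fin n), m ≤ M.card → ∃ I ⊆ M, Ind x I ∧ I.card = lam + 1) :
    ((gr x).chromaticNumber.toNat : ℝ) ≤ ff S lam x / lam + m := by
  classical
  obtain ⟨P, hPe⟩ : ∃ P, P = opt S lam x := ⟨_, rfl⟩
  have hP : Pack S lam x P := hPe ▸ opt_pack S lam x
  obtain ⟨U, hU⟩ : ∃ U : Finset (Fin n), ∀ v, v ∈ U ↔ ∀ I ∈ P, v ∉ I :=
    ⟨univ.filter fun v => ∀ I ∈ P, v ∉ I, fun v => by simp⟩
  have hUm : U.card ≤ m := by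
    by_contra hlt
    rw [not_le] at hlt
    obtain ⟨I, hIU, hI, hIc⟩ := h U hlt.le
    have hnot : I ∉ P := by
      intro hIP
      obtain ⟨v, hv⟩ : I.Nonempty := Finset.card_pos.1 (by omega)
      exact (hU v).1 (hIU hv) I hIP hv
    have hdis : ∀ J ∈ P, Disjoint I J := by
      intro J hJ
      rw [Finset.disjoint_left]
      intro v hv hv'
      exact (hU v).1 (hIU hv) J hJ hv'
    have hnew : Pack S lam x (insert I P) := by
      refine ⟨?_, ?_, ?_, ?_⟩
      · intro J hJ
        rcases Finset.mem_insert.1 hJ with rfl | hJ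
        · exact hI
        · exact hP.ind J hJ
      · intro J hJ
        rcases Finset.mem_insert.1 hJ with rfl | hJ
        · omega
        · exact hP.le J hJ
      · intro J hJ
        rcases Finset.mem_insert.1 hJ with rfl | hJ
        · omega
        · exact hP.gt J hJ
      · intro J hJ J' hJ' hne
        rcases Finset.mem_insert.1 hJ with h1 | hJ
        · rcases Finset.mem_insert.1 hJ' with h2 | hJ'
          · exact absurd (h1.trans h2.symm) hne
          · rw [h1]
            exact hdis J' hJ'
        · rcases Finset.mem_insert.1 hJ' with h2 | hJ'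
          · rw [h2]
            exact (hdis J hJ).symm
          · exact hP.disj J hJ J' hJ' hne
    have h1 := opt_max S lam x hnew
    rw [← hPe] at h1
    unfold val at h1
    rw [Finset.sum_insert hnot] at h1
    omega
  have hex : ∀ v, v ∉ U → ∃ I ∈ P, v ∈ I := by
    intro v hv
    by_contra h1
    push Not at h1
    exact hv ((hU v).2 h1)
  let cf : Fin n → {I // I ∈ P} ⊕ {v // v ∈ U} := fun v =>
    if hv : v ∈ U then Sum.inr ⟨v, hv⟩
    else Sum.inl ⟨(hex v hv).choose, (hex v hv).choose_spec.1⟩
  have hval : ∀ {u v : Fin n}, (gr x).Adj u v → cf u ≠ cf v := by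
    intro u v hadj heq
    by_cases hu : u ∈ U
    · by_cases hv : v ∈ U
      · simp only [cf, dif_pos hu, dif_pos hv, Sum.inr.injEq, Subtype.mk.injEq] at heq
        exact (gr x).ne_of_adj hadj heq
      · simp only [cf, dif_pos hu, dif_neg hv] at heq
        exact absurd heq (by simp)
    · by_cases hv : v ∈ U
      · simp only [cf, dif_neg hu, dif_pos hv] at heq
        exact absurd heq (by simp)
      · simp only [cf, dif_neg hu, dif_neg hv, Sum.inl.injEq, Subtype.mk.injEq] at heq
        have h1 := (hex u hu).choose_spec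
        have h2 := (hex v hv).choose_spec
        rw [← heq] at h2
        exact chi_ind.1 (hP.ind _ h1.1) u h1.2 v h2.2 hadj
  have hcol : (gr x).Colorable (Fintype.card ({I // I ∈ P} ⊕ {v // v ∈ U})) :=
    (SimpleGraph.Coloring.mk cf hval).colorable
  have hcard : Fintype.card ({I // I ∈ P} ⊕ {v // v ∈ U}) = P.card + U.card := by
    rw [Fintype.card_sum, Fintype.card_coe, Fintype.card_coe]
  rw [hcard] at hcol
  have h1 : (gr x).chromaticNumber.toNat ≤ P.card + U.card :=
    ENat.toNat_le_of_le_natCast hcol.chromaticNumber_le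
  have h2 : ((gr x).chromaticNumber.toNat : ℝ) ≤ (P.card : ℝ) + U.card := by exact_mod_cast h1
  have h3 : (U.card : ℝ) ≤ m := by exact_mod_cast hUm
  have h4 := val_add hP
  have h5 := sum_card_le hP
  have h6 : val lam P + lam * P.card ≤ n := by omega
  have h7 : (val lam P : ℝ) + lam * P.card ≤ n := by exact_mod_cast h6
  have h8 : (P.card : ℝ) ≤ ff S lam x / lam := by
    have hl0 : (0 : ℝ) < lam := by exact_mod_cast h0
    rw [le_div_iff₀ hl0]
    unfold ff
    rw [← hPe]
    linarith
  linarith

theorem chi_le_n (x : Cf n) : (gr x).chromaticNumber.toNat ≤ n := by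
  have h := SimpleGraph.colorable_of_fintype (gr x)
  rw [Fintype.card_fin] at h
  exact ENat.toNat_le_of_le_natCast h.chromaticNumber_le

end Pool.Agent.CHV
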