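import Pool.Agent.CHV.Fin1
import Pool.Agent.CHV.Alf
import Pool.Agent.CHV.Sml
import Pool.Agent.CHV.Chi

/-!
# CHV / Fin2: the variance of the chromatic number is `O(n / (log n)^3)`
-/

set_option autoImplicit false

namespace Pool.Agent.CHV

open Filter Finset

variable {p : ℝ}

/-- the chromatic number as a function of the bits -/
noncomputable def chi {n : ℕ} (x : Cf n) : ℝ := ((gr x).chromaticNumber.toNat : ℝ)

theorem chi_close {n S lam m : ℕ} (x : Cf n) (hl : lam < S) (h0 : 0 < lam) :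
    (chi x - ff S lam x / lam) ^ 2 ≤ (m : ℝ) ^ 2 + (n : ℝ) ^ 2 *
      (ind (¬ ∀ I : Finset (Fin n), Ind x I → I.card ≤ S) +
        ind (¬ ∀ M : Finset (Fin n), m ≤ M.card → ∃ I ⊆ M, Ind x I ∧ I.card = lam + 1)) := by
  have hlam : (0 : ℝ) < lam := by exact_mod_cast h0
  have hlam1 : (1 : ℝ) ≤ lam := by exact_mod_cast h0
  have hn0 : (0 : ℝ) ≤ (n : ℝ) ^ 2 := by positivity
  by_cases hA : ∀ I : Finset (Fin n), Ind x I → I.card ≤ S
  · by_cases hM : ∀ M : Finset (Fin n), m ≤ M.card → ∃ I ⊆ M, Ind x I ∧ I.card = lam + 1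
    · have e1 := chi_ge (lam := lam) x hA
      have e2 := chi_le x hl h0 hM
      have e3 : ff S lam x / lam ≤ chi x := by
        rw [div_le_iff₀ hlam, mul_comm]
        exact e1
      have e4 : chi x ≤ ff S lam x / lam + m := e2
      have e5 : (chi x - ff S lam x / lam) ^ 2 ≤ (m : ℝ) ^ 2 := by
        apply pow_le_pow_left₀ (by linarith)
        linarith
      have e6 := ind_nonneg (¬ ∀ I : Finset (Fin n), Ind x I → I.card ≤ S)
      have e7 := ind_nonneg (¬ ∀ M : Finset (Fin n), m ≤ M.card →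
        ∃ I ⊆ M, Ind x I ∧ I.card = lam + 1)
      have e8 := mul_nonneg hn0 (add_nonneg e6 e7)
      linarith
    · have e1 : (chi x - ff S lam x / lam) ^ 2 ≤ (n : ℝ) ^ 2 := by
        have c1 : chi x ≤ n := by
          unfold chi
          exact_mod_cast chi_le_n x
        have c2 : 0 ≤ chi x := by
          unfold chi
          exact Nat.cast_nonneg _
        have c3 : 0 ≤ ff S lam x / lam := div_nonneg (ff_nonneg x) hlam.le
        have c4 : ff S lam x / lam ≤ n := by
          rw [div_le_iff₀ hlam]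
          have := ff_le (S := S) (lam := lam) x
          nlinarith [Nat.cast_nonneg (α := ℝ) n]
        apply sq_le_sq'
        · linarith
        · linarith
      rw [ind_true hM]
      have e6 := ind_nonneg (¬ ∀ I : Finset (Fin n), Ind x I → I.card ≤ S)
      have e8 := mul_nonneg hn0 e6
      have e9 : (0 : ℝ) ≤ (m : ℝ) ^ 2 := by positivity
      nlinarith
  · have e1 : (chi x - ff S lam x / lam) ^ 2 ≤ (n : ℝ) ^ 2 := by
      have c1 : chi x ≤ n := by
        unfold chi
        exact_mod_cast chi_le_n x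
      have c2 : 0 ≤ chi x := by
        unfold chi
        exact Nat.cast_nonneg _
      have c3 : 0 ≤ ff S lam x / lam := div_nonneg (ff_nonneg x) hlam.le
      have c4 : ff S lam x / lam ≤ n := by
        rw [div_le_iff₀ hlam]
        have := ff_le (S := S) (lam := lam) x
        nlinarith [Nat.cast_nonneg (α := ℝ) n]
      apply sq_le_sq'
      · linarith
      · linarith
    rw [ind_true hA]
    have e6 := ind_nonneg (¬ ∀ M : Finset (Fin n), m ≤ M.card →
        ∃ I ⊆ M, Ind x I ∧ I.card = lam + 1)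
    have e8 := mul_nonneg hn0 e6
    have e9 : (0 : ℝ) ≤ (m : ℝ) ^ 2 := by positivity
    nlinarith

theorem var_chi (h0 : 0 < p) (h1 : p < 1) : ∃ C : ℝ, 0 < C ∧ ∀ᶠ n : ℕ in atTop,
    Ex p (fun x : Cf n => (chi x - Ex p (fun x : Cf n => chi x)) ^ 2) ≤
      C * (n / Real.log n ^ 3) := by
  obtain ⟨K, hK⟩ := alpha_prob h0 h1
  obtain ⟨C, hC0, hC⟩ := var_final h0 h1 K
  have hell := ell_pos h0 h1
  set ell := -Real.log (1 - p) with hell_def
  refine ⟨2 * (C * (289 * ell ^ 2)) + 2, by positivity, ?_⟩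
  filter_upwards [hK, hC, small_ind h0 h1, SS_ge h0 h1 K, lm_low h0 h1, lm_up h0 h1,
    LL_pow_le h0 h1 3 (6 * ell ^ 3) (c := 1 / 2) (by norm_num),
    (tendsto_LL h0 h1).eventually_ge_atTop 17, eventually_ge_atTop 2]
    with n hKn hCn hSn hS1 hl1 hl2 e1 hL17 hn2
  set S := SS p K n with hS_def
  set lam := lm p n with hlam_def
  set L := LL p n with hL_def
  have hn' : (0 : ℝ) < n := by exact_mod_cast (by omega : 0 < n)
  have hn1 : (1 : ℝ) < n := by exact_mod_cast (by omega : 1 < n)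
  have hlogn : 0 < Real.log n := Real.log_pos hn1
  have hL0 : 0 < L := by linarith
  have hlpos : (1 : ℝ) ≤ lam := by
    have : (17 : ℝ) / 17 ≤ L / 17 := by linarith
    linarith
  have hlpos' : 0 < lam := by
    have : (0 : ℝ) < lam := by linarith
    exact_mod_cast this
  have hlam' : (0 : ℝ) < lam := by linarith
  have hlS : lam < S := by
    have : (lam : ℝ) < S := by linarith
    exact_mod_cast this
  have hlogL : Real.log n = ell * L := log_eq h0 h1 n
  set m := ⌈(n : ℝ) ^ (1 / 4 : ℝ)⌉₊ with hm_def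
  have hv := var_le_add (p := p) h0.le h1.le (fun x : Cf n => chi x)
    (fun x : Cf n => ff S lam x / lam)
  refine hv.trans ?_
  -- the variance of ff / lam
  have hG : Ex p (fun x : Cf n => (ff S lam x / lam - Ex p (fun x : Cf n => ff S lam x / lam)) ^ 2)
      = 1 / (lam : ℝ) ^ 2 *
        Ex p (fun x : Cf n => (ff S lam x - Ex p (fun x : Cf n => ff S lam x)) ^ 2) := by
    have e2 : Ex p (fun x : Cf n => ff S lam x / lam) =
        (1 / (lam : ℝ)) * Ex p (fun x : Cf n => ff S lam x) := by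
      rw [← Ex_smul]
      congr 1
      funext x
      ring
    rw [e2]
    generalize Ex p (fun x : Cf n => ff S lam x) = μ
    rw [← Ex_smul]
    congr 1
    funext x
    field_simp
  rw [hG]
  have t1 : 1 / (lam : ℝ) ^ 2 *
        Ex p (fun x : Cf n => (ff S lam x - Ex p (fun x : Cf n => ff S lam x)) ^ 2) ≤
      C * (289 * ell ^ 2) * (n / Real.log n ^ 3) := by
    have e3 : 1 / (lam : ℝ) ^ 2 ≤ 289 * ell ^ 2 / Real.log n ^ 2 := by
      rw [div_le_div_iff₀ (by positivity) (by positivity), one_mul, hlogL]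
      have e4 : L ≤ 17 * lam := by linarith
      have e5 : L ^ 2 ≤ (17 * lam) ^ 2 := pow_le_pow_left₀ hL0.le e4 2
      have e6 : 0 ≤ ell ^ 2 := by positivity
      nlinarith
    calc 1 / (lam : ℝ) ^ 2 *
        Ex p (fun x : Cf n => (ff S lam x - Ex p (fun x : Cf n => ff S lam x)) ^ 2)
        ≤ 289 * ell ^ 2 / Real.log n ^ 2 * (C * (n / Real.log n)) := by
          apply mul_le_mul e3 hCn
          · exact Ex_nonneg h0.le h1.le (fun x => sq_nonneg _)
          · positivity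
      _ = C * (289 * ell ^ 2) * (n / Real.log n ^ 3) := by
          field_simp
  have t2 : Ex p (fun x : Cf n => (chi x - ff S lam x / lam) ^ 2) ≤ n / Real.log n ^ 3 := by
    have e2 : Ex p (fun x : Cf n => (chi x - ff S lam x / lam) ^ 2) ≤
        Ex p (fun x : Cf n => (m : ℝ) ^ 2 + (n : ℝ) ^ 2 *
      (ind (¬ ∀ I : Finset (Fin n), Ind x I → I.card ≤ S) +
        ind (¬ ∀ M : Finset (Fin n), m ≤ M.card → ∃ I ⊆ M, Ind x I ∧ I.card = lam + 1))) :=
      Ex_mono h0.le h1.le (fun x => chi_close x hlS hlpos')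
    refine e2.trans ?_
    rw [Ex_add, Ex_const, Ex_smul, Ex_add]
    have e3 : (n : ℝ) ^ 2 * (Ex p (fun x : Cf n => ind (¬ ∀ I : Finset (Fin n), Ind x I →
        I.card ≤ S)) + Ex p (fun x : Cf n => ind (¬ ∀ M : Finset (Fin n), m ≤ M.card →
          ∃ I ⊆ M, Ind x I ∧ I.card = lam + 1))) ≤ 2 := by
      calc _ ≤ (n : ℝ) ^ 2 * (1 / (n : ℝ) ^ 2 + 1 / (n : ℝ) ^ 2) := by
            apply mul_le_mul_of_nonneg_left _ (by positivity)
            exact add_le_add hKn hSn
        _ = 2 := by field_simp; norm_num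
    have e4 : (m : ℝ) ^ 2 ≤ 4 * (n : ℝ) ^ (1 / 2 : ℝ) := by
      have e5 : (m : ℝ) ≤ (n : ℝ) ^ (1 / 4 : ℝ) + 1 :=
        (Nat.ceil_lt_add_one (by positivity)).le
      have e6 : (1 : ℝ) ≤ (n : ℝ) ^ (1 / 4 : ℝ) := Real.one_le_rpow hn1.le (by norm_num)
      have e7 : (m : ℝ) ≤ 2 * (n : ℝ) ^ (1 / 4 : ℝ) := by linarith
      calc (m : ℝ) ^ 2 ≤ (2 * (n : ℝ) ^ (1 / 4 : ℝ)) ^ 2 :=
            pow_le_pow_left₀ (Nat.cast_nonneg m) e7 2
        _ = 4 * ((n : ℝ) ^ (1 / 4 : ℝ)) ^ 2 := by ring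
        _ = 4 * (n : ℝ) ^ (1 / 2 : ℝ) := by
            rw [← Real.rpow_natCast, ← Real.rpow_mul hn'.le]
            norm_num
    have e8 : (1 : ℝ) ≤ (n : ℝ) ^ (1 / 2 : ℝ) := Real.one_le_rpow hn1.le (by norm_num)
    have e9 : 6 * (n : ℝ) ^ (1 / 2 : ℝ) ≤ n / Real.log n ^ 3 := by
      rw [le_div_iff₀ (by positivity)]
      have e10 : 6 * Real.log n ^ 3 ≤ (n : ℝ) ^ (1 / 2 : ℝ) := by
        rw [hlogL]
        refine le_trans (le_of_eq ?_) e1
        ring
      calc 6 * (n : ℝ) ^ (1 / 2 : ℝ) * Real.log n ^ 3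
          = (n : ℝ) ^ (1 / 2 : ℝ) * (6 * Real.log n ^ 3) := by ring
        _ ≤ (n : ℝ) ^ (1 / 2 : ℝ) * (n : ℝ) ^ (1 / 2 : ℝ) :=
            mul_le_mul_of_nonneg_left e10 (by positivity)
        _ = n := by
            rw [← Real.rpow_add hn']
            norm_num
    linarith
  have t3 : 2 * (1 / (lam : ℝ) ^ 2 *
        Ex p (fun x : Cf n => (ff S lam x - Ex p (fun x : Cf n => ff S lam x)) ^ 2)) +
      2 * Ex p (fun x : Cf n => (chi x - ff S lam x / lam) ^ 2) ≤
      2 * (C * (289 * ell ^ 2) * (n / Real.log n ^ 3)) + 2 * (n / Real.log n ^ 3) := by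
    linarith
  refine t3.trans (le_of_eq ?_)
  ring

end Pool.Agent.CHV
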