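import Pool.Agent.CHV.Par

/-!
# CHV / Trm: the terms of the second moment sum for nearly maximal `r`

`ℓ = -log (1-p)`, `b = 1/(1-p) = e^ℓ`, `L = LL p n`, `K1 = ⌈2 log 8 / ℓ⌉₊ + 16`, `r = rr p K1 n m`.
PROOFS.  Let `n` be large, `n / L ≤ m ≤ n`.  Then `log m ≥ log n - log L`, so `log m / ℓ ≥ L - log L / ℓ`.
`rr_two`: `r ≥ 2 log m / ℓ - 2 log L / ℓ - 1 - K1 ≥ 2 L - 4 log L / ℓ - 1 - K1 ≥ 2`.
`rr_small`: `r ≤ 2 log m / ℓ ≤ 2 L`.
`term_le`: `r ≥ log m / ℓ` (as `log m / ℓ ≥ 2 log L / ℓ + 1 + K1`) and `e^(ℓ r / 2) ≤ (m / L) e^(- ℓ K1 / 2)` (if `K1` is at most the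
floor then `ℓ r ≤ 2 log m - 2 log L - ℓ K1`; this is the case as `r ≥ 2`).
For `2 ≤ j ≤ r` put `T_j = C(r,j) (r/m)^j b^C(j,2)`, `C(j,2) = j (j-1) / 2`.  CLAIM `T_j ≤ τ = r^4 b / m^2`.
`j = 2`: `C(r,2) ≤ r^2`.
`3 ≤ j ≤ 8`: `C(r,j) ≤ r^j`, `T_j ≤ (r^2 b^((j-1)/2) / m)^j ≤ (r^2 b^4 / m)^j ≤ (r^2 b^4 / m)^3 ≤ τ` as `r^2 b^11 ≤ m`.
`8 < j ≤ r/2 + 1`: `b^((j-1)/2) ≤ b^(r/4) ≤ sqrt m`, `T_j ≤ (r^2 / sqrt m)^j ≤ (r^2 / sqrt m)^8 = r^16 / m^4 ≤ τ` as `r^12 ≤ m^2`.
`j > r/2 + 1`: `C(r,j) ≤ 2^r`, `r b^((j-1)/2) / m ≤ (r / L) e^(- ℓ K1 / 2) ≤ 2 e^(- ℓ K1 / 2) =: θ < 1`,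
`T_j ≤ 2^r θ^j ≤ 2^r θ^(r/2) = (4 θ)^(r/2) = (8 e^(- ℓ K1 / 2))^(r/2) ≤ e^(- 8 ℓ r / 2) = e^(- 4 ℓ r) ≤ e^(- 4 log m) = m^(-4) ≤ τ`.
(Take logarithms if convenient: `log T_j ≤ ...`.)
-/

set_option autoImplicit false

namespace Pool.Agent.CHV

open Filter

variable {p : ℝ}

private theorem core {ell L x : ℝ} {r j K1 m : ℕ} (hell : 0 < ell) (hx : x = Real.log m)
    (hm : 0 < m) (hL : 1 ≤ L) (hF1 : L ≤ r) (hF2 : (r : ℝ) ≤ 2 * L)
    (hF3 : ell * r / 2 ≤ x - Real.log L - ell * K1 / 2) (hxL : x ≤ ell * L)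
    (hc : 8 * (Real.log 2 + Real.log L) + 12 * ell ≤ x)
    (hK : 3 * Real.log 2 + 8 * ell ≤ ell * K1 / 2) (hj2 : 2 ≤ j) (hjr : j ≤ r) :
    (r.choose j : ℝ) * ((r : ℝ) / m) ^ j * (Real.exp ell) ^ (j.choose 2) ≤
      (r : ℝ) ^ 4 * Real.exp ell / (m : ℝ) ^ 2 := by
  have hm' : (0 : ℝ) < m := by exact_mod_cast hm
  have hrpos : (0 : ℝ) < r := by linarith
  have hr1 : (1 : ℝ) ≤ r := by linarith
  have hlogL : 0 ≤ Real.log L := Real.log_nonneg hL
  have hlog2 : 0 < Real.log 2 := Real.log_pos (by norm_num)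
  have hjR : (2 : ℝ) ≤ j := by exact_mod_cast hj2
  have hjrR : (j : ℝ) ≤ r := by exact_mod_cast hjr
  set ρ := Real.log r with hρ
  have hρ0 : 0 ≤ ρ := Real.log_nonneg hr1
  have hρ1 : ρ ≤ Real.log 2 + Real.log L := by
    rw [← Real.log_mul (by norm_num) (by linarith)]
    exact Real.log_le_log hrpos hF2
  have hrexp : (r : ℝ) = Real.exp ρ := (Real.exp_log hrpos).symm
  have hmexp : (m : ℝ) = Real.exp x := by rw [hx, Real.exp_log hm']
  have hch2 : ((j.choose 2 : ℕ) : ℝ) = j * (j - 1) / 2 := Nat.cast_choose_two ℝ j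
  have e1 : ((r : ℝ) / m) ^ j = Real.exp (j * (ρ - x)) := by
    rw [hrexp, hmexp, ← Real.exp_sub, ← Real.exp_nat_mul]
  have e2 : (Real.exp ell) ^ (j.choose 2) = Real.exp (j * (j - 1) / 2 * ell) := by
    rw [← Real.exp_nat_mul, hch2]
  have e3 : (r : ℝ) ^ 4 * Real.exp ell / (m : ℝ) ^ 2 = Real.exp (4 * ρ + ell - 2 * x) := by
    rw [hrexp, hmexp, ← Real.exp_nat_mul, ← Real.exp_nat_mul, ← Real.exp_add, ← Real.exp_sub]
    norm_num
  rw [e1, e2, e3]
  have hpw : (r.choose j : ℝ) ≤ Real.exp (j * ρ) := by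
    have h1 : (r.choose j : ℝ) ≤ (r : ℝ) ^ j := by
      have h2 := Nat.choose_le_pow_div (α := ℝ) j r
      refine h2.trans ?_
      apply div_le_self (by positivity)
      exact_mod_cast Nat.succ_le_of_lt (Nat.factorial_pos j)
    refine h1.trans (le_of_eq ?_)
    rw [hrexp, ← Real.exp_nat_mul]
  have htp : (r.choose j : ℝ) ≤ Real.exp (r * Real.log 2) := by
    have h1 : (r.choose j : ℝ) ≤ (2 : ℝ) ^ r := by exact_mod_cast Nat.choose_le_two_pow r j
    refine h1.trans (le_of_eq ?_)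
    rw [Real.exp_nat_mul, Real.exp_log (by norm_num)]
  have hx0 : 0 ≤ x := by nlinarith
  -- the case `j = 2`
  rcases Nat.eq_or_lt_of_le hj2 with h2 | h3
  · have hj' : (j : ℝ) = 2 := by exact_mod_cast h2.symm
    calc (r.choose j : ℝ) * Real.exp (j * (ρ - x)) * Real.exp (j * (j - 1) / 2 * ell)
        ≤ Real.exp (j * ρ) * Real.exp (j * (ρ - x)) * Real.exp (j * (j - 1) / 2 * ell) := by
          gcongr
      _ = Real.exp (4 * ρ + ell - 2 * x) := by
          rw [← Real.exp_add, ← Real.exp_add, hj']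
          congr 1
          ring
  · have hj3 : (3 : ℝ) ≤ j := by exact_mod_cast h3
    have hgoal : Real.exp (-(2 * x)) ≤ Real.exp (4 * ρ + ell - 2 * x) := by
      apply Real.exp_le_exp.2
      linarith
    refine le_trans ?_ hgoal
    by_cases hb : (j : ℝ) - 1 ≤ r / 2
    · -- moderate `j`
      have hmain : (j : ℝ) * ρ + j * (ρ - x) + j * (j - 1) / 2 * ell ≤ -(2 * x) := by
        have hfac : (j : ℝ) * ρ + j * (ρ - x) + j * (j - 1) / 2 * ell =
            j * (2 * ρ - x + (j - 1) / 2 * ell) := by ring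
        rw [hfac]
        by_cases h8 : j ≤ 8
        · have h8' : (j : ℝ) ≤ 8 := by exact_mod_cast h8
          have a1 : ((j : ℝ) - 1) / 2 * ell ≤ 4 * ell := by
            apply mul_le_mul_of_nonneg_right _ hell.le
            linarith
          have a2 : 2 * ρ - x + ((j : ℝ) - 1) / 2 * ell ≤ 2 * ρ - x + 4 * ell := by linarith
          have a3 : 2 * ρ - x + 4 * ell ≤ 0 := by nlinarith
          calc (j : ℝ) * (2 * ρ - x + (j - 1) / 2 * ell)
              ≤ j * (2 * ρ - x + 4 * ell) := mul_le_mul_of_nonneg_left a2 (by linarith)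
            _ ≤ 3 * (2 * ρ - x + 4 * ell) := by nlinarith
            _ ≤ -(2 * x) := by nlinarith
        · have h9 : (8 : ℝ) ≤ j := by exact_mod_cast (by omega : 8 ≤ j)
          have a1 : ((j : ℝ) - 1) / 2 * ell ≤ x / 2 := by
            have b1 : ((j : ℝ) - 1) / 2 * ell ≤ r / 2 / 2 * ell := by
              apply mul_le_mul_of_nonneg_right _ hell.le
              linarith
            have b2 : 0 ≤ ell * K1 / 2 := by positivity
            nlinarith
          have a2 : 2 * ρ - x + ((j : ℝ) - 1) / 2 * ell ≤ 2 * ρ - x / 2 := by linarith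
          have a3 : 2 * ρ - x / 2 ≤ 0 := by nlinarith
          calc (j : ℝ) * (2 * ρ - x + (j - 1) / 2 * ell)
              ≤ j * (2 * ρ - x / 2) := mul_le_mul_of_nonneg_left a2 (by linarith)
            _ ≤ 8 * (2 * ρ - x / 2) := by nlinarith
            _ ≤ -(2 * x) := by nlinarith
      calc (r.choose j : ℝ) * Real.exp (j * (ρ - x)) * Real.exp (j * (j - 1) / 2 * ell)
          ≤ Real.exp (j * ρ) * Real.exp (j * (ρ - x)) * Real.exp (j * (j - 1) / 2 * ell) := by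
            gcongr
        _ = Real.exp (j * ρ + j * (ρ - x) + j * (j - 1) / 2 * ell) := by
            rw [← Real.exp_add, ← Real.exp_add]
        _ ≤ Real.exp (-(2 * x)) := Real.exp_le_exp.2 hmain
    · -- large `j`
      push_neg at hb
      have hmain : (r : ℝ) * Real.log 2 + j * (ρ - x) + j * (j - 1) / 2 * ell ≤ -(2 * x) := by
        have hfac : (r : ℝ) * Real.log 2 + j * (ρ - x) + j * (j - 1) / 2 * ell =
            r * Real.log 2 + j * (ρ - x + (j - 1) / 2 * ell) := by ring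
        rw [hfac]
        have a1 : ((j : ℝ) - 1) / 2 * ell ≤ r / 2 * ell := by
          apply mul_le_mul_of_nonneg_right _ hell.le
          linarith
        have a2 : ρ - x + ((j : ℝ) - 1) / 2 * ell ≤ Real.log 2 - ell * K1 / 2 := by
          nlinarith
        have a3 : Real.log 2 - ell * K1 / 2 ≤ -(2 * Real.log 2 + 8 * ell) := by linarith
        have a4 : ρ - x + ((j : ℝ) - 1) / 2 * ell ≤ -(2 * Real.log 2 + 8 * ell) := by linarith
        have a5 : (j : ℝ) * (ρ - x + (j - 1) / 2 * ell) ≤ j * (-(2 * Real.log 2 + 8 * ell)) :=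
          mul_le_mul_of_nonneg_left a4 (by linarith)
        have a6 : (j : ℝ) * (-(2 * Real.log 2 + 8 * ell)) ≤
            (r / 2) * (-(2 * Real.log 2 + 8 * ell)) := by
          apply mul_le_mul_of_nonpos_right _ (by linarith)
          linarith
        have a7 : 0 ≤ ell * (r - L) := mul_nonneg hell.le (by linarith)
        have a8 : 0 ≤ ell * L := mul_nonneg hell.le (by linarith)
        nlinarith
      calc (r.choose j : ℝ) * Real.exp (j * (ρ - x)) * Real.exp (j * (j - 1) / 2 * ell)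
          ≤ Real.exp (r * Real.log 2) * Real.exp (j * (ρ - x)) *
              Real.exp (j * (j - 1) / 2 * ell) := by
            gcongr
        _ = Real.exp (r * Real.log 2 + j * (ρ - x) + j * (j - 1) / 2 * ell) := by
            rw [← Real.exp_add, ← Real.exp_add]
        _ ≤ Real.exp (-(2 * x)) := Real.exp_le_exp.2 hmain

/-- the basic inequalities, for all large `n` -/
private theorem basics (h0 : 0 < p) (h1 : p < 1) (K1 : ℕ) : ∀ᶠ n : ℕ in atTop,
    ∀ m : ℕ, (n : ℝ) / LL p n ≤ m → m ≤ n →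
      0 < m ∧ 2 ≤ LL p n ∧ LL p n ≤ rr p K1 n m ∧ (rr p K1 n m : ℝ) ≤ 2 * LL p n ∧
      (-Real.log (1 - p)) * rr p K1 n m / 2 ≤
        Real.log m - Real.log (LL p n) - (-Real.log (1 - p)) * K1 / 2 ∧
      Real.log m ≤ (-Real.log (1 - p)) * LL p n ∧
      8 * (Real.log 2 + Real.log (LL p n)) + 12 * (-Real.log (1 - p)) ≤ Real.log m := by
  have hell := ell_pos h0 h1
  set ell := -Real.log (1 - p) with hell_def
  have hlog2 : 0 < Real.log 2 := Real.log_pos (by norm_num)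
  filter_upwards [log_LL_le h0 h1 (ε := ell / 18) (by positivity),
    (tendsto_LL h0 h1).eventually_ge_atTop (max 2 (max (2 * (8 * Real.log 2 + 12 * ell) / ell)
      (4 * (K1 + 3)))), eventually_ge_atTop 2] with n hn1 hn2 hn3 m hm1 hm2
  set L := LL p n with hL_def
  have hL2 : 2 ≤ L := le_trans (le_max_left _ _) hn2
  have hLb : 2 * (8 * Real.log 2 + 12 * ell) / ell ≤ L :=
    le_trans (le_trans (le_max_left _ _) (le_max_right _ _)) hn2
  have hLc : 4 * ((K1 : ℝ) + 3) ≤ L :=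
    le_trans (le_trans (le_max_right _ _) (le_max_right _ _)) hn2
  have hLpos : 0 < L := by linarith
  have hn' : (0 : ℝ) < n := by exact_mod_cast (by omega : 0 < n)
  have hmpos' : (0 : ℝ) < m := lt_of_lt_of_le (by positivity) hm1
  have hmpos : 0 < m := by exact_mod_cast hmpos'
  have hlogn : Real.log n = ell * L := by
    rw [hL_def]
    unfold LL
    rw [← hell_def, mul_div_cancel₀]
    exact hell.ne'
  have hxle : Real.log m ≤ ell * L := by
    rw [← hlogn]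
    exact Real.log_le_log hmpos' (by exact_mod_cast hm2)
  have hxge : ell * L - Real.log L ≤ Real.log m := by
    have h2 : Real.log ((n : ℝ) / L) ≤ Real.log m := Real.log_le_log (by positivity) hm1
    rw [Real.log_div hn'.ne' hLpos.ne', hlogn] at h2
    exact h2
  have hLb' : 2 * (8 * Real.log 2 + 12 * ell) ≤ ell * L := by
    rw [div_le_iff₀ hell] at hLb
    linarith
  set a := 2 * (Real.log m / ell) - 2 * (Real.log L / ell) with ha_def
  have ha_low : 2 * L - 4 * (Real.log L / ell) ≤ a := by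
    have h3 : L - Real.log L / ell ≤ Real.log m / ell := by
      rw [le_div_iff₀ hell, sub_mul, div_mul_cancel₀ _ hell.ne']
      linarith
    rw [ha_def]
    linarith
  have hlogL : Real.log L / ell ≤ L / 18 := by
    rw [div_le_iff₀ hell]
    linarith
  have ha2 : L + K1 + 1 ≤ a := by linarith
  have ha0 : 0 ≤ a := by
    have : (0 : ℝ) ≤ K1 := Nat.cast_nonneg K1
    linarith
  have hfl1 : (⌊a⌋₊ : ℝ) ≤ a := Nat.floor_le ha0
  have hfl2 : a < ⌊a⌋₊ + 1 := Nat.lt_floor_add_one a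
  have hK1 : K1 ≤ ⌊a⌋₊ := by
    apply Nat.le_floor
    linarith
  have hrr : (rr p K1 n m : ℝ) = (⌊a⌋₊ : ℝ) - K1 := by
    unfold rr
    rw [← hell_def, ← hL_def, ← ha_def, Nat.cast_sub hK1]
  have hK0 : (0 : ℝ) ≤ K1 := Nat.cast_nonneg K1
  have hlogL0 : 0 ≤ Real.log L := Real.log_nonneg (by linarith)
  have ha_up : a ≤ 2 * L := by
    have h3 : Real.log m / ell ≤ L := by
      rw [div_le_iff₀ hell]
      linarith
    have h4 : 0 ≤ Real.log L / ell := by positivity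
    rw [ha_def]
    linarith
  refine ⟨hmpos, hL2, ?_, ?_, ?_, hxle, ?_⟩
  · rw [hrr]
    linarith
  · rw [hrr]
    linarith
  · rw [hrr]
    have h5 : ell * a = 2 * Real.log m - 2 * Real.log L := by
      rw [ha_def]
      field_simp
    have h6 : ell * (⌊a⌋₊ : ℝ) ≤ ell * a := mul_le_mul_of_nonneg_left hfl1 hell.le
    linarith
  · have h7 : 9 * Real.log L ≤ ell * L / 2 := by linarith
    linarith

theorem rr_two (h0 : 0 < p) (h1 : p < 1) (K1 : ℕ) : ∀ᶠ n : ℕ in atTop,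
    ∀ m : ℕ, (n : ℝ) / LL p n ≤ m → m ≤ n → 2 ≤ rr p K1 n m := by
  filter_upwards [basics h0 h1 K1] with n hn m hm1 hm2
  obtain ⟨-, b1, b2, -⟩ := hn m hm1 hm2
  have : (2 : ℝ) ≤ rr p K1 n m := b1.trans b2
  exact_mod_cast this

theorem rr_small (h0 : 0 < p) (h1 : p < 1) (K1 : ℕ) : ∀ᶠ n : ℕ in atTop,
    ∀ m : ℕ, (n : ℝ) / LL p n ≤ m → m ≤ n → (rr p K1 n m : ℝ) ≤ 2 * LL p n := by
  filter_upwards [basics h0 h1 K1] with n hn m hm1 hm2
  exact (hn m hm1 hm2).2.2.2.1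

theorem term_le (h0 : 0 < p) (h1 : p < 1) : ∃ K1 : ℕ, ∀ᶠ n : ℕ in atTop,
    ∀ m : ℕ, (n : ℝ) / LL p n ≤ m → m ≤ n → ∀ j, 2 ≤ j → j ≤ rr p K1 n m →
      ((rr p K1 n m).choose j : ℝ) * ((rr p K1 n m : ℝ) / m) ^ j * (1 / (1 - p)) ^ (j.choose 2) ≤
        (rr p K1 n m : ℝ) ^ 4 * (1 / (1 - p)) / (m : ℝ) ^ 2 := by
  have hell := ell_pos h0 h1
  have hq : 0 < 1 - p := by linarith
  obtain ⟨K1, hK1⟩ := exists_nat_ge (2 * (3 * Real.log 2 + 8 * (-Real.log (1 - p))) /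
    (-Real.log (1 - p)))
  refine ⟨K1, ?_⟩
  filter_upwards [basics h0 h1 K1] with n hn m hm1 hm2 j hj2 hjr
  obtain ⟨b0, b1, b2, b3, b4, b5, b6⟩ := hn m hm1 hm2
  have hb : 1 / (1 - p) = Real.exp (-Real.log (1 - p)) := by
    rw [Real.exp_neg, Real.exp_log hq, one_div]
  rw [hb]
  refine core hell rfl b0 (by linarith) b2 b3 b4 b5 b6 ?_ hj2 hjr
  rw [div_le_iff₀ hell] at hK1
  linarith

end Pool.Agent.CHV
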