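import Pool.Agent.CHV.Nin
import Pool.Agent.CHV.Trm

/-!
# CHV / Big: independent sets of nearly maximal size in all large sets of vertices

`ℓ = -log (1-p)`, `b = 1/(1-p) = e^ℓ`, `L = LL p n`, `K1` from `term_le`.
PROOFS.  `big_ind`: `no_ind_union` with `𝓜` = all `M` with `n / L ≤ |M|`, `|𝓜| ≤ 2^n`, `r M = rr p K1 n |M|`, `τ M = r^4 b / m^2`
(`m = |M|`), `term_le`, `rr_two`, `rr_small`; `r ≤ 2 L ≤ m`.  `1 / (2 r τ) = m^2 / (2 r^5 b) ≥ n^2 / (64 b L^7) ≥ 2 n`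
(`m ≥ n / L`, `LL_pow_le`), so with `ε = exp (-2 n)` the probability is `≤ 2^n e^(-2 n) ≤ e^(-n) ≤ 1/n`.
`rr_mono`, `rr_le`: `Nat.floor_mono`, `Real.log_le_log`, `Nat.floor_le_ceil`.  `rr_ge`: `rr ≥ 2 log m / ℓ - 2 log L / ℓ - 1 - K1`
and `SS_up`, `log (n / m) = log n - log m`, `log n = ℓ L`.
-/

set_option autoImplicit false

namespace Pool.Agent.CHV

open Filter Finset

variable {p : ℝ}

theorem big_ind (h0 : 0 < p) (h1 : p < 1) : ∃ K1 : ℕ, ∀ᶠ n : ℕ in atTop,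
    Ex p (fun x : Cf n => ind (¬ ∀ M : Finset (Fin n), (n : ℝ) / LL p n ≤ M.card →
      ∃ I ⊆ M, Ind x I ∧ I.card = rr p K1 n M.card)) ≤ 1 / n := by
  obtain ⟨K1, hK1⟩ := term_le h0 h1
  refine ⟨K1, ?_⟩
  have hb : 0 < 1 / (1 - p) := by
    have : 0 < 1 - p := by linarith
    positivity
  filter_upwards [hK1, rr_two h0 h1 K1, rr_small h0 h1 K1, LL_pow_le h0 h1 2 2 (c := 1) one_pos,
    LL_pow_le h0 h1 7 (128 * (1 / (1 - p))) (c := 1) one_pos,
    (tendsto_LL h0 h1).eventually_ge_atTop 1, eventually_gt_atTop 0] with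
    n hterm htwo hsmall hL2 hL7 hL1 hn
  rw [Real.rpow_one] at hL2 hL7
  have hnR : (0 : ℝ) < n := by exact_mod_cast hn
  have hL0 : 0 < LL p n := by linarith
  set 𝓜 : Finset (Finset (Fin n)) := Finset.univ.filter (fun M => (n : ℝ) / LL p n ≤ M.card)
    with h𝓜
  have hmem : ∀ M : Finset (Fin n), M ∈ 𝓜 ↔ (n : ℝ) / LL p n ≤ M.card := by
    intro M; rw [h𝓜]; simp
  have hcard : ∀ M : Finset (Fin n), M.card ≤ n := by
    intro M
    have := Finset.card_le_univ M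
    simpa using this
  have hm0 : ∀ M ∈ 𝓜, (0 : ℝ) < M.card := by
    intro M hM
    have h := (hmem M).1 hM
    have : 0 < (n : ℝ) / LL p n := by positivity
    linarith
  have hr2 : ∀ M ∈ 𝓜, 2 ≤ rr p K1 n M.card := fun M hM => htwo _ ((hmem M).1 hM) (hcard M)
  have hrs : ∀ M ∈ 𝓜, (rr p K1 n M.card : ℝ) ≤ 2 * LL p n :=
    fun M hM => hsmall _ ((hmem M).1 hM) (hcard M)
  have key := no_ind_union (n := n) h0 h1 𝓜 (fun M => rr p K1 n M.card)
    (ε := Real.exp (-(2 * n))) hr2 ?_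
    (fun M => (rr p K1 n M.card : ℝ) ^ 4 * (1 / (1 - p)) / (M.card : ℝ) ^ 2) ?_ ?_ ?_
  · have hfun : (fun x : Cf n => ind (¬ ∀ M : Finset (Fin n), (n : ℝ) / LL p n ≤ M.card →
        ∃ I ⊆ M, Ind x I ∧ I.card = rr p K1 n M.card)) =
        (fun x : Cf n => ind (¬ ∀ M ∈ 𝓜, ∃ I ⊆ M, Ind x I ∧ I.card = rr p K1 n M.card)) := by
      funext x
      congr 1
      simp only [hmem]
    rw [hfun]
    refine key.trans ?_
    have hc : (𝓜.card : ℝ) ≤ 2 ^ n := by
      have h := Finset.card_filter_le (Finset.univ : Finset (Finset (Fin n)))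
        (fun M => (n : ℝ) / LL p n ≤ M.card)
      have h2 : (Finset.univ : Finset (Finset (Fin n))).card = 2 ^ n := by
        simp
      rw [h2] at h
      exact_mod_cast h
    have h2e : (2 : ℝ) ^ n ≤ Real.exp n := by
      have h1' : (2 : ℝ) ≤ Real.exp 1 := by
        have := Real.exp_one_gt_d9
        linarith
      calc (2 : ℝ) ^ n ≤ (Real.exp 1) ^ n := pow_le_pow_left₀ (by norm_num) h1' n
        _ = Real.exp n := by rw [← Real.exp_nat_mul, mul_one]
    have hexp : (n : ℝ) ≤ Real.exp n := by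
      have := Real.add_one_le_exp (n : ℝ)
      linarith
    have hpos : 0 < Real.exp (-(2 * (n : ℝ))) := Real.exp_pos _
    calc (𝓜.card : ℝ) * Real.exp (-(2 * n)) ≤ Real.exp n * Real.exp (-(2 * n)) :=
          mul_le_mul_of_nonneg_right (hc.trans h2e) hpos.le
      _ = Real.exp (-n) := by rw [← Real.exp_add]; congr 1; ring
      _ = 1 / Real.exp n := by rw [Real.exp_neg, one_div]
      _ ≤ 1 / n := one_div_le_one_div_of_le hnR hexp
  · intro M hM
    have h1' := hrs M hM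
    have h2' := (hmem M).1 hM
    have h3 : 2 * LL p n ≤ (n : ℝ) / LL p n := by
      rw [le_div_iff₀ hL0]
      nlinarith
    have : (rr p K1 n M.card : ℝ) ≤ M.card := by linarith
    exact_mod_cast this
  · intro M hM
    have h := hm0 M hM
    have h2' : (0 : ℝ) < rr p K1 n M.card := by
      have := hr2 M hM
      have : 0 < rr p K1 n M.card := by omega
      exact_mod_cast this
    positivity
  · intro M hM j hj hjr
    exact hterm _ ((hmem M).1 hM) (hcard M) j hj hjr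
  · intro M hM
    have hmM := hm0 M hM
    have hr0 : (0 : ℝ) < rr p K1 n M.card := by
      have := hr2 M hM
      have : 0 < rr p K1 n M.card := by omega
      exact_mod_cast this
    have hrL := hrs M hM
    have hmL := (hmem M).1 hM
    set r : ℝ := (rr p K1 n M.card : ℝ) with hr
    set m : ℝ := (M.card : ℝ) with hm
    set b : ℝ := 1 / (1 - p) with hbdef
    set L : ℝ := LL p n with hLdef
    apply Real.exp_le_exp.2
    have hval : 1 / (2 * r * (r ^ 4 * b / m ^ 2)) = m ^ 2 / (2 * r ^ 5 * b) := by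
      field_simp
    have hr5 : r ^ 5 ≤ 32 * L ^ 5 := by
      calc r ^ 5 ≤ (2 * L) ^ 5 := pow_le_pow_left₀ hr0.le hrL 5
        _ = 32 * L ^ 5 := by ring
    have hnm : (n : ℝ) ≤ m * L := by
      rwa [div_le_iff₀ hL0] at hmL
    have hgoal : 2 * (n : ℝ) ≤ m ^ 2 / (2 * r ^ 5 * b) := by
      rw [le_div_iff₀ (by positivity)]
      -- 2 n * (2 r^5 b) ≤ 128 n L^5 b ; m^2 ≥ n^2 / L^2 ; n ≥ 128 b L^7
      have hn2 : (n : ℝ) ^ 2 ≤ m ^ 2 * L ^ 2 := by
        calc (n : ℝ) ^ 2 ≤ (m * L) ^ 2 := pow_le_pow_left₀ hnR.le hnm 2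
          _ = m ^ 2 * L ^ 2 := by ring
      have hA : 2 * (n : ℝ) * (2 * r ^ 5 * b) ≤ 128 * n * L ^ 5 * b := by
        have : 4 * (n : ℝ) * b * r ^ 5 ≤ 4 * n * b * (32 * L ^ 5) :=
          mul_le_mul_of_nonneg_left hr5 (by positivity)
        nlinarith
      have hB : 128 * (n : ℝ) * L ^ 5 * b * L ^ 2 ≤ m ^ 2 * L ^ 2 := by
        have h7 : 128 * b * L ^ 7 ≤ n := hL7
        have : (n : ℝ) * (128 * b * L ^ 7) ≤ n * n := mul_le_mul_of_nonneg_left h7 hnR.le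
        calc 128 * (n : ℝ) * L ^ 5 * b * L ^ 2 = (n : ℝ) * (128 * b * L ^ 7) := by ring
          _ ≤ (n : ℝ) * (n : ℝ) := this
          _ = (n : ℝ) ^ 2 := by ring
          _ ≤ m ^ 2 * L ^ 2 := hn2
      have hC : 128 * (n : ℝ) * L ^ 5 * b ≤ m ^ 2 :=
        le_of_mul_le_mul_right hB (by positivity)
      linarith
    rw [hval]
    linarith

theorem rr_mono (h0 : 0 < p) (h1 : p < 1) (K1 n : ℕ) {a c : ℕ} (ha : 0 < a) (h : a ≤ c) :
    rr p K1 n a ≤ rr p K1 n c := by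
  have hl := ell_pos h0 h1
  unfold rr
  apply Nat.sub_le_sub_right
  apply Nat.floor_mono
  have hlog : Real.log a ≤ Real.log c :=
    Real.log_le_log (by exact_mod_cast ha) (by exact_mod_cast h)
  have := div_le_div_of_nonneg_right hlog hl.le
  linarith

theorem rr_le (h0 : 0 < p) (h1 : p < 1) (K1 K n : ℕ) {m : ℕ} (hm0 : 0 < m) (hm : m ≤ n) :
    rr p K1 n m ≤ SS p K n := by
  have hl := ell_pos h0 h1
  unfold rr SS
  refine (Nat.sub_le _ _).trans (le_trans ?_ (Nat.le_add_right _ _))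
  refine (Nat.floor_le_ceil _).trans (Nat.ceil_mono ?_)
  have hlog : Real.log m ≤ Real.log n :=
    Real.log_le_log (by exact_mod_cast hm0) (by exact_mod_cast hm)
  have := div_le_div_of_nonneg_right hlog hl.le
  have hLL : LL p n = Real.log n / (-Real.log (1 - p)) := rfl
  rw [← hLL] at this
  linarith

/-- deficit of `rr` -/
theorem rr_ge (h0 : 0 < p) (h1 : p < 1) (K1 K : ℕ) : ∀ᶠ n : ℕ in atTop,
    ∀ m : ℕ, (n : ℝ) / LL p n ≤ m → m ≤ n →
      (SS p K n : ℝ) - rr p K1 n m ≤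
        2 / (-Real.log (1 - p)) * Real.log (n / m) + (K + K1 + 2) := by
  have hl := ell_pos h0 h1
  filter_upwards [SS_up h0 h1 K, (tendsto_LL h0 h1).eventually_ge_atTop 1,
    eventually_gt_atTop 0] with n hS hL1 hn m hm hmn
  have hnR : (0 : ℝ) < n := by exact_mod_cast hn
  have hL0 : 0 < LL p n := by linarith
  have hmR : (0 : ℝ) < m := by
    have : 0 < (n : ℝ) / LL p n := by positivity
    linarith
  set ℓ : ℝ := -Real.log (1 - p) with hℓ
  have hfl := Nat.lt_floor_add_one (2 * (Real.log m / ℓ) - 2 * (Real.log (LL p n) / ℓ))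
  have hsub : (⌊2 * (Real.log m / ℓ) - 2 * (Real.log (LL p n) / ℓ)⌋₊ : ℝ) - K1 ≤
      (rr p K1 n m : ℝ) := by
    have hrr : rr p K1 n m =
        ⌊2 * (Real.log m / ℓ) - 2 * (Real.log (LL p n) / ℓ)⌋₊ - K1 := rfl
    rw [hrr]
    have h2 : ⌊2 * (Real.log m / ℓ) - 2 * (Real.log (LL p n) / ℓ)⌋₊ ≤
        (⌊2 * (Real.log m / ℓ) - 2 * (Real.log (LL p n) / ℓ)⌋₊ - K1) + K1 := by omega
    have h3 : (⌊2 * (Real.log m / ℓ) - 2 * (Real.log (LL p n) / ℓ)⌋₊ : ℝ) ≤
        ((⌊2 * (Real.log m / ℓ) - 2 * (Real.log (LL p n) / ℓ)⌋₊ - K1 : ℕ) : ℝ) + K1 := by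
      exact_mod_cast h2
    linarith
  have hlogd : Real.log ((n : ℝ) / m) = Real.log n - Real.log m :=
    Real.log_div hnR.ne' hmR.ne'
  have hLL : LL p n = Real.log n / ℓ := rfl
  have heq : 2 / ℓ * Real.log ((n : ℝ) / m) = 2 * LL p n - 2 * (Real.log m / ℓ) := by
    rw [hlogd, hLL]
    ring
  rw [heq]
  linarith

end Pool.Agent.CHV
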