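import Mathlib

/-!
# CHV / Defs: the standard deviation of the chromatic number of `G(n,p)` is `O(sqrt n / (log n)^(3/2))`
(MP_5dcc87_pr).  Blueprint: /team-store/chv_blueprint.md

Independent Bernoulli(p) bits, conditional expectations, the packing functional `ff`.
-/

set_option autoImplicit false

namespace Pool.Agent.CHV

open Finset

/-! ## Independent bits -/

section Bits

variable {ι : Type} [Fintype ι] [DecidableEq ι]

/-- Weight of one bit. -/
def bw (p : ℝ) (b : Bool) : ℝ := bif b then p else 1 - p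

/-- Expectation with respect to independent Bernoulli(p) bits indexed by `ι`. -/
noncomputable def Ex (p : ℝ) (F : (ι → Bool) → ℝ) : ℝ :=
  ∑ x : ι → Bool, (∏ i, bw p (x i)) * F x

/-- The bits in `S` are taken from `x`, the other ones from `y`. -/
def glue (S : Finset ι) (x y : ι → Bool) : ι → Bool := fun i => if i ∈ S then x i else y i

/-- Conditional expectation of `F` given the bits in `S`. -/
noncomputable def CE (p : ℝ) (S : Finset ι) (F : (ι → Bool) → ℝ) (x : ι → Bool) : ℝ :=
  Ex p (fun y => F (glue S x y))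

/-- Discrete derivative. -/
def dd (i : ι) (F : (ι → Bool) → ℝ) (x : ι → Bool) : ℝ :=
  F (Function.update x i true) - F (Function.update x i false)

/-- Entropy. -/
noncomputable def Ent (p : ℝ) (F : (ι → Bool) → ℝ) : ℝ :=
  Ex p (fun x => F x * Real.log (F x)) - Ex p F * Real.log (Ex p F)

end Bits

/-! ## Graphs and packings -/

/-- The bits of a graph on `Fin n` (the bits of the diagonal are dummies). -/
abbrev Cf (n : ℕ) : Type := Sym2 (Fin n) → Bool

/-- The graph with bits `x`. -/
def gr {n : ℕ} (x : Cf n) : SimpleGraph (Fin n) := SimpleGraph.fromEdgeSet {e | x e = true}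

/-- The pairs (no diagonal elements) inside `I`. -/
def prs {n : ℕ} (I : Finset (Fin n)) : Finset (Sym2 (Fin n)) := I.sym2.filter (fun e => ¬ e.IsDiag)

/-- `I` is an independent set of the graph with bits `x`. -/
def Ind {n : ℕ} (x : Cf n) (I : Finset (Fin n)) : Prop := ∀ e ∈ prs I, x e = false

/-- Packings by pairwise disjoint independent sets with sizes in `(lam, S]`. -/
structure Pack {n : ℕ} (S lam : ℕ) (x : Cf n) (P : Finset (Finset (Fin n))) : Prop where
  ind : ∀ I ∈ P, Ind x I
  le : ∀ I ∈ P, I.card ≤ S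
  gt : ∀ I ∈ P, lam < I.card
  disj : ∀ I ∈ P, ∀ J ∈ P, I ≠ J → Disjoint I J

/-- The value of a packing. -/
def val {n : ℕ} (lam : ℕ) (P : Finset (Finset (Fin n))) : ℕ := ∑ I ∈ P, (I.card - lam)

theorem exists_opt {n : ℕ} (S lam : ℕ) (x : Cf n) :
    ∃ P, Pack S lam x P ∧ ∀ P', Pack S lam x P' → val lam P' ≤ val lam P := by
  classical
  obtain ⟨P, hP, hmax⟩ := Finset.exists_max_image
    ((Finset.univ : Finset (Finset (Finset (Fin n)))).filter (fun P => Pack S lam x P)) (val lam)
    ⟨∅, by
      rw [Finset.mem_filter]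
      exact ⟨Finset.mem_univ _, ⟨by simp, by simp, by simp, by simp⟩⟩⟩
  rw [Finset.mem_filter] at hP
  refine ⟨P, hP.2, fun P' hP' => hmax P' ?_⟩
  rw [Finset.mem_filter]
  exact ⟨Finset.mem_univ _, hP'⟩

/-- An optimal packing. -/
noncomputable def opt {n : ℕ} (S lam : ℕ) (x : Cf n) : Finset (Finset (Fin n)) :=
  Classical.choose (exists_opt S lam x)

theorem opt_pack {n : ℕ} (S lam : ℕ) (x : Cf n) : Pack S lam x (opt S lam x) :=
  (Classical.choose_spec (exists_opt S lam x)).1

theorem opt_max {n : ℕ} (S lam : ℕ) (x : Cf n) {P : Finset (Finset (Fin n))}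
    (h : Pack S lam x P) : val lam P ≤ val lam (opt S lam x) :=
  (Classical.choose_spec (exists_opt S lam x)).2 P h

/-- `n` minus the maximal value of a packing: `lam * (number of classes) + (uncovered vertices)`. -/
noncomputable def ff {n : ℕ} (S lam : ℕ) (x : Cf n) : ℝ :=
  (n : ℝ) - (val lam (opt S lam x) : ℝ)

/-- The pairs contained in a class of a packing. -/
def UP {n : ℕ} (P : Finset (Finset (Fin n))) : Finset (Sym2 (Fin n)) := P.biUnion prs

/-- Total deficit of a packing. -/
def defi {n : ℕ} (S : ℕ) (P : Finset (Finset (Fin n))) : ℕ := ∑ I ∈ P, (S - I.card)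

/-- The first `j` vertices. -/
def pre (n j : ℕ) : Finset (Fin n) := Finset.univ.filter (fun v => v.val < j)

/-- The pairs from the vertex `j` to the vertices `< j` (and the diagonal element of `j`). -/
def nw (n j : ℕ) : Finset (Sym2 (Fin n)) := (pre n (j + 1)).sym2 \ (pre n j).sym2

/-- Energy of step `j`. -/
noncomputable def ener (p : ℝ) {n : ℕ} (S lam j : ℕ) : ℝ :=
  ∑ e ∈ nw n j, Ex p (fun x : Cf n => CE p (pre n (j + 1)).sym2 (dd e (ff S lam)) x ^ 2)

/-- Weight of the vertex `v` in the packing `P`. -/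
def wt {n : ℕ} (S B : ℕ) (P : Finset (Finset (Fin n))) (v : Fin n) : ℕ :=
  ∑ I ∈ P.filter (fun I => v ∈ I), (2 * (S - I.card) +
    if (I.filter (fun w => v < w)).card < 4 * (S - I.card) + 2 * B then S else 0)

/-- No intermediate overlaps of independent sets of the graphs `y` and `z` inside `T`. -/
def NoMid {n : ℕ} (S B : ℕ) (T : Finset (Fin n)) (y z : Cf n) : Prop :=
  ∀ I J : Finset (Fin n), I.card ≤ S → J.card ≤ S → Ind y I → Ind z J →
    (I ∩ J ∩ T).card * (S - (I ∩ J ∩ T).card) < S * ((S - I.card) + (S - J.card) + B)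

open Classical in
/-- Indicator function of a proposition. -/
noncomputable def ind (P : Prop) : ℝ := if P then 1 else 0

/-! ## Parameters -/

/-- `log_b n`, `b = 1 / (1 - p)`. -/
noncomputable def LL (p : ℝ) (n : ℕ) : ℝ := Real.log n / (-Real.log (1 - p))

/-- Maximal size of the classes: `2 log_b n - 2 log_b log_b n + K`. -/
noncomputable def SS (p : ℝ) (K n : ℕ) : ℕ :=
  ⌈2 * LL p n - 2 * (Real.log (LL p n) / (-Real.log (1 - p)))⌉₊ + K

/-- The price of a class. -/
noncomputable def lm (p : ℝ) (n : ℕ) : ℕ := ⌊LL p n / 16⌋₊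

end Pool.Agent.CHV
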