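import Pool.Agent.CHV.Piv

/-!
# CHV / Deg: total conditional influence of the pairs at the vertex `j`

Put `V = (pre n j).sym2`.
PROOFS.  `deg_le`: at most `S` pairs of a packing contain a given vertex `u`: they are `s(u, w)` with `w` in the class of `u`
(classes are disjoint), `w ≠ u`, and the class has at most `S` elements.
`ce_sum`: every `e ∈ nw n j` is not in `V`; by `ce_le` and `Ex_sum` the sum is
`≤ 1/(1-p) * Ex_y #{e ∈ nw n j : e ∈ UP (opt ..)}`, and `e ∈ nw n j` contains the vertex `j` (`mem_nw`), so `#.. ≤ S` by `deg_le`.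
`ce_sum_star`, `u < j`: the pairs `s(u, w)`, `w ≥ j`, are not in `V`; `ce_le` and `deg_le` for the vertex `u`
(`w ↦ s(u, w)` is injective).
-/

set_option autoImplicit false

namespace Pool.Agent.CHV

open Finset

variable {n S lam j : ℕ} {p : ℝ}

private theorem deg_mem_prs {I : Finset (Fin n)} {e : Sym2 (Fin n)} (h : e ∈ prs I) {u : Fin n}
    (hu : u ∈ e) : u ∈ I := by
  unfold prs at h
  rw [Finset.mem_filter] at h
  exact Finset.mem_sym2_iff.mp h.1 u hu

theorem deg_le {x : Cf n} {P : Finset (Finset (Fin n))} (h : Pack S lam x P) (u : Fin n) :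
    ((UP P).filter (fun e => u ∈ e)).card ≤ S := by
  by_cases hex : ∃ I ∈ P, u ∈ I
  · obtain ⟨I, hI, huI⟩ := hex
    have hsub : (UP P).filter (fun e => u ∈ e) ⊆ I.image (fun w => s(u, w)) := by
      intro e he
      rw [Finset.mem_filter] at he
      obtain ⟨he1, hue⟩ := he
      unfold UP at he1
      rw [Finset.mem_biUnion] at he1
      obtain ⟨J, hJ, heJ⟩ := he1
      have huJ : u ∈ J := deg_mem_prs heJ hue
      have hIJ : I = J := by
        by_contra hne
        exact (Finset.disjoint_left.mp (h.disj I hI J hJ hne)) huI huJ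
      subst hIJ
      obtain ⟨w, rfl⟩ := hue
      rw [Finset.mem_image]
      exact ⟨w, deg_mem_prs heJ (Sym2.mem_mk_right u w), rfl⟩
    exact (Finset.card_le_card hsub).trans (Finset.card_image_le.trans (h.le I hI))
  · have hempty : (UP P).filter (fun e => u ∈ e) = ∅ := by
      rw [Finset.filter_eq_empty_iff]
      intro e he hue
      unfold UP at he
      rw [Finset.mem_biUnion] at he
      obtain ⟨J, hJ, heJ⟩ := he
      exact hex ⟨J, hJ, deg_mem_prs heJ hue⟩
    rw [hempty, Finset.card_empty]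
    exact Nat.zero_le _

/-- sum of conditional influences over pairs at a vertex -/
private theorem deg_sum (h0 : 0 ≤ p) (h1 : p < 1) {V : Finset (Sym2 (Fin n))} (x : Cf n)
    (u : Fin n) (A : Finset (Sym2 (Fin n))) (hA : ∀ e ∈ A, e ∉ V) (hu : ∀ e ∈ A, u ∈ e) :
    ∑ e ∈ A, CE p V (dd e (ff S lam)) x ≤ S / (1 - p) := by
  have hp : 0 < 1 - p := by linarith
  have h2 : ∑ e ∈ A, CE p V (dd e (ff S lam)) x ≤
      ∑ e ∈ A, 1 / (1 - p) * Ex p (fun y : Cf n => ind (e ∈ UP (opt S lam (glue V x y)))) :=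
    Finset.sum_le_sum fun e he => ce_le h0 h1 (hA e he) x
  rw [← Finset.mul_sum, ← Ex_sum] at h2
  refine h2.trans ?_
  have h3 : Ex p (fun y : Cf n => ∑ e ∈ A, ind (e ∈ UP (opt S lam (glue V x y)))) ≤ S := by
    apply Ex_le_const h0 h1.le
    intro y
    have h4 : ∑ e ∈ A, ind (e ∈ UP (opt S lam (glue V x y))) =
        ((A.filter (fun e => e ∈ UP (opt S lam (glue V x y)))).card : ℝ) := by
      rw [Finset.card_filter]
      push_cast
      refine Finset.sum_congr rfl fun e _ => ?_
      by_cases h : e ∈ UP (opt S lam (glue V x y))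
      · rw [ind_true h, if_pos h]
      · rw [ind_false h, if_neg h]
    rw [h4]
    have h5 : (A.filter (fun e => e ∈ UP (opt S lam (glue V x y)))) ⊆
        (UP (opt S lam (glue V x y))).filter (fun e => u ∈ e) := by
      intro e he
      rw [Finset.mem_filter] at he ⊢
      exact ⟨he.2, hu e he.1⟩
    have h6 := (Finset.card_le_card h5).trans (deg_le (opt_pack S lam (glue V x y)) u)
    exact_mod_cast h6
  rw [one_div, div_eq_inv_mul]
  exact mul_le_mul_of_nonneg_left h3 (inv_nonneg.mpr hp.le)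

private theorem deg_mem_nw {e : Sym2 (Fin n)} (he : e ∈ nw n j) :
    e ∉ (pre n j).sym2 ∧ ∃ u ∈ e, u.val = j := by
  unfold nw at he
  rw [Finset.mem_sdiff] at he
  refine ⟨he.2, ?_⟩
  by_contra hcon
  push Not at hcon
  apply he.2
  rw [Finset.mem_sym2_iff]
  intro u hu
  have h1 := Finset.mem_sym2_iff.mp he.1 u hu
  unfold pre at h1 ⊢
  rw [Finset.mem_filter] at h1 ⊢
  refine ⟨h1.1, ?_⟩
  have h2 := hcon u hu
  omega

theorem ce_sum (h0 : 0 ≤ p) (h1 : p < 1) (hj : j < n) (x : Cf n) :
    ∑ e ∈ nw n j, CE p (pre n j).sym2 (dd e (ff S lam)) x ≤ S / (1 - p) := by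
  refine deg_sum h0 h1 x ⟨j, hj⟩ (nw n j) (fun e he => (deg_mem_nw he).1) (fun e he => ?_)
  obtain ⟨u, hu, huj⟩ := (deg_mem_nw he).2
  have : u = ⟨j, hj⟩ := Fin.ext huj
  rw [← this]
  exact hu

theorem ce_sum_star (h0 : 0 ≤ p) (h1 : p < 1) (x : Cf n) {u : Fin n} (hu : u.val < j) :
    ∑ w ∈ (Finset.univ : Finset (Fin n)).filter (fun w => j ≤ w.val),
      CE p (pre n j).sym2 (dd s(u, w) (ff S lam)) x ≤ S / (1 - p) := by
  have hinj : Set.InjOn (fun w : Fin n => s(u, w))
      (((Finset.univ : Finset (Fin n)).filter (fun w => j ≤ w.val) : Finset (Fin n)) : Set (Fin n)) := by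
    intro a _ b _ hab
    exact Sym2.congr_right.mp hab
  have h2 := deg_sum (S := S) (lam := lam) h0 h1 (V := (pre n j).sym2) x u
    (((Finset.univ : Finset (Fin n)).filter (fun w => j ≤ w.val)).image (fun w => s(u, w)))
    (fun e he => by
      rw [Finset.mem_image] at he
      obtain ⟨w, hw, rfl⟩ := he
      rw [Finset.mem_filter] at hw
      intro hmem
      have := Finset.mem_sym2_iff.mp hmem w (Sym2.mem_mk_right u w)
      unfold pre at this
      rw [Finset.mem_filter] at this
      omega)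
    (fun e he => by
      rw [Finset.mem_image] at he
      obtain ⟨w, hw, rfl⟩ := he
      exact Sym2.mem_mk_left u w)
  rw [Finset.sum_image hinj] at h2
  exact h2

end Pool.Agent.CHV
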