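import Pool.Agent.CHV.Grf

/-!
# CHV / Dlt: the second moment sum

PROOFS.  `card_inter`: for a fixed `I ⊆ M` with `|I| = r` the number of `J ⊆ M`, `|J| = r`, `|I ∩ J| = j` is
`C(r, j) C(m - r, r - j)` (`J ↦ (J ∩ I, J \ I)`); only `≤` is needed: `J` is determined by `J ∩ I` (`C(r, j)` choices) and
`J \ I ⊆ M \ I` of size `r - j`.
`choose_ratio`: `C(m - r, r - j) ≤ C(m - j, r - j)` (`Nat.choose_le_choose`), and `C(m - j, r - j) / C(m, r) = ∏_{i<j} (r - i)/(m - i)
≤ (r/m)^j`: by induction on `j`: `C(m - j - 1, r - j - 1) * (m - j) = C(m - j, r - j) * (r - j)` (`Nat.succ_mul_choose_eq` /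
`Nat.add_one_mul_choose_eq`) and `(r - j)/(m - j) ≤ r/m`.
`delta_le`: `q = 1 - p > 0`.  `∑_I q^C(r,2) = C(m, r) q^C(r,2) =: μ`.  Split the inner sum according to `j = |I ∩ J|`, `2 ≤ j ≤ r`:
`∑_J ≤ ∑_j C(r,j) C(m-r, r-j) q^(2 C(r,2) - C(j,2)) ≤ ∑_j C(m,r) q^(2 C(r,2)) * [C(r,j) (r/m)^j (1/q)^C(j,2)] ≤ C(m,r) q^(2 C(r,2)) r τ`
(at most `r - 1` values of `j`), and the sum over `I` gives the factor `C(m, r)`.
-/

set_option autoImplicit false

namespace Pool.Agent.CHV

open Finset

variable {n : ℕ} {p : ℝ}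

theorem card_inter_le {M I : Finset (Fin n)} {r j : ℕ} (hI : I ⊆ M) (hIc : I.card = r) :
    ((M.powersetCard r).filter (fun J => (I ∩ J).card = j)).card ≤
      r.choose j * (M.card - r).choose (r - j) := by
  have h1 : ((M.powersetCard r).filter (fun J => (I ∩ J).card = j)).card ≤
      ((I.powersetCard j) ×ˢ ((M \ I).powersetCard (r - j))).card := by
    apply Finset.card_le_card_of_injOn (fun J => (I ∩ J, J \ I))
    · intro J hJ
      have hJ' := Finset.mem_filter.1 (Finset.mem_coe.1 hJ)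
      have hJ1 := Finset.mem_powersetCard.1 hJ'.1
      rw [Finset.mem_coe, Finset.mem_product]
      refine ⟨Finset.mem_powersetCard.2 ⟨Finset.inter_subset_left, hJ'.2⟩,
        Finset.mem_powersetCard.2 ⟨Finset.sdiff_subset_sdiff hJ1.1 (le_refl _), ?_⟩⟩
      have h2 := Finset.card_sdiff_add_card_inter J I
      have h3 : (J ∩ I).card = j := by rw [Finset.inter_comm]; exact hJ'.2
      show (J \ I).card = r - j
      omega
    · intro J _ J' _ h
      have h1 := congrArg Prod.fst h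
      have h2 := congrArg Prod.snd h
      simp only at h1 h2
      calc J = (J \ I) ∪ (I ∩ J) := by rw [Finset.inter_comm, Finset.sdiff_union_inter]
        _ = (J' \ I) ∪ (I ∩ J') := by rw [h1, h2]
        _ = J' := by rw [Finset.inter_comm, Finset.sdiff_union_inter]
  refine le_trans h1 (le_of_eq ?_)
  rw [Finset.card_product, Finset.card_powersetCard, Finset.card_powersetCard, hIc,
    Finset.card_sdiff_of_subset hI, hIc]

theorem choose_ratio {m r j : ℕ} (hj : j ≤ r) (hr : r ≤ m) (hm : 0 < m) :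
    ((m - r).choose (r - j) : ℝ) ≤ (m.choose r : ℝ) * ((r : ℝ) / m) ^ j := by
  have hm' : (0 : ℝ) < m := by exact_mod_cast hm
  have h1 : ((m - r).choose (r - j) : ℝ) ≤ ((m - j).choose (r - j) : ℝ) := by
    exact_mod_cast Nat.choose_le_choose (r - j) (by omega : m - r ≤ m - j)
  refine le_trans h1 ?_
  clear h1
  induction j with
  | zero => simp
  | succ j ih =>
    have ih' := ih (by omega)
    have h2 : (m - j).choose (r - j) * (r - j) = (m - j) * (m - (j + 1)).choose (r - (j + 1)) := by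
      have h3 := Nat.add_one_mul_choose_eq (m - (j + 1)) (r - (j + 1))
      have e1 : m - (j + 1) + 1 = m - j := by omega
      have e2 : r - (j + 1) + 1 = r - j := by omega
      rw [e1, e2] at h3
      exact h3.symm
    have hmj : (0 : ℝ) < ((m - j : ℕ) : ℝ) := by exact_mod_cast (by omega : 0 < m - j)
    have h4 : ((m - (j + 1)).choose (r - (j + 1)) : ℝ) =
        ((m - j).choose (r - j) : ℝ) * (((r - j : ℕ) : ℝ) / ((m - j : ℕ) : ℝ)) := by
      rw [mul_div_assoc', eq_div_iff hmj.ne']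
      have : ((m - j).choose (r - j) : ℝ) * ((r - j : ℕ) : ℝ) =
          ((m - j : ℕ) : ℝ) * ((m - (j + 1)).choose (r - (j + 1)) : ℝ) := by exact_mod_cast h2
      rw [this]
      ring
    have h5 : (((r - j : ℕ) : ℝ) / ((m - j : ℕ) : ℝ)) ≤ (r : ℝ) / m := by
      rw [div_le_div_iff₀ hmj hm']
      rw [Nat.cast_sub (by omega : j ≤ r), Nat.cast_sub (by omega : j ≤ m)]
      have : (r : ℝ) ≤ m := by exact_mod_cast hr
      have hj0 : (0 : ℝ) ≤ j := Nat.cast_nonneg _
      nlinarith
    rw [h4, pow_succ]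
    calc ((m - j).choose (r - j) : ℝ) * (((r - j : ℕ) : ℝ) / ((m - j : ℕ) : ℝ))
        ≤ ((m.choose r : ℝ) * ((r : ℝ) / m) ^ j) * ((r : ℝ) / m) := by
          apply mul_le_mul ih' h5 (by positivity) (by positivity)
      _ = _ := by ring

theorem delta_le (h0 : 0 ≤ p) (h1 : p < 1) {m r : ℕ} (M : Finset (Fin n)) (hM : M.card = m)
    (hr : 2 ≤ r) (hrm : r ≤ m) {τ : ℝ}
    (hτ : ∀ j, 2 ≤ j → j ≤ r →
      (r.choose j : ℝ) * ((r : ℝ) / m) ^ j * (1 / (1 - p)) ^ (j.choose 2) ≤ τ) :
    ∑ I ∈ M.powersetCard r, ∑ J ∈ (M.powersetCard r).filter (fun J => 2 ≤ (I ∩ J).card),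
      (1 - p) ^ (2 * r.choose 2 - (I ∩ J).card.choose 2) ≤
      r * τ * (∑ I ∈ M.powersetCard r, (1 - p) ^ (r.choose 2)) ^ 2 := by
  have hq : 0 < 1 - p := by linarith
  have hm : 0 < m := by omega
  have hτ0 : 0 ≤ τ := le_trans (by positivity) (hτ 2 le_rfl hr)
  set q := 1 - p with hqdef
  set D := r.choose 2 with hD
  have hinner : ∀ I ∈ M.powersetCard r,
      ∑ J ∈ (M.powersetCard r).filter (fun J => 2 ≤ (I ∩ J).card),
        q ^ (2 * D - (I ∩ J).card.choose 2) ≤ r * τ * ((m.choose r : ℝ) * q ^ (2 * D)) := by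
    intro I hI
    have hI' := Finset.mem_powersetCard.1 hI
    have hle : ∀ J ∈ M.powersetCard r, (I ∩ J).card ≤ r := by
      intro J _
      exact le_trans (Finset.card_le_card Finset.inter_subset_left) hI'.2.le
    have hsplit : ∑ J ∈ (M.powersetCard r).filter (fun J => 2 ≤ (I ∩ J).card),
        q ^ (2 * D - (I ∩ J).card.choose 2) =
        ∑ j ∈ Finset.Icc 2 r, ∑ J ∈ (M.powersetCard r).filter (fun J => (I ∩ J).card = j),
          q ^ (2 * D - (I ∩ J).card.choose 2) := by
      rw [← Finset.sum_fiberwise_of_maps_to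
        (s := (M.powersetCard r).filter (fun J => 2 ≤ (I ∩ J).card)) (t := Finset.Icc 2 r)
        (g := fun J => (I ∩ J).card)]
      · apply Finset.sum_congr rfl
        intro j hj
        have hj' := Finset.mem_Icc.1 hj
        apply Finset.sum_congr _ (fun _ _ => rfl)
        ext J
        simp only [Finset.mem_filter]
        constructor
        · rintro ⟨⟨hJ, _⟩, h⟩
          exact ⟨hJ, h⟩
        · rintro ⟨hJ, h⟩
          exact ⟨⟨hJ, by omega⟩, h⟩
      · intro J hJ
        have hJ' := Finset.mem_filter.1 hJ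
        exact Finset.mem_Icc.2 ⟨hJ'.2, hle J hJ'.1⟩
    rw [hsplit]
    have hterm : ∀ j ∈ Finset.Icc 2 r,
        ∑ J ∈ (M.powersetCard r).filter (fun J => (I ∩ J).card = j),
          q ^ (2 * D - (I ∩ J).card.choose 2) ≤ τ * ((m.choose r : ℝ) * q ^ (2 * D)) := by
      intro j hj
      have hj' := Finset.mem_Icc.1 hj
      have e1 : ∑ J ∈ (M.powersetCard r).filter (fun J => (I ∩ J).card = j),
          q ^ (2 * D - (I ∩ J).card.choose 2) =
          (((M.powersetCard r).filter (fun J => (I ∩ J).card = j)).card : ℝ) *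
            q ^ (2 * D - j.choose 2) := by
        rw [← nsmul_eq_mul, ← Finset.sum_const]
        apply Finset.sum_congr rfl
        intro J hJ
        rw [(Finset.mem_filter.1 hJ).2]
      rw [e1]
      have hjD : j.choose 2 ≤ 2 * D := by
        have : j.choose 2 ≤ r.choose 2 := Nat.choose_le_choose 2 hj'.2
        omega
      have e2 : q ^ (2 * D - j.choose 2) = q ^ (2 * D) * (1 / q) ^ (j.choose 2) := by
        rw [pow_sub₀ q hq.ne' hjD, one_div, inv_pow]
      rw [e2]
      have h3 : (((M.powersetCard r).filter (fun J => (I ∩ J).card = j)).card : ℝ) ≤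
          (r.choose j : ℝ) * ((m.choose r : ℝ) * ((r : ℝ) / m) ^ j) := by
        have h4 := card_inter_le (j := j) hI'.1 hI'.2
        rw [hM] at h4
        have h5 : (((M.powersetCard r).filter (fun J => (I ∩ J).card = j)).card : ℝ) ≤
            (r.choose j : ℝ) * ((m - r).choose (r - j) : ℝ) := by exact_mod_cast h4
        refine le_trans h5 ?_
        exact mul_le_mul_of_nonneg_left (choose_ratio hj'.2 hrm hm) (Nat.cast_nonneg _)
      have hq2 : 0 ≤ q ^ (2 * D) * (1 / q) ^ (j.choose 2) := by positivity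
      calc (((M.powersetCard r).filter (fun J => (I ∩ J).card = j)).card : ℝ) *
            (q ^ (2 * D) * (1 / q) ^ (j.choose 2))
          ≤ ((r.choose j : ℝ) * ((m.choose r : ℝ) * ((r : ℝ) / m) ^ j)) *
            (q ^ (2 * D) * (1 / q) ^ (j.choose 2)) := mul_le_mul_of_nonneg_right h3 hq2
        _ = ((r.choose j : ℝ) * ((r : ℝ) / m) ^ j * (1 / q) ^ (j.choose 2)) *
            ((m.choose r : ℝ) * q ^ (2 * D)) := by ring
        _ ≤ τ * ((m.choose r : ℝ) * q ^ (2 * D)) :=
            mul_le_mul_of_nonneg_right (hτ j hj'.1 hj'.2) (by positivity)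
    refine le_trans (Finset.sum_le_sum hterm) ?_
    rw [Finset.sum_const, nsmul_eq_mul, Nat.card_Icc]
    have h6 : ((r + 1 - 2 : ℕ) : ℝ) ≤ r := by exact_mod_cast (by omega : r + 1 - 2 ≤ r)
    have h7 : 0 ≤ τ * ((m.choose r : ℝ) * q ^ (2 * D)) := by positivity
    calc ((r + 1 - 2 : ℕ) : ℝ) * (τ * ((m.choose r : ℝ) * q ^ (2 * D)))
        ≤ r * (τ * ((m.choose r : ℝ) * q ^ (2 * D))) := mul_le_mul_of_nonneg_right h6 h7
      _ = _ := by ring
  refine le_trans (Finset.sum_le_sum hinner) (le_of_eq ?_)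
  rw [Finset.sum_const, Finset.sum_const, Finset.card_powersetCard, hM, nsmul_eq_mul, nsmul_eq_mul]
  have : q ^ (2 * D) = q ^ D * q ^ D := by rw [two_mul, pow_add]
  rw [this]
  ring

end Pool.Agent.CHV
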