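import Pool.Agent.CHV.ExB

/-!
# CHV / EntL: lower bounds for the entropy

PROOFS.  `ent_nonneg`: `M = Ex F`.  If `M > 0`: pointwise `F log F ≥ F log M + F - M` (from `log (M / F) ≤ M / F - 1` for `F > 0`;
for `F = 0` the claim is `0 ≥ -M`), take `Ex`.  If `M = 0`: `w(x) F(x) = 0` for all `x` (a sum of nonnegative terms which
vanishes), so `Ex (F log F) = 0` and `Ent = 0`.
`ent_lower`: put `M = Ex h^2`, `l = Ex |h|`.  If `M = 0` the left-hand side is `0` and the right-hand side is `≥ 0`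
(`a ≥ l ≥ 0`, `ent_nonneg`, `log (1/κ) > 0`).  Let `M > 0`; then `l > 0` (otherwise `w(x) |h x| = 0` for all `x` and `M = 0`).
With `r = M / l > 0`: pointwise `h^2 log (h^2) ≥ h^2 log (r^2) + 2 (h^2 - r |h|)` (from `log (r / |h|) ≤ r / |h| - 1`; for `h = 0`
both sides are `0`).  Taking `Ex`: `Ex (h^2 log h^2) ≥ M log (r^2) + 2 (M - r l) = M log (M^2 / l^2)`, hence
`Ent ≥ M log (M / l^2)`.  If `M ≤ sqrt κ * a` we are done by `ent_nonneg`.  Otherwise `a > 0` and
`M / l^2 ≥ M / a^2 ≥ sqrt κ / a ≥ sqrt κ / κ = (1/κ)^(1/2)`, so `Ent ≥ M * (1/2) log (1/κ)`.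
-/

set_option autoImplicit false

namespace Pool.Agent.CHV

open Finset

variable {ι : Type} [Fintype ι] [DecidableEq ι] {p : ℝ}

theorem ent_nonneg (h0 : 0 ≤ p) (h1 : p ≤ 1) {F : (ι → Bool) → ℝ} (hF : ∀ x, 0 ≤ F x) :
    0 ≤ Ent p F := by
  have hM0 : 0 ≤ Ex p F := Ex_nonneg h0 h1 hF
  rcases eq_or_lt_of_le hM0 with hM | hM
  · have hz : ∀ x : ι → Bool, (∏ i, bw p (x i)) * F x = 0 := by
      have h2 : ∑ x : ι → Bool, (∏ i, bw p (x i)) * F x = 0 := hM.symm
      rw [Finset.sum_eq_zero_iff_of_nonneg fun x _ => mul_nonneg (w_nonneg h0 h1 x) (hF x)] at h2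
      exact fun x => h2 x (Finset.mem_univ x)
    have h3 : Ex p (fun x => F x * Real.log (F x)) = 0 := by
      unfold Ex
      refine Finset.sum_eq_zero fun x _ => ?_
      rw [← mul_assoc, hz x, zero_mul]
    unfold Ent
    rw [h3, ← hM]
    simp
  · have hpt : ∀ x, Real.log (Ex p F) * F x + (F x - Ex p F) ≤ F x * Real.log (F x) := by
      intro x
      rcases eq_or_lt_of_le (hF x) with hx | hx
      · rw [← hx]
        simp only [mul_zero, zero_mul, zero_sub, zero_add]
        linarith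
      · have h2 := Real.log_le_sub_one_of_pos (div_pos hM hx)
        rw [Real.log_div hM.ne' hx.ne'] at h2
        have h3 := mul_le_mul_of_nonneg_left h2 hx.le
        have h4 : F x * (Ex p F / F x - 1) = Ex p F - F x := by
          field_simp
        rw [h4] at h3
        linarith
    have h2 := Ex_mono (p := p) h0 h1 hpt
    rw [Ex_add, Ex_smul, Ex_sub, Ex_const] at h2
    have h3 : Ex p (fun x => F x) = Ex p F := rfl
    rw [h3] at h2
    unfold Ent
    linarith

private lemma entl_pt {r : ℝ} (hr : 0 < r) (x : ℝ) :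
    Real.log (r ^ 2) * x ^ 2 + (2 * x ^ 2 - 2 * r * |x|) ≤ x ^ 2 * Real.log (x ^ 2) := by
  rcases eq_or_ne x 0 with hx | hx
  · subst hx
    simp
  · have hx' : 0 < |x| := abs_pos.2 hx
    have h2 := Real.log_le_sub_one_of_pos (div_pos hr hx')
    rw [Real.log_div hr.ne' hx'.ne', Real.log_abs] at h2
    have h3 := mul_le_mul_of_nonneg_left h2 (show (0 : ℝ) ≤ 2 * |x| ^ 2 by positivity)
    have h4 : 2 * |x| ^ 2 * (r / |x| - 1) = 2 * r * |x| - 2 * |x| ^ 2 := by
      field_simp
    rw [h4, sq_abs] at h3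
    rw [Real.log_pow, Real.log_pow]
    push_cast
    linarith

theorem ent_lower (h0 : 0 ≤ p) (h1 : p ≤ 1) (h : (ι → Bool) → ℝ) {a κ : ℝ} (hκ0 : 0 < κ)
    (hκ1 : κ < 1) (ha : Ex p (fun x => |h x|) ≤ a) (haκ : a ≤ κ) :
    Ex p (fun x => h x ^ 2) ≤
      Real.sqrt κ * a + 2 / Real.log (1 / κ) * Ent p (fun x => h x ^ 2) := by
  have hE := ent_nonneg (p := p) h0 h1 (F := fun x => h x ^ 2) fun x => sq_nonneg _
  have hl0 : 0 ≤ Ex p (fun x => |h x|) := Ex_nonneg h0 h1 fun x => abs_nonneg _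
  have hM0 : 0 ≤ Ex p (fun x => h x ^ 2) := Ex_nonneg h0 h1 fun x => sq_nonneg _
  have hlog : 0 < Real.log (1 / κ) := Real.log_pos ((one_lt_div hκ0).2 hκ1)
  have hs : 0 < Real.sqrt κ := Real.sqrt_pos.2 hκ0
  have hss : Real.sqrt κ * Real.sqrt κ = κ := Real.mul_self_sqrt hκ0.le
  obtain ⟨M, hM⟩ : ∃ M : ℝ, M = Ex p (fun x => h x ^ 2) := ⟨_, rfl⟩
  obtain ⟨l, hl⟩ : ∃ l : ℝ, l = Ex p (fun x => |h x|) := ⟨_, rfl⟩
  rw [← hl] at ha hl0
  rw [← hM] at hM0 ⊢
  have ha0 : 0 ≤ a := hl0.trans ha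
  have hsec : 0 ≤ 2 / Real.log (1 / κ) * Ent p (fun x => h x ^ 2) := by positivity
  rcases le_or_gt M (Real.sqrt κ * a) with hc | hc
  · linarith
  · have hMp : 0 < M := lt_of_le_of_lt (mul_nonneg hs.le ha0) hc
    have hlp : 0 < l := by
      rcases eq_or_lt_of_le hl0 with h2 | h2
      · exfalso
        have hz : ∀ x : ι → Bool, (∏ i, bw p (x i)) * |h x| = 0 := by
          have h3 : ∑ x : ι → Bool, (∏ i, bw p (x i)) * |h x| = 0 := by
            rw [h2, hl]
            rfl
          rw [Finset.sum_eq_zero_iff_of_nonneg fun x _ =>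
            mul_nonneg (w_nonneg h0 h1 x) (abs_nonneg _)] at h3
          exact fun x => h3 x (Finset.mem_univ x)
        have h4 : M = 0 := by
          rw [hM]
          unfold Ex
          refine Finset.sum_eq_zero fun x _ => ?_
          show (∏ i, bw p (x i)) * h x ^ 2 = 0
          rw [← sq_abs, sq, ← mul_assoc, hz x, zero_mul]
        linarith
      · exact h2
    have hap : 0 < a := hlp.trans_le ha
    have hr : 0 < M / l := div_pos hMp hlp
    have h2 := Ex_mono (p := p) h0 h1 fun x => entl_pt hr (h x)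
    rw [Ex_add, Ex_sub, Ex_smul, Ex_smul, Ex_smul, ← hM, ← hl] at h2
    have h3 : 2 * (M / l) * l = 2 * M := by
      field_simp
    rw [h3] at h2
    have h4 : Real.log ((M / l) ^ 2) - Real.log M = Real.log (M / l ^ 2) := by
      rw [← Real.log_div (by positivity) hMp.ne']
      congr 1
      field_simp
    have h5 : Ent p (fun x => h x ^ 2) = Ex p (fun x => h x ^ 2 * Real.log (h x ^ 2)) -
        M * Real.log M := by
      unfold Ent
      rw [← hM]
    have h6 : M * Real.log (M / l ^ 2) ≤ Ent p (fun x => h x ^ 2) := by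
      rw [h5, ← h4]
      linarith
    have h7 : 1 / Real.sqrt κ ≤ M / l ^ 2 := by
      rw [div_le_div_iff₀ hs (by positivity), one_mul]
      have h8 : l ^ 2 ≤ a * a := by nlinarith
      have h9 : Real.sqrt κ * a * Real.sqrt κ ≤ M * Real.sqrt κ :=
        mul_le_mul_of_nonneg_right hc.le hs.le
      have h10 : a * a ≤ κ * a := mul_le_mul_of_nonneg_right haκ ha0
      have h11 : Real.sqrt κ * a * Real.sqrt κ = κ * a := by
        rw [mul_right_comm, hss]
      linarith
    have h8 : Real.log (1 / Real.sqrt κ) = Real.log (1 / κ) / 2 := by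
      rw [one_div, one_div, Real.log_inv, Real.log_inv, Real.log_sqrt hκ0.le]
      ring
    have h9 := Real.log_le_log (by positivity) h7
    rw [h8] at h9
    have h10 := mul_le_mul_of_nonneg_left h9 hMp.le
    have h11 : M ≤ 2 / Real.log (1 / κ) * Ent p (fun x => h x ^ 2) := by
      rw [div_mul_eq_mul_div, le_div_iff₀ hlog]
      linarith
    have h12 : 0 ≤ Real.sqrt κ * a := by positivity
    linarith

end Pool.Agent.CHV
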