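import Pool.Agent.CHV.Defs

/-!
# CHV / ExB: elementary properties of the expectation `Ex`

PROOFS.  All elementary.  `sum_w`: `Finset.prod_univ_sum` (`∏ i, ∑ b, f i b = ∑ x ∈ Fintype.piFinset ..`) or
`Finset.prod_add`-type; `bw p true + bw p false = 1`.  `Ex_comm`: `Finset.sum_comm` after `Finset.mul_sum`.
`Ex_cs` (Cauchy-Schwarz): `Finset.sum_mul_sq_le_sq_mul_sq` applied to `sqrt w * F`, `sqrt w * G`
(or `Finset.inner_mul_le_norm_mul_norm`; or discriminant argument), `w = ∏ bw ≥ 0`.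
`exp_Ex_le`: `Real.exp a ≥ Real.exp m * (1 + a - m)` with `m = Ex p F` (from `Real.add_one_le_exp`).
`var_le_add`: `(F - m)^2 ≤ 2 (G - g)^2 + 2 ((F - G) )^2` with `m = Ex F`, `g = Ex G`: use `var_eq` / `var_le` with the constant
`c = Ex p G`: `Ex (F - Ex F)^2 ≤ Ex (F - Ex G)^2 ≤ Ex (2 (G - Ex G)^2 + 2 (F - G)^2)`.
-/

set_option autoImplicit false

namespace Pool.Agent.CHV

open Finset

variable {ι : Type} [Fintype ι] [DecidableEq ι] {p : ℝ}

theorem sum_w (p : ℝ) : ∑ x : ι → Bool, ∏ i, bw p (x i) = 1 := by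
  have h1 : ∑ x : ι → Bool, ∏ i, bw p (x i) = ∏ _i : ι, ∑ b : Bool, bw p b := by
    rw [Finset.prod_univ_sum, Fintype.piFinset_univ]
  rw [h1]
  refine Finset.prod_eq_one fun i _ => ?_
  rw [Fintype.sum_bool]
  simp [bw]

theorem w_nonneg (h0 : 0 ≤ p) (h1 : p ≤ 1) (x : ι → Bool) : 0 ≤ ∏ i, bw p (x i) := by
  refine Finset.prod_nonneg fun i _ => ?_
  unfold bw
  cases x i
  · show 0 ≤ 1 - p
    linarith
  · exact h0

theorem Ex_const (c : ℝ) : Ex p (fun _ : ι → Bool => c) = c := by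
  unfold Ex
  rw [← Finset.sum_mul, sum_w, one_mul]

theorem Ex_add (F G : (ι → Bool) → ℝ) : Ex p (fun x => F x + G x) = Ex p F + Ex p G := by
  unfold Ex
  rw [← Finset.sum_add_distrib]
  exact Finset.sum_congr rfl fun x _ => mul_add _ _ _

theorem Ex_sub (F G : (ι → Bool) → ℝ) : Ex p (fun x => F x - G x) = Ex p F - Ex p G := by
  unfold Ex
  rw [← Finset.sum_sub_distrib]
  exact Finset.sum_congr rfl fun x _ => mul_sub _ _ _

theorem Ex_neg (F : (ι → Bool) → ℝ) : Ex p (fun x => -F x) = -Ex p F := by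
  unfold Ex
  rw [← Finset.sum_neg_distrib]
  exact Finset.sum_congr rfl fun x _ => mul_neg _ _

theorem Ex_smul (c : ℝ) (F : (ι → Bool) → ℝ) : Ex p (fun x => c * F x) = c * Ex p F := by
  unfold Ex
  rw [Finset.mul_sum]
  exact Finset.sum_congr rfl fun x _ => by ring

theorem Ex_sum {κ : Type} (s : Finset κ) (F : κ → (ι → Bool) → ℝ) :
    Ex p (fun x => ∑ k ∈ s, F k x) = ∑ k ∈ s, Ex p (F k) := by
  unfold Ex
  rw [Finset.sum_comm]
  exact Finset.sum_congr rfl fun x _ => Finset.mul_sum _ _ _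

theorem Ex_mono (h0 : 0 ≤ p) (h1 : p ≤ 1) {F G : (ι → Bool) → ℝ} (h : ∀ x, F x ≤ G x) :
    Ex p F ≤ Ex p G :=
  Finset.sum_le_sum fun x _ => mul_le_mul_of_nonneg_left (h x) (w_nonneg h0 h1 x)

theorem Ex_nonneg (h0 : 0 ≤ p) (h1 : p ≤ 1) {F : (ι → Bool) → ℝ} (h : ∀ x, 0 ≤ F x) :
    0 ≤ Ex p F :=
  Finset.sum_nonneg fun x _ => mul_nonneg (w_nonneg h0 h1 x) (h x)

theorem Ex_le_const (h0 : 0 ≤ p) (h1 : p ≤ 1) {F : (ι → Bool) → ℝ} {c : ℝ}
    (h : ∀ x, F x ≤ c) : Ex p F ≤ c :=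
  (Ex_mono h0 h1 h).trans (le_of_eq (Ex_const c))

theorem Ex_comm {κ : Type} [Fintype κ] [DecidableEq κ] (F : (ι → Bool) → (κ → Bool) → ℝ) :
    Ex p (fun x => Ex p (fun y => F x y)) = Ex p (fun y => Ex p (fun x => F x y)) := by
  unfold Ex
  simp only [Finset.mul_sum]
  rw [Finset.sum_comm]
  exact Finset.sum_congr rfl fun x _ => Finset.sum_congr rfl fun y _ => by ring

theorem Ex_cs (h0 : 0 ≤ p) (h1 : p ≤ 1) (F G : (ι → Bool) → ℝ) :
    Ex p (fun x => F x * G x) ^ 2 ≤ Ex p (fun x => F x ^ 2) * Ex p (fun x => G x ^ 2) := by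
  unfold Ex
  have h2 := Finset.sum_mul_sq_le_sq_mul_sq (Finset.univ : Finset (ι → Bool))
    (fun x => √(∏ i, bw p (x i)) * F x) (fun x => √(∏ i, bw p (x i)) * G x)
  have e0 : ∀ x : ι → Bool, √(∏ i, bw p (x i)) * √(∏ i, bw p (x i)) = ∏ i, bw p (x i) :=
    fun x => Real.mul_self_sqrt (w_nonneg h0 h1 x)
  have e1 : ∀ x : ι → Bool, √(∏ i, bw p (x i)) * F x * (√(∏ i, bw p (x i)) * G x) =
      (∏ i, bw p (x i)) * (F x * G x) := by
    intro x
    nth_rewrite 3 [← e0 x]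
    ring
  have e2 : ∀ (H : (ι → Bool) → ℝ) (x : ι → Bool), (√(∏ i, bw p (x i)) * H x) ^ 2 =
      (∏ i, bw p (x i)) * H x ^ 2 := by
    intro H x
    nth_rewrite 2 [← e0 x]
    ring
  simp only [e1, e2] at h2
  exact h2

theorem sq_Ex_le (h0 : 0 ≤ p) (h1 : p ≤ 1) (F : (ι → Bool) → ℝ) :
    Ex p F ^ 2 ≤ Ex p (fun x => F x ^ 2) := by
  have h := Ex_cs h0 h1 F (fun _ => 1)
  simp only [mul_one, one_pow] at h
  rw [Ex_const, mul_one] at h
  exact h

theorem Ex_sub_sq (F : (ι → Bool) → ℝ) (c : ℝ) :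
    Ex p (fun x => (F x - c) ^ 2) = Ex p (fun x => F x ^ 2) - 2 * c * Ex p F + c ^ 2 := by
  have h1 : (fun x : ι → Bool => (F x - c) ^ 2) =
      fun x => (F x ^ 2 - 2 * c * F x) + c ^ 2 := by
    funext x
    ring
  rw [h1, Ex_add (fun x => F x ^ 2 - 2 * c * F x) (fun _ => c ^ 2), Ex_const,
    Ex_sub (fun x => F x ^ 2) (fun x => 2 * c * F x), Ex_smul]

theorem var_eq (F : (ι → Bool) → ℝ) :
    Ex p (fun x => (F x - Ex p F) ^ 2) = Ex p (fun x => F x ^ 2) - Ex p F ^ 2 := by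
  rw [Ex_sub_sq]
  ring

theorem var_le (F : (ι → Bool) → ℝ) (c : ℝ) :
    Ex p (fun x => (F x - Ex p F) ^ 2) ≤ Ex p (fun x => (F x - c) ^ 2) := by
  rw [Ex_sub_sq, Ex_sub_sq]
  nlinarith [sq_nonneg (Ex p F - c)]

theorem var_le_add (h0 : 0 ≤ p) (h1 : p ≤ 1) (F G : (ι → Bool) → ℝ) :
    Ex p (fun x => (F x - Ex p F) ^ 2) ≤
      2 * Ex p (fun x => (G x - Ex p G) ^ 2) + 2 * Ex p (fun x => (F x - G x) ^ 2) := by
  refine (var_le F (Ex p G)).trans ?_
  rw [← Ex_smul, ← Ex_smul, ← Ex_add]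
  refine Ex_mono h0 h1 fun x => ?_
  nlinarith [sq_nonneg ((G x - Ex p G) - (F x - G x))]

theorem exp_Ex_le (h0 : 0 ≤ p) (h1 : p ≤ 1) (F : (ι → Bool) → ℝ) :
    Real.exp (Ex p F) ≤ Ex p (fun x => Real.exp (F x)) := by
  have h2 : Ex p (fun x => Real.exp (Ex p F) * ((F x - Ex p F) + 1)) ≤
      Ex p (fun x => Real.exp (F x)) := by
    refine Ex_mono h0 h1 fun x => ?_
    have h3 := Real.add_one_le_exp (F x - Ex p F)
    have h4 := mul_le_mul_of_nonneg_left h3 (Real.exp_nonneg (Ex p F))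
    rw [← Real.exp_add] at h4
    have h5 : Ex p F + (F x - Ex p F) = F x := by ring
    rw [h5] at h4
    exact h4
  rw [Ex_smul, Ex_add (fun x => F x - Ex p F) (fun _ => 1), Ex_const,
    Ex_sub F (fun _ => Ex p F), Ex_const, sub_self, zero_add, mul_one] at h2
  exact h2

theorem ind_true {P : Prop} (h : P) : ind P = 1 := by
  unfold ind
  rw [if_pos h]

theorem ind_false {P : Prop} (h : ¬ P) : ind P = 0 := by
  unfold ind
  rw [if_neg h]

theorem ind_nonneg (P : Prop) : 0 ≤ ind P := by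
  by_cases h : P
  · rw [ind_true h]
    exact zero_le_one
  · rw [ind_false h]

theorem ind_le_one (P : Prop) : ind P ≤ 1 := by
  by_cases h : P
  · rw [ind_true h]
  · rw [ind_false h]
    exact zero_le_one

theorem ind_mono {P Q : Prop} (h : P → Q) : ind P ≤ ind Q := by
  by_cases hP : P
  · rw [ind_true hP, ind_true (h hP)]
  · rw [ind_false hP]
    exact ind_nonneg Q

/-- union bound -/
theorem ind_exists {κ : Type} (s : Finset κ) (P : κ → Prop) :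
    ind (∃ k ∈ s, P k) ≤ ∑ k ∈ s, ind (P k) := by
  by_cases h : ∃ k ∈ s, P k
  · obtain ⟨k, hk, hPk⟩ := h
    rw [ind_true ⟨k, hk, hPk⟩, ← ind_true hPk]
    exact Finset.single_le_sum (f := fun k => ind (P k)) (fun k _ => ind_nonneg _) hk
  · rw [ind_false h]
    exact Finset.sum_nonneg fun k _ => ind_nonneg _

theorem ind_or (P Q : Prop) : ind (P ∨ Q) ≤ ind P + ind Q := by
  by_cases hP : P
  · rw [ind_true (Or.inl hP), ind_true hP]
    linarith [ind_nonneg Q]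
  · by_cases hQ : Q
    · rw [ind_true (Or.inr hQ), ind_true hQ]
      linarith [ind_nonneg P]
    · rw [ind_false (not_or.2 ⟨hP, hQ⟩)]
      linarith [ind_nonneg P, ind_nonneg Q]

end Pool.Agent.CHV
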