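import Pool.Agent.CHV.ExB

/-!
# CHV / ExR: change of the index set, one bit, products

PROOFS.  `Ex_equiv`: reindex the sum over `ι → Bool` with `Equiv.arrowCongr e.symm (Equiv.refl _)` or
`Equiv.piCongrLeft`, and `Fintype.prod_equiv`.
`Ex_update`: both sides are linear; split the sum over `x` according to `x i`; or transfer: the involution
`x ↦ update x i (!x i)`.  One way: `Ex p F = ∑_x w(x) F(x)`, and for every `x`:
`w(x) = bw p (x i) * w'(x)`, `w'(x) = ∏_{k ≠ i} bw p (x k)` (`Finset.mul_prod_erase`); the map `x ↦ update x i b` and the fibres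
`{x : x i = true}`, `{x : x i = false}`: `∑_x g(x) = ∑_{x : x i = true} (g(x) + g(update x i false))`.
`Ex_cons`: `Fin.consEquiv` / `Fin.consPiProd`, `Fin.prod_univ_succ`.
`Ex_map`: induction or: `ι ≃ κ ⊕ (complement of the range)`; alternatively: write both sides with `Finset.prod_univ_sum`-type
computations: for fixed `y : κ → Bool`, `∑_{x : x ∘ f = y} ∏ bw p (x i) = ∏ bw p (y k)` (`Finset.sum_fiberwise` and
`Finset.prod_univ_sum` with the sets `{y k}` at `f k` and `univ` elsewhere).
`Ex_false`: `ind (∀ i ∈ A, x i = false) = ∏ i, (if i ∈ A ∧ x i = true then 0 else 1)` and `Finset.prod_univ_sum`.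
`Ex_indep`: swap argument: `H(x, y) = F x * G y`; `F (glue A x y) = F x`, `G (glue A x y) = G y`; with
`Ex F * Ex G = Ex_x Ex_y F x * G y`, and `Ex_x Ex_y (F * G) (glue A x y) = Ex (F * G)` (see Glu.lean; you may prove it directly
here by the involution `(x, y) ↦ (glue A x y, glue A y x)` of pairs).
-/

set_option autoImplicit false

namespace Pool.Agent.CHV

open Finset

variable {ι : Type} [Fintype ι] [DecidableEq ι] {p : ℝ}

theorem Ex_equiv {κ : Type} [Fintype κ] [DecidableEq κ] (e : κ ≃ ι) (F : (κ → Bool) → ℝ) :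
    Ex p (fun x : ι → Bool => F (fun k => x (e k))) = Ex p F := by
  unfold Ex
  refine Fintype.sum_equiv (Equiv.arrowCongr e.symm (Equiv.refl Bool)) _ _ ?_
  intro x
  have h1 : (Equiv.arrowCongr e.symm (Equiv.refl Bool)) x = fun k => x (e k) := by
    funext k
    rfl
  rw [h1]
  congr 1
  exact (Fintype.prod_equiv e (fun k => bw p (x (e k))) (fun i => bw p (x i))
    (fun k => rfl)).symm

private theorem sum_bw : ∑ b : Bool, bw p b = 1 := by
  rw [Fintype.sum_bool]
  simp [bw]

private theorem Ex_sum_type {κ ρ : Type} [Fintype κ] [DecidableEq κ] [Fintype ρ] [DecidableEq ρ]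
    (F : (κ ⊕ ρ → Bool) → ℝ) :
    Ex p F = Ex p (fun x : κ → Bool => Ex p (fun y : ρ → Bool => F (Sum.elim x y))) := by
  unfold Ex
  rw [← (Equiv.sumArrowEquivProdArrow κ ρ Bool).symm.sum_comp, Fintype.sum_prod_type]
  refine Finset.sum_congr rfl fun x _ => ?_
  rw [Finset.mul_sum]
  refine Finset.sum_congr rfl fun y _ => ?_
  have h1 : (Equiv.sumArrowEquivProdArrow κ ρ Bool).symm (x, y) = Sum.elim x y := rfl
  rw [h1, Fintype.prod_sum_type]
  simp only [Sum.elim_inl, Sum.elim_inr]
  rw [mul_assoc]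

theorem Ex_map {κ : Type} [Fintype κ] [DecidableEq κ] (f : κ → ι) (hf : Function.Injective f)
    (F : (κ → Bool) → ℝ) : Ex p (fun x : ι → Bool => F (fun k => x (f k))) = Ex p F := by
  classical
  let R : Type := ↥((Set.range f)ᶜ)
  let _i : Fintype R := Fintype.ofFinite R
  let e : κ ⊕ R ≃ ι := (Equiv.sumCongr (Equiv.ofInjective f hf) (Equiv.refl R)).trans
    (Equiv.Set.sumCompl (Set.range f))
  have he : ∀ k, e (Sum.inl k) = f k := fun k => rfl
  have h1 := Ex_equiv (p := p) e (fun y : κ ⊕ R → Bool => F (fun k => y (Sum.inl k)))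
  simp only [he] at h1
  rw [h1, Ex_sum_type]
  simp only [Sum.elim_inl]
  simp only [Ex_const]

private theorem Ex_glue_pair (S : Finset ι) (H : (ι → Bool) → (ι → Bool) → ℝ) :
    ∑ x : ι → Bool, ∑ y : ι → Bool,
      ((∏ i, bw p (x i)) * (∏ i, bw p (y i))) * H (glue S x y) (glue S y x) =
    ∑ x : ι → Bool, ∑ y : ι → Bool, ((∏ i, bw p (x i)) * (∏ i, bw p (y i))) * H x y := by
  rw [← Fintype.sum_prod_type', ← Fintype.sum_prod_type']
  have hinv : Function.Involutive (fun q : (ι → Bool) × (ι → Bool) =>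
      (glue S q.1 q.2, glue S q.2 q.1)) := by
    rintro ⟨x, y⟩
    refine Prod.ext ?_ ?_
    · funext i
      by_cases hi : i ∈ S <;> simp [glue, hi]
    · funext i
      by_cases hi : i ∈ S <;> simp [glue, hi]
  refine Fintype.sum_equiv hinv.toPerm _ _ ?_
  rintro ⟨x, y⟩
  change ((∏ i, bw p (x i)) * (∏ i, bw p (y i))) * H (glue S x y) (glue S y x) =
    ((∏ i, bw p (glue S x y i)) * (∏ i, bw p (glue S y x i))) * H (glue S x y) (glue S y x)
  congr 1
  rw [← Finset.prod_mul_distrib, ← Finset.prod_mul_distrib]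
  refine Finset.prod_congr rfl fun i _ => ?_
  by_cases hi : i ∈ S
  · simp [glue, hi]
  · simp [glue, hi, mul_comm]

private theorem Ex_mul_Ex {κ : Type} [Fintype κ] [DecidableEq κ] (F : (ι → Bool) → ℝ)
    (G : (κ → Bool) → ℝ) : Ex p F * Ex p G =
      ∑ x : ι → Bool, ∑ y : κ → Bool, ((∏ i, bw p (x i)) * (∏ i, bw p (y i))) * (F x * G y) := by
  unfold Ex
  rw [Finset.sum_mul_sum]
  refine Finset.sum_congr rfl fun x _ => Finset.sum_congr rfl fun y _ => ?_
  ring

/-- Independence. -/
theorem Ex_indep (A : Finset ι) (F G : (ι → Bool) → ℝ)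
    (hF : ∀ x y : ι → Bool, (∀ i ∈ A, x i = y i) → F x = F y)
    (hG : ∀ x y : ι → Bool, (∀ i ∉ A, x i = y i) → G x = G y) :
    Ex p (fun x => F x * G x) = Ex p F * Ex p G := by
  rw [Ex_mul_Ex, ← Ex_glue_pair A (fun x y => F x * G y)]
  unfold Ex
  refine Finset.sum_congr rfl fun x _ => ?_
  have h1 : ∀ y, F (glue A x y) = F x := fun y => hF _ _ fun i hi => by simp [glue, hi]
  have h2 : ∀ y, G (glue A y x) = G x := fun y => hG _ _ fun i hi => by simp [glue, hi]
  simp only [h1, h2]
  rw [← Finset.sum_mul, ← Finset.mul_sum, sum_w, mul_one]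

theorem Ex_update (i : ι) (F : (ι → Bool) → ℝ) :
    Ex p F = p * Ex p (fun x => F (Function.update x i true)) +
      (1 - p) * Ex p (fun x => F (Function.update x i false)) := by
  have hinv : Function.Involutive (fun q : Bool × (ι → Bool) =>
      (q.2 i, Function.update q.2 i q.1)) := by
    rintro ⟨b, x⟩
    refine Prod.ext ?_ ?_
    · simp
    · simp
  have key : ∑ q : Bool × (ι → Bool), (bw p q.1 * ∏ j, bw p (q.2 j)) *
        F (Function.update q.2 i q.1) =
      ∑ q : Bool × (ι → Bool), (bw p q.1 * ∏ j, bw p (q.2 j)) * F q.2 := by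
    refine Fintype.sum_equiv hinv.toPerm _ _ ?_
    rintro ⟨b, x⟩
    change (bw p b * ∏ j, bw p (x j)) * F (Function.update x i b) =
      (bw p (x i) * ∏ j, bw p (Function.update x i b j)) * F (Function.update x i b)
    congr 1
    rw [← Finset.mul_prod_erase Finset.univ (fun j => bw p (x j)) (Finset.mem_univ i),
      ← Finset.mul_prod_erase Finset.univ (fun j => bw p (Function.update x i b j))
        (Finset.mem_univ i)]
    have h1 : ∏ j ∈ Finset.univ.erase i, bw p (Function.update x i b j) =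
        ∏ j ∈ Finset.univ.erase i, bw p (x j) := by
      refine Finset.prod_congr rfl fun j hj => ?_
      rw [Function.update_of_ne (Finset.ne_of_mem_erase hj)]
    rw [h1, Function.update_self]
    ring
  rw [Fintype.sum_prod_type, Fintype.sum_prod_type] at key
  simp only [Fintype.sum_bool] at key
  unfold Ex
  have h2 : bw p true = p := rfl
  have h3 : bw p false = 1 - p := rfl
  simp only [h2, h3, mul_assoc] at key
  rw [← Finset.mul_sum, ← Finset.mul_sum, ← Finset.mul_sum, ← Finset.mul_sum] at key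
  rw [key]
  ring

theorem Ex_cons {m : ℕ} (F : (Fin (m + 1) → Bool) → ℝ) :
    Ex p F = p * Ex p (fun x : Fin m → Bool => F (Fin.cons true x)) +
      (1 - p) * Ex p (fun x : Fin m → Bool => F (Fin.cons false x)) := by
  unfold Ex
  rw [← (Fin.consEquiv (fun _ : Fin (m + 1) => Bool)).sum_comp, Fintype.sum_prod_type,
    Fintype.sum_bool]
  have h1 : ∀ (b : Bool) (x : Fin m → Bool), (Fin.consEquiv (fun _ : Fin (m + 1) => Bool)) (b, x) =
      Fin.cons b x := fun b x => rfl
  simp only [h1, Fin.prod_univ_succ, Fin.cons_zero, Fin.cons_succ]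
  have h2 : bw p true = p := rfl
  have h3 : bw p false = 1 - p := rfl
  simp only [h2, h3, mul_assoc]
  rw [← Finset.mul_sum, ← Finset.mul_sum]

theorem Ex_false (A : Finset ι) :
    Ex p (fun x => ind (∀ i ∈ A, x i = false)) = (1 - p) ^ A.card := by
  have h1 : ∀ x : ι → Bool, ind (∀ i ∈ A, x i = false) =
      ∏ i, (if i ∈ A ∧ x i = true then (0 : ℝ) else 1) := by
    intro x
    by_cases h : ∀ i ∈ A, x i = false
    · rw [ind_true h]
      symm
      refine Finset.prod_eq_one fun i _ => ?_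
      rw [if_neg]
      rintro ⟨hi, hx⟩
      rw [h i hi] at hx
      exact Bool.false_ne_true hx
    · rw [ind_false h]
      push Not at h
      obtain ⟨i, hi, hx⟩ := h
      symm
      refine Finset.prod_eq_zero (Finset.mem_univ i) ?_
      rw [if_pos ⟨hi, by simpa using hx⟩]
  unfold Ex
  simp only [h1]
  have h2 : ∀ x : ι → Bool, (∏ i, bw p (x i)) * (∏ i, (if i ∈ A ∧ x i = true then (0 : ℝ) else 1)) =
      ∏ i, (bw p (x i) * (if i ∈ A ∧ x i = true then (0 : ℝ) else 1)) := fun x =>
    Finset.prod_mul_distrib.symm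
  simp only [h2]
  have h3 := Finset.prod_univ_sum (fun _ : ι => (Finset.univ : Finset Bool))
    (fun (i : ι) (b : Bool) => bw p b * (if i ∈ A ∧ b = true then (0 : ℝ) else 1))
  rw [Fintype.piFinset_univ] at h3
  rw [← h3]
  have h4 : ∀ i : ι, ∑ b : Bool, bw p b * (if i ∈ A ∧ b = true then (0 : ℝ) else 1) =
      if i ∈ A then 1 - p else 1 := by
    intro i
    rw [Fintype.sum_bool]
    by_cases hi : i ∈ A <;> simp [hi, bw]
  simp only [h4]
  rw [Finset.prod_ite_mem, Finset.univ_inter, Finset.prod_const]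

end Pool.Agent.CHV
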