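import Pool.Agent.CHV.Big

/-!
# CHV / Hrm: the number of classes of the greedy packing

`ℓ = -log (1-p)`, `L = LL p n`, `S = SS p K n`, `r m = rr p K1 n m`, `m1 = ⌈n / L⌉₊`.
PROOFS.  `rr_half`: `S - r m ≤ (2/ℓ) log (n/m) + K2`, `K2 = K + K1 + 2` (`rr_ge`), `n/m ≤ L`, and
`(2/ℓ) log L + K2 ≤ L/2 ≤ S/2` for large `n` (`log_LL_le`, `SS_ge`).
`harm`: `1/r m = 1/S + (S - r m)/(S r m) ≤ 1/S + (2/S^2) (S - r m)` (`r m ≥ S/2`; note `S - r m ≥ 0` by `rr_le`)
`≤ 1/S + (2/S^2) ((2/ℓ) log (n/m) + K2)`; `∑_{m=1}^n log (n/m) = n log n - log n! ≤ n` (`n! ≥ (n/e)^n`, e.g. from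
`n^n / n! ≤ e^n`).  So `∑_{m ∈ Icc m1 n} 1/r m ≤ n/S + (2/S^2) (2/ℓ + K2) n`.
-/

set_option autoImplicit false

namespace Pool.Agent.CHV

open Filter Finset

variable {p : ℝ}

theorem rr_half (h0 : 0 < p) (h1 : p < 1) (K1 K : ℕ) : ∀ᶠ n : ℕ in atTop,
    ∀ m : ℕ, (n : ℝ) / LL p n ≤ m → m ≤ n → (SS p K n : ℝ) / 2 ≤ rr p K1 n m := by
  have hl := ell_pos h0 h1
  filter_upwards [rr_ge h0 h1 K1 K, SS_ge h0 h1 K,
    log_LL_le h0 h1 (ε := (-Real.log (1 - p)) / 8) (by linarith),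
    (tendsto_LL h0 h1).eventually_ge_atTop (4 * (K + K1 + 2)), eventually_ge_atTop 1]
    with n hge hS hlog hL hn1 m hm1 hm2
  have hKp : (0 : ℝ) ≤ K := Nat.cast_nonneg _
  have hK1p : (0 : ℝ) ≤ K1 := Nat.cast_nonneg _
  have hn0 : (0 : ℝ) < n := by exact_mod_cast hn1
  have hLpos : 0 < LL p n := by linarith
  have hm0 : (0 : ℝ) < m := lt_of_lt_of_le (div_pos hn0 hLpos) hm1
  have h2 := hge m hm1 hm2
  have h3 : Real.log ((n : ℝ) / m) ≤ Real.log (LL p n) := by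
    apply Real.log_le_log (div_pos hn0 hm0)
    rw [div_le_iff₀ hm0]
    rw [div_le_iff₀ hLpos] at hm1
    linarith
  have h4 : 2 / (-Real.log (1 - p)) * Real.log ((n : ℝ) / m) ≤ LL p n / 4 := by
    have h5 : Real.log ((n : ℝ) / m) ≤ (-Real.log (1 - p)) / 8 * LL p n := le_trans h3 hlog
    calc 2 / (-Real.log (1 - p)) * Real.log ((n : ℝ) / m)
        ≤ 2 / (-Real.log (1 - p)) * ((-Real.log (1 - p)) / 8 * LL p n) :=
          mul_le_mul_of_nonneg_left h5 (by positivity)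
      _ = LL p n / 4 := by
          have h6 : ∀ l x : ℝ, 0 < l → 2 / l * (l / 8 * x) = x / 4 := by
            intro l x hl0
            field_simp
            ring
          exact h6 _ _ hl
  linarith

private theorem sum_log_fact (n : ℕ) :
    ∑ m ∈ Finset.Icc 1 n, Real.log (m : ℝ) = Real.log (n.factorial : ℝ) := by
  induction n with
  | zero => simp
  | succ n ih =>
    rw [Finset.sum_Icc_succ_top (by omega), ih, Nat.factorial_succ]
    push_cast
    rw [Real.log_mul (by positivity) (by positivity)]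
    ring

private theorem sum_log_div (n : ℕ) (hn : 1 ≤ n) :
    ∑ m ∈ Finset.Icc 1 n, Real.log ((n : ℝ) / m) ≤ n := by
  have hn0 : (0 : ℝ) < n := by exact_mod_cast hn
  have h1 : ∑ m ∈ Finset.Icc 1 n, Real.log ((n : ℝ) / m) =
      ∑ m ∈ Finset.Icc 1 n, (Real.log (n : ℝ) - Real.log (m : ℝ)) := by
    refine Finset.sum_congr rfl (fun m hm => ?_)
    rw [Finset.mem_Icc] at hm
    have hm0 : (0 : ℝ) < m := by exact_mod_cast hm.1
    rw [Real.log_div hn0.ne' hm0.ne']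
  rw [h1, Finset.sum_sub_distrib, sum_log_fact, Finset.sum_const, Nat.card_Icc, nsmul_eq_mul]
  have h2 : (n : ℝ) ^ n / (n.factorial : ℝ) ≤ Real.exp n :=
    Real.pow_div_factorial_le_exp (n : ℝ) hn0.le n
  have hf : (0 : ℝ) < (n.factorial : ℝ) := by exact_mod_cast n.factorial_pos
  have h3 := Real.log_le_log (div_pos (pow_pos hn0 n) hf) h2
  rw [Real.log_exp, Real.log_div (pow_pos hn0 n).ne' hf.ne', Real.log_pow] at h3
  have h4 : ((n + 1 - 1 : ℕ) : ℝ) = n := by simp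
  rw [h4]
  exact h3

theorem harm (h0 : 0 < p) (h1 : p < 1) (K1 K : ℕ) : ∃ C : ℝ, ∀ᶠ n : ℕ in atTop,
    ∑ m ∈ Finset.Icc ⌈(n : ℝ) / LL p n⌉₊ n, 1 / (rr p K1 n m : ℝ) ≤
      (n : ℝ) / SS p K n + C * n / (SS p K n : ℝ) ^ 2 := by
  have hl := ell_pos h0 h1
  refine ⟨2 * (2 / (-Real.log (1 - p)) + (K + K1 + 2)), ?_⟩
  filter_upwards [rr_ge h0 h1 K1 K, SS_ge h0 h1 K, rr_half h0 h1 K1 K,
    (tendsto_LL h0 h1).eventually_ge_atTop 1, eventually_ge_atTop 1]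
    with n hge hS hhalf hL hn1
  have hn0 : (0 : ℝ) < n := by exact_mod_cast hn1
  have hLpos : 0 < LL p n := by linarith
  have hSpos : (0 : ℝ) < SS p K n := by linarith
  set s : ℝ := (SS p K n : ℝ) with hs
  set A : ℝ := 2 / (-Real.log (1 - p)) with hA
  have hApos : 0 < A := by positivity
  set K2 : ℝ := (K + K1 + 2 : ℝ) with hK2
  have hK2pos : 0 < K2 := by positivity
  have hm1pos : 1 ≤ ⌈(n : ℝ) / LL p n⌉₊ := by
    rw [Nat.one_le_ceil_iff]
    exact div_pos hn0 hLpos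
  have hterm : ∀ m ∈ Finset.Icc ⌈(n : ℝ) / LL p n⌉₊ n, 1 / (rr p K1 n m : ℝ) ≤
      1 / s + 2 / s ^ 2 * (A * Real.log ((n : ℝ) / m) + K2) := by
    intro m hm
    rw [Finset.mem_Icc] at hm
    have hmge : (n : ℝ) / LL p n ≤ m := Nat.ceil_le.1 hm.1
    have e1 := hge m hmge hm.2
    have e2 := hhalf m hmge hm.2
    have hm0 : 0 < m := lt_of_lt_of_le hm1pos hm.1
    have e3 : (rr p K1 n m : ℝ) ≤ s := by
      rw [hs]
      exact_mod_cast rr_le h0 h1 K1 K n hm0 hm.2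
    have hrpos : (0 : ℝ) < rr p K1 n m := by
      have : 0 < s / 2 := by positivity
      linarith
    have e4 : 1 / (rr p K1 n m : ℝ) ≤ 1 / s + 2 / s ^ 2 * (s - rr p K1 n m) := by
      have e5 : 1 / (rr p K1 n m : ℝ) - 1 / s = (s - rr p K1 n m) * (1 / (s * rr p K1 n m)) := by
        field_simp
      have e6 : 1 / (s * rr p K1 n m) ≤ 2 / s ^ 2 := by
        rw [div_le_div_iff₀ (by positivity) (by positivity)]
        nlinarith
      have e7 : (s - rr p K1 n m) * (1 / (s * rr p K1 n m)) ≤ (s - rr p K1 n m) * (2 / s ^ 2) :=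
        mul_le_mul_of_nonneg_left e6 (by linarith)
      linarith [mul_comm (s - (rr p K1 n m : ℝ)) (2 / s ^ 2)]
    have e8 : 2 / s ^ 2 * (s - rr p K1 n m) ≤ 2 / s ^ 2 * (A * Real.log ((n : ℝ) / m) + K2) :=
      mul_le_mul_of_nonneg_left e1 (by positivity)
    linarith
  have hnn : ∀ m ∈ Finset.Icc 1 n,
      0 ≤ 1 / s + 2 / s ^ 2 * (A * Real.log ((n : ℝ) / m) + K2) := by
    intro m hm
    rw [Finset.mem_Icc] at hm
    have hm0 : (0 : ℝ) < m := by exact_mod_cast hm.1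
    have hmn : (m : ℝ) ≤ n := by exact_mod_cast hm.2
    have : 0 ≤ Real.log ((n : ℝ) / m) := by
      apply Real.log_nonneg
      rw [le_div_iff₀ hm0]
      linarith
    positivity
  calc ∑ m ∈ Finset.Icc ⌈(n : ℝ) / LL p n⌉₊ n, 1 / (rr p K1 n m : ℝ)
      ≤ ∑ m ∈ Finset.Icc ⌈(n : ℝ) / LL p n⌉₊ n,
          (1 / s + 2 / s ^ 2 * (A * Real.log ((n : ℝ) / m) + K2)) := Finset.sum_le_sum hterm
    _ ≤ ∑ m ∈ Finset.Icc 1 n, (1 / s + 2 / s ^ 2 * (A * Real.log ((n : ℝ) / m) + K2)) := by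
        apply Finset.sum_le_sum_of_subset_of_nonneg
        · exact Finset.Icc_subset_Icc_left hm1pos
        · intro m hm _
          exact hnn m hm
    _ = n * (1 / s) + 2 / s ^ 2 * (A * ∑ m ∈ Finset.Icc 1 n, Real.log ((n : ℝ) / m) + n * K2) := by
        rw [Finset.sum_add_distrib, ← Finset.mul_sum, Finset.sum_add_distrib, ← Finset.mul_sum,
          Finset.sum_const, Finset.sum_const, Nat.card_Icc, nsmul_eq_mul, nsmul_eq_mul]
        have h4 : ((n + 1 - 1 : ℕ) : ℝ) = n := by simp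
        rw [h4]
    _ ≤ n * (1 / s) + 2 / s ^ 2 * (A * n + n * K2) := by
        have h5 := sum_log_div n hn1
        have h6 : A * ∑ m ∈ Finset.Icc 1 n, Real.log ((n : ℝ) / m) ≤ A * n :=
          mul_le_mul_of_nonneg_left h5 hApos.le
        have h7 : 2 / s ^ 2 * (A * ∑ m ∈ Finset.Icc 1 n, Real.log ((n : ℝ) / m) + n * K2) ≤
            2 / s ^ 2 * (A * n + n * K2) :=
          mul_le_mul_of_nonneg_left (by linarith) (by positivity)
        linarith
    _ = (n : ℝ) / s + 2 * (A + K2) * n / s ^ 2 := by ring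

end Pool.Agent.CHV
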