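import Pool.Agent.CHV.Gre
import Pool.Agent.CHV.Hrm

/-!
# CHV / Mea: the expectation of `ff`

`ℓ = -log (1-p)`, `L = LL p n`, `S = SS p K n`, `lam = lm p n`, `r m = rr p K1 n m` with `K1` from `big_ind`, `m1 = ⌈n / L⌉₊`.
PROOF.  On the event of `big_ind` `greedy` gives `ff ≤ m1 + lam (1 + ∑ 1/r m)` (`lam < r m`: `r m ≥ S/2 ≥ L/2 > L/16 ≥ lam`
(`rr_half`, `SS_ge`, `lm_up`); `rr_mono`, `rr_le`; `m1 ≤ |M|` implies `n / L ≤ |M|`, `Nat.ceil_le`), so by `harm`
`S ff - lam n ≤ S m1 + S lam + lam C n / S ≤ C' n`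
(`m1 ≤ n/L + 1`, `S ≤ 2 L`, `lam ≤ L/16`, `S ≥ L`, `L^2 ≤ n`).  On the complement, of probability `≤ 1/n`, `ff ≤ n` (`ff_le`).  So
`S Ex ff - lam n ≤ C' n + S * n * (1/n) ≤ (C' + 1) n`.
-/

set_option autoImplicit false

namespace Pool.Agent.CHV

open Filter Finset

variable {p : ℝ}

theorem mean_ff (h0 : 0 < p) (h1 : p < 1) (K : ℕ) : ∃ Δ : ℝ, ∀ᶠ n : ℕ in atTop,
    (SS p K n : ℝ) * Ex p (fun x : Cf n => ff (SS p K n) (lm p n) x) - lm p n * n ≤ Δ * n := by
  have hl := ell_pos h0 h1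
  obtain ⟨K1, hbig⟩ := big_ind h0 h1
  obtain ⟨C, hC⟩ := harm h0 h1 K1 K
  refine ⟨7 + |C|, ?_⟩
  filter_upwards [hbig, hC, rr_half h0 h1 K1 K, SS_ge h0 h1 K, SS_le h0 h1 K, lm_up h0 h1,
    (tendsto_LL h0 h1).eventually_ge_atTop 1, LL_pow_le h0 h1 2 1 (c := 1) one_pos,
    eventually_ge_atTop 1] with n hbign hCn hhalf hSge hSle hlam hL hLn hn1
  have hn0 : (0 : ℝ) < n := by exact_mod_cast hn1
  have hLpos : 0 < LL p n := by linarith
  have hSpos : (0 : ℝ) < SS p K n := by linarith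
  have hlam0 : (0 : ℝ) ≤ lm p n := Nat.cast_nonneg _
  rw [one_mul, Real.rpow_one] at hLn
  set m1 : ℕ := ⌈(n : ℝ) / LL p n⌉₊ with hm1
  have hm1pos : 1 ≤ m1 := by
    rw [hm1, Nat.one_le_ceil_iff]
    exact div_pos hn0 hLpos
  set G1 : ℝ := ∑ m ∈ Finset.Icc m1 n, 1 / (rr p K1 n m : ℝ) with hG1
  have hG0 : 0 ≤ G1 := Finset.sum_nonneg (fun m _ => by positivity)
  set T : ℝ := (m1 : ℝ) + lm p n * (1 + G1) with hT
  have hT0 : 0 ≤ T := by positivity
  have hpt : ∀ x : Cf n, ff (SS p K n) (lm p n) x ≤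
      T + n * ind (¬ ∀ M : Finset (Fin n), (n : ℝ) / LL p n ≤ M.card →
        ∃ I ⊆ M, Ind x I ∧ I.card = rr p K1 n M.card) := by
    intro x
    by_cases hE : ∀ M : Finset (Fin n), (n : ℝ) / LL p n ≤ M.card →
        ∃ I ⊆ M, Ind x I ∧ I.card = rr p K1 n M.card
    · have h2 : ff (SS p K n) (lm p n) x ≤ T := by
        apply greedy x (fun m => rr p K1 n m) m1
        · intro a b ha hab _
          exact rr_mono h0 h1 K1 n (lt_of_lt_of_le hm1pos ha) hab
        · intro m hma hmn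
          have h3 := hhalf m (Nat.ceil_le.1 hma) hmn
          have h4 : (lm p n : ℝ) < (rr p K1 n m : ℝ) := by linarith
          exact_mod_cast h4
        · intro m hma hmn
          exact rr_le h0 h1 K1 K n (lt_of_lt_of_le hm1pos hma) hmn
        · intro M hM
          exact hE M (Nat.ceil_le.1 hM)
      have h3 : 0 ≤ (n : ℝ) * ind (¬ ∀ M : Finset (Fin n), (n : ℝ) / LL p n ≤ M.card →
        ∃ I ⊆ M, Ind x I ∧ I.card = rr p K1 n M.card) := mul_nonneg hn0.le (ind_nonneg _)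
      linarith
    · rw [ind_true hE, mul_one]
      have h3 := ff_le (S := SS p K n) (lam := lm p n) x
      linarith
  have hEx : Ex p (fun x : Cf n => ff (SS p K n) (lm p n) x) ≤ T + 1 := by
    have h2 := Ex_mono h0.le h1.le hpt
    rw [Ex_add, Ex_const, Ex_smul] at h2
    have h3 := mul_le_mul_of_nonneg_left hbign hn0.le
    rw [mul_one_div, div_self hn0.ne'] at h3
    linarith
  have hm1le : (m1 : ℝ) ≤ n / LL p n + 1 := by
    have := Nat.ceil_lt_add_one (a := (n : ℝ) / LL p n) (by positivity)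
    exact this.le
  have hSm1 : (SS p K n : ℝ) * m1 ≤ 2 * n + 2 * LL p n := by
    calc (SS p K n : ℝ) * m1 ≤ (2 * LL p n) * (n / LL p n + 1) :=
          mul_le_mul hSle hm1le (Nat.cast_nonneg _) (by positivity)
      _ = 2 * n + 2 * LL p n := by
          field_simp
  have hSlam : (SS p K n : ℝ) * lm p n ≤ LL p n ^ 2 := by
    calc (SS p K n : ℝ) * lm p n ≤ (2 * LL p n) * (LL p n / 16) :=
          mul_le_mul hSle hlam hlam0 (by positivity)
      _ ≤ LL p n ^ 2 := by nlinarith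
  have hSG : (SS p K n : ℝ) * G1 ≤ n + |C| * n / SS p K n := by
    have h2 : C * n / (SS p K n : ℝ) ^ 2 ≤ |C| * n / (SS p K n : ℝ) ^ 2 := by
      apply div_le_div_of_nonneg_right _ (by positivity)
      exact mul_le_mul_of_nonneg_right (le_abs_self C) hn0.le
    have h3 : G1 ≤ (n : ℝ) / SS p K n + |C| * n / (SS p K n : ℝ) ^ 2 := le_trans hCn (by linarith)
    calc (SS p K n : ℝ) * G1 ≤
          (SS p K n : ℝ) * ((n : ℝ) / SS p K n + |C| * n / (SS p K n : ℝ) ^ 2) :=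
          mul_le_mul_of_nonneg_left h3 hSpos.le
      _ = n + |C| * n / SS p K n := by
          field_simp
  have hlamG : (lm p n : ℝ) * ((SS p K n : ℝ) * G1) ≤ lm p n * n + |C| * n := by
    have h2 : (lm p n : ℝ) * (|C| * n / SS p K n) ≤ |C| * n := by
      have h3 : (lm p n : ℝ) ≤ SS p K n := by linarith
      have h4 : 0 ≤ |C| * n / (SS p K n : ℝ) := by positivity
      calc (lm p n : ℝ) * (|C| * n / SS p K n) ≤ SS p K n * (|C| * n / SS p K n) :=
            mul_le_mul_of_nonneg_right h3 h4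
        _ = |C| * n := by field_simp
    have h5 := mul_le_mul_of_nonneg_left hSG hlam0
    rw [mul_add] at h5
    linarith
  have hfin : (SS p K n : ℝ) * (T + 1) ≤
      2 * n + 2 * LL p n + LL p n ^ 2 + (lm p n * n + |C| * n) + 2 * LL p n := by
    have h2 : (SS p K n : ℝ) * (T + 1) = (SS p K n : ℝ) * m1 + (SS p K n : ℝ) * lm p n +
        (lm p n : ℝ) * ((SS p K n : ℝ) * G1) + SS p K n := by
      rw [hT]; ring
    rw [h2]
    linarith
  have hLL : LL p n ≤ LL p n ^ 2 := by nlinarith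
  have h3 := mul_le_mul_of_nonneg_left hEx hSpos.le
  have h4 : (7 + |C|) * (n : ℝ) = 7 * n + |C| * n := by ring
  rw [h4]
  linarith

end Pool.Agent.CHV
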