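import Pool.Agent.CHV.Par

/-!
# CHV / Hup: bounds for `n^i q^C(i,2) / i!`

`ℓ = -log (1-p)`, `q = 1-p = e^(-ℓ)`, `L = LL p n`, `log n = ℓ L`, `S = SS p K n`, `L ≤ S ≤ 2 L` for large `n`.
PROOFS.  `log_h_up`: for `1 ≤ i ≤ S` (for `i = 0` the left-hand side is `1` and the right-hand side is `≥ 1`): `i! ≥ (i/e)^i` gives
`log (n^i q^C(i,2) / i!) ≤ i ℓ L - ℓ i (i-1)/2 - i log i + i`; by `SS_low` `L ≤ S/2 + log L / ℓ`, so this is
`≤ (ℓ/2) i (S - i) + ℓ i / 2 + i log (L / i) + i ≤ (ℓ/2) S (S - i) + S (ℓ/2 + 2)`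
(`i log (L / i) ≤ L ≤ S` as `log t ≤ t`, `i ≤ S`).
`log_h_low`: for `1 ≤ t ≤ S` (`t = 0`: the right-hand side is `1` and the exponent is `≤ 0`), `t! ≤ t^t`:
`log (n^t q^C(t,2) / t!) ≥ t ℓ L - ℓ t (t-1)/2 - t log t`, by `SS_up` `L ≥ (S - K - 1)/2 + log L / ℓ`, so this is
`≥ (ℓ/2) t (S - t) - (ℓ/2) t K + t log (L / t) ≥ (ℓ/2) t (S - t) - (ℓ/2) S K - S log 2` (`t ≤ S ≤ 2 L`).
-/

set_option autoImplicit false

namespace Pool.Agent.CHV

open Filter

variable {p : ℝ}

private theorem log_n (h0 : 0 < p) (h1 : p < 1) (n : ℕ) :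
    Real.log n = (-Real.log (1 - p)) * LL p n := by
  unfold LL
  rw [mul_div_cancel₀]
  exact (ell_pos h0 h1).ne'

private theorem hexp (h0 : 0 < p) (h1 : p < 1) {n i : ℕ} (hn : 0 < n) :
    (n : ℝ) ^ i * (1 - p) ^ (i.choose 2) =
      Real.exp (i * ((-Real.log (1 - p)) * LL p n) - (-Real.log (1 - p)) * (i * (i - 1) / 2)) := by
  have hn' : (0 : ℝ) < n := by exact_mod_cast hn
  have hq : 0 < 1 - p := by linarith
  have e1 : (n : ℝ) ^ i = Real.exp (i * ((-Real.log (1 - p)) * LL p n)) := by
    rw [← log_n h0 h1, Real.exp_nat_mul, Real.exp_log hn']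
  have e2 : (1 - p) ^ (i.choose 2) = Real.exp (-((-Real.log (1 - p)) * (i * (i - 1) / 2))) := by
    rw [← Nat.cast_choose_two ℝ i]
    have : -((-Real.log (1 - p)) * ((i.choose 2 : ℕ) : ℝ)) =
        ((i.choose 2 : ℕ) : ℝ) * Real.log (1 - p) := by ring
    rw [this, Real.exp_nat_mul, Real.exp_log hq]
  rw [e1, e2, ← Real.exp_add]
  congr 1

theorem log_h_up (h0 : 0 < p) (h1 : p < 1) (K : ℕ) : ∀ᶠ n : ℕ in atTop, ∀ i ≤ SS p K n,
    (n : ℝ) ^ i * (1 - p) ^ (i.choose 2) / i.factorial ≤
      Real.exp ((-Real.log (1 - p)) / 2 * (SS p K n) * ((SS p K n : ℝ) - i) +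
        SS p K n * ((-Real.log (1 - p)) / 2 + 2)) := by
  have hell := ell_pos h0 h1
  filter_upwards [SS_low h0 h1 K, SS_ge h0 h1 K, (tendsto_LL h0 h1).eventually_ge_atTop 1,
    eventually_gt_atTop 0] with n hlow hge hL1 hn i hi
  rw [hexp h0 h1 hn]
  set ell := -Real.log (1 - p) with hell_def
  set L := LL p n with hL_def
  set S := SS p K n with hS_def
  have hiS : (i : ℝ) ≤ S := by exact_mod_cast hi
  have hS0 : (0 : ℝ) ≤ S := Nat.cast_nonneg S
  have hL0 : 0 < L := by linarith
  have hK0 : (0 : ℝ) ≤ K := Nat.cast_nonneg K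
  rcases Nat.eq_zero_or_pos i with rfl | hipos
  · simp only [Nat.cast_zero, zero_mul, Nat.factorial_zero, Nat.cast_one, div_one, sub_zero,
      zero_div, mul_zero]
    apply Real.exp_le_exp.2
    positivity
  · have hi0 : (0 : ℝ) < i := by exact_mod_cast hipos
    have hf : (0 : ℝ) < i.factorial := by exact_mod_cast Nat.factorial_pos i
    have e1 : 1 / (i.factorial : ℝ) ≤ Real.exp (i - i * Real.log i) := by
      have h2 := Real.pow_div_factorial_le_exp (i : ℝ) hi0.le i
      have h3 : (i : ℝ) ^ i = Real.exp (i * Real.log i) := by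
        rw [Real.exp_nat_mul, Real.exp_log hi0]
      rw [Real.exp_sub, ← h3, div_le_div_iff₀ hf (by positivity), one_mul, mul_comm]
      rw [div_le_iff₀ hf] at h2
      linarith
    rw [div_eq_mul_one_div]
    calc Real.exp (i * (ell * L) - ell * (i * (i - 1) / 2)) * (1 / (i.factorial : ℝ))
        ≤ Real.exp (i * (ell * L) - ell * (i * (i - 1) / 2)) * Real.exp (i - i * Real.log i) :=
          mul_le_mul_of_nonneg_left e1 (Real.exp_pos _).le
      _ = Real.exp (i * (ell * L) - ell * (i * (i - 1) / 2) + (i - i * Real.log i)) := by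
          rw [← Real.exp_add]
      _ ≤ _ := by
          apply Real.exp_le_exp.2
          have e2 : ell * L ≤ ell * S / 2 + Real.log L := by
            have h4 : ell * (2 * L - 2 * (Real.log L / ell) + K) ≤ ell * S :=
              mul_le_mul_of_nonneg_left hlow hell.le
            have h5 : ell * (2 * L - 2 * (Real.log L / ell) + K) =
                2 * (ell * L) - 2 * Real.log L + ell * K := by
              field_simp
            have h6 : 0 ≤ ell * K := by positivity
            rw [h5] at h4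
            linarith
          have e3 : (i : ℝ) * (ell * L) ≤ i * (ell * S / 2 + Real.log L) :=
            mul_le_mul_of_nonneg_left e2 hi0.le
          have e4 : (i : ℝ) * (Real.log L - Real.log i) ≤ L := by
            rw [← Real.log_div hL0.ne' hi0.ne']
            have h7 := Real.log_le_sub_one_of_pos (div_pos hL0 hi0)
            have h8 : (i : ℝ) * Real.log (L / i) ≤ i * (L / i - 1) :=
              mul_le_mul_of_nonneg_left h7 hi0.le
            have h9 : (i : ℝ) * (L / i - 1) = L - i := by field_simp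
            linarith
          have e5 : ell / 2 * i * ((S : ℝ) - i) ≤ ell / 2 * S * (S - i) := by
            apply mul_le_mul_of_nonneg_right _ (by linarith)
            exact mul_le_mul_of_nonneg_left hiS (by positivity)
          have e6 : ell / 2 * (i : ℝ) ≤ ell / 2 * S := mul_le_mul_of_nonneg_left hiS (by positivity)
          nlinarith

theorem log_h_low (h0 : 0 < p) (h1 : p < 1) (K : ℕ) : ∀ᶠ n : ℕ in atTop, ∀ t ≤ SS p K n,
    Real.exp ((-Real.log (1 - p)) / 2 * t * ((SS p K n : ℝ) - t) -
      (-Real.log (1 - p)) / 2 * SS p K n * K - SS p K n * Real.log 2) ≤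
      (n : ℝ) ^ t * (1 - p) ^ (t.choose 2) / t.factorial := by
  have hell := ell_pos h0 h1
  filter_upwards [SS_up h0 h1 K, SS_le h0 h1 K, (tendsto_LL h0 h1).eventually_ge_atTop 1,
    eventually_gt_atTop 0] with n hup hle hL1 hn t ht
  rw [hexp h0 h1 hn]
  set ell := -Real.log (1 - p) with hell_def
  set L := LL p n with hL_def
  set S := SS p K n with hS_def
  have htS : (t : ℝ) ≤ S := by exact_mod_cast ht
  have hS0 : (0 : ℝ) ≤ S := Nat.cast_nonneg S
  have hL0 : 0 < L := by linarith
  have hK0 : (0 : ℝ) ≤ K := Nat.cast_nonneg K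
  have hlog2 : 0 < Real.log 2 := Real.log_pos (by norm_num)
  rcases Nat.eq_zero_or_pos t with rfl | htpos
  · simp only [Nat.cast_zero, zero_mul, Nat.factorial_zero, Nat.cast_one, div_one, sub_zero,
      zero_div, mul_zero, zero_sub]
    apply Real.exp_le_exp.2
    have h2 : 0 ≤ ell / 2 * S * K := by positivity
    have h3 : 0 ≤ (S : ℝ) * Real.log 2 := by positivity
    linarith
  · have ht0 : (0 : ℝ) < t := by exact_mod_cast htpos
    have hf : (0 : ℝ) < t.factorial := by exact_mod_cast Nat.factorial_pos t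
    have e1 : Real.exp (-(t * Real.log t)) ≤ 1 / (t.factorial : ℝ) := by
      have h2 : (t.factorial : ℝ) ≤ (t : ℝ) ^ t := by exact_mod_cast Nat.factorial_le_pow t
      have h3 : (t : ℝ) ^ t = Real.exp (t * Real.log t) := by
        rw [Real.exp_nat_mul, Real.exp_log ht0]
      rw [Real.exp_neg, ← h3, ← one_div]
      exact one_div_le_one_div_of_le hf h2
    refine le_trans ?_ (le_of_eq (div_eq_mul_one_div _ _).symm)
    calc _ ≤ Real.exp (t * (ell * L) - ell * (t * (t - 1) / 2) + -(t * Real.log t)) := by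
          apply Real.exp_le_exp.2
          have e2 : ell * (S - K - 1) / 2 + Real.log L ≤ ell * L := by
            have h4 : ell * S ≤ ell * (2 * L - 2 * (Real.log L / ell) + K + 1) :=
              mul_le_mul_of_nonneg_left hup hell.le
            have h5 : ell * (2 * L - 2 * (Real.log L / ell) + K + 1) =
                2 * (ell * L) - 2 * Real.log L + ell * K + ell := by
              field_simp
            rw [h5] at h4
            linarith
          have e3 : (t : ℝ) * (ell * (S - K - 1) / 2 + Real.log L) ≤ t * (ell * L) :=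
            mul_le_mul_of_nonneg_left e2 ht0.le
          have e4 : Real.log t ≤ Real.log 2 + Real.log L := by
            rw [← Real.log_mul (by norm_num) hL0.ne']
            exact Real.log_le_log ht0 (htS.trans hle)
          have e5 : (t : ℝ) * Real.log t ≤ t * (Real.log 2 + Real.log L) :=
            mul_le_mul_of_nonneg_left e4 ht0.le
          have e6 : (t : ℝ) * Real.log 2 ≤ S * Real.log 2 :=
            mul_le_mul_of_nonneg_right htS hlog2.le
          have e7 : ell / 2 * t * K ≤ ell / 2 * S * K := by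
            apply mul_le_mul_of_nonneg_right _ hK0
            exact mul_le_mul_of_nonneg_left htS (by positivity)
          nlinarith
      _ = Real.exp (t * (ell * L) - ell * (t * (t - 1) / 2)) * Real.exp (-(t * Real.log t)) := by
          rw [← Real.exp_add]
      _ ≤ Real.exp (t * (ell * L) - ell * (t * (t - 1) / 2)) * (1 / (t.factorial : ℝ)) :=
          mul_le_mul_of_nonneg_left e1 (Real.exp_pos _).le

end Pool.Agent.CHV
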