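import Pool.Agent.CHV.PrM
import Pool.Agent.CHV.Hup

/-!
# CHV / NoM: no intermediate overlaps

`ℓ = -log (1-p)`, `q = 1-p`, `L = LL p n`, `log n = ℓ L`, `S = SS p K n ≥ L`, `h(i) = n^i q^C(i,2) / i!`.
PROOF.  `B = ⌈14/ℓ⌉₊ + 12 + K`.  If `NoMid` fails there are `i, j ≤ S`, `t ≤ i, j`, with `t (S - t) ≥ S ((S-i) + (S-j) + B)`
and `I, J` as in `pair_moment`.  So by the union bound (`ind_exists` over the triples `(i, j, t)`, three times `Ex_sum`) the
probability is at most the sum over the at most `(S+1)^3` such triples of the bound of `pair_moment`, which is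
`2^(i+j) h(i) h(j) / h(t)` and by `log_h_up`, `log_h_low` at most the exponential of
`(i + j) log 2 + (ℓ/2) S (S-i) + (ℓ/2) S (S-j) + 2 S (ℓ/2 + 2) - (ℓ/2) t (S-t) + (ℓ/2) S K + S log 2
≤ - (ℓ/2) S B + S (3 log 2 + ℓ + 4 + ℓ K / 2) ≤ - (ℓ/2) S B + S (7 + ℓ + ℓ K / 2) ≤ - 5 ℓ S ≤ - 5 ℓ L = - 5 log n`.
`(S+1)^3 n^(-5) ≤ 1/n` (`SS_le`, `LL_pow_le`).
-/

set_option autoImplicit false

namespace Pool.Agent.CHV

open Filter Finset

variable {p : ℝ}

private theorem triple_bound {S B K : ℕ} {q l N : ℝ} (hn : 0 < N) (hq : 0 < q)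
    (hl : 0 < l) (hB : 14 / l + 12 + K ≤ (B : ℝ)) (hlog : Real.log N ≤ l * S)
    (hup : ∀ i ≤ S, N ^ i * q ^ (i.choose 2) / i.factorial ≤
      Real.exp (l / 2 * S * ((S : ℝ) - i) + S * (l / 2 + 2)))
    (hlow : ∀ t ≤ S, Real.exp (l / 2 * t * ((S : ℝ) - t) - l / 2 * S * K - S * Real.log 2) ≤
      N ^ t * q ^ (t.choose 2) / t.factorial) {i j t : ℕ} (hi : i ≤ S) (hj : j ≤ S) (hti : t ≤ i)
    (htj : t ≤ j) (hc : S * ((S - i) + (S - j) + B) ≤ t * (S - t)) :
    N ^ (i + j - t) * 2 ^ (i + j) * t.factorial / (i.factorial * j.factorial) *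
        q ^ (i.choose 2 + j.choose 2 - t.choose 2) ≤ Real.exp (-(5 * Real.log N)) := by
  have hcR : (S : ℝ) * (((S : ℝ) - i) + ((S : ℝ) - j) + B) ≤ t * ((S : ℝ) - t) := by
    have h1 := hc
    have h2 : ((S * ((S - i) + (S - j) + B) : ℕ) : ℝ) ≤ ((t * (S - t) : ℕ) : ℝ) := by
      exact_mod_cast h1
    push_cast [Nat.cast_sub hi, Nat.cast_sub hj, Nat.cast_sub (hti.trans hi)] at h2
    exact h2
  have hct : t.choose 2 ≤ i.choose 2 + j.choose 2 :=
    (Nat.choose_le_choose 2 hti).trans (Nat.le_add_right _ _)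
  have hX : N ^ (i + j - t) * N ^ t = N ^ i * N ^ j := by
    rw [← pow_add, ← pow_add, Nat.sub_add_cancel (by omega)]
  have hY : q ^ (i.choose 2 + j.choose 2 - t.choose 2) * q ^ (t.choose 2) =
      q ^ (i.choose 2) * q ^ (j.choose 2) := by
    rw [← pow_add, ← pow_add, Nat.sub_add_cancel hct]
  set X := N ^ (i + j - t) with hXdef
  set Y := q ^ (i.choose 2 + j.choose 2 - t.choose 2) with hYdef
  have hX0 : 0 < X := pow_pos hn _
  have hY0 : 0 < Y := pow_pos hq _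
  have hfi : (0 : ℝ) < i.factorial := by exact_mod_cast Nat.factorial_pos i
  have hfj : (0 : ℝ) < j.factorial := by exact_mod_cast Nat.factorial_pos j
  have hft : (0 : ℝ) < t.factorial := by exact_mod_cast Nat.factorial_pos t
  set Bd := X * 2 ^ (i + j) * t.factorial / (i.factorial * j.factorial) * Y with hBd
  have hBd0 : 0 ≤ Bd := by positivity
  have hprod : Bd * (N ^ t * q ^ (t.choose 2) / t.factorial) =
      2 ^ (i + j) * (N ^ i * q ^ (i.choose 2) / i.factorial) *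
        (N ^ j * q ^ (j.choose 2) / j.factorial) := by
    have h1 : Bd * (N ^ t * q ^ (t.choose 2) / t.factorial) =
        2 ^ (i + j) * (X * N ^ t) * (Y * q ^ (t.choose 2)) / (i.factorial * j.factorial) := by
      rw [hBd]
      field_simp
    rw [h1, hX, hY]
    field_simp
  have h2p : (2 : ℝ) ^ (i + j) ≤ Real.exp (2 * S * Real.log 2) := by
    have h3 : (2 : ℝ) ^ (i + j) = Real.exp (((i + j : ℕ) : ℝ) * Real.log 2) := by
      rw [Real.exp_nat_mul, Real.exp_log (by norm_num)]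
    rw [h3]
    apply Real.exp_le_exp.2
    apply mul_le_mul_of_nonneg_right _ (Real.log_nonneg (by norm_num))
    have h4 : i + j ≤ 2 * S := by omega
    exact_mod_cast h4
  have hui := hup i hi
  have huj := hup j hj
  have hlt := hlow t (hti.trans hi)
  have hmain : Bd * Real.exp (l / 2 * t * ((S : ℝ) - t) - l / 2 * S * K - S * Real.log 2) ≤
      Real.exp (2 * S * Real.log 2) * Real.exp (l / 2 * S * ((S : ℝ) - i) + S * (l / 2 + 2)) *
        Real.exp (l / 2 * S * ((S : ℝ) - j) + S * (l / 2 + 2)) := by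
    calc Bd * Real.exp (l / 2 * t * ((S : ℝ) - t) - l / 2 * S * K - S * Real.log 2)
        ≤ Bd * (N ^ t * q ^ (t.choose 2) / t.factorial) := mul_le_mul_of_nonneg_left hlt hBd0
      _ = 2 ^ (i + j) * (N ^ i * q ^ (i.choose 2) / i.factorial) *
        (N ^ j * q ^ (j.choose 2) / j.factorial) := hprod
      _ ≤ _ := by
        apply mul_le_mul _ huj (by positivity) (by positivity)
        exact mul_le_mul h2p hui (by positivity) (by positivity)
  rw [← Real.exp_add, ← Real.exp_add] at hmain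
  have hle : Bd ≤ Real.exp (2 * S * Real.log 2 + (l / 2 * S * ((S : ℝ) - i) + S * (l / 2 + 2)) +
      (l / 2 * S * ((S : ℝ) - j) + S * (l / 2 + 2)) -
      (l / 2 * t * ((S : ℝ) - t) - l / 2 * S * K - S * Real.log 2)) := by
    rw [Real.exp_sub, le_div_iff₀ (Real.exp_pos _)]
    exact hmain
  refine hle.trans (Real.exp_le_exp.2 ?_)
  have hlog2 : Real.log 2 ≤ 1 := by
    have := Real.log_two_lt_d9
    linarith
  have hS0 : (0 : ℝ) ≤ S := Nat.cast_nonneg _
  have hlB : 14 + 12 * l + l * K ≤ l * B := by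
    have h5 : l * (14 / l + 12 + K) ≤ l * B := mul_le_mul_of_nonneg_left hB hl.le
    have h6 : l * (14 / l + 12 + K) = 14 + 12 * l + l * K := by
      field_simp
    linarith
  have h7 : l / 2 * ((S : ℝ) * (((S : ℝ) - i) + ((S : ℝ) - j) + B)) ≤
      l / 2 * (t * ((S : ℝ) - t)) := mul_le_mul_of_nonneg_left hcR (by linarith)
  have h8 : (S : ℝ) * (14 + 12 * l + l * K) ≤ S * (l * B) := mul_le_mul_of_nonneg_left hlB hS0
  have h9 : (S : ℝ) * Real.log 2 ≤ S * 1 := mul_le_mul_of_nonneg_left hlog2 hS0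
  nlinarith

theorem noMid_prob (h0 : 0 < p) (h1 : p < 1) (K : ℕ) : ∃ B : ℕ, ∀ᶠ n : ℕ in atTop,
    ∀ T : Finset (Fin n), Ex p (fun x : Cf n => Ex p (fun y : Cf n => Ex p (fun z : Cf n =>
      ind (¬ NoMid (SS p K n) B T (glue T.sym2 x y) (glue T.sym2 x z))))) ≤ 1 / n := by
  have hl := ell_pos h0 h1
  refine ⟨⌈14 / (-Real.log (1 - p))⌉₊ + 12 + K, ?_⟩
  filter_upwards [log_h_up h0 h1 K, log_h_low h0 h1 K, SS_le h0 h1 K, SS_ge h0 h1 K,
    LL_pow_le h0 h1 3 27 (c := 1) one_pos, (tendsto_LL h0 h1).eventually_ge_atTop 1,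
    eventually_ge_atTop 1] with n hup hlow hSle hSge hpow hL1 hn1 T
  have hBR : 14 / (-Real.log (1 - p)) + 12 + K ≤
      ((⌈14 / (-Real.log (1 - p))⌉₊ + 12 + K : ℕ) : ℝ) := by
    push_cast
    have := Nat.le_ceil (14 / (-Real.log (1 - p)))
    linarith
  generalize ⌈14 / (-Real.log (1 - p))⌉₊ + 12 + K = B at hBR ⊢
  generalize SS p K n = S at hup hlow hSle hSge ⊢
  have hn0 : (0 : ℝ) < n := by exact_mod_cast hn1
  have hlogn : Real.log (n : ℝ) = (-Real.log (1 - p)) * LL p n := by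
    unfold LL
    rw [mul_div_cancel₀ _ hl.ne']
  set W : Finset (ℕ × ℕ × ℕ) :=
    ((Finset.range (S + 1)) ×ˢ (Finset.range (S + 1)) ×ˢ (Finset.range (S + 1))).filter
      (fun w => w.2.2 ≤ w.1 ∧ w.2.2 ≤ w.2.1 ∧
        S * ((S - w.1) + (S - w.2.1) + B) ≤ w.2.2 * (S - w.2.2)) with hW
  have step1 : ∀ x y z : Cf n, ind (¬ NoMid S B T (glue T.sym2 x y) (glue T.sym2 x z)) ≤
      ∑ w ∈ W, ind (∃ I J : Finset (Fin n), I.card = w.1 ∧ J.card = w.2.1 ∧
        (I ∩ J ∩ T).card = w.2.2 ∧ Ind (glue T.sym2 x y) I ∧ Ind (glue T.sym2 x z) J) := by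
    intro x y z
    refine le_trans (ind_mono ?_) (ind_exists W _)
    intro h
    unfold NoMid at h
    push Not at h
    obtain ⟨I, J, hI, hJ, hyI, hzJ, hc⟩ := h
    have hi1 : (I ∩ J ∩ T).card ≤ I.card :=
      Finset.card_le_card (Finset.inter_subset_left.trans Finset.inter_subset_left)
    have hi2 : (I ∩ J ∩ T).card ≤ J.card :=
      Finset.card_le_card (Finset.inter_subset_left.trans Finset.inter_subset_right)
    refine ⟨(I.card, J.card, (I ∩ J ∩ T).card), ?_, I, J, rfl, rfl, rfl, hyI, hzJ⟩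
    rw [hW, Finset.mem_filter, Finset.mem_product, Finset.mem_product, Finset.mem_range,
      Finset.mem_range, Finset.mem_range]
    exact ⟨⟨Nat.lt_succ_of_le hI, Nat.lt_succ_of_le hJ, Nat.lt_succ_of_le (hi1.trans hI)⟩,
      hi1, hi2, hc⟩
  have step2 : Ex p (fun x : Cf n => Ex p (fun y : Cf n => Ex p (fun z : Cf n =>
      ind (¬ NoMid S B T (glue T.sym2 x y) (glue T.sym2 x z))))) ≤
      ∑ w ∈ W, Ex p (fun x : Cf n => Ex p (fun y : Cf n => Ex p (fun z : Cf n =>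
        ind (∃ I J : Finset (Fin n), I.card = w.1 ∧ J.card = w.2.1 ∧
        (I ∩ J ∩ T).card = w.2.2 ∧ Ind (glue T.sym2 x y) I ∧ Ind (glue T.sym2 x z) J)))) := by
    refine le_trans (Ex_mono h0.le h1.le fun x => Ex_mono h0.le h1.le fun y =>
      Ex_mono h0.le h1.le fun z => step1 x y z) (le_of_eq ?_)
    simp only [Ex_sum]
  refine step2.trans ?_
  have step3 : ∀ w ∈ W, Ex p (fun x : Cf n => Ex p (fun y : Cf n => Ex p (fun z : Cf n =>
        ind (∃ I J : Finset (Fin n), I.card = w.1 ∧ J.card = w.2.1 ∧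
        (I ∩ J ∩ T).card = w.2.2 ∧ Ind (glue T.sym2 x y) I ∧ Ind (glue T.sym2 x z) J)))) ≤
      Real.exp (-(5 * Real.log n)) := by
    intro w hw
    rw [hW, Finset.mem_filter, Finset.mem_product, Finset.mem_product, Finset.mem_range,
      Finset.mem_range, Finset.mem_range] at hw
    obtain ⟨⟨hw1, hw2, -⟩, hw4, hw5, hw6⟩ := hw
    refine (pair_moment h0.le h1.le T hw4 hw5).trans ?_
    refine triple_bound hn0 (by linarith : 0 < 1 - p) hl hBR ?_ hup hlow
      (Nat.lt_succ_iff.1 hw1) (Nat.lt_succ_iff.1 hw2) hw4 hw5 hw6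
    rw [hlogn]
    exact mul_le_mul_of_nonneg_left hSge hl.le
  refine (Finset.sum_le_card_nsmul W _ _ step3).trans ?_
  rw [nsmul_eq_mul]
  have hWc : (W.card : ℝ) ≤ n := by
    have h2 : W.card ≤ (S + 1) ^ 3 := by
      refine (Finset.card_filter_le _ _).trans (le_of_eq ?_)
      rw [Finset.card_product, Finset.card_product, Finset.card_range]
      ring
    have h3 : (W.card : ℝ) ≤ ((S : ℝ) + 1) ^ 3 := by exact_mod_cast h2
    have h4 : (S : ℝ) + 1 ≤ 3 * LL p n := by linarith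
    have h5 : ((S : ℝ) + 1) ^ 3 ≤ (3 * LL p n) ^ 3 :=
      pow_le_pow_left₀ (by positivity) h4 3
    have h6 : (3 * LL p n) ^ 3 = 27 * LL p n ^ 3 := by ring
    rw [Real.rpow_one] at hpow
    linarith
  have hexp : Real.exp (-(5 * Real.log n)) = ((n : ℝ) ^ 5)⁻¹ := by
    rw [Real.exp_neg]
    congr 1
    have := Real.exp_nat_mul (Real.log n) 5
    rw [Real.exp_log hn0] at this
    rw [← this]
    norm_num
  rw [hexp]
  have hn1R : (1 : ℝ) ≤ n := by exact_mod_cast hn1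
  calc (W.card : ℝ) * ((n : ℝ) ^ 5)⁻¹ ≤ n * ((n : ℝ) ^ 5)⁻¹ :=
        mul_le_mul_of_nonneg_right hWc (by positivity)
    _ = 1 / (n : ℝ) ^ 4 := by
        field_simp
    _ ≤ 1 / n := by
        apply one_div_le_one_div_of_le hn0
        calc (n : ℝ) = (n : ℝ) ^ 1 := (pow_one _).symm
          _ ≤ (n : ℝ) ^ 4 := pow_le_pow_right₀ hn1R (by norm_num)

end Pool.Agent.CHV
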