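import Pool.Agent.CHV.Enr
import Pool.Agent.CHV.Mrt
import Pool.Agent.CHV.NoM
import Pool.Agent.CHV.Mea

/-!
# CHV / Fin1: the variance of `ff` is `O(n / log n)`
-/

set_option autoImplicit false

namespace Pool.Agent.CHV

open Filter Finset

variable {p : ℝ}

theorem log_eq (h0 : 0 < p) (h1 : p < 1) (n : ℕ) :
    Real.log n = (-Real.log (1 - p)) * LL p n := by
  unfold LL
  rw [mul_div_cancel₀]
  exact (ell_pos h0 h1).ne'

theorem mean_defi {n S lam : ℕ} (h0 : 0 < p) (h1 : p < 1) (hl : lam ≤ S) (h0l : 0 < lam) {Δ : ℝ}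
    (h : (S : ℝ) * Ex p (fun x : Cf n => ff S lam x) - lam * n ≤ Δ * n) :
    Ex p (fun x : Cf n => (defi S (opt S lam x) : ℝ)) ≤ Δ * n / lam := by
  have h2 : Ex p (fun x : Cf n => (lam : ℝ) * (defi S (opt S lam x) : ℝ)) ≤
      Ex p (fun x : Cf n => (S : ℝ) * ff S lam x - lam * n) :=
    Ex_mono h0.le h1.le (fun x => defi_le hl x)
  rw [Ex_smul, Ex_sub, Ex_smul, Ex_const] at h2
  have hl' : (0 : ℝ) < lam := by exact_mod_cast h0l
  rw [le_div_iff₀ hl', mul_comm]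
  linarith

theorem kappa_le {n S : ℕ} (h0 : 0 < p) (h1 : p < 1) (hn : 0 < n)
    (hS : (S : ℝ) ≤ 2 * LL p n) (hL : 2 / (1 - p) * LL p n ^ 1 ≤ (n : ℝ) ^ (1 / 4 : ℝ)) :
    (S : ℝ) / ((1 - p) * ⌈Real.sqrt n⌉₊) ≤ (n : ℝ) ^ (-(1 / 4) : ℝ) := by
  have hq : 0 < 1 - p := by linarith
  have hn' : (0 : ℝ) < n := by exact_mod_cast hn
  have hsq : 0 < Real.sqrt n := Real.sqrt_pos.2 hn'
  have hce : Real.sqrt n ≤ (⌈Real.sqrt n⌉₊ : ℝ) := Nat.le_ceil _
  have h3 : (S : ℝ) / ((1 - p) * ⌈Real.sqrt n⌉₊) ≤ (2 * LL p n) / ((1 - p) * Real.sqrt n) := by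
    have hS0 : (0 : ℝ) ≤ S := Nat.cast_nonneg S
    apply div_le_div₀ (le_trans hS0 hS) hS (by positivity)
    exact mul_le_mul_of_nonneg_left hce hq.le
  refine h3.trans ?_
  have h4 : (n : ℝ) ^ (-(1 / 4) : ℝ) = (n : ℝ) ^ (1 / 4 : ℝ) / Real.sqrt n := by
    rw [Real.sqrt_eq_rpow, ← Real.rpow_sub hn']
    norm_num
  rw [h4, pow_one] at *
  have h5 : 2 * LL p n / ((1 - p) * Real.sqrt n) = (2 / (1 - p) * LL p n) / Real.sqrt n := by
    field_simp
  rw [h5]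
  exact div_le_div_of_nonneg_right hL hsq.le

theorem var_final (h0 : 0 < p) (h1 : p < 1) (K : ℕ) : ∃ C : ℝ, 0 < C ∧ ∀ᶠ n : ℕ in atTop,
    Ex p (fun x : Cf n => (ff (SS p K n) (lm p n) x -
      Ex p (fun x : Cf n => ff (SS p K n) (lm p n) x)) ^ 2) ≤ C * (n / Real.log n) := by
  obtain ⟨B, hB⟩ := noMid_prob h0 h1 K
  obtain ⟨Δ₀, hΔ₀⟩ := mean_ff h0 h1 K
  obtain ⟨Δ, hΔ0, hΔ⟩ : ∃ Δ : ℝ, 0 ≤ Δ ∧ Δ₀ ≤ Δ := ⟨max Δ₀ 0, le_max_right _ _, le_max_left _ _⟩
  have hq : 0 < 1 - p := by linarith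
  have hell := ell_pos h0 h1
  set ell := -Real.log (1 - p) with hell_def
  refine ⟨2 + 16 * (1 / (1 - p) * (408 * Δ + 4 * B * (Δ + 1) + 2 * B + 1)), by positivity, ?_⟩
  filter_upwards [hB, hΔ₀, SS_le h0 h1 K, SS_ge h0 h1 K, lm_low h0 h1, lm_up h0 h1,
    LL_pow_le h0 h1 1 (2 / (1 - p)) (c := 1 / 4) (by norm_num),
    LL_pow_le h0 h1 2 (2 * ell / (1 - p)) (c := 1 / 8) (by norm_num),
    LL_pow_le h0 h1 1 (2 * ell) (c := 1 / 2) (by norm_num),
    LL_pow_le h0 h1 1 2 (c := 1) (by norm_num),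
    (tendsto_LL h0 h1).eventually_ge_atTop 17, eventually_ge_atTop 2]
    with n hBn hΔn hS2 hS1 hl1 hl2 e1 e2 e3 e4 hL17 hn2
  set S := SS p K n with hS_def
  set lam := lm p n with hlam_def
  set L := LL p n with hL_def
  have hn' : (0 : ℝ) < n := by exact_mod_cast (by omega : 0 < n)
  have hn1 : (1 : ℝ) < n := by exact_mod_cast (by omega : 1 < n)
  have hlogn : 0 < Real.log n := Real.log_pos hn1
  have hL0 : 0 < L := by linarith
  have hSpos : 0 < S := by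
    have : (0 : ℝ) < S := by linarith
    exact_mod_cast this
  have hlpos : (1 : ℝ) ≤ lam := by
    have : (17 : ℝ) / 17 ≤ L / 17 := by linarith
    linarith
  have hlpos' : 0 < lam := by
    have : (0 : ℝ) < lam := by linarith
    exact_mod_cast this
  have hlS : lam ≤ S := by
    have : (lam : ℝ) ≤ S := by linarith
    exact_mod_cast this
  -- deficit
  have hD : Ex p (fun x : Cf n => (defi S (opt S lam x) : ℝ)) ≤ Δ * n / lam := by
    refine mean_defi h0 h1 hlS hlpos' ?_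
    refine hΔn.trans ?_
    exact mul_le_mul_of_nonneg_right hΔ hn'.le
  have hen := ener_sum (n := n) (S := S) (lam := lam) (B := B) h0.le h1 (Δ * n / lam) (1 / n) hD
    (fun j _ => hBn (pre n (j + 1)))
  -- parameters of the martingale
  have hκle : (S : ℝ) / ((1 - p) * ⌈Real.sqrt n⌉₊) ≤ (n : ℝ) ^ (-(1 / 4) : ℝ) :=
    kappa_le h0 h1 (by omega) hS2 e1
  have hMpos : 0 < ⌈Real.sqrt n⌉₊ := Nat.ceil_pos.2 (Real.sqrt_pos.2 hn')
  have hn14 : (n : ℝ) ^ (-(1 / 4) : ℝ) < 1 := Real.rpow_lt_one_of_one_lt_of_neg hn1 (by norm_num)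
  have hκ1 : (S : ℝ) / ((1 - p) * ⌈Real.sqrt n⌉₊) < 1 := lt_of_le_of_lt hκle hn14
  have hκ0 : 0 < (S : ℝ) / ((1 - p) * ⌈Real.sqrt n⌉₊) := by
    have : (0 : ℝ) < ⌈Real.sqrt n⌉₊ := by exact_mod_cast hMpos
    have : (0 : ℝ) < S := by exact_mod_cast hSpos
    positivity
  have hvar := var_ff (n := n) (S := S) (lam := lam) h0 h1 hMpos hSpos hκ1
  rw [var_eq]
  refine hvar.trans ?_
  set κ := (S : ℝ) / ((1 - p) * ⌈Real.sqrt n⌉₊) with hκ_def
  have hlogκ : Real.log n / 4 ≤ Real.log (1 / κ) := by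
    have h5 : Real.log κ ≤ Real.log ((n : ℝ) ^ (-(1 / 4) : ℝ)) := Real.log_le_log hκ0 hκle
    rw [Real.log_rpow hn'] at h5
    rw [one_div, Real.log_inv]
    linarith
  have hinv : 4 / Real.log (1 / κ) ≤ 16 / Real.log n := by
    have h6 : 0 < Real.log n / 4 := by positivity
    calc 4 / Real.log (1 / κ) ≤ 4 / (Real.log n / 4) :=
          div_le_div_of_nonneg_left (by norm_num) h6 hlogκ
      _ = 16 / Real.log n := by field_simp; norm_num
  have hlogL : Real.log n = ell * L := log_eq h0 h1 n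
  -- first term
  have t1 : ((⌈Real.sqrt n⌉₊ : ℕ) : ℝ) ≤ n / Real.log n := by
    have h7 : ((⌈Real.sqrt n⌉₊ : ℕ) : ℝ) ≤ Real.sqrt n + 1 := (Nat.ceil_lt_add_one
      (Real.sqrt_nonneg _)).le
    have h8 : (1 : ℝ) ≤ Real.sqrt n := by
      rw [Real.one_le_sqrt]
      exact hn1.le
    have h9 : Real.log n * 2 ≤ Real.sqrt n := by
      rw [hlogL, Real.sqrt_eq_rpow]
      have := e3
      rw [pow_one] at this
      linarith
    rw [le_div_iff₀ hlogn]
    calc ((⌈Real.sqrt n⌉₊ : ℕ) : ℝ) * Real.log n ≤ (2 * Real.sqrt n) * Real.log n := by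
          apply mul_le_mul_of_nonneg_right _ hlogn.le
          linarith
      _ = Real.sqrt n * (Real.log n * 2) := by ring
      _ ≤ Real.sqrt n * Real.sqrt n := mul_le_mul_of_nonneg_left h9 (Real.sqrt_nonneg _)
      _ = n := Real.mul_self_sqrt hn'.le
  -- second term
  have t2 : (n : ℝ) * (Real.sqrt κ * (S / (1 - p))) ≤ n / Real.log n := by
    have h7 : Real.sqrt κ ≤ (n : ℝ) ^ (-(1 / 8) : ℝ) := by
      have h8 : Real.sqrt κ ≤ Real.sqrt ((n : ℝ) ^ (-(1 / 4) : ℝ)) := Real.sqrt_le_sqrt hκle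
      rw [Real.sqrt_eq_rpow ((n : ℝ) ^ (-(1 / 4) : ℝ)), ← Real.rpow_mul hn'.le] at h8
      norm_num at h8 ⊢
      exact h8
    have h9 : (S : ℝ) / (1 - p) * Real.log n ≤ (n : ℝ) ^ (1 / 8 : ℝ) := by
      refine le_trans ?_ e2
      rw [hlogL]
      have : (S : ℝ) / (1 - p) ≤ 2 * L / (1 - p) := div_le_div_of_nonneg_right hS2 hq.le
      calc (S : ℝ) / (1 - p) * (ell * L) ≤ 2 * L / (1 - p) * (ell * L) :=
            mul_le_mul_of_nonneg_right this (by positivity)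
        _ = 2 * ell / (1 - p) * L ^ 2 := by ring
    have h10 : Real.sqrt κ * (S / (1 - p)) * Real.log n ≤ 1 := by
      calc Real.sqrt κ * (S / (1 - p)) * Real.log n
          = Real.sqrt κ * ((S / (1 - p)) * Real.log n) := by ring
        _ ≤ (n : ℝ) ^ (-(1 / 8) : ℝ) * (n : ℝ) ^ (1 / 8 : ℝ) :=
            mul_le_mul h7 h9 (by positivity) (by positivity)
        _ = 1 := by
            rw [← Real.rpow_add hn']
            norm_num
    rw [le_div_iff₀ hlogn, mul_assoc]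
    calc (n : ℝ) * (Real.sqrt κ * (S / (1 - p)) * Real.log n) ≤ n * 1 :=
          mul_le_mul_of_nonneg_left h10 hn'.le
      _ = n := mul_one _
  -- third term
  have hlam' : (0 : ℝ) < lam := by linarith
  have hΔn : Δ * n / lam ≤ Δ * n := by
    rw [div_le_iff₀ hlam']
    have : 0 ≤ Δ * n := by positivity
    nlinarith
  have hSD : (S : ℝ) * (Δ * n / lam) ≤ 34 * (Δ * n) := by
    have h11 : (S : ℝ) ≤ 34 * lam := by linarith
    have h12 : 0 ≤ Δ * n / lam := by positivity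
    calc (S : ℝ) * (Δ * n / lam) ≤ 34 * lam * (Δ * n / lam) := mul_le_mul_of_nonneg_right h11 h12
      _ = 34 * (Δ * n) := by field_simp
  have hSn : (S : ℝ) * n * (1 / n) ≤ n := by
    have h12 : (S : ℝ) * n * (1 / n) = S := by field_simp
    rw [h12]
    have h13 : 2 * L ≤ (n : ℝ) := by
      simpa using e4
    exact hS2.trans h13
  have hen2 : ∑ j ∈ Finset.range n, ener p (n := n) S lam j ≤
      1 / (1 - p) * (408 * Δ + 4 * B * (Δ + 1) + 2 * B + 1) * n := by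
    refine hen.trans ?_
    have h15 : 1 / (1 - p) * (408 * Δ + 4 * B * (Δ + 1) + 2 * B + 1) * n =
        1 / (1 - p) * ((408 * Δ + 4 * B * (Δ + 1) + 2 * B + 1) * n) := by ring
    rw [h15]
    apply mul_le_mul_of_nonneg_left _ (by positivity)
    have hB0 : (0 : ℝ) ≤ B := Nat.cast_nonneg B
    have h14 : 4 * (B : ℝ) * (Δ * n / lam + n) ≤ 4 * B * (Δ * n + n) :=
      mul_le_mul_of_nonneg_left (by linarith) (by positivity)
    have h16 : 12 * (S : ℝ) * (Δ * n / lam) ≤ 12 * (34 * (Δ * n)) := by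
      rw [mul_assoc]
      exact mul_le_mul_of_nonneg_left hSD (by norm_num)
    calc 12 * (S : ℝ) * (Δ * n / lam) + 4 * B * (Δ * n / lam + n) + 2 * B * n + S * n * (1 / n)
        ≤ 12 * (34 * (Δ * n)) + 4 * B * (Δ * n + n) + 2 * B * n + n := by linarith
      _ = (408 * Δ + 4 * B * (Δ + 1) + 2 * B + 1) * n := by ring
  have hen0 : 0 ≤ ∑ j ∈ Finset.range n, ener p (n := n) S lam j :=
    Finset.sum_nonneg (fun j _ => ener_nonneg h0.le h1.le j)
  have t3 : 4 / Real.log (1 / κ) * ∑ j ∈ Finset.range n, ener p (n := n) S lam j ≤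
      16 * (1 / (1 - p) * (408 * Δ + 4 * B * (Δ + 1) + 2 * B + 1)) * (n / Real.log n) := by
    calc 4 / Real.log (1 / κ) * ∑ j ∈ Finset.range n, ener p (n := n) S lam j
        ≤ 16 / Real.log n * (1 / (1 - p) * (408 * Δ + 4 * B * (Δ + 1) + 2 * B + 1) * n) :=
          mul_le_mul hinv hen2 hen0 (by positivity)
      _ = _ := by ring
  have := add_le_add (add_le_add t1 t2) t3
  refine this.trans (le_of_eq ?_)
  ring

end Pool.Agent.CHV
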