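import Pool.Agent.CHV.Fsq

/-!
# CHV / Fsc: conditional version of `fs`

PROOF.  Fix `x` and put `g_x z = CE p T F (glue S x z)`.  For `e ∈ T \ S`, `dd e g_x z = CE p T (dd e F) (glue S x z) ≥ 0`
(`glue S x (update z e b) = update (glue S x z) e b` since `e ∉ S`, and `CE_dd`).  For `e ∈ S` `dd e g_x = 0`
(`glue S x (update z e b) = glue S x z`), for `e ∉ T` `dd e g_x = 0` (`CE_indep_bit`; if `e ∉ S` use the previous commutation).
`Ex_z |dd e g_x z| = Ex_z CE p T (dd e F) (glue S x z) = CE p S (CE p T (dd e F)) x = CE p S (dd e F) x ≤ κ` (`CE_CE`).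
`fs` for `g_x`: `Ex_z g_x^2 - (Ex_z g_x)^2 ≤ sqrt κ * K + 4 / log (1/κ) * ∑_{e ∈ T \ S} Ex_z (CE p T (dd e F) (glue S x z))^2`
and `Ex_z g_x z = CE p S (CE p T F) x = CE p S F x`.  Take `Ex` over `x` and use `Ex_glue`
(`Ex_x Ex_z G (glue S x z) = Ex G` for `G = (CE p T F)^2` and `G = (CE p T (dd e F))^2`).
-/

set_option autoImplicit false

namespace Pool.Agent.CHV

open Finset

variable {ι : Type} [Fintype ι] [DecidableEq ι] {p : ℝ}

private theorem glue_update_right {S : Finset ι} {e : ι} (he : e ∉ S) (x z : ι → Bool) (b : Bool) :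
    glue S x (Function.update z e b) = Function.update (glue S x z) e b := by
  funext i
  by_cases hi : i = e
  · subst hi
    simp [glue, he]
  · simp [glue, Function.update_of_ne hi]

private theorem glue_update_mem {S : Finset ι} {e : ι} (he : e ∈ S) (x z : ι → Bool) (b : Bool) :
    glue S x (Function.update z e b) = glue S x z := by
  funext i
  by_cases hi : i = e
  · subst hi
    simp [glue, he]
  · simp [glue, Function.update_of_ne hi]

theorem fs_cond (h0 : 0 < p) (h1 : p < 1) {S T : Finset ι} (hST : S ⊆ T)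
    (F : (ι → Bool) → ℝ) (hm : ∀ e x, 0 ≤ dd e F x) {κ K : ℝ} (hκ0 : 0 < κ) (hκ1 : κ < 1)
    (hκ : ∀ e ∈ T \ S, ∀ x, CE p S (dd e F) x ≤ κ)
    (hK : ∀ x, ∑ e ∈ T \ S, CE p S (dd e F) x ≤ K) :
    Ex p (fun x => CE p T F x ^ 2) - Ex p (fun x => CE p S F x ^ 2) ≤
      Real.sqrt κ * K +
        4 / Real.log (1 / κ) * ∑ e ∈ T \ S, Ex p (fun x => CE p T (dd e F) x ^ 2) := by
  have hin : ∀ e ∈ T \ S, ∀ x z, dd e (fun z => CE p T F (glue S x z)) z =
      CE p T (dd e F) (glue S x z) := by
    intro e he x z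
    rw [Finset.mem_sdiff] at he
    rw [← CE_dd he.1]
    simp only [dd]
    rw [glue_update_right he.2, glue_update_right he.2]
  have hout : ∀ e, e ∉ T \ S → ∀ x z, dd e (fun z => CE p T F (glue S x z)) z = 0 := by
    intro e he x z
    by_cases hS : e ∈ S
    · simp only [dd]
      rw [glue_update_mem hS, glue_update_mem hS, sub_self]
    · have hT : e ∉ T := fun h => he (Finset.mem_sdiff.2 ⟨h, hS⟩)
      simp only [dd]
      rw [glue_update_right hS, glue_update_right hS, CE_indep_bit hT, CE_indep_bit hT, sub_self]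
  have hCEm : ∀ e x, 0 ≤ CE p T (dd e F) x := fun e x =>
    Ex_nonneg h0.le h1.le fun y => hm e _
  have habs : ∀ x e, Ex p (fun z => |dd e (fun z => CE p T F (glue S x z)) z|) =
      if e ∈ T \ S then CE p S (dd e F) x else 0 := by
    intro x e
    by_cases he : e ∈ T \ S
    · rw [if_pos he]
      have h2 : (fun z => |dd e (fun z => CE p T F (glue S x z)) z|) =
          fun z => CE p T (dd e F) (glue S x z) := by
        funext z
        rw [hin e he, abs_of_nonneg (hCEm e _)]
      rw [h2]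
      exact CE_CE hST (dd e F) x
    · rw [if_neg he]
      have h2 : (fun z => |dd e (fun z => CE p T F (glue S x z)) z|) = fun _ => (0 : ℝ) := by
        funext z
        rw [hout e he, abs_zero]
      rw [h2]
      exact Ex_const 0
  have hsq : ∀ x e, Ex p (fun z => dd e (fun z => CE p T F (glue S x z)) z ^ 2) =
      if e ∈ T \ S then Ex p (fun z => CE p T (dd e F) (glue S x z) ^ 2) else 0 := by
    intro x e
    by_cases he : e ∈ T \ S
    · rw [if_pos he]
      have h2 : (fun z => dd e (fun z => CE p T F (glue S x z)) z ^ 2) =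
          fun z => CE p T (dd e F) (glue S x z) ^ 2 := by
        funext z
        rw [hin e he]
      rw [h2]
    · rw [if_neg he]
      have h2 : (fun z => dd e (fun z => CE p T F (glue S x z)) z ^ 2) = fun _ => (0 : ℝ) := by
        funext z
        rw [hout e he]
        ring
      rw [h2]
      exact Ex_const 0
  have hmain : ∀ x, Ex p (fun z => CE p T F (glue S x z) ^ 2) - CE p S F x ^ 2 ≤
      Real.sqrt κ * K + 4 / Real.log (1 / κ) *
        ∑ e ∈ T \ S, Ex p (fun z => CE p T (dd e F) (glue S x z) ^ 2) := by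
    intro x
    have h2 := fs h0 h1 (fun z => CE p T F (glue S x z)) hκ0 hκ1 (by
      intro e
      rw [habs]
      split_ifs with he
      · exact hκ e he x
      · exact hκ0.le)
    have h3 : Ex p (fun z => CE p T F (glue S x z)) = CE p S F x := CE_CE hST F x
    rw [h3] at h2
    simp only [habs, hsq] at h2
    rw [Finset.sum_ite_mem, Finset.univ_inter, Finset.sum_ite_mem, Finset.univ_inter] at h2
    refine h2.trans ?_
    have h4 : Real.sqrt κ * ∑ e ∈ T \ S, CE p S (dd e F) x ≤ Real.sqrt κ * K :=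
      mul_le_mul_of_nonneg_left (hK x) (Real.sqrt_nonneg _)
    linarith
  have h5 : Ex p (fun x => CE p T F x ^ 2) =
      Ex p (fun x => Ex p (fun z => CE p T F (glue S x z) ^ 2)) :=
    (Ex_glue S (fun u => CE p T F u ^ 2)).symm
  have h6 : ∀ e, Ex p (fun x => CE p T (dd e F) x ^ 2) =
      Ex p (fun x => Ex p (fun z => CE p T (dd e F) (glue S x z) ^ 2)) := fun e =>
    (Ex_glue S (fun u => CE p T (dd e F) u ^ 2)).symm
  rw [h5, ← Ex_sub]
  refine (Ex_mono h0.le h1.le hmain).trans (le_of_eq ?_)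
  rw [Ex_add, Ex_const, Ex_smul, Ex_sum]
  congr 2
  exact Finset.sum_congr rfl fun e _ => (h6 e).symm

end Pool.Agent.CHV
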