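import Pool.Agent.CHV.ExR

/-!
# CHV / Lsi: a logarithmic Sobolev inequality for independent bits

PROOFS.  `two_point`: for `Z = p A^2 + (1-p) B^2 > 0`: by `log x ≤ x - 1` (for `A ≠ 0`; the term is `0` for `A = 0`)
`p A^2 log (A^2/Z) + q B^2 log (B^2/Z) ≤ (p A^4 + q B^4) / Z - Z = p q (A^2 - B^2)^2 / Z` (`q = 1 - p`), and
`p q (A + B)^2 ≤ 2 p q (A^2 + B^2) ≤ 2 Z`.  If `Z = 0` then `p A = 0`, `q B = 0` and the left-hand side is `0`.
`lsi_fin` by induction on `m` (for all `g`).  `m = 0`: only one configuration, `Ent = 0` (`bw`-product is `1`).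
Step: `g_b x = g (Fin.cons b x)`, `M_b = Ex g_b^2`.  By `Ex_cons`
`Ent (g^2) = p Ent (g_1^2) + q Ent (g_0^2) + (p M_1 log M_1 + q M_0 log M_0 - (p M_1 + q M_0) log (p M_1 + q M_0))`.
Bracket: `two_point` with `A = sqrt M_1`, `B = sqrt M_0`; `(A - B)^2 = M_1 + M_0 - 2 sqrt (M_1 M_0) ≤ Ex (g_1 - g_0)^2`
by Cauchy-Schwarz (`Ex_cs`).  `dd 0 g (Fin.cons b x) = g_1 x - g_0 x`, `dd (Fin.succ i) g (Fin.cons b x) = dd i g_b x`
(`Fin.cons_update`, `Fin.update_cons_zero`), `Fin.sum_univ_succ`.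
`lsi`: transfer with `Fintype.equivFin` and `Ex_equiv`.
-/

set_option autoImplicit false

namespace Pool.Agent.CHV

open Finset

variable {ι : Type} [Fintype ι] [DecidableEq ι] {p : ℝ}

private lemma log_step {Z a : ℝ} (hZ : 0 < Z) (ha : 0 ≤ a) :
    a * Real.log a ≤ a * Real.log Z + a * (a / Z - 1) := by
  rcases ha.eq_or_lt with h | h
  · rw [← h]
    simp
  · have h1 := Real.log_le_sub_one_of_pos (div_pos h hZ)
    rw [Real.log_div h.ne' hZ.ne'] at h1
    nlinarith [mul_le_mul_of_nonneg_left h1 h.le]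

set_option linter.unusedVariables false in
theorem two_point (h0 : 0 ≤ p) (h1 : p ≤ 1) {A B : ℝ} (hA : 0 ≤ A) (hB : 0 ≤ B) :
    p * (A ^ 2 * Real.log (A ^ 2)) + (1 - p) * (B ^ 2 * Real.log (B ^ 2)) -
      (p * A ^ 2 + (1 - p) * B ^ 2) * Real.log (p * A ^ 2 + (1 - p) * B ^ 2) ≤
      2 * (A - B) ^ 2 := by
  obtain ⟨Z, hZ⟩ : ∃ Z, Z = p * A ^ 2 + (1 - p) * B ^ 2 := ⟨_, rfl⟩
  rw [← hZ]
  have hq : 0 ≤ 1 - p := by linarith
  have e1 : 0 ≤ p * A ^ 2 := by positivity
  have e2 : 0 ≤ (1 - p) * B ^ 2 := by positivity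
  have hZ0 : 0 ≤ Z := by rw [hZ]; positivity
  rcases hZ0.eq_or_lt with h | h
  · have e3 : p * A ^ 2 = 0 := by linarith
    have e4 : (1 - p) * B ^ 2 = 0 := by linarith
    rw [← mul_assoc, ← mul_assoc, e3, e4, ← h]
    have := sq_nonneg (A - B)
    simp only [zero_mul, add_zero, sub_zero]
    positivity
  · have f1 := mul_le_mul_of_nonneg_left (log_step h (sq_nonneg A)) h0
    have f2 := mul_le_mul_of_nonneg_left (log_step h (sq_nonneg B)) hq
    have f3 : p * (A ^ 2 * (A ^ 2 / Z - 1)) + (1 - p) * (B ^ 2 * (B ^ 2 / Z - 1)) =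
        p * (1 - p) * (A + B) ^ 2 / Z * (A - B) ^ 2 := by
      have e5 : p * (A ^ 2 * (A ^ 2 / Z - 1)) + (1 - p) * (B ^ 2 * (B ^ 2 / Z - 1)) =
          (p * A ^ 4 + (1 - p) * B ^ 4 - (p * A ^ 2 + (1 - p) * B ^ 2) * Z) / Z := by
        field_simp
        ring
      rw [e5, div_mul_eq_mul_div]
      congr 1
      rw [hZ]
      ring
    have f4 : p * (1 - p) * (A + B) ^ 2 / Z ≤ 2 := by
      rw [div_le_iff₀ h, hZ]
      have g1 : p * (1 - p) * (A + B) ^ 2 ≤ p * (1 - p) * (2 * (A ^ 2 + B ^ 2)) := by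
        refine mul_le_mul_of_nonneg_left ?_ (by positivity)
        nlinarith [sq_nonneg (A - B)]
      have g2 : p * (1 - p) * A ^ 2 ≤ p * A ^ 2 := by
        refine mul_le_mul_of_nonneg_right ?_ (sq_nonneg _)
        nlinarith
      have g3 : p * (1 - p) * B ^ 2 ≤ (1 - p) * B ^ 2 := by
        refine mul_le_mul_of_nonneg_right ?_ (sq_nonneg _)
        nlinarith
      nlinarith
    have f5 := mul_le_mul_of_nonneg_right f4 (sq_nonneg (A - B))
    have f6 : Z * Real.log Z = p * (A ^ 2 * Real.log Z) + (1 - p) * (B ^ 2 * Real.log Z) := by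
      nth_rewrite 1 [hZ]
      ring
    rw [mul_add] at f1 f2
    linarith

private lemma Ex_zero' (F : (Fin 0 → Bool) → ℝ) : Ex p F = F default := by
  unfold Ex
  rw [Fintype.sum_unique, Finset.univ_eq_empty, Finset.prod_empty, one_mul]
  exact congrArg F (Subsingleton.elim _ _)

theorem lsi_fin (h0 : 0 ≤ p) (h1 : p ≤ 1) (m : ℕ) (g : (Fin m → Bool) → ℝ) :
    Ent p (fun x => g x ^ 2) ≤ 2 * ∑ i, Ex p (fun x => dd i g x ^ 2) := by
  induction m with
  | zero =>
    unfold Ent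
    rw [Ex_zero', Ex_zero']
    simp
  | succ m ih =>
    obtain ⟨g1, hg1⟩ : ∃ f : (Fin m → Bool) → ℝ, ∀ x, f x = g (Fin.cons true x) := ⟨_, fun _ => rfl⟩
    obtain ⟨g0, hg0⟩ : ∃ f : (Fin m → Bool) → ℝ, ∀ x, f x = g (Fin.cons false x) := ⟨_, fun _ => rfl⟩
    obtain ⟨M1, hM1⟩ : ∃ M, M = Ex p (fun x => g1 x ^ 2) := ⟨_, rfl⟩
    obtain ⟨M0, hM0⟩ : ∃ M, M = Ex p (fun x => g0 x ^ 2) := ⟨_, rfl⟩
    have hM1n : 0 ≤ M1 := by
      rw [hM1]
      exact Ex_nonneg h0 h1 fun x => sq_nonneg _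
    have hM0n : 0 ≤ M0 := by
      rw [hM0]
      exact Ex_nonneg h0 h1 fun x => sq_nonneg _
    have i1 := ih g1
    have i0 := ih g0
    have hE : Ent p (fun x => g x ^ 2) = p * Ent p (fun x => g1 x ^ 2) +
        (1 - p) * Ent p (fun x => g0 x ^ 2) + (p * (M1 * Real.log M1) +
          (1 - p) * (M0 * Real.log M0) - (p * M1 + (1 - p) * M0) *
            Real.log (p * M1 + (1 - p) * M0)) := by
      unfold Ent
      rw [Ex_cons (fun x : Fin (m + 1) → Bool => g x ^ 2 * Real.log (g x ^ 2)),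
        Ex_cons (fun x : Fin (m + 1) → Bool => g x ^ 2)]
      simp only [← hg1, ← hg0]
      rw [← hM1, ← hM0]
      ring
    have hB := two_point h0 h1 (Real.sqrt_nonneg M1) (Real.sqrt_nonneg M0)
    rw [Real.sq_sqrt hM1n, Real.sq_sqrt hM0n] at hB
    have hcs : Ex p (fun x => g1 x * g0 x) ≤ Real.sqrt M1 * Real.sqrt M0 := by
      have h2 := Ex_cs h0 h1 g1 g0
      rw [← hM1, ← hM0] at h2
      rw [← Real.sqrt_mul hM1n]
      exact Real.le_sqrt_of_sq_le h2
    have hd : Ex p (fun x => (g1 x - g0 x) ^ 2) = M1 + M0 - 2 * Ex p (fun x => g1 x * g0 x) := by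
      rw [hM1, hM0, ← Ex_add, ← Ex_smul, ← Ex_sub]
      congr 1
      funext x
      ring
    have hB2 : (Real.sqrt M1 - Real.sqrt M0) ^ 2 ≤ Ex p (fun x => (g1 x - g0 x) ^ 2) := by
      rw [hd]
      have h3 : (Real.sqrt M1 - Real.sqrt M0) ^ 2 = Real.sqrt M1 ^ 2 + Real.sqrt M0 ^ 2 -
          2 * (Real.sqrt M1 * Real.sqrt M0) := by ring
      rw [h3, Real.sq_sqrt hM1n, Real.sq_sqrt hM0n]
      linarith
    have hr0 : Ex p (fun x => dd 0 g x ^ 2) = Ex p (fun x => (g1 x - g0 x) ^ 2) := by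
      rw [Ex_cons]
      have h4 : ∀ (b : Bool) (x : Fin m → Bool), dd 0 g (Fin.cons b x) = g1 x - g0 x := by
        intro b x
        unfold dd
        rw [Fin.update_cons_zero, Fin.update_cons_zero, ← hg1, ← hg0]
      simp only [h4]
      ring
    have hrs : ∀ i : Fin m, Ex p (fun x => dd i.succ g x ^ 2) =
        p * Ex p (fun x => dd i g1 x ^ 2) + (1 - p) * Ex p (fun x => dd i g0 x ^ 2) := by
      intro i
      rw [Ex_cons]
      have h5 : ∀ x : Fin m → Bool, dd i.succ g (Fin.cons true x) = dd i g1 x := by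
        intro x
        unfold dd
        rw [hg1, hg1, Fin.cons_update, Fin.cons_update]
      have h6 : ∀ x : Fin m → Bool, dd i.succ g (Fin.cons false x) = dd i g0 x := by
        intro x
        unfold dd
        rw [hg0, hg0, Fin.cons_update, Fin.cons_update]
      simp only [h5, h6]
    rw [Fin.sum_univ_succ, hr0, hE]
    simp only [hrs]
    rw [Finset.sum_add_distrib, ← Finset.mul_sum, ← Finset.mul_sum]
    have j1 := mul_le_mul_of_nonneg_left i1 h0
    have j0 := mul_le_mul_of_nonneg_left i0 (by linarith : 0 ≤ 1 - p)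
    linarith

/-- transfer to `Fin n` -/
theorem Ex_tr {n : ℕ} (e : Fin n ≃ ι) (F : (ι → Bool) → ℝ) :
    Ex p F = Ex p (fun y : Fin n → Bool => F (fun i => y (e.symm i))) := by
  have h := Ex_equiv (p := p) e (fun y : Fin n → Bool => F (fun i => y (e.symm i)))
  rw [← h]
  congr 1
  funext x
  congr 1
  funext i
  simp

omit [Fintype ι] in
theorem dd_tr {n : ℕ} (e : Fin n ≃ ι) (g : (ι → Bool) → ℝ) (k : Fin n) (y : Fin n → Bool) :
    dd k (fun y : Fin n → Bool => g (fun i => y (e.symm i))) y =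
      dd (e k) g (fun i => y (e.symm i)) := by
  have h : ∀ b : Bool, (fun i => Function.update y k b (e.symm i)) =
      Function.update (fun i => y (e.symm i)) (e k) b := by
    intro b
    funext i
    by_cases hi : i = e k
    · subst hi
      simp
    · have h2 : e.symm i ≠ k := fun h3 => hi (by rw [← h3]; simp)
      rw [Function.update_of_ne h2, Function.update_of_ne hi]
  unfold dd
  simp only
  rw [h, h]

theorem lsi (h0 : 0 ≤ p) (h1 : p ≤ 1) (g : (ι → Bool) → ℝ) :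
    Ent p (fun x => g x ^ 2) ≤ 2 * ∑ i, Ex p (fun x => dd i g x ^ 2) := by
  set e : Fin (Fintype.card ι) ≃ ι := (Fintype.equivFin ι).symm with he
  have h := lsi_fin h0 h1 _ (fun y : Fin (Fintype.card ι) → Bool => g (fun i => y (e.symm i)))
  have h2 : Ent p (fun x => g x ^ 2) =
      Ent p (fun y : Fin (Fintype.card ι) → Bool => g (fun i => y (e.symm i)) ^ 2) := by
    unfold Ent
    rw [Ex_tr e (fun x => g x ^ 2 * Real.log (g x ^ 2)), Ex_tr e (fun x => g x ^ 2)]
  have h3 : ∑ i, Ex p (fun x => dd i g x ^ 2) =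
      ∑ k, Ex p (fun y => dd k (fun y : Fin (Fintype.card ι) → Bool =>
        g (fun i => y (e.symm i))) y ^ 2) := by
    rw [← Equiv.sum_comp e (fun i => Ex p (fun x => dd i g x ^ 2))]
    refine Finset.sum_congr rfl fun k _ => ?_
    rw [Ex_tr e]
    simp only [dd_tr]
  rw [h2, h3]
  exact h

end Pool.Agent.CHV
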