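import Pool.Agent.CHV.Glu
import Pool.Agent.CHV.Lsi
import Pool.Agent.CHV.EntL

/-!
# CHV / Fsq: the inequality of Talagrand / Falik-Samorodnitsky

PROOFS.  For `u : Fin N` put `S_u = univ.filter (· < u)`.
`tele`: `CE_step` for `S = univ.filter (·.val < k)`, `i = ⟨k, _⟩` and telescoping over `k < N` (`Finset.sum_range_sub`), `CE_univ`,
`CE_empty`.
`fs_fin`: put `h_u = CE p S_u (dd u g)`, `a_u = Ex |dd u g| ≤ κ`; `Ex |h_u| ≤ a_u` (`|Ex_y F| ≤ Ex_y |F|` and `Ex_CE`).
`ent_lower`: `Ex h_u^2 ≤ sqrt κ a_u + 2 / log (1/κ) * Ent (h_u^2)`.  `lsi`: `Ent (h_u^2) ≤ 2 ∑_w Ex (dd w h_u)^2`, where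
`dd w h_u = 0` for `w ∉ S_u` (`dd_CE_of_not_mem`) and `dd w h_u = CE p S_u (dd w (dd u g)) = CE p S_u (dd u (dd w g))` for `w < u`
(`CE_dd`, `dd_dd`).  For fixed `w`, `tele` for the function `dd w g`:
`p (1-p) ∑_u Ex (CE p S_u (dd u (dd w g)))^2 = Ex (dd w g)^2 - (Ex (dd w g))^2 ≤ Ex (dd w g)^2`.
Hence `p (1-p) ∑_u Ent (h_u^2) ≤ 2 ∑_w Ex (dd w g)^2`, and by `tele` for `g`
`Ex g^2 - (Ex g)^2 = p (1-p) ∑_u Ex h_u^2 ≤ p (1-p) sqrt κ ∑ a_u + 2 / log (1/κ) * 2 ∑_w Ex (dd w g)^2`; `p (1-p) ≤ 1`.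
`fs`: transfer with `Fintype.equivFin` and `Ex_equiv`.
-/

set_option autoImplicit false

namespace Pool.Agent.CHV

open Finset

variable {ι : Type} [Fintype ι] [DecidableEq ι] {p : ℝ}

theorem tele (N : ℕ) (g : (Fin N → Bool) → ℝ) :
    p * (1 - p) * ∑ u : Fin N,
        Ex p (fun x => CE p (Finset.univ.filter (fun w => w < u)) (dd u g) x ^ 2) =
      Ex p (fun x => g x ^ 2) - Ex p g ^ 2 := by
  obtain ⟨D, hD⟩ : ∃ D : ℕ → ℝ, ∀ k, D k = Ex p (fun x =>
      CE p (Finset.univ.filter (fun w : Fin N => w.val < k)) g x ^ 2) := ⟨_, fun _ => rfl⟩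
  have h1 : ∀ u : Fin N, p * (1 - p) *
      Ex p (fun x => CE p (Finset.univ.filter (fun w => w < u)) (dd u g) x ^ 2) =
      D (u.val + 1) - D u.val := by
    intro u
    have hS : (Finset.univ.filter (fun w : Fin N => w < u)) =
        Finset.univ.filter (fun w : Fin N => w.val < u.val) := by
      ext w
      simp
    have hu : u ∉ Finset.univ.filter (fun w : Fin N => w.val < u.val) := by simp
    have h2 := CE_step (p := p) hu g
    have hI : insert u (Finset.univ.filter (fun w : Fin N => w.val < u.val)) =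
        Finset.univ.filter (fun w : Fin N => w.val < u.val + 1) := by
      ext w
      simp only [Finset.mem_insert, Finset.mem_filter, Finset.mem_univ, true_and, Fin.ext_iff]
      omega
    rw [hS, ← h2, hI, hD, hD]
  have h3 : D N = Ex p (fun x => g x ^ 2) := by
    have hS : (Finset.univ.filter (fun w : Fin N => w.val < N)) = Finset.univ := by
      ext w
      simp
    rw [hD, hS]
    simp only [CE_univ]
  have h4 : D 0 = Ex p g ^ 2 := by
    have hS : (Finset.univ.filter (fun w : Fin N => w.val < 0)) = ∅ := by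
      ext w
      simp
    rw [hD, hS]
    simp only [CE_empty]
    exact Ex_const _
  rw [Finset.mul_sum, Finset.sum_congr rfl fun u _ => h1 u,
    Fin.sum_univ_eq_sum_range (fun k => D (k + 1) - D k) N, Finset.sum_range_sub, h3, h4]

private lemma abs_Ex (h0 : 0 ≤ p) (h1 : p ≤ 1) (F : (ι → Bool) → ℝ) :
    |Ex p F| ≤ Ex p (fun x => |F x|) := by
  rw [abs_le]
  constructor
  · rw [← Ex_neg]
    exact Ex_mono h0 h1 fun x => neg_abs_le _
  · exact Ex_mono h0 h1 fun x => le_abs_self _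

theorem fs_fin (h0 : 0 < p) (h1 : p < 1) (N : ℕ) (g : (Fin N → Bool) → ℝ) {κ : ℝ}
    (hκ0 : 0 < κ) (hκ1 : κ < 1) (hκ : ∀ i, Ex p (fun x => |dd i g x|) ≤ κ) :
    Ex p (fun x => g x ^ 2) - Ex p g ^ 2 ≤
      Real.sqrt κ * ∑ i, Ex p (fun x => |dd i g x|) +
        4 / Real.log (1 / κ) * ∑ i, Ex p (fun x => dd i g x ^ 2) := by
  have hq : 0 < 1 - p := by linarith
  have hpq : 0 ≤ p * (1 - p) := by positivity
  have hpq1 : p * (1 - p) ≤ 1 := by nlinarith
  have hlog : 0 < Real.log (1 / κ) := Real.log_pos (by rw [lt_div_iff₀ hκ0]; linarith)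
  set S : Fin N → Finset (Fin N) := fun u => Finset.univ.filter (fun w => w < u) with hS
  set h : Fin N → (Fin N → Bool) → ℝ := fun u => CE p (S u) (dd u g) with hh
  have ha : ∀ u, Ex p (fun x => |h u x|) ≤ Ex p (fun x => |dd u g x|) := by
    intro u
    rw [← Ex_CE (S u) (fun x => |dd u g x|)]
    refine Ex_mono h0.le h1.le fun x => ?_
    exact abs_Ex h0.le h1.le _
  have hel : ∀ u, Ex p (fun x => h u x ^ 2) ≤ Real.sqrt κ * Ex p (fun x => |dd u g x|) +
      2 / Real.log (1 / κ) * Ent p (fun x => h u x ^ 2) := fun u =>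
    ent_lower h0.le h1.le (h u) hκ0 hκ1 (ha u) (hκ u)
  have hls : ∀ u, Ent p (fun x => h u x ^ 2) ≤ 2 * ∑ w, Ex p (fun x => dd w (h u) x ^ 2) :=
    fun u => lsi h0.le h1.le (h u)
  have hdd : ∀ u w, Ex p (fun x => dd w (h u) x ^ 2) ≤
      Ex p (fun x => CE p (S u) (dd u (dd w g)) x ^ 2) := by
    intro u w
    by_cases hw : w ∈ S u
    · refine le_of_eq ?_
      congr 1
      funext x
      rw [hh]
      simp only
      rw [CE_dd hw]
      have h2 : dd w (dd u g) = dd u (dd w g) := by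
        funext y
        exact dd_dd w u g y
      rw [h2]
    · refine Ex_mono h0.le h1.le fun x => ?_
      rw [hh]
      simp only
      rw [dd_CE_of_not_mem hw]
      have := sq_nonneg (CE p (S u) (dd u (dd w g)) x)
      simpa using this
  have hsum : p * (1 - p) * ∑ u, Ent p (fun x => h u x ^ 2) ≤
      2 * ∑ w, Ex p (fun x => dd w g x ^ 2) := by
    calc p * (1 - p) * ∑ u, Ent p (fun x => h u x ^ 2)
        ≤ p * (1 - p) * ∑ u, 2 * ∑ w, Ex p (fun x => CE p (S u) (dd u (dd w g)) x ^ 2) := by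
          refine mul_le_mul_of_nonneg_left (Finset.sum_le_sum fun u _ => ?_) hpq
          refine (hls u).trans (mul_le_mul_of_nonneg_left ?_ (by norm_num))
          exact Finset.sum_le_sum fun w _ => hdd u w
      _ = 2 * ∑ w, (p * (1 - p) * ∑ u, Ex p (fun x => CE p (S u) (dd u (dd w g)) x ^ 2)) := by
          rw [← Finset.mul_sum, Finset.sum_comm, ← Finset.mul_sum]
          ring
      _ ≤ 2 * ∑ w, Ex p (fun x => dd w g x ^ 2) := by
          refine mul_le_mul_of_nonneg_left (Finset.sum_le_sum fun w _ => ?_) (by norm_num)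
          rw [hS, tele N (dd w g)]
          have := sq_nonneg (Ex p (dd w g))
          linarith
  have hsa : 0 ≤ ∑ u, Ex p (fun x => |dd u g x|) :=
    Finset.sum_nonneg fun u _ => Ex_nonneg h0.le h1.le fun x => abs_nonneg _
  have hmain := tele (p := p) N g
  rw [← hmain]
  calc p * (1 - p) * ∑ u : Fin N, Ex p (fun x =>
          CE p (Finset.univ.filter (fun w => w < u)) (dd u g) x ^ 2)
      ≤ p * (1 - p) * ∑ u, (Real.sqrt κ * Ex p (fun x => |dd u g x|) +
          2 / Real.log (1 / κ) * Ent p (fun x => h u x ^ 2)) :=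
        mul_le_mul_of_nonneg_left (Finset.sum_le_sum fun u _ => hel u) hpq
    _ = p * (1 - p) * (Real.sqrt κ * ∑ u, Ex p (fun x => |dd u g x|)) +
          2 / Real.log (1 / κ) * (p * (1 - p) * ∑ u, Ent p (fun x => h u x ^ 2)) := by
        rw [Finset.sum_add_distrib, ← Finset.mul_sum, ← Finset.mul_sum]
        ring
    _ ≤ 1 * (Real.sqrt κ * ∑ u, Ex p (fun x => |dd u g x|)) +
          2 / Real.log (1 / κ) * (2 * ∑ w, Ex p (fun x => dd w g x ^ 2)) := by
        refine add_le_add (mul_le_mul_of_nonneg_right hpq1 (by positivity)) ?_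
        exact mul_le_mul_of_nonneg_left hsum (by positivity)
    _ = _ := by ring

theorem fs (h0 : 0 < p) (h1 : p < 1) (g : (ι → Bool) → ℝ) {κ : ℝ}
    (hκ0 : 0 < κ) (hκ1 : κ < 1) (hκ : ∀ i, Ex p (fun x => |dd i g x|) ≤ κ) :
    Ex p (fun x => g x ^ 2) - Ex p g ^ 2 ≤
      Real.sqrt κ * ∑ i, Ex p (fun x => |dd i g x|) +
        4 / Real.log (1 / κ) * ∑ i, Ex p (fun x => dd i g x ^ 2) := by
  set e : Fin (Fintype.card ι) ≃ ι := (Fintype.equivFin ι).symm with he
  have hk : ∀ k, Ex p (fun y => |dd k (fun y : Fin (Fintype.card ι) → Bool =>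
      g (fun i => y (e.symm i))) y|) = Ex p (fun x => |dd (e k) g x|) := by
    intro k
    rw [Ex_tr e (fun x => |dd (e k) g x|)]
    simp only [dd_tr]
  have hk2 : ∀ k, Ex p (fun y => dd k (fun y : Fin (Fintype.card ι) → Bool =>
      g (fun i => y (e.symm i))) y ^ 2) = Ex p (fun x => dd (e k) g x ^ 2) := by
    intro k
    rw [Ex_tr e (fun x => dd (e k) g x ^ 2)]
    simp only [dd_tr]
  have h := fs_fin h0 h1 _ (fun y : Fin (Fintype.card ι) → Bool => g (fun i => y (e.symm i)))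
    hκ0 hκ1 (fun k => by rw [hk]; exact hκ _)
  simp only [hk, hk2] at h
  rw [Equiv.sum_comp e (fun i => Ex p (fun x => |dd i g x|)),
    Equiv.sum_comp e (fun i => Ex p (fun x => dd i g x ^ 2)),
    ← Ex_tr e (fun x => g x ^ 2), ← Ex_tr e g] at h
  exact h

end Pool.Agent.CHV
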