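import Pool.Agent.CHV.PackL

/-!
# CHV / Gre: the greedy packing

PROOF.  Claim, by strong induction on `|U|`: for every `U ⊆ univ` there is a packing `P` of `x` with all classes contained in `U`,
fewer than `m1` vertices of `U` uncovered (`(U \ ⋃ P).card < m1`, or `≤ m1`), and
`P.card ≤ 1 + ∑_{m ∈ Icc m1 |U|} 1 / r m`.  If `|U| < m1`: `P = ∅`.  Otherwise take `I ⊆ U` independent with `|I| = r |U|` (`≥ lam + 1 ≥ 1`)
and apply the claim to `U \ I`, `|U \ I| = |U| - r |U|`: if this is `< m1` then the new packing is `{I}` and `1 ≤ 1 + ...`.  Otherwise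
`∑_{m ∈ Icc m1 |U|} 1 / r m - ∑_{m ∈ Icc m1 (|U| - r |U|)} 1 / r m = ∑_{|U| - r|U| < m ≤ |U|} 1 / r m ≥ r |U| * (1 / r |U|) = 1`
because `r m ≤ r |U|` for these `m`.
For `U = univ`: `ff ≤ n - val P = n - ∑ |I| + lam * P.card ≤ m1 + lam * P.card` (`val_add`, `opt_max`).
-/

set_option autoImplicit false

namespace Pool.Agent.CHV

open Finset

variable {n S lam : ℕ}

theorem greedy (x : Cf n) (r : ℕ → ℕ) (m1 : ℕ)
    (hmono : ∀ a b, m1 ≤ a → a ≤ b → b ≤ n → r a ≤ r b)
    (hlt : ∀ m, m1 ≤ m → m ≤ n → lam < r m) (hle : ∀ m, m1 ≤ m → m ≤ n → r m ≤ S)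
    (h : ∀ M : Finset (Fin n), m1 ≤ M.card → ∃ I ⊆ M, Ind x I ∧ I.card = r M.card) :
    ff S lam x ≤ m1 + lam * (1 + ∑ m ∈ Finset.Icc m1 n, 1 / (r m : ℝ)) := by
  classical
  obtain ⟨g, hg⟩ : ∃ g : ℕ → ℝ, ∀ k, g k =
      if k < m1 then 0 else 1 + ∑ m ∈ Finset.Icc m1 k, 1 / (r m : ℝ) := ⟨_, fun _ => rfl⟩
  have hstep : ∀ k, m1 ≤ k → k ≤ n → r k ≤ k → g (k - r k) + 1 ≤ g k := by
    intro k h1 h2 h3
    have hgk : g k = 1 + ∑ m ∈ Finset.Icc m1 k, 1 / (r m : ℝ) := by
      rw [hg, if_neg (by omega)]
    by_cases h4 : k - r k < m1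
    · rw [hg, if_pos h4, hgk]
      have h5 : 0 ≤ ∑ m ∈ Finset.Icc m1 k, 1 / (r m : ℝ) :=
        Finset.sum_nonneg fun m _ => by positivity
      linarith
    · have e1 : g (k - r k) = 1 + ∑ m ∈ Finset.Icc m1 (k - r k), 1 / (r m : ℝ) := by
        rw [hg, if_neg h4]
      have e2 : Finset.Icc m1 k = Finset.Icc m1 (k - r k) ∪ Finset.Ioc (k - r k) k := by
        ext m
        simp only [Finset.mem_Icc, Finset.mem_union, Finset.mem_Ioc]
        omega
      have e3 : Disjoint (Finset.Icc m1 (k - r k)) (Finset.Ioc (k - r k) k) := by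
        rw [Finset.disjoint_left]
        intro m h5 h6
        simp only [Finset.mem_Icc] at h5
        simp only [Finset.mem_Ioc] at h6
        omega
      have e4 : 1 ≤ ∑ m ∈ Finset.Ioc (k - r k) k, 1 / (r m : ℝ) := by
        have hr : 0 < r k := by
          have := hlt k h1 h2
          omega
        have hr' : (0 : ℝ) < (r k : ℝ) := by exact_mod_cast hr
        have h5 : ∑ m ∈ Finset.Ioc (k - r k) k, 1 / (r k : ℝ) ≤
            ∑ m ∈ Finset.Ioc (k - r k) k, 1 / (r m : ℝ) := by
          refine Finset.sum_le_sum fun m hm => ?_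
          rw [Finset.mem_Ioc] at hm
          have h6 : lam < r m := hlt m (by omega) (by omega)
          have h7 : r m ≤ r k := hmono m k (by omega) (by omega) h2
          have h8 : 0 < r m := by omega
          exact one_div_le_one_div_of_le (by exact_mod_cast h8) (by exact_mod_cast h7)
        have h6 : ∑ m ∈ Finset.Ioc (k - r k) k, 1 / (r k : ℝ) = 1 := by
          rw [Finset.sum_const, Nat.card_Ioc, nsmul_eq_mul, show k - (k - r k) = r k by omega]
          field_simp
        linarith
      rw [hgk, e1, e2, Finset.sum_union e3]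
      linarith
  have claim : ∀ k, ∀ U : Finset (Fin n), U.card = k → ∃ P : Finset (Finset (Fin n)),
      Pack S lam x P ∧ (∀ I ∈ P, I ⊆ U) ∧ (k : ℝ) - (val lam P : ℝ) ≤ m1 + lam * g k := by
    intro k
    induction k using Nat.strong_induction_on with
    | _ k ih =>
      intro U hU
      by_cases h1 : k < m1
      · refine ⟨∅, ⟨by simp, by simp, by simp, by simp⟩, by simp, ?_⟩
        have h2 : (k : ℝ) ≤ m1 := by exact_mod_cast h1.le
        have h3 : g k = 0 := by rw [hg, if_pos h1]
        have h4 : val lam (∅ : Finset (Finset (Fin n))) = 0 := by simp [val]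
        rw [h3, h4]
        simpa using h2
      · push Not at h1
        have hkn : k ≤ n := by
          have := Finset.card_le_univ U
          rw [Fintype.card_fin, hU] at this
          exact this
        obtain ⟨I, hIU, hI, hIc⟩ := h U (by omega)
        rw [hU] at hIc
        have hl := hlt k h1 hkn
        have hrk : r k ≤ k := by
          rw [← hIc, ← hU]
          exact Finset.card_le_card hIU
        have hc : (U \ I).card = k - r k := by
          rw [Finset.card_sdiff_of_subset hIU, hU, hIc]
        obtain ⟨P, hP, hPU, hPv⟩ := ih (k - r k) (by omega) (U \ I) hc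
        have hIne : I.Nonempty := by
          rw [← Finset.card_pos]
          omega
        have hdis : ∀ J ∈ P, Disjoint I J := by
          intro J hJ
          rw [Finset.disjoint_left]
          intro a ha haJ
          exact (Finset.mem_sdiff.1 (hPU J hJ haJ)).2 ha
        have hIP : I ∉ P := by
          intro hmem
          obtain ⟨a, ha⟩ := hIne
          exact Finset.disjoint_left.1 (hdis I hmem) ha ha
        refine ⟨insert I P, ⟨?_, ?_, ?_, ?_⟩, ?_, ?_⟩
        · intro J hJ
          rcases Finset.mem_insert.1 hJ with rfl | hJ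
          · exact hI
          · exact hP.ind J hJ
        · intro J hJ
          rcases Finset.mem_insert.1 hJ with rfl | hJ
          · rw [hIc]
            exact hle k h1 hkn
          · exact hP.le J hJ
        · intro J hJ
          rcases Finset.mem_insert.1 hJ with rfl | hJ
          · rw [hIc]
            exact hl
          · exact hP.gt J hJ
        · intro J hJ J' hJ' hne
          rcases Finset.mem_insert.1 hJ with h5 | h5
          · rcases Finset.mem_insert.1 hJ' with h6 | h6
            · exact absurd (h5.trans h6.symm) hne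
            · rw [h5]
              exact hdis J' h6
          · rcases Finset.mem_insert.1 hJ' with h6 | h6
            · rw [h6]
              exact (hdis J h5).symm
            · exact hP.disj J h5 J' h6 hne
        · intro J hJ
          rcases Finset.mem_insert.1 hJ with rfl | hJ
          · exact hIU
          · exact (hPU J hJ).trans Finset.sdiff_subset
        · have hv : val lam (insert I P) = (r k - lam) + val lam P := by
            unfold val
            rw [Finset.sum_insert hIP, hIc]
          have hv' : (val lam (insert I P) : ℝ) = ((r k : ℝ) - lam) + val lam P := by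
            rw [hv]
            push_cast [Nat.cast_sub hl.le]
            ring
          have hk' : ((k - r k : ℕ) : ℝ) = (k : ℝ) - r k := Nat.cast_sub hrk
          rw [hk'] at hPv
          have hs := hstep k h1 hkn hrk
          have hlam : (0 : ℝ) ≤ lam := Nat.cast_nonneg _
          have := mul_le_mul_of_nonneg_left hs hlam
          rw [hv']
          linarith
  obtain ⟨P, hP, -, hPv⟩ := claim n Finset.univ (by simp)
  have h1 := opt_max S lam x hP
  have h2 : (val lam P : ℝ) ≤ val lam (opt S lam x) := by exact_mod_cast h1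
  have h3 : g n ≤ 1 + ∑ m ∈ Finset.Icc m1 n, 1 / (r m : ℝ) := by
    have h5 : 0 ≤ ∑ m ∈ Finset.Icc m1 n, 1 / (r m : ℝ) :=
      Finset.sum_nonneg fun m _ => by positivity
    rw [hg]
    split_ifs <;> linarith
  have h4 := mul_le_mul_of_nonneg_left h3 (show (0 : ℝ) ≤ lam from Nat.cast_nonneg _)
  unfold ff
  linarith

end Pool.Agent.CHV
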