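import Pool.Agent.CHV.ExR

/-!
# CHV / Har: Harris' inequality; conditioning on absent bits

`x ≤ y` for `x y : ι → Bool` is the pointwise order, `false ≤ true`.
PROOFS.  `harris`: Mathlib `fkg` (Mathlib/Combinatorics/SetFamily/FourFunctions.lean) with `μ x = ∏ i, bw p (x i)` on the finite
distributive lattice `ι → Bool`: `μ x * μ y = μ (x ⊓ y) * μ (x ⊔ y)` factor by factor; `∑ μ = 1` (`sum_w`).
`off a x` is `x` with the bits in `a` set to `false`.
`Ex_cond`: `ind (∀ i ∈ a, x i = false) * G x = ind (∀ i ∈ a, x i = false) * G (off a x)`; `Ex_indep` with the set `a` (the function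
`G ∘ off a` does not depend on the bits in `a`) and `Ex_false`.
`Ex_off_ind`: `Ex_false` for the set `b \ a` (`off a x i = false` iff `i ∈ a` or `x i = false`).
-/

set_option autoImplicit false

namespace Pool.Agent.CHV

open Finset

variable {ι : Type} [Fintype ι] [DecidableEq ι] {p : ℝ}

/-- `x` with the bits in `a` set to `false` -/
def off (a : Finset ι) (x : ι → Bool) : ι → Bool := fun i => if i ∈ a then false else x i

theorem off_mono (a : Finset ι) {x y : ι → Bool} (h : x ≤ y) : off a x ≤ off a y := by
  intro i
  unfold off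
  split_ifs with hi
  · exact le_refl _
  · exact h i

theorem harris (h0 : 0 ≤ p) (h1 : p ≤ 1) {F G : (ι → Bool) → ℝ} (hF : Monotone F)
    (hG : Monotone G) (hF0 : ∀ x, 0 ≤ F x) (hG0 : ∀ x, 0 ≤ G x) :
    Ex p F * Ex p G ≤ Ex p (fun x => F x * G x) := by
  have hkey := fkg F G (fun x : ι → Bool => ∏ i, bw p (x i)) (fun x => w_nonneg h0 h1 x)
    (fun x => hF0 x) (fun x => hG0 x) hF hG (by
      intro a b
      rw [← Finset.prod_mul_distrib, ← Finset.prod_mul_distrib]
      apply le_of_eq
      apply Finset.prod_congr rfl
      intro i _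
      have e1 : (a ⊓ b) i = a i ⊓ b i := rfl
      have e2 : (a ⊔ b) i = a i ⊔ b i := rfl
      rw [e1, e2]
      cases a i <;> cases b i <;> simp [bw, mul_comm])
  rw [sum_w, one_mul] at hkey
  exact hkey

theorem Ex_cond (a : Finset ι) (G : (ι → Bool) → ℝ) :
    Ex p (fun x => ind (∀ i ∈ a, x i = false) * G x) =
      (1 - p) ^ a.card * Ex p (fun x => G (off a x)) := by
  have h1 : (fun x : ι → Bool => ind (∀ i ∈ a, x i = false) * G x) =
      fun x => ind (∀ i ∈ a, x i = false) * G (off a x) := by
    funext x
    by_cases h : ∀ i ∈ a, x i = false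
    · have : off a x = x := by
        funext i
        unfold off
        split_ifs with hi
        · exact (h i hi).symm
        · rfl
      rw [this]
    · rw [ind_false h, zero_mul, zero_mul]
  rw [h1, Ex_indep a, Ex_false]
  · intro x y hxy
    have : (∀ i ∈ a, x i = false) ↔ (∀ i ∈ a, y i = false) :=
      ⟨fun h i hi => by rw [← hxy i hi]; exact h i hi, fun h i hi => by rw [hxy i hi]; exact h i hi⟩
    simp only [this]
  · intro x y hxy
    have : off a x = off a y := by
      funext i
      unfold off
      split_ifs with hi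
      · rfl
      · exact hxy i hi
    rw [this]

theorem Ex_off_ind (a b : Finset ι) :
    Ex p (fun x => ind (∀ i ∈ b, off a x i = false)) = (1 - p) ^ (b \ a).card := by
  rw [← Ex_false]
  congr 1
  funext x
  have : (∀ i ∈ b, off a x i = false) ↔ (∀ i ∈ b \ a, x i = false) := by
    constructor
    · intro h i hi
      rw [Finset.mem_sdiff] at hi
      have := h i hi.1
      unfold off at this
      rwa [if_neg hi.2] at this
    · intro h i hi
      unfold off
      split_ifs with hia
      · rfl
      · exact h i (Finset.mem_sdiff.2 ⟨hi, hia⟩)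
  simp only [this]

theorem ind_antitone (b : Finset ι) {x y : ι → Bool} (h : x ≤ y) :
    ind (∀ i ∈ b, y i = false) ≤ ind (∀ i ∈ b, x i = false) := by
  apply ind_mono
  intro hy i hi
  have h1 := h i
  rw [hy i hi] at h1
  exact le_antisymm h1 (Bool.false_le _)

end Pool.Agent.CHV
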