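import Pool.Agent.CHV.Har

/-!
# CHV / JaA: the differential inequality of Janson's inequality

`q = 1 - p`, `c a x = ind (∀ i ∈ a, x i = false)`, `X = cnt A`, `ψ s = Ex (exp (- s X))`, `s ≥ 0`.
PROOFS.  `cnt_off`: for `b` disjoint from `a`, `c b (off a x) = c b x`.
`jan_one`, for `a ∈ A`: `Ex_cond` with `G = exp (- s X)`: `Ex (c a exp (- s X)) = q^|a| Ex (exp (- s X (off a x)))`.
`X (off a x) = Y x + Z x`, `Y x = ∑_{b ∈ A, ¬ Disjoint a b} c b (off a x)`, `Z x = ∑_{b ∈ A, Disjoint a b} c b x`.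
`exp (- s Y)`, `exp (- s Z)` are monotone in `x` (`ind_antitone`, `off_mono`), so by `harris`
`Ex exp (- s X (off a x)) ≥ Ex exp (- s Y) * Ex exp (- s Z)`; `Z ≤ X` pointwise, so `Ex exp (- s Z) ≥ ψ s`; Jensen (`exp_Ex_le`):
`Ex exp (- s Y) ≥ exp (- s Ex Y)`, `Ex Y = ∑_{b, ¬ Disjoint a b} q^|b \ a|` (`Ex_off_ind`).
`jan_sum`: sum over `a ∈ A` (`X = ∑_a c a`): `Ex (X exp (- s X)) ≥ ψ s ∑_a q^|a| exp (- s m_a)`, `m_a = ∑_b q^|b \ a|`.
Convexity: `exp (- s m_a) ≥ exp (- s Δ/μ) (1 - s m_a + s Δ/μ)` (`Real.add_one_le_exp`), and `∑_a q^|a| m_a = Δ` as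
`|a| + |b \ a| = |a ∪ b|`, so `∑_a q^|a| exp (- s m_a) ≥ exp (- s Δ/μ) (μ - s Δ + s Δ) = μ exp (- s Δ / μ)`.
-/

set_option autoImplicit false

namespace Pool.Agent.CHV

open Finset

variable {ι : Type} [Fintype ι] [DecidableEq ι] {p : ℝ}

/-- number of sets in `A` all of whose bits are `false` -/
noncomputable def cnt (A : Finset (Finset ι)) (x : ι → Bool) : ℝ :=
  ∑ a ∈ A, ind (∀ i ∈ a, x i = false)

/-- the expectation of `cnt` -/
noncomputable def jmu (p : ℝ) (A : Finset (Finset ι)) : ℝ := ∑ a ∈ A, (1 - p) ^ a.card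

/-- the correlation term -/
noncomputable def jde (p : ℝ) (A : Finset (Finset ι)) : ℝ :=
  ∑ a ∈ A, ∑ b ∈ A.filter (fun b => ¬ Disjoint a b), (1 - p) ^ (a ∪ b).card

private theorem ind_off_disj {a b : Finset ι} (h : Disjoint a b) (x : ι → Bool) :
    ind (∀ i ∈ b, off a x i = false) = ind (∀ i ∈ b, x i = false) := by
  have : (∀ i ∈ b, off a x i = false) ↔ (∀ i ∈ b, x i = false) := by
    constructor
    · intro hh i hi
      have h1 := hh i hi
      unfold off at h1
      rwa [if_neg (fun hia => (Finset.disjoint_left.1 h hia) hi)] at h1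
    · intro hh i hi
      unfold off
      split_ifs with hia
      · rfl
      · exact hh i hi
  simp only [this]

private theorem cnt_off (A : Finset (Finset ι)) (a : Finset ι) (x : ι → Bool) :
    cnt A (off a x) =
      ∑ b ∈ A.filter (fun b => ¬ Disjoint a b), ind (∀ i ∈ b, off a x i = false) +
      ∑ b ∈ A.filter (fun b => Disjoint a b), ind (∀ i ∈ b, x i = false) := by
  unfold cnt
  rw [← Finset.sum_filter_add_sum_filter_not A (fun b => ¬ Disjoint a b)]
  congr 1
  have hf : A.filter (fun b => ¬ ¬ Disjoint a b) = A.filter (fun b => Disjoint a b) := by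
    apply Finset.filter_congr
    intro b _
    rw [not_not]
  rw [hf]
  apply Finset.sum_congr rfl
  intro b hb
  exact ind_off_disj (Finset.mem_filter.1 hb).2 x

theorem jan_one (h0 : 0 < p) (h1 : p < 1) (A : Finset (Finset ι)) {s : ℝ} (hs : 0 ≤ s)
    {a : Finset ι} (ha : a ∈ A) :
    (1 - p) ^ a.card *
        Real.exp (-(s * ∑ b ∈ A.filter (fun b => ¬ Disjoint a b), (1 - p) ^ (b \ a).card)) *
        Ex p (fun x => Real.exp (-(s * cnt A x))) ≤
      Ex p (fun x => ind (∀ i ∈ a, x i = false) * Real.exp (-(s * cnt A x))) := by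
  rw [Ex_cond a (fun x => Real.exp (-(s * cnt A x)))]
  set Y : (ι → Bool) → ℝ := fun x =>
    ∑ b ∈ A.filter (fun b => ¬ Disjoint a b), ind (∀ i ∈ b, off a x i = false) with hY
  set Z : (ι → Bool) → ℝ := fun x =>
    ∑ b ∈ A.filter (fun b => Disjoint a b), ind (∀ i ∈ b, x i = false) with hZ
  have e1 : (fun x => Real.exp (-(s * cnt A (off a x)))) =
      fun x => Real.exp (-(s * Y x)) * Real.exp (-(s * Z x)) := by
    funext x
    rw [← Real.exp_add]
    congr 1
    rw [cnt_off]
    ring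
  have hYm : Monotone (fun x => Real.exp (-(s * Y x))) := by
    intro x y hxy
    apply Real.exp_le_exp.2
    have : Y y ≤ Y x := by
      apply Finset.sum_le_sum
      intro b _
      exact ind_antitone b (off_mono a hxy)
    nlinarith
  have hZm : Monotone (fun x => Real.exp (-(s * Z x))) := by
    intro x y hxy
    apply Real.exp_le_exp.2
    have : Z y ≤ Z x := by
      apply Finset.sum_le_sum
      intro b _
      exact ind_antitone b hxy
    nlinarith
  have hh := harris h0.le h1.le hYm hZm (fun x => (Real.exp_pos _).le) (fun x => (Real.exp_pos _).le)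
  have hq : 0 ≤ (1 - p) ^ a.card := pow_nonneg (by linarith) _
  have hYe : Real.exp (-(s * ∑ b ∈ A.filter (fun b => ¬ Disjoint a b), (1 - p) ^ (b \ a).card)) ≤
      Ex p (fun x => Real.exp (-(s * Y x))) := by
    have hj := exp_Ex_le h0.le h1.le (fun x => -(s * Y x))
    refine le_trans (le_of_eq ?_) hj
    congr 1
    rw [Ex_neg, Ex_smul, hY, Ex_sum]
    congr 2
    apply Finset.sum_congr rfl
    intro b _
    rw [Ex_off_ind]
  have hZe : Ex p (fun x => Real.exp (-(s * cnt A x))) ≤ Ex p (fun x => Real.exp (-(s * Z x))) := by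
    apply Ex_mono h0.le h1.le
    intro x
    apply Real.exp_le_exp.2
    have : Z x ≤ cnt A x := by
      unfold cnt
      apply Finset.sum_le_sum_of_subset_of_nonneg (Finset.filter_subset _ _)
      intro b _ _
      exact ind_nonneg _
    nlinarith
  have hY0 : 0 ≤ Ex p (fun x => Real.exp (-(s * Y x))) :=
    Ex_nonneg h0.le h1.le (fun x => (Real.exp_pos _).le)
  have hC0 : 0 ≤ Ex p (fun x => Real.exp (-(s * cnt A x))) :=
    Ex_nonneg h0.le h1.le (fun x => (Real.exp_pos _).le)
  calc (1 - p) ^ a.card *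
        Real.exp (-(s * ∑ b ∈ A.filter (fun b => ¬ Disjoint a b), (1 - p) ^ (b \ a).card)) *
        Ex p (fun x => Real.exp (-(s * cnt A x)))
      ≤ (1 - p) ^ a.card * Ex p (fun x => Real.exp (-(s * Y x))) *
        Ex p (fun x => Real.exp (-(s * Z x))) := by
        apply mul_le_mul (mul_le_mul_of_nonneg_left hYe hq) hZe hC0 (mul_nonneg hq hY0)
    _ = (1 - p) ^ a.card * (Ex p (fun x => Real.exp (-(s * Y x))) *
        Ex p (fun x => Real.exp (-(s * Z x)))) := by ring
    _ ≤ (1 - p) ^ a.card * Ex p (fun x => Real.exp (-(s * Y x)) * Real.exp (-(s * Z x))) :=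
        mul_le_mul_of_nonneg_left hh hq
    _ = (1 - p) ^ a.card * Ex p (fun x => Real.exp (-(s * cnt A (off a x)))) := by rw [e1]

theorem jan_sum (h0 : 0 < p) (h1 : p < 1) {A : Finset (Finset ι)} (hA : A.Nonempty) {s : ℝ}
    (hs : 0 ≤ s) :
    jmu p A * Real.exp (-(s * (jde p A / jmu p A))) * Ex p (fun x => Real.exp (-(s * cnt A x))) ≤
      Ex p (fun x => cnt A x * Real.exp (-(s * cnt A x))) := by
  have hq : 0 < 1 - p := by linarith
  have hmu : 0 < jmu p A := Finset.sum_pos (fun a _ => pow_pos hq _) hA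
  set ψ := Ex p (fun x => Real.exp (-(s * cnt A x))) with hψ
  have hψ0 : 0 ≤ ψ := Ex_nonneg h0.le h1.le (fun x => (Real.exp_pos _).le)
  set m : Finset ι → ℝ := fun a =>
    ∑ b ∈ A.filter (fun b => ¬ Disjoint a b), (1 - p) ^ (b \ a).card with hm
  have hR : Ex p (fun x => cnt A x * Real.exp (-(s * cnt A x))) =
      ∑ a ∈ A, Ex p (fun x => ind (∀ i ∈ a, x i = false) * Real.exp (-(s * cnt A x))) := by
    rw [← Ex_sum]
    congr 1
    funext x
    rw [← Finset.sum_mul]
    rfl
  rw [hR]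
  have hS : ∑ a ∈ A, (1 - p) ^ a.card * Real.exp (-(s * m a)) * ψ ≤
      ∑ a ∈ A, Ex p (fun x => ind (∀ i ∈ a, x i = false) * Real.exp (-(s * cnt A x))) :=
    Finset.sum_le_sum (fun a ha => jan_one h0 h1 A hs ha)
  refine le_trans ?_ hS
  rw [← Finset.sum_mul]
  apply mul_le_mul_of_nonneg_right _ hψ0
  set r := jde p A / jmu p A with hr
  have hde : ∑ a ∈ A, (1 - p) ^ a.card * m a = jde p A := by
    unfold jde
    apply Finset.sum_congr rfl
    intro a _
    rw [hm]
    simp only
    rw [Finset.mul_sum]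
    apply Finset.sum_congr rfl
    intro b _
    rw [← pow_add]
    congr 1
    rw [← Finset.union_sdiff_self_eq_union, Finset.card_union_of_disjoint Finset.disjoint_sdiff]
  have hconv : ∀ a ∈ A, (1 - p) ^ a.card * (Real.exp (-(s * r)) * (1 - s * m a + s * r)) ≤
      (1 - p) ^ a.card * Real.exp (-(s * m a)) := by
    intro a _
    apply mul_le_mul_of_nonneg_left _ (pow_nonneg hq.le _)
    have h2 : Real.exp (-(s * m a)) = Real.exp (-(s * r)) * Real.exp (-(s * m a) + s * r) := by
      rw [← Real.exp_add]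
      congr 1
      ring
    rw [h2]
    apply mul_le_mul_of_nonneg_left _ (Real.exp_pos _).le
    have := Real.add_one_le_exp (-(s * m a) + s * r)
    linarith
  refine le_trans (le_of_eq ?_) (Finset.sum_le_sum hconv)
  have h3 : ∀ a, (1 - p) ^ a.card * (Real.exp (-(s * r)) * (1 - s * m a + s * r)) =
      Real.exp (-(s * r)) * ((1 + s * r) * (1 - p) ^ a.card - s * ((1 - p) ^ a.card * m a)) := by
    intro a
    ring
  rw [Finset.sum_congr rfl (fun a _ => h3 a), ← Finset.mul_sum, Finset.sum_sub_distrib,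
    ← Finset.mul_sum, ← Finset.mul_sum, hde]
  have h4 : ∑ a ∈ A, (1 - p) ^ a.card = jmu p A := rfl
  rw [h4]
  have h5 : s * jde p A = s * r * jmu p A := by
    rw [hr]
    field_simp
  rw [h5]
  ring

end Pool.Agent.CHV
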