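import Pool.Agent.CHV.JaA

/-!
# CHV / Jan: Janson's inequality

`ψ s = Ex (exp (- s X))`, `X = cnt A`, `μ = jmu p A`, `Δ = jde p A`.
PROOF.  `A = ∅`: the right-hand side is `exp 0 = 1` (`0 / 0 = 0`) and `ind ≤ 1`.  `A` nonempty: `μ > 0`.  If `Δ = 0` the right-hand
side is `exp 0 = 1`.  Let `Δ > 0`.  `ψ` is a finite sum of exponentials, `ψ > 0`, `ψ' s = - Ex (X exp (- s X)) ≤ - μ exp (- s Δ/μ) ψ s`
for `s ≥ 0` (`jan_sum`).  Hence `φ s = log ψ s - (μ^2/Δ) exp (- s Δ / μ)` has derivative `≤ 0` on `[0, ∞)`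
(`antitoneOn_of_deriv_nonpos`), `ψ 0 = 1`, so `log ψ s ≤ - (μ^2/Δ) (1 - exp (- s Δ / μ))`; at `s = μ / Δ` it is `≤ - μ^2 / (2 Δ)`
(`exp (-1) ≤ 1/2`).  And `ind (∀ a ∈ A, ¬ ∀ i ∈ a, x i = false) ≤ exp (- s X x)` (if the event holds then `X x = 0`).
-/

set_option autoImplicit false

namespace Pool.Agent.CHV

open Finset

variable {ι : Type} [Fintype ι] [DecidableEq ι] {p : ℝ}

private theorem psi_deriv (A : Finset (Finset ι)) (s : ℝ) :
    HasDerivAt (fun s => Ex p (fun x => Real.exp (-(s * cnt A x))))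
      (-Ex p (fun x => cnt A x * Real.exp (-(s * cnt A x)))) s := by
  unfold Ex
  have h : ∀ x ∈ (Finset.univ : Finset (ι → Bool)),
      HasDerivAt (fun s : ℝ => (∏ i, bw p (x i)) * Real.exp (-(s * cnt A x)))
      ((∏ i, bw p (x i)) * (Real.exp (-(s * cnt A x)) * (-(1 * cnt A x)))) s := by
    intro x _
    exact (((hasDerivAt_id s).mul_const (cnt A x)).neg.exp).const_mul _
  have h2 := HasDerivAt.fun_sum h
  have h3 : -∑ x : ι → Bool, (∏ i, bw p (x i)) * (cnt A x * Real.exp (-(s * cnt A x))) =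
      ∑ x : ι → Bool, (∏ i, bw p (x i)) * (Real.exp (-(s * cnt A x)) * (-(1 * cnt A x))) := by
    rw [← Finset.sum_neg_distrib]
    apply Finset.sum_congr rfl
    intro x _
    ring
  rw [h3]
  exact h2

private theorem psi_pos (h0 : 0 < p) (h1 : p < 1) (A : Finset (Finset ι)) (s : ℝ) :
    0 < Ex p (fun x => Real.exp (-(s * cnt A x))) := by
  unfold Ex
  apply Finset.sum_pos
  · intro x _
    apply mul_pos _ (Real.exp_pos _)
    apply Finset.prod_pos
    intro i _
    cases x i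
    · simp [bw]; linarith
    · simp [bw]; exact h0
  · exact ⟨fun _ => false, Finset.mem_univ _⟩

theorem janson (h0 : 0 < p) (h1 : p < 1) (A : Finset (Finset ι)) :
    Ex p (fun x : ι → Bool => ind (∀ a ∈ A, ¬ ∀ i ∈ a, x i = false)) ≤
      Real.exp (-(jmu p A ^ 2 / (2 * jde p A))) := by
  have hq : 0 < 1 - p := by linarith
  have htriv : Ex p (fun x : ι → Bool => ind (∀ a ∈ A, ¬ ∀ i ∈ a, x i = false)) ≤ 1 :=
    Ex_le_const h0.le h1.le (fun x => ind_le_one _)
  rcases A.eq_empty_or_nonempty with hA | hA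
  · subst hA
    have : jmu p (∅ : Finset (Finset ι)) = 0 := by simp [jmu]
    rw [this]
    simpa using htriv
  have hde0 : 0 ≤ jde p A := by
    unfold jde
    apply Finset.sum_nonneg
    intro a _
    apply Finset.sum_nonneg
    intro b _
    exact pow_nonneg hq.le _
  rcases hde0.eq_or_lt with hz | hde
  · rw [← hz]
    simpa using htriv
  have hmu : 0 < jmu p A := Finset.sum_pos (fun a _ => pow_pos hq _) hA
  set μ := jmu p A with hμ
  set Δ := jde p A with hΔ
  set ψ : ℝ → ℝ := fun s => Ex p (fun x => Real.exp (-(s * cnt A x))) with hψ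
  set φ : ℝ → ℝ := fun s => Real.log (ψ s) - μ ^ 2 / Δ * Real.exp (-(s * (Δ / μ))) with hφ
  have hφd : ∀ s, HasDerivAt φ ((-Ex p (fun x => cnt A x * Real.exp (-(s * cnt A x)))) / ψ s -
      μ ^ 2 / Δ * (Real.exp (-(s * (Δ / μ))) * (-(1 * (Δ / μ))))) s := by
    intro s
    have e1 := (psi_deriv (p := p) A s).log (psi_pos h0 h1 A s).ne'
    have e2 : HasDerivAt (fun s : ℝ => μ ^ 2 / Δ * Real.exp (-(s * (Δ / μ))))
        (μ ^ 2 / Δ * (Real.exp (-(s * (Δ / μ))) * (-(1 * (Δ / μ))))) s :=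
      (((hasDerivAt_id s).mul_const (Δ / μ)).neg.exp).const_mul _
    exact e1.sub e2
  have hanti : AntitoneOn φ (Set.Ici 0) := by
    apply antitoneOn_of_deriv_nonpos (convex_Ici 0)
    · intro s _
      exact (hφd s).continuousAt.continuousWithinAt
    · intro s _
      exact (hφd s).differentiableAt.differentiableWithinAt
    · intro s hs
      rw [interior_Ici, Set.mem_Ioi] at hs
      rw [(hφd s).deriv]
      have hj := jan_sum h0 h1 hA hs.le
      have hp := psi_pos h0 h1 A s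
      have e3 : μ ^ 2 / Δ * (Real.exp (-(s * (Δ / μ))) * (-(1 * (Δ / μ)))) =
          -(μ * Real.exp (-(s * (Δ / μ)))) := by
        field_simp
      rw [e3]
      have e4 : μ * Real.exp (-(s * (Δ / μ))) ≤
          Ex p (fun x => cnt A x * Real.exp (-(s * cnt A x))) / ψ s := by
        rw [le_div_iff₀ hp]
        exact hj
      have e5 : -Ex p (fun x => cnt A x * Real.exp (-(s * cnt A x))) / ψ s =
          -(Ex p (fun x => cnt A x * Real.exp (-(s * cnt A x))) / ψ s) := neg_div _ _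
      rw [e5]
      linarith
  have hs0 : 0 ≤ μ / Δ := (div_pos hmu hde).le
  have hle := hanti (Set.mem_Ici.2 le_rfl) (Set.mem_Ici.2 hs0) hs0
  have hφ0 : φ 0 = -(μ ^ 2 / Δ) := by
    simp only [hφ, hψ]
    simp [Ex_const]
  have hφ1 : φ (μ / Δ) = Real.log (ψ (μ / Δ)) - μ ^ 2 / Δ * Real.exp (-1) := by
    simp only [hφ]
    congr 3
    field_simp
  rw [hφ0, hφ1] at hle
  have hexp : Real.exp (-1) ≤ 1 / 2 := by
    have h2 : (2 : ℝ) ≤ Real.exp 1 := by
      have := Real.add_one_le_exp (1 : ℝ)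
      linarith
    rw [Real.exp_neg, one_div]
    exact inv_anti₀ (by norm_num) h2
  have hr : 0 < μ ^ 2 / Δ := by positivity
  have hlog : Real.log (ψ (μ / Δ)) ≤ -(μ ^ 2 / (2 * Δ)) := by
    have e6 : μ ^ 2 / (2 * Δ) = μ ^ 2 / Δ / 2 := by
      field_simp
    rw [e6]
    nlinarith
  have hψle : ψ (μ / Δ) ≤ Real.exp (-(μ ^ 2 / (2 * Δ))) := by
    rw [← Real.log_le_iff_le_exp (psi_pos h0 h1 A (μ / Δ))]
    exact hlog
  refine le_trans ?_ hψle
  apply Ex_mono h0.le h1.le
  intro x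
  by_cases h : ∀ a ∈ A, ¬ ∀ i ∈ a, x i = false
  · have hc : cnt A x = 0 := by
      unfold cnt
      apply Finset.sum_eq_zero
      intro a ha
      exact ind_false (h a ha)
    rw [ind_true h, hc]
    simp
  · rw [ind_false h]
    exact (Real.exp_pos _).le

end Pool.Agent.CHV
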