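import Pool.Agent.CHV.Fin2
import Pool.Agent.CHV.Brg

/-!
# CHV / Main: the theorem in the form of the problem
-/

set_option autoImplicit false

open Filter

namespace Pool.Agent.CHV

theorem main : ∀ p : ℝ, 0 < p → p < 1 →
    ∀ E σ : ℕ → ℝ,
      (∀ n : ℕ, E n =
        Finset.sum
          (Finset.powerset
            (Finset.filter (fun e : Sym2 (Fin n) => ¬ e.IsDiag)
              (Finset.univ : Finset (Sym2 (Fin n)))))
          (fun S : Finset (Sym2 (Fin n)) =>
            p ^ S.card * (1 - p) ^ (Nat.choose n 2 - S.card) *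
              ((ENat.toNat (SimpleGraph.chromaticNumber
                (SimpleGraph.fromEdgeSet ((S : Set (Sym2 (Fin n))))))) : ℝ))) →
      (∀ n : ℕ, σ n = Real.sqrt
        (Finset.sum
          (Finset.powerset
            (Finset.filter (fun e : Sym2 (Fin n) => ¬ e.IsDiag)
              (Finset.univ : Finset (Sym2 (Fin n)))))
          (fun S : Finset (Sym2 (Fin n)) =>
            p ^ S.card * (1 - p) ^ (Nat.choose n 2 - S.card) *
              (((ENat.toNat (SimpleGraph.chromaticNumber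
                (SimpleGraph.fromEdgeSet ((S : Set (Sym2 (Fin n))))))) : ℝ) - E n) ^ 2))) →
      ∃ C : ℝ, 0 < C ∧ ∀ᶠ n : ℕ in atTop,
          σ n ≤ C * (Real.sqrt (n : ℝ) / (Real.log (n : ℝ)) ^ (3 / 2 : ℝ)) := by
  intro p h0 h1 E σ hE hσ
  obtain ⟨C, hC0, hC⟩ := var_chi h0 h1
  refine ⟨Real.sqrt C, Real.sqrt_pos.2 hC0, ?_⟩
  filter_upwards [hC, eventually_ge_atTop 2] with n hn hn2
  have hn' : (0 : ℝ) < n := by exact_mod_cast (by omega : 0 < n)
  have hn1 : (1 : ℝ) < n := by exact_mod_cast (by omega : 1 < n)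
  have hlogn : 0 < Real.log n := Real.log_pos hn1
  have e1 : E n = Ex p (fun x : Cf n => chi x) := by
    rw [hE n]
    exact bridge n (fun G => ((ENat.toNat (SimpleGraph.chromaticNumber G) : ℕ) : ℝ))
  have e2 : σ n = Real.sqrt (Ex p (fun x : Cf n => (chi x - E n) ^ 2)) := by
    rw [hσ n]
    congr 1
    exact bridge n (fun G => (((ENat.toNat (SimpleGraph.chromaticNumber G) : ℕ) : ℝ) - E n) ^ 2)
  rw [e2, e1]
  have e3 : Real.sqrt C * (Real.sqrt (n : ℝ) / (Real.log (n : ℝ)) ^ (3 / 2 : ℝ)) =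
      Real.sqrt (C * (n / Real.log n ^ 3)) := by
    rw [Real.sqrt_mul hC0.le, Real.sqrt_div hn'.le]
    congr 2
    rw [Real.sqrt_eq_rpow, ← Real.rpow_natCast, ← Real.rpow_mul hlogn.le]
    norm_num
  rw [e3]
  exact Real.sqrt_le_sqrt hn

end Pool.Agent.CHV
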