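import Pool.Agent.CHV.Jan
import Pool.Agent.CHV.Dlt

/-!
# CHV / Nin: a set of vertices without independent set of size `r` is very unlikely

PROOFS.  `no_ind`: `janson` for `ι = Sym2 (Fin n)`, `A = (M.powersetCard r).image prs`; `prs` is injective on `M.powersetCard r`
(`prs_inj`, `r ≥ 2`), `|prs I| = C(r, 2)` (`card_prs`), `|prs I ∪ prs J| = 2 C(r,2) - C(|I ∩ J|, 2)` (`card_prs_union`),
`¬ Disjoint (prs I) (prs J) ↔ 2 ≤ |I ∩ J|` (`prs_disjoint_iff`).  So `Δ` of `janson` is the double sum of `delta_le`,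
`Δ ≤ r τ μ^2` with `μ > 0` (`r ≤ m`: `powersetCard` is nonempty), `Δ > 0`, hence `μ^2 / (2 Δ) ≥ 1 / (2 r τ)`.
`I ⊆ M`, `|I| = r`, `Ind x I` is `∀ i ∈ prs I, x i = false`.
`no_ind_union`: union bound over the `M` in the finset `𝓜` (`ind_exists`, `Ex_sum`, `Ex_mono`).
-/

set_option autoImplicit false

namespace Pool.Agent.CHV

open Finset

variable {n : ℕ} {p : ℝ}

theorem no_ind (h0 : 0 < p) (h1 : p < 1) {m r : ℕ} (M : Finset (Fin n)) (hM : M.card = m)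
    (hr : 2 ≤ r) (hrm : r ≤ m) {τ : ℝ} (hτ0 : 0 < τ)
    (hτ : ∀ j, 2 ≤ j → j ≤ r →
      (r.choose j : ℝ) * ((r : ℝ) / m) ^ j * (1 / (1 - p)) ^ (j.choose 2) ≤ τ) :
    Ex p (fun x : Cf n => ind (¬ ∃ I ⊆ M, Ind x I ∧ I.card = r)) ≤
      Real.exp (-(1 / (2 * r * τ))) := by
  obtain ⟨A, hA⟩ : ∃ A, A = (M.powersetCard r).image prs := ⟨_, rfl⟩
  have hq : 0 < 1 - p := by linarith
  have hc : ∀ I ∈ M.powersetCard r, I ⊆ M ∧ I.card = r := fun I hI =>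
    Finset.mem_powersetCard.1 hI
  have hinj : ∀ I ∈ M.powersetCard r, ∀ J ∈ M.powersetCard r, prs I = prs J → I = J := by
    intro I hI J hJ h
    refine prs_inj ?_ h
    rw [(hc I hI).2]
    exact hr
  have s1 : Ex p (fun x : Cf n => ind (¬ ∃ I ⊆ M, Ind x I ∧ I.card = r)) ≤
      Ex p (fun x : Cf n => ind (∀ a ∈ A, ¬ ∀ i ∈ a, x i = false)) := by
    refine Ex_mono h0.le h1.le fun x => ind_mono fun h a ha h2 => ?_
    rw [hA, Finset.mem_image] at ha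
    obtain ⟨I, hI, rfl⟩ := ha
    exact h ⟨I, (hc I hI).1, h2, (hc I hI).2⟩
  refine (s1.trans (janson h0 h1 A)).trans (Real.exp_le_exp.2 (neg_le_neg ?_))
  obtain ⟨μ, hμ⟩ : ∃ μ : ℝ, μ = ∑ I ∈ M.powersetCard r, (1 - p) ^ (r.choose 2) := ⟨_, rfl⟩
  have e1 : jmu p A = μ := by
    unfold jmu
    rw [hA, Finset.sum_image hinj, hμ]
    refine Finset.sum_congr rfl fun I hI => ?_
    rw [card_prs, (hc I hI).2]
  have e2 : jde p A = ∑ I ∈ M.powersetCard r,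
      ∑ J ∈ (M.powersetCard r).filter (fun J => 2 ≤ (I ∩ J).card),
      (1 - p) ^ (2 * r.choose 2 - (I ∩ J).card.choose 2) := by
    unfold jde
    rw [hA, Finset.sum_image hinj]
    refine Finset.sum_congr rfl fun I hI => ?_
    have e3 : ((M.powersetCard r).image prs).filter (fun b => ¬ Disjoint (prs I) b) =
        ((M.powersetCard r).filter (fun J => 2 ≤ (I ∩ J).card)).image prs := by
      ext b
      rw [Finset.mem_filter, Finset.mem_image, Finset.mem_image]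
      constructor
      · rintro ⟨⟨J, hJ, rfl⟩, h2⟩
        exact ⟨J, Finset.mem_filter.2 ⟨hJ, (prs_disjoint_iff I J).1 h2⟩, rfl⟩
      · rintro ⟨J, hJ, rfl⟩
        rw [Finset.mem_filter] at hJ
        exact ⟨⟨J, hJ.1, rfl⟩, (prs_disjoint_iff I J).2 hJ.2⟩
    rw [e3, Finset.sum_image fun J hJ J' hJ' h => hinj J (Finset.mem_filter.1 hJ).1 J'
      (Finset.mem_filter.1 hJ').1 h]
    refine Finset.sum_congr rfl fun J hJ => ?_
    have h2 := card_prs_union I J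
    rw [(hc I hI).2, (hc J (Finset.mem_filter.1 hJ).1).2] at h2
    congr 1
    omega
  have hd := delta_le h0.le h1 M hM hr hrm hτ
  rw [← e2, ← hμ] at hd
  obtain ⟨I₀, hI₀⟩ : (M.powersetCard r).Nonempty := Finset.powersetCard_nonempty.2 (by omega)
  have hμ0 : 0 < μ := by
    rw [hμ]
    exact Finset.sum_pos (fun I _ => by positivity) ⟨I₀, hI₀⟩
  have hΔ0 : 0 < jde p A := by
    rw [e2]
    refine Finset.sum_pos' (fun I _ => Finset.sum_nonneg fun J _ => by positivity)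
      ⟨I₀, hI₀, ?_⟩
    refine Finset.sum_pos (fun J _ => by positivity) ⟨I₀, ?_⟩
    rw [Finset.mem_filter, Finset.inter_self, (hc I₀ hI₀).2]
    exact ⟨hI₀, hr⟩
  rw [e1]
  have hr0 : (0 : ℝ) < r := by
    have : 0 < r := by omega
    exact_mod_cast this
  rw [div_le_div_iff₀ (by positivity) (by positivity)]
  nlinarith

theorem no_ind_union (h0 : 0 < p) (h1 : p < 1) (𝓜 : Finset (Finset (Fin n)))
    (r : Finset (Fin n) → ℕ) {ε : ℝ} (hr : ∀ M ∈ 𝓜, 2 ≤ r M) (hrm : ∀ M ∈ 𝓜, r M ≤ M.card)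
    (τ : Finset (Fin n) → ℝ) (hτ0 : ∀ M ∈ 𝓜, 0 < τ M)
    (hτ : ∀ M ∈ 𝓜, ∀ j, 2 ≤ j → j ≤ r M →
      ((r M).choose j : ℝ) * ((r M : ℝ) / M.card) ^ j * (1 / (1 - p)) ^ (j.choose 2) ≤ τ M)
    (hε : ∀ M ∈ 𝓜, Real.exp (-(1 / (2 * r M * τ M))) ≤ ε) :
    Ex p (fun x : Cf n => ind (¬ ∀ M ∈ 𝓜, ∃ I ⊆ M, Ind x I ∧ I.card = r M)) ≤
      𝓜.card * ε := by
  have s1 : Ex p (fun x : Cf n => ind (¬ ∀ M ∈ 𝓜, ∃ I ⊆ M, Ind x I ∧ I.card = r M)) ≤
      Ex p (fun x : Cf n => ∑ M ∈ 𝓜, ind (¬ ∃ I ⊆ M, Ind x I ∧ I.card = r M)) := by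
    refine Ex_mono h0.le h1.le fun x => ?_
    refine le_trans (ind_mono ?_) (ind_exists 𝓜 fun M => ¬ ∃ I ⊆ M, Ind x I ∧ I.card = r M)
    intro h
    by_contra h2
    apply h
    intro M hM
    by_contra h3
    exact h2 ⟨M, hM, h3⟩
  refine s1.trans ?_
  rw [Ex_sum]
  have s2 : ∀ M ∈ 𝓜, Ex p (fun x : Cf n => ind (¬ ∃ I ⊆ M, Ind x I ∧ I.card = r M)) ≤ ε :=
    fun M hM => (no_ind h0 h1 M rfl (hr M hM) (hrm M hM) (hτ0 M hM) (hτ M hM)).trans (hε M hM)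
  refine (Finset.sum_le_sum s2).trans ?_
  rw [Finset.sum_const, nsmul_eq_mul]

end Pool.Agent.CHV
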