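import Pool.Agent.CHV.Grf

/-!
# CHV / PackA: elementary properties of packings

PROOFS.  `pack_of_le`: immediate.  `sum_card_le`: the classes are pairwise disjoint (`Finset.card_biUnion`).
`val_add`: `(I.card - lam) + lam = I.card` as `lam < I.card`.
`erase_pack`: for a packing `P` of `x` and a vertex `u` replace the class `I ∋ u` (if there is one) by `I.erase u`, or drop it if
`(I.erase u).card ≤ lam`; the value drops by at most one (when the class is dropped, `I.card = lam + 1` and its contribution was
`1`); no class of the new packing contains `u`; it is a packing for every `y` which agrees with `x` on all pairs not containing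
the vertex `u`.  (`I.erase u` is nonempty and disjoint from the other classes, so it is not one of them.)
`perm_pack`: `P.image (fun I => I.map π.toEmbedding)`; `e ∈ prs (I.map π) ↔ e.map π⁻¹ ∈ prs I`; `Finset.sum_image`,
`Finset.card_map`.
-/

set_option autoImplicit false

namespace Pool.Agent.CHV

open Finset

variable {n S lam : ℕ}

theorem pack_of_le {x y : Cf n} {P : Finset (Finset (Fin n))} (h : Pack S lam y P)
    (hxy : ∀ e ∈ UP P, y e = false → x e = false) : Pack S lam x P := by
  refine ⟨fun I hI e he => ?_, h.le, h.gt, h.disj⟩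
  exact hxy e (mem_UP.2 ⟨I, hI, he⟩) (h.ind I hI e he)

theorem sum_card_le {x : Cf n} {P : Finset (Finset (Fin n))} (h : Pack S lam x P) :
    ∑ I ∈ P, I.card ≤ n := by
  have h1 : (P.biUnion id).card = ∑ I ∈ P, I.card := Finset.card_biUnion h.disj
  rw [← h1]
  exact (Finset.card_le_univ _).trans (by rw [Fintype.card_fin])

theorem val_add {x : Cf n} {P : Finset (Finset (Fin n))} (h : Pack S lam x P) :
    val lam P + lam * P.card = ∑ I ∈ P, I.card := by
  unfold val
  have h1 : lam * P.card = ∑ _I ∈ P, lam := by
    rw [Finset.sum_const, smul_eq_mul, mul_comm]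
  rw [h1, ← Finset.sum_add_distrib]
  refine Finset.sum_congr rfl fun I hI => ?_
  have := h.gt I hI
  omega

theorem erase_pack {x : Cf n} {P : Finset (Finset (Fin n))} (h : Pack S lam x P) (u : Fin n) :
    ∃ P' : Finset (Finset (Fin n)), val lam P ≤ val lam P' + 1 ∧ (∀ I ∈ P', u ∉ I) ∧
      ∀ y : Cf n, (∀ e : Sym2 (Fin n), u ∉ e → y e = x e) → Pack S lam y P' := by
  have hinj : Set.InjOn (fun I : Finset (Fin n) => I.erase u) (P : Set (Finset (Fin n))) := by
    intro I hI J hJ hIJ
    simp only at hIJ
    by_contra hne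
    have hd := h.disj I hI J hJ hne
    have h0 : I.erase u = ∅ := by
      rw [Finset.eq_empty_iff_forall_notMem]
      intro v hv
      have h1 : v ∈ I := Finset.mem_of_mem_erase hv
      have h2 : v ∈ J := by
        rw [hIJ] at hv
        exact Finset.mem_of_mem_erase hv
      exact Finset.disjoint_left.1 hd h1 h2
    have key : ∀ K : Finset (Fin n), K ∈ P → K.erase u = ∅ → u ∈ K := by
      intro K hK hK0
      have h1 := h.gt K hK
      obtain ⟨v, hv⟩ : K.Nonempty := Finset.card_pos.1 (by omega)
      by_contra hu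
      rw [Finset.erase_eq_of_notMem hu] at hK0
      rw [hK0] at hv
      exact absurd hv (Finset.notMem_empty v)
    exact Finset.disjoint_left.1 hd (key I hI h0) (key J hJ (hIJ ▸ h0))
  refine ⟨(P.image fun I => I.erase u).filter fun I => lam < I.card, ?_, ?_, ?_⟩
  · have h1 : val lam ((P.image fun I => I.erase u).filter fun I => lam < I.card) =
        ∑ I ∈ P, ((I.erase u).card - lam) := by
      unfold val
      rw [Finset.sum_filter_of_ne, Finset.sum_image hinj]
      intro I _ hI
      omega
    have h2 : val lam P ≤ ∑ I ∈ P, (((I.erase u).card - lam) + if u ∈ I then 1 else 0) := by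
      unfold val
      refine Finset.sum_le_sum fun I _ => ?_
      split_ifs with hu
      · rw [Finset.card_erase_of_mem hu]
        omega
      · rw [Finset.erase_eq_of_notMem hu]
        omega
    have h3 : ∑ I ∈ P, (if u ∈ I then 1 else 0) ≤ 1 := by
      rw [← Finset.card_filter, Finset.card_le_one]
      intro I hI J hJ
      rw [Finset.mem_filter] at hI hJ
      by_contra hne
      exact Finset.disjoint_left.1 (h.disj I hI.1 J hJ.1 hne) hI.2 hJ.2
    rw [Finset.sum_add_distrib] at h2
    omega
  · intro I hI
    rw [Finset.mem_filter, Finset.mem_image] at hI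
    obtain ⟨⟨J, _, rfl⟩, _⟩ := hI
    exact Finset.notMem_erase u J
  · intro y hy
    refine ⟨?_, ?_, ?_, ?_⟩
    · intro I hI e he
      rw [Finset.mem_filter, Finset.mem_image] at hI
      obtain ⟨⟨J, hJ, rfl⟩, _⟩ := hI
      rw [hy e, h.ind J hJ e (prs_mono (Finset.erase_subset u J) he)]
      induction e using Sym2.ind with
      | _ a b =>
        obtain ⟨h1, h2, _⟩ := mem_prs.1 he
        rw [Sym2.mem_iff]
        rintro (rfl | rfl)
        · exact Finset.notMem_erase _ _ h1
        · exact Finset.notMem_erase _ _ h2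
    · intro I hI
      rw [Finset.mem_filter, Finset.mem_image] at hI
      obtain ⟨⟨J, hJ, rfl⟩, _⟩ := hI
      exact (Finset.card_le_card (Finset.erase_subset u J)).trans (h.le J hJ)
    · intro I hI
      exact (Finset.mem_filter.1 hI).2
    · intro I hI J hJ hne
      rw [Finset.mem_filter, Finset.mem_image] at hI hJ
      obtain ⟨⟨I', hI', rfl⟩, _⟩ := hI
      obtain ⟨⟨J', hJ', rfl⟩, _⟩ := hJ
      have h1 : I' ≠ J' := fun h => hne (by rw [h])
      exact Finset.disjoint_of_subset_left (Finset.erase_subset u I')
        (Finset.disjoint_of_subset_right (Finset.erase_subset u J') (h.disj I' hI' J' hJ' h1))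

theorem perm_pack (π : Equiv.Perm (Fin n)) {x : Cf n} {P : Finset (Finset (Fin n))}
    (h : Pack S lam (fun e => x (e.map π)) P) :
    ∃ P' : Finset (Finset (Fin n)), Pack S lam x P' ∧ val lam P' = val lam P := by
  refine ⟨P.image fun I => I.map π.toEmbedding, ⟨?_, ?_, ?_, ?_⟩, ?_⟩
  · intro I hI
    obtain ⟨J, hJ, rfl⟩ := Finset.mem_image.1 hI
    rw [Ind_iff]
    intro a ha b hb hab
    obtain ⟨u, hu, rfl⟩ := Finset.mem_map.1 ha
    obtain ⟨v, hv, rfl⟩ := Finset.mem_map.1 hb
    have huv : u ≠ v := fun h => hab (by rw [h])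
    exact Ind_iff.1 (h.ind J hJ) u hu v hv huv
  · intro I hI
    obtain ⟨J, hJ, rfl⟩ := Finset.mem_image.1 hI
    rw [Finset.card_map]
    exact h.le J hJ
  · intro I hI
    obtain ⟨J, hJ, rfl⟩ := Finset.mem_image.1 hI
    rw [Finset.card_map]
    exact h.gt J hJ
  · intro I hI J hJ hne
    obtain ⟨I', hI', rfl⟩ := Finset.mem_image.1 hI
    obtain ⟨J', hJ', rfl⟩ := Finset.mem_image.1 hJ
    have h1 : I' ≠ J' := fun h => hne (by rw [h])
    rw [Finset.disjoint_map]
    exact h.disj I' hI' J' hJ' h1
  · unfold val
    rw [Finset.sum_image fun I _ J _ hIJ => Finset.map_injective _ hIJ]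
    simp only [Finset.card_map]

end Pool.Agent.CHV
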