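import Pool.Agent.CHV.Grf
import Pool.Agent.CHV.Glu

/-!
# CHV / PrM: first moments for independent sets and for pairs of independent sets

PROOFS.  `card_count`: for fixed `i, j, t` the number of pairs `(I, J)` with `|I| = i`, `|J| = j`, `|I ∩ J ∩ T| = t` is
`≤ C(n, i) C(i, t) C(n, j - t)`: `J` is determined by the subset `I ∩ J ∩ T` of `I` (`C(i, t)` choices) and the set
`J \ (I ∩ J ∩ T)` of size `j - t`.  And `C(n, i) ≤ n^i / i!`, `C(n, j - t) ≤ n^(j-t) / (j-t)!` (`Nat.choose_le_pow_div`),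
`C(i, t) ≤ 2^i`, `1 / (j - t)! = C(j, t) t! / j! ≤ 2^j t! / j!`.
`pair_prob`: for fixed `I, J` put `V = T.sym2`, `t = |I ∩ J ∩ T|`.  `Ind (glue V x y) I` iff `x e = false` for `e ∈ prs I ∩ V` and
`y e = false` for `e ∈ prs I \ V`; the same for `J` with `x`, `z`.  So the indicator function is the product of
`ind (∀ e ∈ (prs I ∪ prs J) ∩ V, x e = false)`, `ind (∀ e ∈ prs I \ V, y e = false)`, `ind (∀ e ∈ prs J \ V, z e = false)`, and by
`Ex_false` the expectation is `(1-p)^(|(prs I ∪ prs J) ∩ V| + |prs I \ V| + |prs J \ V|)`, and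
`|(prs I ∪ prs J) ∩ V| = |prs I ∩ V| + |prs J ∩ V| - |prs I ∩ prs J ∩ V|`, `prs I ∩ prs J ∩ V = prs (I ∩ J ∩ T)`
(`mem_prs`, `Finset.mk_mem_sym2_iff`), so the exponent is `C(i,2) + C(j,2) - C(t,2)`.
`pair_moment`: union bound (`ind_exists` for the finset of the pairs `(I, J)`, `Ex_sum`, `Ex_mono`).
`one_moment`: the same for one set.
-/

set_option autoImplicit false

namespace Pool.Agent.CHV

open Finset

variable {n : ℕ} {p : ℝ}

private theorem card_count_nat (T : Finset (Fin n)) (i j t : ℕ) :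
    ((Finset.univ : Finset (Finset (Fin n) × Finset (Fin n))).filter
      (fun q => q.1.card = i ∧ q.2.card = j ∧ (q.1 ∩ q.2 ∩ T).card = t)).card ≤
      n.choose i * (i.choose t * n.choose (j - t)) := by
  classical
  have h1 : ((Finset.univ : Finset (Finset (Fin n) × Finset (Fin n))).filter
      (fun q => q.1.card = i ∧ q.2.card = j ∧ (q.1 ∩ q.2 ∩ T).card = t)).card ≤
      (Finset.sigma (powersetCard i (univ : Finset (Fin n))) (fun I =>
        (powersetCard t I) ×ˢ (powersetCard (j - t) (univ : Finset (Fin n))))).card := by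
    refine Finset.card_le_card_of_injOn (fun q => ⟨q.1, (q.1 ∩ q.2 ∩ T, q.2 \ (q.1 ∩ q.2 ∩ T))⟩)
      ?_ ?_
    · intro q hq
      simp only [Finset.coe_filter, Finset.mem_univ, true_and, Set.mem_setOf_eq] at hq
      obtain ⟨h1, h2, h3⟩ := hq
      simp only [Finset.coe_sigma, Set.mem_sigma_iff, Finset.mem_coe, Finset.mem_powersetCard,
        Finset.mem_product]
      refine ⟨⟨Finset.subset_univ _, h1⟩, ⟨?_, h3⟩, Finset.subset_univ _, ?_⟩
      · exact Finset.inter_subset_left.trans Finset.inter_subset_left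
      · rw [Finset.card_sdiff_of_subset
          (Finset.inter_subset_left.trans Finset.inter_subset_right), h2, h3]
    · intro q hq q' hq' h
      simp only [Sigma.mk.injEq] at h
      obtain ⟨h1, h2⟩ := h
      have h3 := eq_of_heq h2
      rw [Prod.mk.injEq] at h3
      obtain ⟨h4, h5⟩ := h3
      refine Prod.ext h1 ?_
      have e1 : q.2 = (q.1 ∩ q.2 ∩ T) ∪ q.2 \ (q.1 ∩ q.2 ∩ T) :=
        (Finset.union_sdiff_of_subset
          (Finset.inter_subset_left.trans Finset.inter_subset_right)).symm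
      have e2 : q'.2 = (q'.1 ∩ q'.2 ∩ T) ∪ q'.2 \ (q'.1 ∩ q'.2 ∩ T) :=
        (Finset.union_sdiff_of_subset
          (Finset.inter_subset_left.trans Finset.inter_subset_right)).symm
      rw [e1, h5, h4]
      exact e2.symm
  refine h1.trans (le_of_eq ?_)
  rw [Finset.card_sigma]
  have h2 : ∀ I ∈ powersetCard i (univ : Finset (Fin n)),
      ((powersetCard t I) ×ˢ (powersetCard (j - t) (univ : Finset (Fin n)))).card =
        i.choose t * n.choose (j - t) := by
    intro I hI
    rw [Finset.mem_powersetCard] at hI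
    rw [Finset.card_product, Finset.card_powersetCard, Finset.card_powersetCard, hI.2,
      Finset.card_univ, Fintype.card_fin]
  rw [Finset.sum_congr rfl h2, Finset.sum_const, Finset.card_powersetCard, Finset.card_univ,
    Fintype.card_fin, smul_eq_mul]

theorem card_count (T : Finset (Fin n)) {i j t : ℕ} (hti : t ≤ i) (htj : t ≤ j) :
    (((Finset.univ : Finset (Finset (Fin n) × Finset (Fin n))).filter
      (fun q => q.1.card = i ∧ q.2.card = j ∧ (q.1 ∩ q.2 ∩ T).card = t)).card : ℝ) ≤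
      (n : ℝ) ^ (i + j - t) * 2 ^ (i + j) * t.factorial / (i.factorial * j.factorial) := by
  have h0 := card_count_nat T i j t
  have h1 : (((Finset.univ : Finset (Finset (Fin n) × Finset (Fin n))).filter
      (fun q => q.1.card = i ∧ q.2.card = j ∧ (q.1 ∩ q.2 ∩ T).card = t)).card : ℝ) ≤
      (n.choose i : ℝ) * ((i.choose t : ℝ) * (n.choose (j - t) : ℝ)) := by
    exact_mod_cast h0
  refine h1.trans ?_
  have h2 : (n.choose i : ℝ) ≤ (n : ℝ) ^ i / i.factorial := Nat.choose_le_pow_div i n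
  have h3 : (i.choose t : ℝ) ≤ 2 ^ i := by
    exact_mod_cast Nat.choose_le_two_pow i t
  have h4 : (n.choose (j - t) : ℝ) ≤ (n : ℝ) ^ (j - t) / (j - t).factorial :=
    Nat.choose_le_pow_div (j - t) n
  have h5 : (j.choose t : ℝ) ≤ 2 ^ j := by
    exact_mod_cast Nat.choose_le_two_pow j t
  have h6 : (j.choose t : ℝ) * t.factorial * (j - t).factorial = j.factorial := by
    exact_mod_cast Nat.choose_mul_factorial_mul_factorial htj
  have hj : (0 : ℝ) < j.factorial := by exact_mod_cast Nat.factorial_pos j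
  have hjt : (0 : ℝ) < (j - t).factorial := by exact_mod_cast Nat.factorial_pos _
  have ht : (0 : ℝ) < t.factorial := by exact_mod_cast Nat.factorial_pos t
  have hi : (0 : ℝ) < i.factorial := by exact_mod_cast Nat.factorial_pos i
  have h7 : 1 / ((j - t).factorial : ℝ) ≤ 2 ^ j * t.factorial / j.factorial := by
    rw [div_le_div_iff₀ hjt hj, one_mul, ← h6]
    have : (j.choose t : ℝ) * t.factorial * (j - t).factorial ≤
        2 ^ j * t.factorial * (j - t).factorial := by gcongr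
    exact this
  have h8 : (n.choose (j - t) : ℝ) ≤ (n : ℝ) ^ (j - t) * (2 ^ j * t.factorial / j.factorial) := by
    refine h4.trans ?_
    rw [div_eq_mul_one_div]
    gcongr
  calc (n.choose i : ℝ) * ((i.choose t : ℝ) * (n.choose (j - t) : ℝ))
      ≤ ((n : ℝ) ^ i / i.factorial) * (2 ^ i * ((n : ℝ) ^ (j - t) *
          (2 ^ j * t.factorial / j.factorial))) := by gcongr
    _ = (n : ℝ) ^ (i + j - t) * 2 ^ (i + j) * t.factorial / (i.factorial * j.factorial) := by
        rw [Nat.add_sub_assoc htj, pow_add, pow_add]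
        field_simp

private theorem prs_inter_sym2 (K T : Finset (Fin n)) : prs K ∩ T.sym2 = prs (K ∩ T) := by
  ext e
  induction e using Sym2.ind with
  | _ u v =>
    rw [Finset.mem_inter, mem_prs, mem_prs, Finset.mk_mem_sym2_iff, Finset.mem_inter,
      Finset.mem_inter]
    tauto

private theorem exponent_eq (T I J : Finset (Fin n)) :
    ((prs I ∪ prs J) ∩ T.sym2).card + (prs I \ T.sym2).card + (prs J \ T.sym2).card =
      I.card.choose 2 + J.card.choose 2 - (I ∩ J ∩ T).card.choose 2 := by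
  have h1 := Finset.card_union_add_card_inter (prs I ∩ T.sym2) (prs J ∩ T.sym2)
  have h2 : (prs I ∩ T.sym2) ∪ (prs J ∩ T.sym2) = (prs I ∪ prs J) ∩ T.sym2 :=
    (Finset.union_inter_distrib_right _ _ _).symm
  have h3 : (prs I ∩ T.sym2) ∩ (prs J ∩ T.sym2) = prs (I ∩ J ∩ T) := by
    rw [← prs_inter_sym2, ← prs_inter]
    ext e
    simp only [Finset.mem_inter]
    tauto
  rw [h2, h3, card_prs] at h1
  have h4 := Finset.card_sdiff_add_card_inter (prs I) T.sym2
  have h5 := Finset.card_sdiff_add_card_inter (prs J) T.sym2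
  rw [card_prs] at h4 h5
  omega

private theorem glue_split (T I J : Finset (Fin n)) (x y z : Cf n) :
    (Ind (glue T.sym2 x y) I ∧ Ind (glue T.sym2 x z) J) ↔
      ((∀ e ∈ (prs I ∪ prs J) ∩ T.sym2, x e = false) ∧ (∀ e ∈ prs I \ T.sym2, y e = false)) ∧
        (∀ e ∈ prs J \ T.sym2, z e = false) := by
  unfold Ind glue
  constructor
  · rintro ⟨h1, h2⟩
    refine ⟨⟨?_, ?_⟩, ?_⟩
    · intro e he
      rw [Finset.mem_inter, Finset.mem_union] at he
      rcases he.1 with h | h
      · have := h1 e h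
        rwa [if_pos he.2] at this
      · have := h2 e h
        rwa [if_pos he.2] at this
    · intro e he
      rw [Finset.mem_sdiff] at he
      have := h1 e he.1
      rwa [if_neg he.2] at this
    · intro e he
      rw [Finset.mem_sdiff] at he
      have := h2 e he.1
      rwa [if_neg he.2] at this
  · rintro ⟨⟨h1, h2⟩, h3⟩
    constructor
    · intro e he
      by_cases hT : e ∈ T.sym2
      · rw [if_pos hT]
        exact h1 e (Finset.mem_inter.2 ⟨Finset.mem_union_left _ he, hT⟩)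
      · rw [if_neg hT]
        exact h2 e (Finset.mem_sdiff.2 ⟨he, hT⟩)
    · intro e he
      by_cases hT : e ∈ T.sym2
      · rw [if_pos hT]
        exact h1 e (Finset.mem_inter.2 ⟨Finset.mem_union_right _ he, hT⟩)
      · rw [if_neg hT]
        exact h3 e (Finset.mem_sdiff.2 ⟨he, hT⟩)

private theorem ind_and (P Q : Prop) : ind (P ∧ Q) = ind P * ind Q := by
  by_cases hP : P
  · by_cases hQ : Q
    · rw [ind_true ⟨hP, hQ⟩, ind_true hP, ind_true hQ, one_mul]
    · rw [ind_false (fun h => hQ h.2), ind_false hQ, mul_zero]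
  · rw [ind_false (fun h => hP h.1), ind_false hP, zero_mul]

theorem pair_prob (T I J : Finset (Fin n)) :
    Ex p (fun x : Cf n => Ex p (fun y : Cf n => Ex p (fun z : Cf n =>
      ind (Ind (glue T.sym2 x y) I ∧ Ind (glue T.sym2 x z) J)))) =
      (1 - p) ^ (I.card.choose 2 + J.card.choose 2 - (I ∩ J ∩ T).card.choose 2) := by
  have h1 : ∀ x y z : Cf n, ind (Ind (glue T.sym2 x y) I ∧ Ind (glue T.sym2 x z) J) =
      (ind (∀ e ∈ (prs I ∪ prs J) ∩ T.sym2, x e = false) *
        ind (∀ e ∈ prs I \ T.sym2, y e = false)) * ind (∀ e ∈ prs J \ T.sym2, z e = false) := by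
    intro x y z
    rw [← ind_and, ← ind_and]
    exact congrArg ind (propext (glue_split T I J x y z))
  simp only [h1]
  have h2 : ∀ x y : Cf n, Ex p (fun z : Cf n =>
      (ind (∀ e ∈ (prs I ∪ prs J) ∩ T.sym2, x e = false) *
        ind (∀ e ∈ prs I \ T.sym2, y e = false)) * ind (∀ e ∈ prs J \ T.sym2, z e = false)) =
      ((1 - p) ^ (prs J \ T.sym2).card * ind (∀ e ∈ (prs I ∪ prs J) ∩ T.sym2, x e = false)) *
        ind (∀ e ∈ prs I \ T.sym2, y e = false) := by
    intro x y
    rw [Ex_smul, Ex_false]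
    ring
  simp only [h2]
  have h3 : ∀ x : Cf n, Ex p (fun y : Cf n =>
      ((1 - p) ^ (prs J \ T.sym2).card * ind (∀ e ∈ (prs I ∪ prs J) ∩ T.sym2, x e = false)) *
        ind (∀ e ∈ prs I \ T.sym2, y e = false)) =
      ((1 - p) ^ (prs J \ T.sym2).card * (1 - p) ^ (prs I \ T.sym2).card) *
        ind (∀ e ∈ (prs I ∪ prs J) ∩ T.sym2, x e = false) := by
    intro x
    rw [Ex_smul, Ex_false]
    ring
  simp only [h3]
  rw [Ex_smul, Ex_false, ← exponent_eq, pow_add, pow_add]
  ring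

theorem pair_moment (h0 : 0 ≤ p) (h1 : p ≤ 1) (T : Finset (Fin n)) {i j t : ℕ} (hti : t ≤ i)
    (htj : t ≤ j) :
    Ex p (fun x : Cf n => Ex p (fun y : Cf n => Ex p (fun z : Cf n =>
      ind (∃ I J : Finset (Fin n), I.card = i ∧ J.card = j ∧ (I ∩ J ∩ T).card = t ∧
        Ind (glue T.sym2 x y) I ∧ Ind (glue T.sym2 x z) J)))) ≤
      (n : ℝ) ^ (i + j - t) * 2 ^ (i + j) * t.factorial / (i.factorial * j.factorial) *
        (1 - p) ^ (i.choose 2 + j.choose 2 - t.choose 2) := by
  classical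
  obtain ⟨Q, hQ⟩ : ∃ Q, Q = (Finset.univ : Finset (Finset (Fin n) × Finset (Fin n))).filter
      (fun q => q.1.card = i ∧ q.2.card = j ∧ (q.1 ∩ q.2 ∩ T).card = t) := ⟨_, rfl⟩
  have h2 : ∀ x y z : Cf n, ind (∃ I J : Finset (Fin n), I.card = i ∧ J.card = j ∧
      (I ∩ J ∩ T).card = t ∧ Ind (glue T.sym2 x y) I ∧ Ind (glue T.sym2 x z) J) ≤
      ∑ q ∈ Q, ind (Ind (glue T.sym2 x y) q.1 ∧ Ind (glue T.sym2 x z) q.2) := by
    intro x y z
    refine le_trans (ind_mono ?_) (ind_exists Q _)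
    rintro ⟨I, J, hI, hJ, hIJ, h3, h4⟩
    refine ⟨(I, J), ?_, h3, h4⟩
    rw [hQ, Finset.mem_filter]
    exact ⟨Finset.mem_univ _, hI, hJ, hIJ⟩
  have h3 : Ex p (fun x : Cf n => Ex p (fun y : Cf n => Ex p (fun z : Cf n =>
      ∑ q ∈ Q, ind (Ind (glue T.sym2 x y) q.1 ∧ Ind (glue T.sym2 x z) q.2)))) =
      ∑ q ∈ Q, Ex p (fun x : Cf n => Ex p (fun y : Cf n => Ex p (fun z : Cf n =>
        ind (Ind (glue T.sym2 x y) q.1 ∧ Ind (glue T.sym2 x z) q.2)))) := by
    simp only [Ex_sum]
  refine le_trans (Ex_mono h0 h1 fun x => Ex_mono h0 h1 fun y => Ex_mono h0 h1 fun z =>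
    h2 x y z) ?_
  rw [h3]
  have h4 : ∀ q ∈ Q, Ex p (fun x : Cf n => Ex p (fun y : Cf n => Ex p (fun z : Cf n =>
        ind (Ind (glue T.sym2 x y) q.1 ∧ Ind (glue T.sym2 x z) q.2)))) =
      (1 - p) ^ (i.choose 2 + j.choose 2 - t.choose 2) := by
    intro q hq
    rw [hQ, Finset.mem_filter] at hq
    rw [pair_prob, hq.2.1, hq.2.2.1, hq.2.2.2]
  rw [Finset.sum_congr rfl h4, Finset.sum_const, nsmul_eq_mul]
  refine mul_le_mul_of_nonneg_right ?_ (pow_nonneg (by linarith) _)
  rw [hQ]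
  exact card_count T hti htj

theorem one_moment (h0 : 0 ≤ p) (h1 : p ≤ 1) (s : ℕ) :
    Ex p (fun x : Cf n => ind (∃ I : Finset (Fin n), I.card = s ∧ Ind x I)) ≤
      (n : ℝ) ^ s / s.factorial * (1 - p) ^ (s.choose 2) := by
  classical
  have h2 : ∀ x : Cf n, ind (∃ I : Finset (Fin n), I.card = s ∧ Ind x I) ≤
      ∑ I ∈ powersetCard s (univ : Finset (Fin n)), ind (Ind x I) := by
    intro x
    refine le_trans (ind_mono ?_) (ind_exists (powersetCard s (univ : Finset (Fin n))) _)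
    rintro ⟨I, hI, h3⟩
    exact ⟨I, Finset.mem_powersetCard.2 ⟨Finset.subset_univ _, hI⟩, h3⟩
  refine le_trans (Ex_mono h0 h1 h2) ?_
  rw [Ex_sum]
  have h4 : ∀ I ∈ powersetCard s (univ : Finset (Fin n)),
      Ex p (fun x : Cf n => ind (Ind x I)) = (1 - p) ^ (s.choose 2) := by
    intro I hI
    rw [Finset.mem_powersetCard] at hI
    rw [← hI.2, ← card_prs, ← Ex_false]
    rfl
  rw [Finset.sum_congr rfl h4, Finset.sum_const, nsmul_eq_mul, Finset.card_powersetCard,
    Finset.card_univ, Fintype.card_fin]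
  exact mul_le_mul_of_nonneg_right (Nat.choose_le_pow_div s n) (pow_nonneg (by linarith) _)

end Pool.Agent.CHV
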